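import Mathlib
import Pool.Agent.H715R2.General

/-! # Subgroups of the diagonal group given by partitions: invariant and minimal sets -/

open Filter Topology Matrix

namespace Pool.Agent.Y327

open H715R2

variable {d : ℕ}

/-- positive, of product one, constant on the blocks of `π` -/
def BB (π : Fin d → Fin d) (a : Fin d → ℝ) : Prop :=
  (∀ i, 0 < a i) ∧ ∏ i, a i = 1 ∧ ∀ i j, π i = π j → a i = a j

/-- invariance under the block diagonal group and `GL_d(ℤ)` -/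
def InvB (π : Fin d → Fin d) (Y : Set (Matrix (Fin d) (Fin d) ℝ)) : Prop :=
  ∀ h ∈ Y, ∀ (a : Fin d → ℝ) (γ : Matrix (Fin d) (Fin d) ℤ), BB π a → IsUnit γ.det →
    diagonal a * h * zR γ ∈ Y

lemma BB.one (π : Fin d → Fin d) : BB π (fun _ => (1 : ℝ)) :=
  ⟨fun _ => one_pos, by simp, fun _ _ _ => rfl⟩

lemma BB.mul {π : Fin d → Fin d} {a b : Fin d → ℝ} (ha : BB π a) (hb : BB π b) :
    BB π (fun i => a i * b i) :=
  ⟨fun i => mul_pos (ha.1 i) (hb.1 i), by rw [Finset.prod_mul_distrib, ha.2.1, hb.2.1, one_mul],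
    fun i j hij => by simp only [ha.2.2 i j hij, hb.2.2 i j hij]⟩

lemma BB.inv {π : Fin d → Fin d} {a : Fin d → ℝ} (ha : BB π a) : BB π (fun i => (a i)⁻¹) :=
  ⟨fun i => inv_pos.2 (ha.1 i), by rw [Finset.prod_inv_distrib, ha.2.1, inv_one],
    fun i j hij => by simp only [ha.2.2 i j hij]⟩

lemma invB_of_inv {Y : Set (Matrix (Fin d) (Fin d) ℝ)} (hY : H715R2.Inv Y) (π : Fin d → Fin d) :
    InvB π Y := fun h hh a γ ha hγ => hY h hh a γ ha.1 ha.2.1 hγ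

lemma inv_of_invB {Y : Set (Matrix (Fin d) (Fin d) ℝ)} (hY : InvB id Y) : H715R2.Inv Y :=
  fun h hh a γ ha0 ha1 hγ => hY h hh a γ ⟨ha0, ha1, fun i j hij => by rw [show i = j from hij]⟩ hγ

lemma InvB.diag {π : Fin d → Fin d} {Y : Set (Matrix (Fin d) (Fin d) ℝ)} (hY : InvB π Y)
    {h : Matrix (Fin d) (Fin d) ℝ} (hh : h ∈ Y) {a : Fin d → ℝ} (ha : BB π a) :
    diagonal a * h ∈ Y := by
  have := hY h hh a 1 ha (by simp)
  rwa [zR_one, Matrix.mul_one] at this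

lemma InvB.gam {π : Fin d → Fin d} {Y : Set (Matrix (Fin d) (Fin d) ℝ)} (hY : InvB π Y)
    {h : Matrix (Fin d) (Fin d) ℝ} (hh : h ∈ Y) {γ : Matrix (Fin d) (Fin d) ℤ}
    (hγ : IsUnit γ.det) : h * zR γ ∈ Y := by
  have h1 := hY h hh (fun _ => 1) γ (BB.one π) hγ
  have h2 : diagonal (fun _ : Fin d => (1 : ℝ)) = 1 := diagonal_one
  rwa [h2, Matrix.one_mul] at h1

/-- the minimality of a closed invariant set -/
structure MinB (π : Fin d → Fin d) (Q : Set (Matrix (Fin d) (Fin d) ℝ)) : Prop where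
  closed : IsClosed Q
  ne : Q.Nonempty
  inv : InvB π Q
  min : ∀ Z ⊆ Q, IsClosed Z → Z.Nonempty → InvB π Z → Z = Q

theorem exists_minB (hd : 0 < d) (π : Fin d → Fin d) {Y : Set (Matrix (Fin d) (Fin d) ℝ)}
    {V ν : ℝ} (hV : 0 < V) (hν : 0 < ν) (hYc : IsClosed Y) (hYne : Y.Nonempty)
    (hYinv : InvB π Y) (hYdet : ∀ h ∈ Y, |h.det| = V) (hYnu : ∀ h ∈ Y, HasNu h ν) :
    ∃ M : Set (Matrix (Fin d) (Fin d) ℝ), M ⊆ Y ∧ MinB π M := by
  classical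
  obtain ⟨R, hR⟩ := exists_bound hd V ν hV hν
  set 𝒦 : Set (Matrix (Fin d) (Fin d) ℝ) := {h | ∀ i j, |h i j| ≤ R} with h𝒦
  have hcpt : IsCompact 𝒦 := isCompact_box R
  have hmeet : ∀ Z : Set (Matrix (Fin d) (Fin d) ℝ), Z ⊆ Y → Z.Nonempty → InvB π Z →
      (Z ∩ 𝒦).Nonempty := by
    intro Z hZ ⟨h, hh⟩ hinv
    obtain ⟨γ, hγ, hγR⟩ := hR h (hYdet h (hZ hh)) (hYnu h (hZ hh))
    exact ⟨h * zR γ, hinv.gam hh hγ, hγR⟩
  set S : Set (Set (Matrix (Fin d) (Fin d) ℝ)) :=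
    {Z | Z ⊆ Y ∧ IsClosed Z ∧ Z.Nonempty ∧ InvB π Z} with hS
  have hx : Y ∈ S := ⟨subset_rfl, hYc, hYne, hYinv⟩
  obtain ⟨M, hMx, hMin⟩ := zorn_superset_nonempty S (by
    intro c hcS hchain hcne
    refine ⟨⋂₀ c, ⟨?_, ?_, ?_, ?_⟩, fun s hs => Set.sInter_subset_of_mem hs⟩
    · obtain ⟨Z, hZ⟩ := hcne
      exact (Set.sInter_subset_of_mem hZ).trans (hcS hZ).1
    · exact isClosed_sInter fun Z hZ => (hcS hZ).2.1
    · have : Nonempty c := ⟨⟨hcne.some, hcne.some_mem⟩⟩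
      have h1 : (⋂ Z : c, (Z : Set (Matrix (Fin d) (Fin d) ℝ)) ∩ 𝒦).Nonempty := by
        refine IsCompact.nonempty_iInter_of_directed_nonempty_isCompact_isClosed
          (fun Z : c => (Z : Set (Matrix (Fin d) (Fin d) ℝ)) ∩ 𝒦) ?_ ?_ ?_ ?_
        · intro Z W
          rcases hchain.total Z.2 W.2 with h | h
          · exact ⟨Z, subset_rfl, Set.inter_subset_inter_left _ h⟩
          · exact ⟨W, Set.inter_subset_inter_left _ h, subset_rfl⟩
        · intro Z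
          exact hmeet Z (hcS Z.2).1 (hcS Z.2).2.2.1 (hcS Z.2).2.2.2
        · intro Z
          exact hcpt.inter_left (hcS Z.2).2.1
        · intro Z
          exact (hcS Z.2).2.1.inter hcpt.isClosed
      obtain ⟨h, hh⟩ := h1
      rw [Set.mem_iInter] at hh
      exact ⟨h, fun Z hZ => (hh ⟨Z, hZ⟩).1⟩
    · intro h hh a γ ha hγ Z hZ
      exact (hcS hZ).2.2.2 h (hh Z hZ) a γ ha hγ) _ hx
  obtain ⟨hMS, hMmin⟩ := hMin
  refine ⟨M, hMS.1, hMS.2.1, hMS.2.2.1, hMS.2.2.2, fun Z hZ hZc hZn hZi => ?_⟩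
  exact subset_antisymm hZ (hMmin ⟨hZ.trans hMS.1, hZc, hZn, hZi⟩ hZ)

/-- every point of a minimal set returns to an open set in bounded time -/
lemma exists_returnB (hd : 0 < d) {π : Fin d → Fin d} {V ν : ℝ} (hV : 0 < V) (hν : 0 < ν)
    {M : Set (Matrix (Fin d) (Fin d) ℝ)} (hMdet : ∀ h ∈ M, |h.det| = V)
    (hMnu : ∀ h ∈ M, HasNu h ν) (hM : MinB π M)
    {h₀ : Matrix (Fin d) (Fin d) ℝ} (hh₀ : h₀ ∈ M) {U : Set (Matrix (Fin d) (Fin d) ℝ)}
    (hU : IsOpen U) (hh₀U : h₀ ∈ U) :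
    ∃ B : ℝ, 1 ≤ B ∧ ∀ h ∈ M, ∃ (a : Fin d → ℝ) (γ : Matrix (Fin d) (Fin d) ℤ),
      BB π a ∧ IsUnit γ.det ∧ (∀ i, a i ≤ B ∧ B⁻¹ ≤ a i) ∧
      diagonal a * h * zR γ ∈ U := by
  classical
  -- every orbit meets `U`
  have hmeet : ∀ h ∈ M, ∃ (a : Fin d → ℝ) (γ : Matrix (Fin d) (Fin d) ℤ),
      BB π a ∧ IsUnit γ.det ∧ diagonal a * h * zR γ ∈ U := by
    set Y : Set (Matrix (Fin d) (Fin d) ℝ) := {h | h ∈ M ∧ ∀ (a : Fin d → ℝ)
      (γ : Matrix (Fin d) (Fin d) ℤ), BB π a → IsUnit γ.det →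
        diagonal a * h * zR γ ∉ U} with hY
    have hYc : IsClosed Y := by
      have h1 : Y = M ∩ ⋂ (a : Fin d → ℝ), ⋂ (γ : Matrix (Fin d) (Fin d) ℤ),
          ⋂ (_ : BB π a), ⋂ (_ : IsUnit γ.det),
            (fun h : Matrix (Fin d) (Fin d) ℝ => diagonal a * h * zR γ) ⁻¹' Uᶜ := by
        ext h
        simp [hY]
      rw [h1]
      refine hM.closed.inter ?_
      refine isClosed_iInter fun a => isClosed_iInter fun γ => isClosed_iInter fun _ =>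
        isClosed_iInter fun _ => hU.isClosed_compl.preimage ?_
      exact (continuous_const.matrix_mul continuous_id).matrix_mul continuous_const
    have hYi : InvB π Y := by
      intro h hh b δ hb hδ
      refine ⟨hM.inv h hh.1 b δ hb hδ, fun a γ ha hγ => ?_⟩
      have h1 := hh.2 (fun i => a i * b i) (δ * γ) (ha.mul hb) (by rw [det_mul]; exact hδ.mul hγ)
      rw [zR_mul, ← diagonal_mul_diagonal] at h1
      simp only [Matrix.mul_assoc] at h1 ⊢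
      exact h1
    have hYne : ¬ Y.Nonempty := by
      intro hne
      have h1 := hM.min Y (fun h hh => hh.1) hYc hne hYi
      have h2 : h₀ ∈ Y := by rw [h1]; exact hh₀
      have h3 := h2.2 (fun _ => 1) 1 (BB.one π) (by simp)
      have h4 : diagonal (fun _ : Fin d => (1 : ℝ)) = 1 := diagonal_one
      rw [h4, Matrix.one_mul, zR_one, Matrix.mul_one] at h3
      exact h3 hh₀U
    intro h hh
    have h1 : h ∉ Y := fun hhY => hYne ⟨h, hhY⟩
    simp only [hY, Set.mem_ofPred_eq, not_and, not_forall, not_not] at h1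
    obtain ⟨a, γ, ha, hγ, hmem⟩ := h1 hh
    exact ⟨a, γ, ha, hγ, hmem⟩
  obtain ⟨R, hR⟩ := exists_bound hd V ν hV hν
  set 𝒦 : Set (Matrix (Fin d) (Fin d) ℝ) := M ∩ {h | ∀ i j, |h i j| ≤ R} with h𝒦
  have hcpt : IsCompact 𝒦 := (isCompact_box R).inter_left hM.closed
  let O : ℕ → Set (Matrix (Fin d) (Fin d) ℝ) := fun n =>
    ⋃ (a : Fin d → ℝ), ⋃ (γ : Matrix (Fin d) (Fin d) ℤ), ⋃ (_ : BB π a),
      ⋃ (_ : IsUnit γ.det),
      ⋃ (_ : ∀ i, a i ≤ (n + 1 : ℝ) ∧ (n + 1 : ℝ)⁻¹ ≤ a i),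
        (fun h : Matrix (Fin d) (Fin d) ℝ => diagonal a * h * zR γ) ⁻¹' U
  have hmem : ∀ n h, h ∈ O n ↔ ∃ (a : Fin d → ℝ) (γ : Matrix (Fin d) (Fin d) ℤ),
      BB π a ∧ IsUnit γ.det ∧
      (∀ i, a i ≤ (n + 1 : ℝ) ∧ (n + 1 : ℝ)⁻¹ ≤ a i) ∧ diagonal a * h * zR γ ∈ U := by
    intro n h
    simp only [O, Set.mem_iUnion, Set.mem_preimage, exists_prop]
  have hOo : ∀ n, IsOpen (O n) := by
    intro n
    refine isOpen_iUnion fun a => isOpen_iUnion fun γ => isOpen_iUnion fun _ =>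
      isOpen_iUnion fun _ => isOpen_iUnion fun _ => hU.preimage ?_
    exact (continuous_const.matrix_mul continuous_id).matrix_mul continuous_const
  have hOm : Monotone O := by
    intro n n' hn h hh
    rw [hmem] at hh ⊢
    obtain ⟨a, γ, h1, h3, h4, h5⟩ := hh
    have hn' : (n : ℝ) ≤ n' := by exact_mod_cast hn
    have hn0 : (0 : ℝ) ≤ n := Nat.cast_nonneg n
    refine ⟨a, γ, h1, h3, fun i => ⟨(h4 i).1.trans (by linarith), ?_⟩, h5⟩
    exact le_trans (inv_anti₀ (by linarith) (by linarith)) (h4 i).2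
  obtain ⟨n, hn⟩ := hcpt.elim_directed_cover O hOo (by
    intro h hh
    obtain ⟨a, γ, h1, h3, h4⟩ := hmeet h hh.1
    rw [Set.mem_iUnion]
    obtain ⟨n, hn⟩ := exists_nat_ge (∑ i, (a i + (a i)⁻¹))
    refine ⟨n, (hmem n h).2 ⟨a, γ, h1, h3, fun i => ?_, h4⟩⟩
    have h5 : a i + (a i)⁻¹ ≤ n := by
      refine le_trans ?_ hn
      exact Finset.single_le_sum (f := fun i => a i + (a i)⁻¹)
        (fun i _ => (add_pos (h1.1 i) (inv_pos.2 (h1.1 i))).le) (Finset.mem_univ i)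
    have h6 := h1.1 i
    have h7 := inv_pos.2 (h1.1 i)
    refine ⟨by linarith, ?_⟩
    rw [inv_le_comm₀ (by linarith) h6]
    linarith) hOm.directed_le
  have hn0 : (0 : ℝ) ≤ n := Nat.cast_nonneg n
  refine ⟨n + 1, by linarith, fun h hh => ?_⟩
  obtain ⟨γ₀, hγ₀, hγ₀R⟩ := hR h (hMdet h hh) (hMnu h hh)
  have h1 : h * zR γ₀ ∈ 𝒦 := ⟨hM.inv.gam hh hγ₀, hγ₀R⟩
  obtain ⟨a, γ, h2, h4, h5, h6⟩ := (hmem n _).1 (hn h1)
  refine ⟨a, γ₀ * γ, h2, ?_, h5, ?_⟩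
  · rw [det_mul]; exact hγ₀.mul h4
  · rw [zR_mul]
    simp only [Matrix.mul_assoc] at h6 ⊢
    exact h6

/-- limits of pairs -/
lemma limit_pair (hd : 0 < d) {π : Fin d → Fin d} {V ν : ℝ} (hV : 0 < V) (hν : 0 < ν)
    {M : Set (Matrix (Fin d) (Fin d) ℝ)} (hMdet : ∀ h ∈ M, |h.det| = V)
    (hMnu : ∀ h ∈ M, HasNu h ν) (hMc : IsClosed M) (hMinv : InvB π M)
    {h q : ℕ → Matrix (Fin d) (Fin d) ℝ} {b : ℕ → Fin d → ℝ} (hh : ∀ n, h n ∈ M)
    (hq : ∀ n, q n * h n ∈ M) (hb : ∀ n, BB π (b n)) {q' : Matrix (Fin d) (Fin d) ℝ}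
    (hlim : Tendsto (fun n => diagonal (b n) * q n * diagonal (fun i => (b n i)⁻¹)) atTop
      (𝓝 q')) :
    ∃ h' ∈ M, q' * h' ∈ M := by
  obtain ⟨R, hR⟩ := exists_bound hd V ν hV hν
  have hγ : ∀ n, ∃ γ : Matrix (Fin d) (Fin d) ℤ, IsUnit γ.det ∧
      ∀ i j, |(diagonal (b n) * h n * zR γ) i j| ≤ R := by
    intro n
    have h1 : diagonal (b n) * h n ∈ M := hMinv.diag (hh n) (hb n)
    exact hR _ (hMdet _ h1) (hMnu _ h1)
  choose γ hγu hγR using hγ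
  obtain ⟨h', -, φ, hφ, hlim'⟩ := (isCompact_box (d := d) R).tendsto_subseq hγR
  refine ⟨h', hMc.mem_of_tendsto hlim' (Eventually.of_forall fun n =>
    hMinv _ (hh _) _ _ (hb _) (hγu _)), ?_⟩
  have h1 := (hlim.comp hφ.tendsto_atTop).mul hlim'
  refine hMc.mem_of_tendsto h1 (Eventually.of_forall fun n => ?_)
  have h2 := hMinv _ (hq (φ n)) _ _ (hb (φ n)) (hγu (φ n))
  have h3 : (diagonal (b (φ n)) * q (φ n) * diagonal (fun i => (b (φ n) i)⁻¹)) *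
      (diagonal (b (φ n)) * h (φ n) * zR (γ (φ n)))
      = diagonal (b (φ n)) * (q (φ n) * h (φ n)) * zR (γ (φ n)) := by
    have h4 : (diagonal (fun i => (b (φ n) i)⁻¹) : Matrix (Fin d) (Fin d) ℝ) *
        diagonal (b (φ n)) = 1 := by
      rw [diagonal_mul_diagonal]
      have : (fun i => (b (φ n) i)⁻¹ * b (φ n) i) = fun _ => (1 : ℝ) := by
        funext i
        exact inv_mul_cancel₀ ((hb (φ n)).1 i).ne'
      rw [this, diagonal_one]
    calc _ = diagonal (b (φ n)) * q (φ n) * (diagonal (fun i => (b (φ n) i)⁻¹) *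
        diagonal (b (φ n))) * h (φ n) * zR (γ (φ n)) := by simp only [Matrix.mul_assoc]
      _ = _ := by rw [h4, Matrix.mul_one]; simp only [Matrix.mul_assoc]
  simp only [Function.comp]
  rw [h3]
  exact h2

end Pool.Agent.Y327
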