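import Mathlib
import Pool.Agent.H715R2.General

/-! # Real spans of integer vectors on which two ratios of linear forms are constant -/

open Matrix

namespace Pool.Agent.Y327.RatSpan

open H715R2

variable {d : ℕ}

/-- rational vectors as real vectors -/
def cR (q : Fin d → ℚ) : Fin d → ℝ := fun j => ((q j : ℚ) : ℝ)

lemma cR_add (p q : Fin d → ℚ) : cR (p + q) = cR p + cR q := by
  funext j; simp [cR]

lemma cR_smul (c : ℚ) (q : Fin d → ℚ) : cR (c • q) = (c : ℝ) • cR q := by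
  funext j; simp [cR]

/-- integer vectors as rational vectors -/
def iQ (x : Fin d → ℤ) : Fin d → ℚ := fun j => (x j : ℚ)

lemma cR_iQ (x : Fin d → ℤ) : cR (iQ x) = iR x := by
  funext j; simp [cR, iQ, iR]

lemma finrank_le (S : Set (Fin d → ℤ)) :
    Module.finrank ℝ (Submodule.span ℝ (iR '' S)) ≤
      Module.finrank ℚ (Submodule.span ℚ (iQ '' S)) := by
  classical
  set E := Submodule.span ℚ (iQ '' S) with hE
  set b := Module.finBasis ℚ E with hb
  have hmem : ∀ q ∈ E, cR q ∈ Submodule.span ℝ (Set.range fun s => cR (b s : Fin d → ℚ)) := by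
    intro q hq
    have h1 : (⟨q, hq⟩ : E) = ∑ s, b.repr ⟨q, hq⟩ s • b s := (b.sum_repr _).symm
    have h2 : q = ∑ s, b.repr ⟨q, hq⟩ s • (b s : Fin d → ℚ) := by
      have h4 := congrArg Subtype.val h1
      rw [Submodule.coe_sum] at h4
      exact h4
    have h3 : cR q = ∑ s, ((b.repr ⟨q, hq⟩ s : ℚ) : ℝ) • cR (b s : Fin d → ℚ) := by
      conv_lhs => rw [h2]
      funext j
      simp only [cR, Finset.sum_apply, Pi.smul_apply, smul_eq_mul]
      push_cast
      rfl
    rw [h3]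
    exact Submodule.sum_mem _ fun s _ => Submodule.smul_mem _ _ (Submodule.subset_span ⟨s, rfl⟩)
  have hle : Submodule.span ℝ (iR '' S) ≤
      Submodule.span ℝ (Set.range fun s => cR (b s : Fin d → ℚ)) := by
    rw [Submodule.span_le]
    rintro _ ⟨x, hx, rfl⟩
    rw [← cR_iQ]
    exact hmem _ (Submodule.subset_span ⟨x, hx, rfl⟩)
  refine (Submodule.finrank_mono hle).trans ?_
  refine (finrank_range_le_card (R := ℝ) fun s => cR (b s : Fin d → ℚ)).trans ?_
  simp

lemma rat_of_int {p : Fin d → ℝ} (hp : ∀ m : Fin d → ℤ, p ⬝ᵥ iR m = 0 → m = 0)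
    (q : Fin d → ℚ) (hq : p ⬝ᵥ cR q = 0) : q = 0 := by
  classical
  set N : ℕ := ∏ j, (q j).den with hN
  have hN0 : N ≠ 0 := Finset.prod_ne_zero_iff.2 fun j _ => (q j).den_nz
  have hdiv : ∀ j, ∃ z : ℤ, ((N : ℚ)) * q j = z := by
    intro j
    obtain ⟨k, hk⟩ := Finset.dvd_prod_of_mem (fun j => (q j).den) (Finset.mem_univ j)
    refine ⟨k * (q j).num, ?_⟩
    have h1 : (q j) * ((q j).den : ℚ) = (q j).num := Rat.mul_den_eq_num _
    rw [hN, hk]
    push_cast
    rw [← h1]
    ring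
  choose z hz using hdiv
  have h1 := hp z (by
    have h2 : iR z = (N : ℝ) • cR q := by
      funext j
      have h3 := congrArg (fun q : ℚ => (q : ℝ)) (hz j)
      push_cast at h3
      simp only [iR, cR, Pi.smul_apply, smul_eq_mul]
      rw [← h3]
    rw [h2, dotProduct_smul, hq, smul_zero])
  funext j
  have h2 := hz j
  rw [congrFun h1 j] at h2
  simp only [Pi.zero_apply, Int.cast_zero] at h2
  exact (mul_eq_zero.1 h2).resolve_left (by exact_mod_cast hN0)

/-- Two different values of a ratio of linear forms are taken on rational subspaces with sum of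
dimensions at most `d`. -/
theorem finrank_add_le {l m : Fin d → ℝ} (hl : ∀ x : Fin d → ℤ, l ⬝ᵥ iR x = 0 → x = 0)
    {ρ ρ' : ℝ} (hρ : ρ ≠ ρ') (S S' : Set (Fin d → ℤ))
    (hS : ∀ x ∈ S, m ⬝ᵥ iR x = ρ * (l ⬝ᵥ iR x)) (hS' : ∀ x ∈ S', m ⬝ᵥ iR x = ρ' * (l ⬝ᵥ iR x)) :
    Module.finrank ℝ (Submodule.span ℝ (iR '' S)) +
      Module.finrank ℝ (Submodule.span ℝ (iR '' S')) ≤ d := by
  classical
  have key : ∀ (ρ : ℝ) (S : Set (Fin d → ℤ)), (∀ x ∈ S, m ⬝ᵥ iR x = ρ * (l ⬝ᵥ iR x)) →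
      ∀ q ∈ Submodule.span ℚ (iQ '' S), m ⬝ᵥ cR q = ρ * (l ⬝ᵥ cR q) := by
    intro ρ S hS q hq
    induction hq using Submodule.span_induction with
    | mem q hq =>
      obtain ⟨x, hx, rfl⟩ := hq
      rw [cR_iQ]
      exact hS x hx
    | zero =>
      have : cR (0 : Fin d → ℚ) = 0 := by funext j; simp [cR]
      rw [this, dotProduct_zero, dotProduct_zero, mul_zero]
    | add p q _ _ hp hq => rw [cR_add, dotProduct_add, dotProduct_add, hp, hq]; ring
    | smul c q _ hq => rw [cR_smul, dotProduct_smul, dotProduct_smul, hq, smul_eq_mul, smul_eq_mul]; ring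
  have hinf : Submodule.span ℚ (iQ '' S) ⊓ Submodule.span ℚ (iQ '' S') = ⊥ := by
    rw [eq_bot_iff]
    intro q hq
    have h1 := key ρ S hS q hq.1
    have h2 := key ρ' S' hS' q hq.2
    rw [h1] at h2
    have h3 : (ρ - ρ') * (l ⬝ᵥ cR q) = 0 := by rw [sub_mul, h2, sub_self]
    have h4 := (mul_eq_zero.1 h3).resolve_left (sub_ne_zero.2 hρ)
    exact (Submodule.mem_bot ℚ).2 (rat_of_int hl q h4)
  have h1 := Submodule.finrank_sup_add_finrank_inf_eq (Submodule.span ℚ (iQ '' S))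
    (Submodule.span ℚ (iQ '' S'))
  rw [hinf, finrank_bot, add_zero] at h1
  have h2 : Module.finrank ℚ
      ((Submodule.span ℚ (iQ '' S) ⊔ Submodule.span ℚ (iQ '' S') : Submodule ℚ (Fin d → ℚ))) ≤ d := by
    have := Submodule.finrank_le (Submodule.span ℚ (iQ '' S) ⊔ Submodule.span ℚ (iQ '' S'))
    rwa [Module.finrank_fin_fun] at this
  have h3 := finrank_le S
  have h4 := finrank_le S'
  omega

end Pool.Agent.Y327.RatSpan
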