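import Mathlib
import Pool.Agent.Y327.Basic
import Pool.Agent.Y327.RatSpan

/-! # The dual forms do not vanish at nonzero integer points -/

open Filter Topology Matrix

namespace Pool.Agent.Y327

open H715R2

variable {d : ℕ}

lemma vecMul_cast (r : Fin d → ℤ) (γ : Matrix (Fin d) (Fin d) ℤ) (j : Fin d) :
    ((r ᵥ* γ) j : ℝ) = (iR r ᵥ* zR γ) j := by
  simp only [Matrix.vecMul, dotProduct, iR, zR, Matrix.map_apply]
  push_cast
  rfl

lemma dual_ne (hd : 2 ≤ d) {V ν : ℝ} (hV : 0 < V) (hν : 0 < ν) {h : Matrix (Fin d) (Fin d) ℝ}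
    (hdet : |h.det| = V) (hnu : HasNu h ν) (i : Fin d) (r : Fin d → ℤ)
    (hr : (iR r ᵥ* h⁻¹) i = 0) : r = 0 := by
  classical
  have hd0 : 0 < d := by omega
  obtain ⟨R, hR⟩ := exists_bound hd0 V ν hV hν
  have hdet0 : h.det ≠ 0 := by
    intro h0
    rw [h0, abs_zero] at hdet
    exact hV.ne hdet
  set y : Fin d → ℝ := iR r ᵥ* h⁻¹ with hy
  have hyh : y ᵥ* h = iR r := by
    rw [hy, Matrix.vecMul_vecMul, Matrix.nonsing_inv_mul _ (isUnit_iff_ne_zero.2 hdet0),
      Matrix.vecMul_one]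
  set A : ℝ := (∑ l, |y l|) * |R| with hA
  have hA0 : 0 ≤ A := mul_nonneg (Finset.sum_nonneg fun _ _ => abs_nonneg _) (abs_nonneg _)
  set t : ℝ := A + 1 with ht
  have ht0 : 0 < t := by linarith
  set b : Fin d → ℝ := fun l => if l = i then (t ^ (d - 1))⁻¹ else t with hb
  have hb0 : ∀ l, 0 < b l := by
    intro l
    simp only [hb]
    split_ifs
    · positivity
    · exact ht0
  have hb1 : ∏ l, b l = 1 := by
    rw [← Finset.mul_prod_erase _ _ (Finset.mem_univ i)]
    have h1 : b i = (t ^ (d - 1))⁻¹ := by simp [hb]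
    have h2 : ∏ l ∈ Finset.univ.erase i, b l = t ^ (d - 1) := by
      rw [Finset.prod_congr rfl (fun l hl => by
        simp only [hb]; rw [if_neg (Finset.ne_of_mem_erase hl)]), Finset.prod_const,
        Finset.card_erase_of_mem (Finset.mem_univ i), Finset.card_univ, Fintype.card_fin]
    rw [h1, h2]
    exact inv_mul_cancel₀ (pow_pos ht0 _).ne'
  have hbdet : |(diagonal b * h).det| = V := by
    rw [det_mul, det_diagonal, hb1, one_mul]; exact hdet
  have hbnu : HasNu (diagonal b * h) ν := by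
    intro m hm
    rw [FF_diag_mul, hb1, one_mul]
    exact hnu m hm
  obtain ⟨γ, hγ, hγR⟩ := hR _ hbdet hbnu
  have hrγ : ∀ j, |((r ᵥ* γ) j : ℝ)| < 1 := by
    intro j
    have h1 : ((r ᵥ* γ) j : ℝ) = ∑ l, y l / b l * (diagonal b * h * zR γ) l j := by
      have h2 : (iR r ᵥ* zR γ) j = (y ᵥ* (h * zR γ)) j := by
        rw [← Matrix.vecMul_vecMul, hyh]
      rw [vecMul_cast, h2]
      show ∑ l, y l * (h * zR γ) l j = _
      refine Finset.sum_congr rfl fun l _ => ?_
      rw [Matrix.mul_assoc (diagonal b), Matrix.diagonal_mul]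
      have h3 := (hb0 l).ne'
      rw [div_mul_eq_mul_div, mul_left_comm, mul_div_cancel_left₀ _ h3]
    rw [h1]
    refine (Finset.abs_sum_le_sum_abs _ _).trans_lt ?_
    have h2 : ∀ l ∈ (Finset.univ : Finset (Fin d)),
        |y l / b l * (diagonal b * h * zR γ) l j| ≤ |y l| * |R| / t := by
      intro l _
      have hnn : 0 ≤ |y l| * |R| / t :=
        div_nonneg (mul_nonneg (abs_nonneg _) (abs_nonneg _)) ht0.le
      by_cases hl : l = i
      · have hyl : y l = 0 := by rw [hl]; exact hr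
        rw [hyl, abs_zero] at hnn
        rw [hyl, zero_div, zero_mul, abs_zero]
        exact hnn
      · have h3 : b l = t := by simp only [hb]; rw [if_neg hl]
        have h4 := (hγR l j).trans (le_abs_self R)
        rw [h3, abs_mul, abs_div, abs_of_pos ht0, div_mul_eq_mul_div]
        exact div_le_div_of_nonneg_right (mul_le_mul_of_nonneg_left h4 (abs_nonneg _)) ht0.le
    refine (Finset.sum_le_sum h2).trans_lt ?_
    rw [← Finset.sum_div, ← Finset.sum_mul, ← hA, div_lt_one ht0]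
    linarith
  have hrγ0 : r ᵥ* γ = 0 := by
    funext j
    have h1 : |(r ᵥ* γ) j| < 1 := by exact_mod_cast hrγ j
    exact Int.abs_lt_one_iff.1 h1
  have h1 : (r ᵥ* γ) ᵥ* γ⁻¹ = 0 := by rw [hrγ0, Matrix.zero_vecMul]
  rwa [Matrix.vecMul_vecMul, Matrix.mul_nonsing_inv _ hγ, Matrix.vecMul_one] at h1

/-- the rational version -/
lemma dual_ne_rat (hd : 2 ≤ d) {V ν : ℝ} (hV : 0 < V) (hν : 0 < ν) {h : Matrix (Fin d) (Fin d) ℝ}
    (hdet : |h.det| = V) (hnu : HasNu h ν) (i : Fin d) (r : Fin d → ℚ)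
    (hr : (RatSpan.cR r ᵥ* h⁻¹) i = 0) : r = 0 := by
  refine RatSpan.rat_of_int (p := fun j => h⁻¹ j i) (fun m hm => ?_) r ?_
  · refine dual_ne hd hV hν hdet hnu i m ?_
    rw [← hm, dotProduct_comm]
    rfl
  · rw [← hr, dotProduct_comm]
    rfl

/-- the rational version for the forms themselves -/
lemma row_ne_rat {ν : ℝ} (hν : 0 < ν) {h : Matrix (Fin d) (Fin d) ℝ} (hnu : HasNu h ν) (i : Fin d)
    (r : Fin d → ℚ) (hr : (h *ᵥ RatSpan.cR r) i = 0) : r = 0 := by
  refine RatSpan.rat_of_int (p := h i) (fun m hm => ?_) r hr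
  by_contra hm0
  have h1 := hnu m hm0
  have h2 : (h *ᵥ iR m) i = 0 := hm
  rw [FF_eq, Finset.prod_eq_zero (Finset.mem_univ i) h2, abs_zero] at h1
  exact absurd h1 (not_le.2 hν)

end Pool.Agent.Y327
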