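import Mathlib

/-! # Algebras acting irreducibly, and block sizes -/

namespace Pool.Agent.Y327.RingLem

/-- the trace of an idempotent matrix is a natural number -/
lemma trace_idem {F : Type*} [Field F] {n : Type*} [Fintype n] [DecidableEq n]
    (N : Matrix n n F) (hN : N * N = N) : ∃ k : ℕ, N.trace = k := by
  have h1 : LinearMap.IsProj (LinearMap.range (Matrix.toLin' N)) (Matrix.toLin' N) := by
    refine ⟨fun x => ⟨x, rfl⟩, ?_⟩
    rintro _ ⟨y, rfl⟩
    rw [← LinearMap.comp_apply, ← Matrix.toLin'_mul, hN]
  have h2 := h1.trace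
  rw [Matrix.trace_toLin'_eq] at h2
  exact ⟨_, h2⟩

/-- matrix units of size `s` in a matrix ring of size `n` over a field of characteristic zero -/
lemma dvd_of_units {F : Type*} [Field F] [CharZero F] {n : Type*} [Fintype n] [DecidableEq n]
    {ι : Type*} [Fintype ι] [DecidableEq ι] (E : ι → ι → Matrix n n F)
    (hE : ∀ a b c e, E a b * E c e = if b = c then E a e else 0) (h1 : ∑ a, E a a = 1) :
    Fintype.card ι ∣ Fintype.card n := by
  have htr : ∀ a b, (E a a).trace = (E b b).trace := by
    intro a b
    have h2 : E a a = E a b * E b a := by rw [hE, if_pos rfl]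
    have h3 : E b b = E b a * E a b := by rw [hE, if_pos rfl]
    rw [h2, h3, Matrix.trace_mul_comm]
  rcases isEmpty_or_nonempty ι with he | ⟨⟨a₀⟩⟩
  · have h2 : (1 : Matrix n n F) = 0 := by rw [← h1]; simp
    have h3 : IsEmpty n := by
      by_contra hne
      rw [not_isEmpty_iff] at hne
      obtain ⟨x⟩ := hne
      have := congrFun (congrFun h2 x) x
      simp at this
    simp
  · obtain ⟨k, hk⟩ := trace_idem (E a₀ a₀) (by rw [hE, if_pos rfl])
    have h2 : ((Fintype.card n : ℕ) : F) = ((Fintype.card ι * k : ℕ) : F) := by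
      rw [← Matrix.trace_one (n := n) (R := F), ← h1, Matrix.trace_sum,
        Finset.sum_congr rfl (fun a _ => (htr a a₀).trans hk)]
      simp
    have h3 : Fintype.card n = Fintype.card ι * k := by exact_mod_cast h2
    exact ⟨k, h3⟩

/-- **Commutativity.** An algebra of rational matrices acting irreducibly with commutative
centraliser, which also acts on a real space of dimension prime to `d`, is commutative. -/
theorem comm_of_coprime {V : Type*} [AddCommGroup V] [Module ℚ V] [FiniteDimensional ℚ V]
    (𝒜 : Subalgebra ℚ (Module.End ℚ V)) [hs : IsSimpleModule 𝒜 V]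
    (hD : ∀ N N' : Module.End 𝒜 V, N * N' = N' * N)
    {n m : Type*} [Fintype n] [DecidableEq n] [Fintype m] [DecidableEq m]
    (φ : 𝒜 →+* Matrix n n ℚ) (ψ : 𝒜 →+* Matrix m m ℝ)
    (hco : Nat.Coprime (Fintype.card m) (Fintype.card n)) (x y : 𝒜) : x * y = y * x := by
  classical
  let _ : DivisionRing (Module.End 𝒜 V) := inferInstance
  have hfin : Module.Finite (Module.End 𝒜 V) V := by
    obtain ⟨s, hs⟩ := (inferInstance : Module.Finite ℚ V).fg_top
    refine ⟨⟨s, ?_⟩⟩
    rw [eq_top_iff]
    intro v _
    have hv : v ∈ Submodule.span ℚ (s : Set V) := by rw [hs]; trivial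
    induction hv using Submodule.span_induction with
    | mem v hv => exact Submodule.subset_span hv
    | zero => exact Submodule.zero_mem _
    | add u v _ _ hu hv => exact Submodule.add_mem _ (hu trivial) (hv trivial)
    | smul c v _ hv =>
      have h1 : c • v = (algebraMap ℚ (Module.End 𝒜 V) c) • v := rfl
      rw [h1]
      exact Submodule.smul_mem _ _ (hv trivial)
  set b := Module.finBasis (Module.End 𝒜 V) V with hb
  have hsurj := Module.Finite.toModuleEnd_moduleEnd_surjective (R := 𝒜) (M := V)
  set s := Module.finrank (Module.End 𝒜 V) V with hs'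
  -- matrix units
  have hu : ∀ i j : Fin s, ∃ r : 𝒜, ∀ v : V, r • v = (b.repr v j) • b i := by
    intro i j
    obtain ⟨r, hr⟩ := hsurj ((LinearMap.toSpanSingleton (Module.End 𝒜 V) V (b i)).comp (b.coord j))
    refine ⟨r, fun v => ?_⟩
    have := LinearMap.congr_fun hr v
    simpa using this
  choose E hE using hu
  have hfaith : ∀ r r' : 𝒜, (∀ v : V, r • v = r' • v) → r = r' := by
    intro r r' h
    apply Subtype.ext
    exact LinearMap.ext h
  have hmul : ∀ a c e f, E a c * E e f = if c = e then E a f else 0 := by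
    intro a c e f
    apply hfaith
    intro v
    rw [mul_smul, hE, hE]
    by_cases hce : c = e
    · subst hce
      rw [if_pos rfl, hE, map_smul, Finsupp.smul_apply, Module.Basis.repr_self,
        Finsupp.single_eq_same, smul_eq_mul, mul_one]
    · rw [if_neg hce, map_smul, Finsupp.smul_apply, Module.Basis.repr_self,
        Finsupp.single_eq_of_ne hce, smul_zero, zero_smul, zero_smul]
  have hsum : ∑ a, E a a = 1 := by
    apply hfaith
    intro v
    rw [Finset.sum_smul, one_smul]
    simp only [hE]
    exact b.sum_repr v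
  have hdvd1 : s ∣ Fintype.card n := by
    have := dvd_of_units (fun a c => φ (E a c)) (fun a c e f => by
      rw [← map_mul, hmul]
      split_ifs
      · rfl
      · exact map_zero φ) (by rw [← map_sum, hsum, map_one])
    rwa [Fintype.card_fin] at this
  have hdvd2 : s ∣ Fintype.card m := by
    have := dvd_of_units (fun a c => ψ (E a c)) (fun a c e f => by
      rw [← map_mul, hmul]
      split_ifs
      · rfl
      · exact map_zero ψ) (by rw [← map_sum, hsum, map_one])
    rwa [Fintype.card_fin] at this
  have hs1 : s = 1 := Nat.eq_one_of_dvd_coprimes hco hdvd2 hdvd1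
  -- a generator
  set i₀ : Fin s := ⟨0, by omega⟩ with hi₀
  have hgen : ∀ v : V, ∃ δ : Module.End 𝒜 V, v = δ • b i₀ := by
    intro v
    refine ⟨b.repr v i₀, ?_⟩
    have h1 := b.sum_repr v
    have h2 : ∀ i : Fin s, i = i₀ := by
      intro i
      apply Fin.ext
      have := i.2
      simp only [hi₀]
      omega
    have h3 : (Finset.univ : Finset (Fin s)) = {i₀} := by
      ext i
      simp [h2 i]
    rw [h3, Finset.sum_singleton] at h1
    exact h1.symm
  obtain ⟨α, hα⟩ := hgen (x • b i₀)
  obtain ⟨β, hβ⟩ := hgen (y • b i₀)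
  have hlin : ∀ (δ : Module.End 𝒜 V) (r : 𝒜) (v : V), δ • (r • v) = r • (δ • v) := fun δ r v =>
    map_smul δ r v
  apply hfaith
  intro v
  obtain ⟨δ, rfl⟩ := hgen v
  rw [mul_smul, mul_smul, ← hlin, ← hlin, ← hlin, ← hlin, hβ, hα, ← hlin, ← hlin, hα, hβ,
    ← mul_smul β α, ← mul_smul α β, hD α β]

end Pool.Agent.Y327.RingLem
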