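import Mathlib

/-! # A joint eigenvector of integer matrices is algebraic -/

open Matrix

namespace Pool.Agent.Y327

variable {d : ℕ}

/-- the field of the eigenvalues of rational matrices with left eigenvector `p` -/
noncomputable def KF (p : Fin d → ℝ)
    (hp : ∀ m : Fin d → ℚ, p ⬝ᵥ (fun j => ((m j : ℚ) : ℝ)) = 0 → m = 0) :
    IntermediateField ℚ ℝ where
  carrier := {x | ∃ n : Matrix (Fin d) (Fin d) ℚ, p ᵥ* n.map (algebraMap ℚ ℝ) = x • p}
  mul_mem' := by
    rintro x y ⟨n, hn⟩ ⟨m, hm⟩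
    refine ⟨n * m, ?_⟩
    rw [Matrix.map_mul, ← Matrix.vecMul_vecMul, hn, Matrix.smul_vecMul, hm, smul_smul]
  one_mem' := ⟨1, by simp⟩
  add_mem' := by
    rintro x y ⟨n, hn⟩ ⟨m, hm⟩
    refine ⟨n + m, ?_⟩
    rw [Matrix.map_add _ (fun a b => map_add _ a b), Matrix.vecMul_add, hn, hm, add_smul]
  zero_mem' := ⟨0, by simp⟩
  algebraMap_mem' := by
    intro q
    refine ⟨q • 1, ?_⟩
    have h1 : (q • (1 : Matrix (Fin d) (Fin d) ℚ)).map (algebraMap ℚ ℝ)
        = (algebraMap ℚ ℝ q) • (1 : Matrix (Fin d) (Fin d) ℝ) := by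
      ext i j
      by_cases hij : i = j
      · subst hij; simp
      · simp [Matrix.map_apply, Matrix.smul_apply, Matrix.one_apply_ne hij]
    rw [h1, Matrix.vecMul_smul, Matrix.vecMul_one]
  inv_mem' := by
    rintro x ⟨n, hn⟩
    by_cases hx : x = 0
    · exact ⟨0, by simp [hx]⟩
    have hdet : n.det ≠ 0 := by
      intro h0
      obtain ⟨v, hv0, hv⟩ := Matrix.exists_mulVec_eq_zero_iff.2 h0
      apply hv0
      apply hp
      have h1 : (p ᵥ* n.map (algebraMap ℚ ℝ)) ⬝ᵥ (fun j => ((v j : ℚ) : ℝ)) = 0 := by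
        rw [← Matrix.dotProduct_mulVec]
        have h2 : (n.map (algebraMap ℚ ℝ)) *ᵥ (fun j => ((v j : ℚ) : ℝ)) = 0 := by
          funext i
          have h3 := congrFun hv i
          simp only [Matrix.mulVec, dotProduct, Matrix.map_apply, Pi.zero_apply] at h3 ⊢
          have h4 : (((∑ j, n i j * v j : ℚ)) : ℝ) = 0 := by rw [h3]; simp
          rw [← h4]
          push_cast
          rfl
        rw [h2, dotProduct_zero]
      rw [hn, smul_dotProduct, smul_eq_mul] at h1
      exact (mul_eq_zero.1 h1).resolve_left hx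
    refine ⟨n⁻¹, ?_⟩
    have h1 : n * n⁻¹ = 1 := Matrix.mul_nonsing_inv _ (isUnit_iff_ne_zero.2 hdet)
    have h2 : n.map (algebraMap ℚ ℝ) * (n⁻¹).map (algebraMap ℚ ℝ) = 1 := by
      rw [← Matrix.map_mul, h1]
      simp
    have h3 : p = x • (p ᵥ* (n⁻¹).map (algebraMap ℚ ℝ)) := by
      rw [← Matrix.smul_vecMul, ← hn, Matrix.vecMul_vecMul, h2, Matrix.vecMul_one]
    have h4 : x⁻¹ • p = x⁻¹ • (x • (p ᵥ* (n⁻¹).map (algebraMap ℚ ℝ))) := by rw [← h3]
    rw [h4, smul_smul, inv_mul_cancel₀ hx, one_smul]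

lemma mem_KF {p : Fin d → ℝ}
    {hp : ∀ m : Fin d → ℚ, p ⬝ᵥ (fun j => ((m j : ℚ) : ℝ)) = 0 → m = 0} {x : ℝ} :
    x ∈ KF p hp ↔ ∃ n : Matrix (Fin d) (Fin d) ℚ, p ᵥ* n.map (algebraMap ℚ ℝ) = x • p := Iff.rfl

lemma KF_finite (hd : 0 < d) (p : Fin d → ℝ)
    (hp : ∀ m : Fin d → ℚ, p ⬝ᵥ (fun j => ((m j : ℚ) : ℝ)) = 0 → m = 0) :
    FiniteDimensional ℚ (KF p hp) ∧ Module.finrank ℚ (KF p hp) ≤ d := by
  classical
  set j₀ : Fin d := ⟨0, hd⟩
  have hj₀ : p j₀ ≠ 0 := by
    intro h0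
    have h1 := hp (Pi.single j₀ 1) (by
      have : (fun j => (((Pi.single j₀ (1 : ℚ) : Fin d → ℚ) j : ℚ) : ℝ))
          = (Pi.single j₀ (1 : ℝ) : Fin d → ℝ) := by
        funext j
        by_cases hj : j = j₀
        · subst hj; simp
        · simp [hj]
      rw [this, dotProduct_single, h0, zero_mul])
    have h2 := congrFun h1 j₀
    simp at h2
  set W : Submodule ℚ ℝ := Submodule.span ℚ (Set.range p) with hW
  have hWfin : FiniteDimensional ℚ W := FiniteDimensional.span_of_finite ℚ (Set.finite_range p)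
  let f : (KF p hp) →ₗ[ℚ] W :=
    { toFun := fun x => ⟨(x : ℝ) * p j₀, by
        obtain ⟨n, hn⟩ := mem_KF.1 x.2
        have h1 := congrFun hn j₀
        rw [Pi.smul_apply, smul_eq_mul] at h1
        rw [← h1]
        have h3 : (p ᵥ* n.map (algebraMap ℚ ℝ)) j₀ = ∑ j, (n j j₀) • p j := by
          simp only [Matrix.vecMul, dotProduct]
          refine Finset.sum_congr rfl fun j _ => ?_
          rw [Matrix.map_apply, Algebra.smul_def, mul_comm]
        rw [h3]
        exact Submodule.sum_mem _ fun j _ =>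
          Submodule.smul_mem _ _ (Submodule.subset_span ⟨j, rfl⟩)⟩
      map_add' := fun x y => by
        apply Subtype.ext
        simp [add_mul]
      map_smul' := fun q x => by
        apply Subtype.ext
        simp [Algebra.smul_def, mul_assoc] }
  have hf : Function.Injective f := by
    intro x y hxy
    have h1 : (x : ℝ) * p j₀ = (y : ℝ) * p j₀ := congrArg Subtype.val hxy
    exact Subtype.ext (mul_right_cancel₀ hj₀ h1)
  have hfin : FiniteDimensional ℚ (KF p hp) := Module.Finite.of_injective f hf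
  refine ⟨hfin, (LinearMap.finrank_le_finrank_of_injective hf).trans ?_⟩
  refine (finrank_span_le_card (R := ℚ) (Set.range p)).trans ?_
  rw [Set.toFinset_range]
  exact Finset.card_image_le.trans (by simp)

/-- **Algebraicity.** If the joint eigenspace of a set of integer matrices which contains `p` is a
line, then `p` is algebraic of degree at most `d`. -/
theorem alg_of_line (hd : 0 < d) (p : Fin d → ℝ)
    (hp : ∀ m : Fin d → ℤ, p ⬝ᵥ (fun j => (m j : ℝ)) = 0 → m = 0)
    (S : Set (Matrix (Fin d) (Fin d) ℤ))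
    (hline : ∀ p' : Fin d → ℝ, (∀ σ ∈ S, ∀ χ : ℝ, p ᵥ* σ.map (Int.cast : ℤ → ℝ) = χ • p →
      p' ᵥ* σ.map (Int.cast : ℤ → ℝ) = χ • p') → ∃ c : ℝ, p' = c • p) :
    ∃ K : IntermediateField ℚ ℝ, FiniteDimensional ℚ K ∧ Module.finrank ℚ K ≤ d ∧
      ∃ s : ℝ, s ≠ 0 ∧ ∀ j, s * p j ∈ K := by
  classical
  have hpQ : ∀ m : Fin d → ℚ, p ⬝ᵥ (fun j => ((m j : ℚ) : ℝ)) = 0 → m = 0 := by
    intro m hm
    set N : ℕ := ∏ j, (m j).den with hN
    have hN0 : N ≠ 0 := Finset.prod_ne_zero_iff.2 fun j _ => (m j).den_nz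
    have hdiv : ∀ j, ∃ z : ℤ, ((N : ℚ)) * m j = z := by
      intro j
      obtain ⟨k, hk⟩ := Finset.dvd_prod_of_mem (fun j => (m j).den) (Finset.mem_univ j)
      refine ⟨k * (m j).num, ?_⟩
      have h1 : (m j) * ((m j).den : ℚ) = (m j).num := Rat.mul_den_eq_num _
      rw [hN, hk]
      push_cast
      rw [← h1]
      ring
    choose z hz using hdiv
    have h1 := hp z (by
      have h2 : (fun j => ((z j : ℤ) : ℝ)) = (N : ℝ) • (fun j => ((m j : ℚ) : ℝ)) := by
        funext j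
        have h3 := congrArg (fun q : ℚ => (q : ℝ)) (hz j)
        push_cast at h3
        simp only [Pi.smul_apply, smul_eq_mul]
        rw [← h3]
      rw [h2, dotProduct_smul, hm, smul_zero])
    funext j
    have h2 := hz j
    rw [congrFun h1 j] at h2
    simp only [Pi.zero_apply, Int.cast_zero] at h2
    exact (mul_eq_zero.1 h2).resolve_left (by exact_mod_cast hN0)
  obtain ⟨hfin, hrank⟩ := KF_finite hd p hpQ
  refine ⟨KF p hpQ, hfin, hrank, ?_⟩
  set j₀ : Fin d := ⟨0, hd⟩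
  have hj₀ : p j₀ ≠ 0 := by
    intro h0
    have h1 := hp (Pi.single j₀ 1) (by
      have : (fun j => (((Pi.single j₀ (1 : ℤ) : Fin d → ℤ) j : ℤ) : ℝ))
          = (Pi.single j₀ (1 : ℝ) : Fin d → ℝ) := by
        funext j
        by_cases hj : j = j₀
        · subst hj; simp
        · simp [hj]
      rw [this, dotProduct_single, h0, zero_mul])
    have h2 := congrFun h1 j₀
    simp at h2
  obtain ⟨f, hf⟩ : ∃ f : Module.Dual (KF p hpQ) ℝ, f (p j₀) ≠ 0 := by
    by_contra hcon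
    push Not at hcon
    exact hj₀ ((Module.forall_dual_apply_eq_zero_iff (KF p hpQ) (p j₀)).1 hcon)
  obtain ⟨c, hc⟩ := hline (fun j => ((f (p j) : KF p hpQ) : ℝ)) (by
    intro σ hσ χ hχ
    have hχK : χ ∈ KF p hpQ := by
      refine mem_KF.2 ⟨σ.map (Int.cast : ℤ → ℚ), ?_⟩
      rw [← hχ, Matrix.map_map]
      congr 2
    funext l
    have h1 := congrFun hχ l
    simp only [Matrix.vecMul, dotProduct, Matrix.map_apply, Pi.smul_apply, smul_eq_mul] at h1 ⊢
    have h2 : f (∑ j, p j * (σ j l : ℝ)) = f (χ * p l) := by rw [h1]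
    have h3 : f (χ * p l) = (⟨χ, hχK⟩ : KF p hpQ) * f (p l) := by
      have : χ * p l = (⟨χ, hχK⟩ : KF p hpQ) • p l := rfl
      rw [this, map_smul, smul_eq_mul]
    have h4 : f (∑ j, p j * (σ j l : ℝ)) = ∑ j, ((σ j l : ℤ) : KF p hpQ) * f (p j) := by
      rw [map_sum]
      refine Finset.sum_congr rfl fun j _ => ?_
      have : p j * (σ j l : ℝ) = ((σ j l : ℤ) : KF p hpQ) • p j := by
        rw [Algebra.smul_def]
        simp [mul_comm]
      rw [this, map_smul, smul_eq_mul]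
    rw [h3, h4] at h2
    have h5 := congrArg (fun y : KF p hpQ => (y : ℝ)) h2
    simp only [IntermediateField.coe_mul, IntermediateField.coe_sum] at h5
    rw [← h5]
    refine Finset.sum_congr rfl fun j _ => ?_
    rw [mul_comm]
    simp)
  refine ⟨c, ?_, ?_⟩
  · intro h0
    have h1 := congrFun hc j₀
    rw [h0, zero_smul, Pi.zero_apply] at h1
    exact hf (by exact_mod_cast h1)
  · intro j
    have h1 := congrFun hc j
    rw [Pi.smul_apply, smul_eq_mul] at h1
    rw [← h1]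
    exact (f (p j)).2

end Pool.Agent.Y327
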