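import Mathlib
import Pool.Agent.Y327.Basic
import Pool.Agent.Y327.AlgRow
import Pool.Agent.H715R2.LimitAlg

/-! # Pairs of points of a minimal set which differ in one row -/

open Filter Topology Matrix

namespace Pool.Agent.Y327

open H715R2

variable {d : ℕ}

/-- the rows in `S` are modified by the combinations of rows given by `W` -/
def Md (S : Finset (Fin d)) (W : Fin d → Fin d → ℝ) : Matrix (Fin d) (Fin d) ℝ :=
  1 + Matrix.of (fun i j => if i ∈ S then W i j else 0)

/-- a diagonal matrix with prescribed expansion of one row -/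
lemma exists_bk (hd : 0 < d) {π : Fin d → Fin d} {k : Fin d} (hk : ∀ l, π l = π k → l = k)
    {ρ : ℝ} (hρ : 0 < ρ) : ∃ b : Fin d → ℝ, BB π b ∧ ∀ l, l ≠ k → b k = ρ * b l := by
  classical
  have hdR : (0 : ℝ) < d := by exact_mod_cast hd
  set s : ℝ := Real.log ρ with hs
  refine ⟨fun l => if l = k then Real.exp (s * ((d : ℝ) - 1) / d) else Real.exp (-s / d),
    ⟨fun i => ?_, ?_, fun i j hij => ?_⟩, fun l hl => ?_⟩
  · dsimp only
    split_ifs <;> exact Real.exp_pos _
  · rw [← Finset.mul_prod_erase _ _ (Finset.mem_univ k)]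
    rw [if_pos rfl, Finset.prod_congr rfl (fun l hl => if_neg (Finset.ne_of_mem_erase hl)),
      Finset.prod_const, Finset.card_erase_of_mem (Finset.mem_univ k), Finset.card_univ,
      Fintype.card_fin, ← Real.exp_nat_mul, ← Real.exp_add, Nat.cast_sub hd]
    rw [Real.exp_eq_one_iff]
    field_simp
    push_cast
    ring
  · dsimp only
    by_cases hi : i = k
    · subst hi
      have : j = i := hk j hij.symm
      rw [this]
    · have hj : j ≠ k := by
        intro hj
        subst hj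
        exact hi (hk i hij)
      rw [if_neg hi, if_neg hj]
  · dsimp only
    rw [if_pos rfl, if_neg hl]
    nth_rewrite 1 [← Real.exp_log hρ]
    rw [← Real.exp_add, ← hs]
    congr 1
    field_simp
    ring

/-- adjugates are bounded on boxes -/
lemma exists_adj (R : ℝ) : ∃ C : ℝ, 0 < C ∧ ∀ β : Matrix (Fin d) (Fin d) ℝ,
    (∀ i j, |β i j| ≤ R) → ∀ i j, |β.adjugate i j| ≤ C := by
  classical
  have hc : Continuous (fun β : Matrix (Fin d) (Fin d) ℝ => ∑ i, ∑ j, |β.adjugate i j|) := by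
    refine continuous_finsetSum _ fun i _ => continuous_finsetSum _ fun j _ => ?_
    exact continuous_abs.comp ((continuous_apply_apply i j).comp
      (Continuous.matrix_adjugate continuous_id))
  obtain ⟨C, hC⟩ := (isCompact_box (d := d) R).bddAbove_image hc.continuousOn
  refine ⟨max C 1, by positivity, fun β hβ i j => ?_⟩
  have h1 : ∑ i, ∑ j, |β.adjugate i j| ≤ C := hC ⟨β, hβ, rfl⟩
  have h2 : |β.adjugate i j| ≤ ∑ i, ∑ j, |β.adjugate i j| := by
    refine le_trans ?_ (Finset.single_le_sum (f := fun i => ∑ j, |β.adjugate i j|)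
      (fun i _ => Finset.sum_nonneg fun j _ => abs_nonneg _) (Finset.mem_univ i))
    exact Finset.single_le_sum (f := fun j => |β.adjugate i j|)
      (fun j _ => abs_nonneg _) (Finset.mem_univ j)
  exact h2.trans (h1.trans (le_max_left _ _))

/-- **An algebraic row.** If a row is locally constant up to scaling at a point of a minimal set
for a block group, and this row is a block of its own, then it is algebraic of degree at most
`d`. -/
theorem row_alg (hd : 2 ≤ d) {π : Fin d → Fin d} {V ν : ℝ} (hV : 0 < V) (hν : 0 < ν)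
    {Q : Set (Matrix (Fin d) (Fin d) ℝ)} (hQdet : ∀ h ∈ Q, |h.det| = V)
    (hQnu : ∀ h ∈ Q, HasNu h ν) (hQ : MinB π Q) {h₀ : Matrix (Fin d) (Fin d) ℝ} (hh₀ : h₀ ∈ Q)
    {k : Fin d} (hk : ∀ l, π l = π k → l = k)
    (hloc : ∀ᶠ h in 𝓝[Q] h₀, ∃ c : ℝ, h k = c • h₀ k) :
    ∃ K : IntermediateField ℚ ℝ, FiniteDimensional ℚ K ∧ Module.finrank ℚ K ≤ d ∧
      ∃ s : ℝ, s ≠ 0 ∧ ∀ j, s * h₀ k j ∈ K := by
  classical
  have hd0 : 0 < d := by omega
  have hdet : |h₀.det| = V := hQdet _ hh₀
  have hdet0 : h₀.det ≠ 0 := by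
    intro h0
    rw [h0, abs_zero] at hdet
    exact hV.ne hdet
  have hu : IsUnit h₀.det := isUnit_iff_ne_zero.2 hdet0
  have hp : ∀ m : Fin d → ℤ, h₀ k ⬝ᵥ (fun j => (m j : ℝ)) = 0 → m = 0 := by
    intro m hm
    by_contra hm0
    have h1 := hQnu _ hh₀ m hm0
    have h2 : (h₀ *ᵥ iR m) k = 0 := hm
    rw [FF_eq, Finset.prod_eq_zero (Finset.mem_univ k) h2, abs_zero] at h1
    exact absurd h1 (not_le.2 hν)
  -- an entry of the row which is not zero
  obtain ⟨j₀, hj₀⟩ : ∃ j₀, h₀ k j₀ ≠ 0 := by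
    by_contra hcon
    push Not at hcon
    exact hdet0 (Matrix.det_eq_zero_of_row_eq_zero k hcon)
  -- the neighbourhood
  obtain ⟨W1, hW1, hW1e⟩ := mem_nhdsWithin_iff_exists_mem_nhds_inter.1 hloc
  obtain ⟨W, hWW1, hWo, hh₀W⟩ := mem_nhds_iff.1 hW1
  set C₀ : ℝ := (∑ i, ∑ j, |h₀ i j|) + 1 with hC₀
  have hC₀0 : 0 < C₀ := by
    have : 0 ≤ ∑ i, ∑ j, |h₀ i j| :=
      Finset.sum_nonneg fun i _ => Finset.sum_nonneg fun j _ => abs_nonneg _
    linarith
  set U : Set (Matrix (Fin d) (Fin d) ℝ) := W ∩ {h | ∀ i j, |h i j| < C₀} with hU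
  have hUo : IsOpen U := by
    refine hWo.inter ?_
    have h1 : {h : Matrix (Fin d) (Fin d) ℝ | ∀ i j, |h i j| < C₀} =
        ⋂ i, ⋂ j, {h | |h i j| < C₀} := by
      ext h; simp
    rw [h1]
    refine isOpen_iInter_of_finite fun i => isOpen_iInter_of_finite fun j => ?_
    have h2 : Continuous (fun h : Matrix (Fin d) (Fin d) ℝ => h i j) := continuous_apply_apply i j
    exact isOpen_lt (continuous_abs.comp h2) continuous_const
  have hh₀U : h₀ ∈ U := by
    refine ⟨hh₀W, fun i j => ?_⟩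
    have h2 : |h₀ i j| ≤ ∑ i, ∑ j, |h₀ i j| := by
      refine le_trans ?_ (Finset.single_le_sum (f := fun i => ∑ j, |h₀ i j|)
        (fun i _ => Finset.sum_nonneg fun j _ => abs_nonneg _) (Finset.mem_univ i))
      exact Finset.single_le_sum (f := fun j => |h₀ i j|)
        (fun j _ => abs_nonneg _) (Finset.mem_univ j)
    linarith
  obtain ⟨B, hB, hret⟩ := exists_returnB hd0 hV hν hQdet hQnu hQ hh₀ hUo hh₀U
  have hB0 : 0 < B := by linarith
  obtain ⟨C₁, hC₁, hadj⟩ := exists_adj (d := d) (B * C₀)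
  -- the stabiliser elements
  have hst : ∀ b : Fin d → ℝ, BB π b → ∃ (γ : Matrix (Fin d) (Fin d) ℤ) (χ : ℝ),
      IsUnit γ.det ∧ h₀ k ᵥ* zR γ = χ • h₀ k ∧
      ∀ i j, |(diagonal b * h₀ * zR γ) i j| ≤ B * C₀ := by
    intro b hb
    obtain ⟨a, γ, ha, hγ, haB, hmem⟩ := hret _ (hQ.inv.diag hh₀ hb)
    have hmemQ : diagonal a * (diagonal b * h₀) * zR γ ∈ Q :=
      hQ.inv _ (hQ.inv.diag hh₀ hb) _ _ ha hγ
    obtain ⟨c, hc⟩ := hW1e ⟨hWW1 hmem.1, hmemQ⟩
    have hrow : (diagonal a * (diagonal b * h₀) * zR γ) k = (a k * b k) • (h₀ k ᵥ* zR γ) := by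
      funext j
      rw [Matrix.mul_assoc, Matrix.diagonal_mul, Matrix.mul_assoc, Matrix.diagonal_mul,
        Pi.smul_apply, smul_eq_mul, ← mul_assoc]
      rfl
    have hab : a k * b k ≠ 0 := (mul_pos (ha.1 k) (hb.1 k)).ne'
    refine ⟨γ, (a k * b k)⁻¹ * c, hγ, ?_, fun i j => ?_⟩
    · rw [hrow] at hc
      have h1 : (a k * b k)⁻¹ • ((a k * b k) • (h₀ k ᵥ* zR γ)) = (a k * b k)⁻¹ • (c • h₀ k) := by
        rw [hc]
      rwa [smul_smul, inv_mul_cancel₀ hab, one_smul, smul_smul] at h1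
    · have h1 := hmem.2 i j
      have h2 : (diagonal a * (diagonal b * h₀) * zR γ) i j =
          a i * (diagonal b * h₀ * zR γ) i j := by
        rw [Matrix.mul_assoc, Matrix.diagonal_mul]
      rw [h2, abs_mul, abs_of_pos (ha.1 i)] at h1
      have h3 := (haB i).2
      have h4 : B⁻¹ * |(diagonal b * h₀ * zR γ) i j| ≤ C₀ :=
        (mul_le_mul_of_nonneg_right h3 (abs_nonneg _)).trans h1.le
      rwa [inv_mul_le_iff₀ hB0] at h4
  refine alg_of_line hd0 (h₀ k) hp {γ | True} ?_
  intro p' hp'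
  obtain ⟨c, hcp⟩ : ∃ c : Fin d → ℝ, c ᵥ* h₀ = p' := ⟨p' ᵥ* h₀⁻¹, by
    rw [Matrix.vecMul_vecMul, Matrix.nonsing_inv_mul _ hu, Matrix.vecMul_one]⟩
  have hzero : ∀ l, l ≠ k → c l = 0 := by
    intro l hl
    set P : ℝ := ∑ j, |p' j| with hP
    have hP0 : 0 ≤ P := Finset.sum_nonneg fun j _ => abs_nonneg _
    set A : ℝ := B * C₀ / |h₀ k j₀| * (P * (C₁ / V)) with hA
    have hkey : ∀ ρ : ℝ, 0 < ρ → |c l| ≤ A / ρ := by
      intro ρ hρ
      obtain ⟨b, hb, hbk⟩ := exists_bk hd0 hk hρ
      obtain ⟨γ, χ, hγ, hχ, hbd⟩ := hst b hb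
      set β := diagonal b * h₀ * zR γ with hβ
      have hβdet : |β.det| = V := by
        rw [hβ, det_mul, det_mul, det_diagonal, hb.2.1, one_mul, abs_mul, hdet, det_zR,
          abs_det_of_isUnit hγ, mul_one]
      have hβdet0 : β.det ≠ 0 := by
        intro h0
        rw [h0, abs_zero] at hβdet
        exact hV.ne hβdet
      -- the eigenvalue
      have hχabs : |χ| * b k ≤ B * C₀ / |h₀ k j₀| := by
        rw [le_div_iff₀ (abs_pos.2 hj₀)]
        have h1 : β k j₀ = b k * (χ * h₀ k j₀) := by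
          rw [hβ, Matrix.mul_assoc, Matrix.diagonal_mul]
          congr 1
          have h2 := congrFun hχ j₀
          rw [Pi.smul_apply, smul_eq_mul] at h2
          exact h2
        have h3 := hbd k j₀
        rw [h1, abs_mul, abs_mul, abs_of_pos (hb.1 k)] at h3
        linarith
      -- the equation for c
      have h1 : p' ᵥ* zR γ = χ • p' := hp' γ trivial χ hχ
      have h2 : (c ᵥ* diagonal (fun i => (b i)⁻¹)) ᵥ* β = χ • p' := by
        rw [← h1, ← hcp, Matrix.vecMul_vecMul, Matrix.vecMul_vecMul, hβ]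
        congr 1
        rw [← Matrix.mul_assoc, ← Matrix.mul_assoc, diagonal_mul_diagonal]
        have : (fun i => (b i)⁻¹ * b i) = fun _ => (1 : ℝ) := by
          funext i
          exact inv_mul_cancel₀ (hb.1 i).ne'
        rw [this, diagonal_one, Matrix.one_mul]
      have h3 : c ᵥ* diagonal (fun i => (b i)⁻¹) = χ • (p' ᵥ* β⁻¹) := by
        rw [← Matrix.smul_vecMul, ← h2, Matrix.vecMul_vecMul (v := c ᵥ* _),
          Matrix.mul_nonsing_inv _ (isUnit_iff_ne_zero.2 hβdet0), Matrix.vecMul_one]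
      have h4 : c l * (b l)⁻¹ = χ * (p' ᵥ* β⁻¹) l := by
        have := congrFun h3 l
        rw [Matrix.vecMul_diagonal, Pi.smul_apply, smul_eq_mul] at this
        exact this
      have h5 : |(p' ᵥ* β⁻¹) l| ≤ P * (C₁ / V) := by
        simp only [Matrix.vecMul, dotProduct]
        refine (Finset.abs_sum_le_sum_abs _ _).trans ?_
        rw [hP, Finset.sum_mul]
        refine Finset.sum_le_sum fun j _ => ?_
        rw [abs_mul]
        refine mul_le_mul_of_nonneg_left ?_ (abs_nonneg _)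
        rw [Matrix.inv_def, Matrix.smul_apply, smul_eq_mul, abs_mul, Ring.inverse_eq_inv', abs_inv,
          hβdet, div_eq_inv_mul]
        exact mul_le_mul_of_nonneg_left (hadj β hbd j l) (inv_pos.2 hV).le
      have h6 : |c l| = b l * (|χ| * |(p' ᵥ* β⁻¹) l|) := by
        rw [← abs_mul, ← h4, abs_mul, abs_inv, abs_of_pos (hb.1 l)]
        field_simp [(hb.1 l).ne']
      rw [h6, le_div_iff₀ hρ]
      have h7 := hbk l hl
      calc b l * (|χ| * |(p' ᵥ* β⁻¹) l|) * ρ = (|χ| * b k) * |(p' ᵥ* β⁻¹) l| := by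
            rw [h7]; ring
        _ ≤ B * C₀ / |h₀ k j₀| * (P * (C₁ / V)) :=
            mul_le_mul hχabs h5 (abs_nonneg _) (by positivity)
    by_contra hcl
    have hcl' : 0 < |c l| := abs_pos.2 hcl
    have hA0 : 0 < A := by
      have := hkey 1 one_pos
      rw [div_one] at this
      linarith
    have h1 := hkey (2 * A / |c l|) (by positivity)
    have h2 : A / (2 * A / |c l|) = |c l| / 2 := by
      field_simp
    rw [h2] at h1
    linarith
  refine ⟨c k, ?_⟩
  rw [← hcp]
  funext j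
  simp only [Matrix.vecMul, dotProduct, Pi.smul_apply, smul_eq_mul]
  rw [Finset.sum_eq_single k]
  · intro l _ hl
    rw [hzero l hl, zero_mul]
  · intro h
    exact absurd (Finset.mem_univ k) h

/-- In a counterexample no row is locally constant. -/
theorem frequently_row (hd : 3 ≤ d) {g : Matrix (Fin d) (Fin d) ℝ} (hg : g.det ≠ 0) {ν : ℝ}
    (hν : 0 < ν) (hnu : HasNu g ν) (hint : ¬ PropInt g) {π : Fin d → Fin d}
    {Q : Set (Matrix (Fin d) (Fin d) ℝ)} (hQg : Q ⊆ closure (Orb g)) (hQ : MinB π Q)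
    {h₀ : Matrix (Fin d) (Fin d) ℝ} (hh₀ : h₀ ∈ Q) {k : Fin d} (hk : ∀ l, π l = π k → l = k) :
    ∃ᶠ h in 𝓝[Q] h₀, ¬ ∃ c : ℝ, h k = c • h₀ k := by
  by_contra hcon
  rw [Filter.not_frequently] at hcon
  push Not at hcon
  have hQdet : ∀ h ∈ Q, |h.det| = |g.det| := fun h hh => abs_det_closure (hQg hh)
  have hQnu : ∀ h ∈ Q, HasNu h ν := fun h hh => hasNu_closure hnu (hQg hh)
  obtain ⟨K, hfin, hrank, s, hs, hmem⟩ :=
    row_alg (by omega) (abs_pos.2 hg) hν hQdet hQnu hQ hh₀ hk hcon
  rcases limit_alg hd hg (hQg hh₀) k s hs K hrank hmem with h1 | h1 | h1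
  · obtain ⟨x, hx, hx0⟩ := h1
    have h2 := hQnu _ hh₀ x hx
    have h3 : (h₀ *ᵥ iR x) k = 0 := hx0
    rw [FF_eq, Finset.prod_eq_zero (Finset.mem_univ k) h3, abs_zero] at h2
    exact absurd h2 (not_le.2 hν)
  · exact hint h1
  · obtain ⟨x, hx, hx1⟩ := dense_ne (by omega) h1 0 ν hν
    rw [sub_zero] at hx1
    exact absurd (hnu x hx) (not_le.2 hx1)

/-- **Pairs which differ in one row.** -/
theorem row_pair (hd : 0 < d) {π : Fin d → Fin d} {V ν : ℝ} (hV : 0 < V) (hν : 0 < ν)
    {Q : Set (Matrix (Fin d) (Fin d) ℝ)} (hQdet : ∀ h ∈ Q, |h.det| = V)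
    (hQnu : ∀ h ∈ Q, HasNu h ν) (hQc : IsClosed Q) (hQinv : InvB π Q)
    {h₀ : Matrix (Fin d) (Fin d) ℝ} (hh₀ : h₀ ∈ Q)
    {k : Fin d} (hk : ∀ l, π l = π k → l = k)
    (hfr : ∃ᶠ h in 𝓝[Q] h₀, ¬ ∃ c : ℝ, h k = c • h₀ k) :
    ∃ h' ∈ Q, ∃ w : Fin d → ℝ, w k = 0 ∧ w ≠ 0 ∧ Md {k} (fun _ => w) * h' ∈ Q := by
  classical
  have hdet : |h₀.det| = V := hQdet _ hh₀
  have hdet0 : h₀.det ≠ 0 := by
    intro h0
    rw [h0, abs_zero] at hdet
    exact hV.ne hdet
  have hu : IsUnit h₀.det := isUnit_iff_ne_zero.2 hdet0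
  obtain ⟨hs, hs1, hs2⟩ := Filter.exists_seq_forall_of_frequently
    (hfr.and_eventually self_mem_nhdsWithin)
  have hslim : Tendsto hs atTop (𝓝 h₀) := hs1.mono_right nhdsWithin_le_nhds
  set q : ℕ → Matrix (Fin d) (Fin d) ℝ := fun n => hs n * h₀⁻¹ with hq
  have hqh : ∀ n, q n * h₀ = hs n := fun n => by
    rw [hq, Matrix.mul_assoc, Matrix.nonsing_inv_mul _ hu, Matrix.mul_one]
  have hqlim : Tendsto q atTop (𝓝 1) := by
    have h1 : Tendsto q atTop (𝓝 (h₀ * h₀⁻¹)) := hslim.mul tendsto_const_nhds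
    rwa [Matrix.mul_nonsing_inv _ hu] at h1
  have hqent : ∀ i j, Tendsto (fun n => q n i j) atTop
      (𝓝 ((1 : Matrix (Fin d) (Fin d) ℝ) i j)) := fun i j =>
    ((continuous_apply_apply i j).tendsto (1 : Matrix (Fin d) (Fin d) ℝ)).comp hqlim
  set lam : ℕ → ℝ := fun n => ∑ l ∈ Finset.univ.erase k, |q n k l| with hlam
  have hlam0 : ∀ n, 0 < lam n := by
    intro n
    by_contra hcon
    have h1 : lam n = 0 := le_antisymm (not_lt.1 hcon) (Finset.sum_nonneg fun _ _ => abs_nonneg _)
    have h2 : ∀ l, l ≠ k → q n k l = 0 := by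
      intro l hl
      have h3 := (Finset.sum_eq_zero_iff_of_nonneg (fun _ _ => abs_nonneg _)).1 h1 l
        (Finset.mem_erase.2 ⟨hl, Finset.mem_univ l⟩)
      exact abs_eq_zero.1 h3
    apply (hs2 n).1
    refine ⟨q n k k, ?_⟩
    rw [← hqh n]
    funext j
    rw [Matrix.mul_apply, Pi.smul_apply, smul_eq_mul, Finset.sum_eq_single k]
    · intro l _ hl
      rw [h2 l hl, zero_mul]
    · intro h; exact absurd (Finset.mem_univ k) h
  have hlamlim : Tendsto lam atTop (𝓝 0) := by
    have h1 : Tendsto lam atTop (𝓝 (∑ l ∈ Finset.univ.erase k,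
        |(1 : Matrix (Fin d) (Fin d) ℝ) k l|)) :=
      tendsto_finsetSum _ fun l _ => (hqent k l).abs
    have h2 : (∑ l ∈ Finset.univ.erase k, |(1 : Matrix (Fin d) (Fin d) ℝ) k l|) = 0 := by
      refine Finset.sum_eq_zero fun l hl => ?_
      rw [Matrix.one_apply_ne (Finset.ne_of_mem_erase hl).symm, abs_zero]
    rwa [h2] at h1
  choose b hb hbk using fun n => exists_bk (π := π) hd hk (inv_pos.2 (hlam0 n))
  -- the normalised row
  set y : ℕ → Fin d → ℝ := fun n l => if l = k then 0 else q n k l / lam n with hy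
  have hyb : ∀ n, y n ∈ Metric.closedBall (0 : Fin d → ℝ) 1 := by
    intro n
    rw [mem_closedBall_zero_iff, pi_norm_le_iff_of_nonneg zero_le_one]
    intro l
    simp only [hy]
    by_cases hl : l = k
    · rw [if_pos hl, norm_zero]; exact zero_le_one
    · rw [if_neg hl, Real.norm_eq_abs, abs_div, abs_of_pos (hlam0 n), div_le_one (hlam0 n)]
      exact Finset.single_le_sum (f := fun l => |q n k l|) (fun _ _ => abs_nonneg _)
        (Finset.mem_erase.2 ⟨hl, Finset.mem_univ l⟩)
  obtain ⟨w, -, φ, hφ, hw⟩ := (isCompact_closedBall (0 : Fin d → ℝ) 1).tendsto_subseq hyb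
  have hwent : ∀ l, Tendsto (fun n => y (φ n) l) atTop (𝓝 (w l)) := fun l =>
    ((continuous_apply l).tendsto w).comp hw
  have hwk : w k = 0 := by
    refine tendsto_nhds_unique (hwent k) ?_
    simp only [hy, if_true]
    exact tendsto_const_nhds
  have hsum : ∑ l ∈ Finset.univ.erase k, |w l| = 1 := by
    have h1 : Tendsto (fun n => ∑ l ∈ Finset.univ.erase k, |y (φ n) l|) atTop
        (𝓝 (∑ l ∈ Finset.univ.erase k, |w l|)) :=
      tendsto_finsetSum _ fun l _ => (hwent l).abs
    have h2 : (fun n => ∑ l ∈ Finset.univ.erase k, |y (φ n) l|) = fun _ => (1 : ℝ) := by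
      funext n
      have h3 : ∀ l ∈ Finset.univ.erase k, |y (φ n) l| = |q (φ n) k l| / lam (φ n) := by
        intro l hl
        simp only [hy, if_neg (Finset.ne_of_mem_erase hl), abs_div, abs_of_pos (hlam0 (φ n))]
      rw [Finset.sum_congr rfl h3, ← Finset.sum_div]
      exact div_self (hlam0 (φ n)).ne'
    rw [h2] at h1
    exact tendsto_nhds_unique h1 tendsto_const_nhds
  have hw0 : w ≠ 0 := by
    intro h0
    rw [h0] at hsum
    simp at hsum
  -- the limit of the conjugates
  have hlimX : Tendsto (fun n => diagonal (b (φ n)) * q (φ n) *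
      diagonal (fun i => (b (φ n) i)⁻¹)) atTop (𝓝 (Md {k} (fun _ => w))) := by
    refine tendsto_pi_nhds.2 fun i => tendsto_pi_nhds.2 fun j => ?_
    have hent : ∀ n, (diagonal (b (φ n)) * q (φ n) * diagonal (fun i => (b (φ n) i)⁻¹)) i j
        = b (φ n) i * q (φ n) i j * (b (φ n) j)⁻¹ := by
      intro n
      rw [Matrix.mul_diagonal, Matrix.diagonal_mul]
    simp only [hent]
    have hqij := (hqent i j).comp hφ.tendsto_atTop
    by_cases hi : i = k
    · by_cases hj : j = k
      · -- diagonal entry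
        have h1 : (Md {k} (fun _ => w)) i j = 1 := by
          rw [hi, hj, Md, Matrix.add_apply, Matrix.one_apply_eq, Matrix.of_apply]
          simp [hwk]
        rw [h1]
        have h2 : (fun n => b (φ n) i * q (φ n) i j * (b (φ n) j)⁻¹) = fun n => q (φ n) i j := by
          funext n
          have := ((hb (φ n)).1 j).ne'
          rw [hi, ← hj]
          field_simp
        rw [h2]
        have h3 : (1 : Matrix (Fin d) (Fin d) ℝ) i j = 1 := by rw [hi, hj, Matrix.one_apply_eq]
        rw [h3] at hqij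
        exact hqij
      · have h1 : (Md {k} (fun _ => w)) i j = w j := by
          rw [hi, Md, Matrix.add_apply, Matrix.one_apply_ne (Ne.symm hj), Matrix.of_apply]
          simp
        rw [h1]
        have h2 : (fun n => b (φ n) i * q (φ n) i j * (b (φ n) j)⁻¹) = fun n => y (φ n) j := by
          funext n
          have h4 := ((hb (φ n)).1 j).ne'
          have h5 := hbk (φ n) j hj
          simp only [hy, if_neg hj]
          rw [hi, h5]
          field_simp
        rw [h2]
        exact hwent j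
    · have h1 : (Md {k} (fun _ => w)) i j = (1 : Matrix (Fin d) (Fin d) ℝ) i j := by
        rw [Md, Matrix.add_apply, Matrix.of_apply]
        simp [hi]
      rw [h1]
      by_cases hj : j = k
      · have h2 : (fun n => b (φ n) i * q (φ n) i j * (b (φ n) j)⁻¹)
            = fun n => q (φ n) i j * lam (φ n) := by
          funext n
          have h4 := ((hb (φ n)).1 i).ne'
          have h5 := hbk (φ n) i hi
          have h6 := (hlam0 (φ n)).ne'
          rw [hj, h5]
          field_simp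
        rw [h2]
        have h7 := hqij.mul (hlamlim.comp hφ.tendsto_atTop)
        rw [mul_zero] at h7
        have h8 : (1 : Matrix (Fin d) (Fin d) ℝ) i j = 0 := by
          rw [hj, Matrix.one_apply_ne hi]
        rw [h8]
        exact h7
      · have h2 : (fun n => b (φ n) i * q (φ n) i j * (b (φ n) j)⁻¹)
            = fun n => q (φ n) i j := by
          funext n
          have h4 := ((hb (φ n)).1 i).ne'
          have h5 := hbk (φ n) i hi
          have h6 := hbk (φ n) j hj
          have h7 : b (φ n) j = b (φ n) i := by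
            have h8 : (lam (φ n))⁻¹ * b (φ n) j = (lam (φ n))⁻¹ * b (φ n) i := by
              rw [← h5, ← h6]
            exact mul_left_cancel₀ (inv_pos.2 (hlam0 (φ n))).ne' h8
          rw [h7]
          field_simp
        rw [h2]
        exact hqij
  obtain ⟨h', hh', hh''⟩ := limit_pair hd hV hν hQdet hQnu hQc hQinv (h := fun _ => h₀)
    (q := fun n => q (φ n)) (b := fun n => b (φ n)) (fun _ => hh₀) (fun n => by
      simp only [hqh]; exact (hs2 (φ n)).2) (fun n => hb (φ n)) hlimX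
  exact ⟨h', hh', w, hwk, hw0, hh''⟩

/-- **Reduction to one block.** -/
theorem block_pair (hd : 0 < d) {π : Fin d → Fin d} {V ν : ℝ} (hV : 0 < V) (hν : 0 < ν)
    {Q : Set (Matrix (Fin d) (Fin d) ℝ)} (hQdet : ∀ h ∈ Q, |h.det| = V)
    (hQnu : ∀ h ∈ Q, HasNu h ν) (hQc : IsClosed Q) (hQinv : InvB π Q)
    {k : Fin d} (hk : ∀ l, π l = π k → l = k) {h : Matrix (Fin d) (Fin d) ℝ} (hh : h ∈ Q)
    {w : Fin d → ℝ} (hwk : w k = 0) (hw : Md {k} (fun _ => w) * h ∈ Q) (l₀ : Fin d) :
    ∃ h' ∈ Q, Md {k} (fun _ l => if π l = π l₀ then w l else 0) * h' ∈ Q := by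
  classical
  set T : Finset (Fin d) := Finset.univ.filter (fun l => π l = π l₀ ∨ l = k) with hT
  have hTmem : ∀ l, l ∈ T ↔ (π l = π l₀ ∨ l = k) := fun l => by simp [hT]
  have hTblock : ∀ i j, π i = π j → i ∈ T → j ∈ T := by
    intro i j hij hi
    rw [hTmem] at hi ⊢
    rcases hi with hi | hi
    · exact Or.inl (hij ▸ hi)
    · subst hi
      exact Or.inr (hk j hij.symm)
  set ψ : Fin d → ℝ := fun l => if l ∈ T then -((Tᶜ.card : ℕ) : ℝ) else ((T.card : ℕ) : ℝ) with hψ
  have hψsum : ∑ l, ψ l = 0 := by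
    have h1 : ∑ l, ψ l = ∑ l ∈ T, ψ l + ∑ l ∈ Tᶜ, ψ l := (Finset.sum_add_sum_compl T ψ).symm
    have h2 : ∑ l ∈ T, ψ l = (T.card : ℝ) * (-((Tᶜ.card : ℕ) : ℝ)) := by
      rw [Finset.sum_congr rfl (fun l hl => (if_pos hl : ψ l = _)), Finset.sum_const, nsmul_eq_mul]
    have h3 : ∑ l ∈ Tᶜ, ψ l = (Tᶜ.card : ℝ) * ((T.card : ℕ) : ℝ) := by
      rw [Finset.sum_congr rfl (fun l hl => (if_neg (Finset.mem_compl.1 hl) : ψ l = _)),
        Finset.sum_const, nsmul_eq_mul]
    rw [h1, h2, h3]
    ring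
  have hkT : k ∈ T := (hTmem k).2 (Or.inr rfl)
  set b : ℕ → Fin d → ℝ := fun n l => Real.exp ((n : ℝ) * ψ l) with hb
  have hbB : ∀ n, BB π (b n) := by
    intro n
    refine ⟨fun i => Real.exp_pos _, ?_, fun i j hij => ?_⟩
    · rw [hb]
      simp only
      rw [← Real.exp_sum, ← Finset.mul_sum, hψsum, mul_zero, Real.exp_zero]
    · simp only [hb, hψ]
      by_cases hi : i ∈ T
      · rw [if_pos hi, if_pos (hTblock i j hij hi)]
      · have hj : j ∉ T := fun hj => hi (hTblock j i hij.symm hj)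
        rw [if_neg hi, if_neg hj]
  refine limit_pair hd hV hν hQdet hQnu hQc hQinv (h := fun _ => h)
    (q := fun _ => Md {k} (fun _ => w)) (b := b) (fun _ => hh) (fun _ => hw) hbB ?_
  refine tendsto_pi_nhds.2 fun i => tendsto_pi_nhds.2 fun j => ?_
  have hent : ∀ n, (diagonal (b n) * Md {k} (fun _ => w) * diagonal (fun i => (b n i)⁻¹)) i j
      = b n i * Md {k} (fun _ => w) i j * (b n j)⁻¹ := by
    intro n
    rw [Matrix.mul_diagonal, Matrix.diagonal_mul]
  simp only [hent]
  by_cases hij : i = j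
  · subst hij
    have h1 : (fun n => b n i * Md {k} (fun _ => w) i i * (b n i)⁻¹)
        = fun _ => Md {k} (fun _ => w) i i := by
      funext n
      have := ((hbB n).1 i).ne'
      field_simp
    rw [h1]
    have h2 : Md {k} (fun _ l => if π l = π l₀ then w l else 0) i i
        = Md {k} (fun _ => w) i i := by
      simp only [Md, Matrix.add_apply, Matrix.one_apply_eq, Matrix.of_apply]
      by_cases hi : i = k
      · subst hi
        simp [hwk]
      · simp [hi]
    rw [h2]
    exact tendsto_const_nhds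
  · by_cases hi : i = k
    · subst hi
      have h1 : Md {i} (fun _ => w) i j = w j := by
        simp [Md, Matrix.add_apply, Matrix.one_apply_ne hij]
      have h2 : Md {i} (fun _ l => if π l = π l₀ then w l else 0) i j
          = if π j = π l₀ then w j else 0 := by
        simp [Md, Matrix.add_apply, Matrix.one_apply_ne hij]
      rw [h1, h2]
      have h3 : ∀ n : ℕ, b n i * w j * (b n j)⁻¹ = Real.exp ((n : ℝ) * (ψ i - ψ j)) * w j := by
        intro n
        simp only [hb]
        rw [mul_sub, Real.exp_sub]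
        ring
      simp only [h3]
      by_cases hj : π j = π l₀
      · rw [if_pos hj]
        have hjT : j ∈ T := (hTmem j).2 (Or.inl hj)
        have h4 : ψ i - ψ j = 0 := by
          simp only [hψ, if_pos hkT, if_pos hjT, sub_self]
        simp only [h4, mul_zero, Real.exp_zero, one_mul]
        exact tendsto_const_nhds
      · rw [if_neg hj]
        have hjT : j ∉ T := by
          rw [hTmem]
          rintro (h5 | h5)
          · exact hj h5
          · exact hij h5.symm
        have h4 : ψ i - ψ j < 0 := by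
          simp only [hψ, if_pos hkT, if_neg hjT]
          have h5 : (0 : ℝ) ≤ (Tᶜ.card : ℝ) := Nat.cast_nonneg _
          have h6 : (0 : ℝ) < (T.card : ℝ) := by
            exact_mod_cast Finset.card_pos.2 ⟨i, hkT⟩
          linarith
        have h6 : Tendsto (fun n : ℕ => Real.exp ((n : ℝ) * (ψ i - ψ j))) atTop (𝓝 0) :=
          Real.tendsto_exp_atBot.comp
            (tendsto_natCast_atTop_atTop.atTop_mul_const_of_neg h4)
        have h7 := h6.mul_const (w j)
        rwa [zero_mul] at h7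
    · have h1 : Md {k} (fun _ => w) i j = 0 := by
        simp [Md, Matrix.add_apply, Matrix.one_apply_ne hij, hi]
      have h2 : Md {k} (fun _ l => if π l = π l₀ then w l else 0) i j = 0 := by
        simp [Md, Matrix.add_apply, Matrix.one_apply_ne hij, hi]
      rw [h1, h2]
      simp only [mul_zero, zero_mul]
      exact tendsto_const_nhds

end Pool.Agent.Y327
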