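import Mathlib
import Pool.Agent.Y327.RowPair
import Pool.Agent.Y327.Dual
import Pool.Agent.Y327.RingLem

/-! # Locally constant subspaces of a minimal set -/

open Filter Topology Matrix

namespace Pool.Agent.Y327

open H715R2 RatSpan

variable {d : ℕ}

/-- **Return elements** whose multiples tend to a rank one idempotent. -/
theorem exists_return_seq (hd : 2 ≤ d) {π : Fin d → Fin d} {V ν : ℝ} (hV : 0 < V) (hν : 0 < ν)
    {Q : Set (Matrix (Fin d) (Fin d) ℝ)} (hQdet : ∀ h ∈ Q, |h.det| = V)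
    (hQnu : ∀ h ∈ Q, HasNu h ν) (hQ : MinB π Q) {h₀ : Matrix (Fin d) (Fin d) ℝ} (hh₀ : h₀ ∈ Q)
    {i : Fin d} (hi : ∀ l, π l = π i → l = i) {W : Set (Matrix (Fin d) (Fin d) ℝ)}
    (hW : W ∈ 𝓝 h₀) :
    ∃ (c : ℕ → ℝ) (γ : ℕ → Matrix (Fin d) (Fin d) ℤ),
      (∀ n, ∃ a, BB π a ∧ diagonal a * h₀ * zR (γ n) ∈ Q ∩ W) ∧
      Tendsto (fun n => c n • zR (γ n)) atTop
        (𝓝 (h₀⁻¹ * diagonal (Pi.single i 1) * h₀)) := by
  classical
  have hd0 : 0 < d := by omega
  have hdet0 : h₀.det ≠ 0 := by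
    intro h0
    have h1 := hQdet _ hh₀
    rw [h0, abs_zero] at h1
    exact hV.ne h1
  have hu : IsUnit h₀.det := isUnit_iff_ne_zero.2 hdet0
  obtain ⟨W', hW'W, hW'o, hh₀W'⟩ := mem_nhds_iff.1 hW
  set U : ℕ → Set (Matrix (Fin d) (Fin d) ℝ) := fun n =>
    W' ∩ ⋂ a, ⋂ b, {h | |h a b - h₀ a b| < 1 / ((n : ℝ) + 1)} with hU
  have hUo : ∀ n, IsOpen (U n) := by
    intro n
    refine hW'o.inter (isOpen_iInter_of_finite fun a => isOpen_iInter_of_finite fun b => ?_)
    have h2 : Continuous (fun h : Matrix (Fin d) (Fin d) ℝ => h a b) := continuous_apply_apply a b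
    exact isOpen_lt (continuous_abs.comp (h2.sub continuous_const)) continuous_const
  have hUm : ∀ n, h₀ ∈ U n := by
    intro n
    refine ⟨hh₀W', Set.mem_iInter.2 fun a => Set.mem_iInter.2 fun b => ?_⟩
    show |h₀ a b - h₀ a b| < 1 / ((n : ℝ) + 1)
    rw [sub_self, abs_zero]
    positivity
  have hex : ∀ n : ℕ, ∃ (e : Fin d → ℝ) (γ : Matrix (Fin d) (Fin d) ℤ), BB π e ∧
      diagonal e * h₀ * zR γ ∈ Q ∩ U n ∧ ∀ l, l ≠ i → e i / e l ≤ 1 / ((n : ℝ) + 1) := by
    intro n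
    obtain ⟨B, hB, hret⟩ := exists_returnB hd0 hV hν hQdet hQnu hQ hh₀ (hUo n) (hUm n)
    have hB0 : 0 < B := by linarith
    have hρ : 0 < 1 / (((n : ℝ) + 1) * (B * B)) := by positivity
    obtain ⟨b, hb, hbi⟩ := exists_bk hd0 hi hρ
    obtain ⟨a, γ, ha, hγ, haB, hmem⟩ := hret _ (hQ.inv.diag hh₀ hb)
    have hmemQ : diagonal a * (diagonal b * h₀) * zR γ ∈ Q :=
      hQ.inv _ (hQ.inv.diag hh₀ hb) _ _ ha hγ
    have hab : diagonal a * (diagonal b * h₀) * zR γ
        = diagonal (fun l => a l * b l) * h₀ * zR γ := by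
      rw [← Matrix.mul_assoc, diagonal_mul_diagonal]
    rw [hab] at hmem hmemQ
    refine ⟨fun l => a l * b l, γ, ha.mul hb, ⟨hmemQ, hmem⟩, fun l hl => ?_⟩
    have h1 : b i = 1 / (((n : ℝ) + 1) * (B * B)) * b l := hbi l hl
    have h2 := ha.1 i
    have h3 := ha.1 l
    have h4 := hb.1 l
    have h5 : a i / a l ≤ B * B := by
      rw [div_le_iff₀ h3]
      have h6 := (haB i).1
      have h7 := (haB l).2
      have h8 : 1 ≤ B * a l := by
        have := mul_le_mul_of_nonneg_left h7 hB0.le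
        rwa [mul_inv_cancel₀ hB0.ne'] at this
      nlinarith
    calc a i * b i / (a l * b l) = (a i / a l) * (b i / b l) := by
          field_simp
      _ = (a i / a l) * (1 / (((n : ℝ) + 1) * (B * B))) := by
          rw [h1]; field_simp
      _ ≤ (B * B) * (1 / (((n : ℝ) + 1) * (B * B))) :=
          mul_le_mul_of_nonneg_right h5 hρ.le
      _ = 1 / ((n : ℝ) + 1) := by field_simp
  choose e γ he hmem heq using hex
  refine ⟨fun n => e n i, γ, fun n => ⟨e n, he n, (hmem n).1, hW'W (hmem n).2.1⟩, ?_⟩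
  have hlim1 : Tendsto (fun n => diagonal (e n) * h₀ * zR (γ n)) atTop (𝓝 h₀) := by
    refine tendsto_pi_nhds.2 fun a => tendsto_pi_nhds.2 fun b => ?_
    rw [tendsto_iff_norm_sub_tendsto_zero]
    refine squeeze_zero (fun _ => norm_nonneg _) (fun n => ?_)
      tendsto_one_div_add_atTop_nhds_zero_nat
    have h1 := (Set.mem_iInter.1 (Set.mem_iInter.1 (hmem n).2.2 a) b)
    rw [Real.norm_eq_abs]
    exact h1.le
  have hlim2 : Tendsto (fun n => (diagonal (fun l => e n i / e n l) : Matrix (Fin d) (Fin d) ℝ))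
      atTop (𝓝 (diagonal (Pi.single i 1))) := by
    have h1 : Continuous (fun c : Fin d → ℝ => (diagonal c : Matrix (Fin d) (Fin d) ℝ)) :=
      Continuous.matrix_diagonal continuous_id
    refine (h1.tendsto _).comp (tendsto_pi_nhds.2 fun l => ?_)
    by_cases hl : l = i
    · subst hl
      rw [Pi.single_eq_same]
      refine tendsto_const_nhds.congr fun n => ?_
      exact (div_self ((he n).1 l).ne').symm
    · rw [Pi.single_eq_of_ne hl]
      refine squeeze_zero (fun n => ?_) (fun n => heq n l hl)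
        tendsto_one_div_add_atTop_nhds_zero_nat
      exact div_nonneg ((he n).1 i).le ((he n).1 l).le
  have hlim3 := (tendsto_const_nhds (x := h₀⁻¹)).mul (hlim2.mul hlim1)
  rw [← Matrix.mul_assoc] at hlim3
  refine hlim3.congr fun n => ?_
  have h1 : (diagonal (fun l => e n i / e n l) : Matrix (Fin d) (Fin d) ℝ) * diagonal (e n)
      = e n i • (1 : Matrix (Fin d) (Fin d) ℝ) := by
    rw [diagonal_mul_diagonal, ← diagonal_one, ← diagonal_smul]
    congr 1
    funext l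
    simp only [Pi.smul_apply, smul_eq_mul, mul_one]
    exact div_mul_cancel₀ _ ((he n).1 l).ne'
  calc h₀⁻¹ * (diagonal (fun l => e n i / e n l) * (diagonal (e n) * h₀ * zR (γ n)))
      = h₀⁻¹ * ((diagonal (fun l => e n i / e n l) * diagonal (e n)) * h₀ * zR (γ n)) := by
        simp only [Matrix.mul_assoc]
    _ = e n i • (h₀⁻¹ * h₀ * zR (γ n)) := by
        rw [h1, Matrix.smul_mul, Matrix.one_mul, Matrix.smul_mul, Matrix.mul_smul,
          Matrix.mul_assoc]
    _ = e n i • zR (γ n) := by rw [Matrix.nonsing_inv_mul _ hu, Matrix.one_mul]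

/-- passage to the limit in linear equations -/
lemma lim_zero {X : Type*} [AddCommGroup X] [Module ℝ X] [TopologicalSpace X]
    [IsTopologicalAddGroup X] [ContinuousSMul ℝ X] [T2Space X]
    (L : Matrix (Fin d) (Fin d) ℝ →ₗ[ℝ] X) {c : ℕ → ℝ} {γ : ℕ → Matrix (Fin d) (Fin d) ℤ}
    (hL : ∀ n, L (zR (γ n)) = 0) {e : Matrix (Fin d) (Fin d) ℝ}
    (hlim : Tendsto (fun n => c n • zR (γ n)) atTop (𝓝 e)) : L e = 0 := by
  have h1 : Continuous L := L.continuous_of_finiteDimensional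
  refine tendsto_nhds_unique ((h1.tendsto e).comp hlim) ?_
  refine tendsto_const_nhds.congr fun n => ?_
  show 0 = L (c n • zR (γ n))
  rw [map_smul, hL, smul_zero]

/-- rational endomorphisms as real matrices -/
noncomputable def kap : Module.End ℚ (Fin d → ℚ) →+* Matrix (Fin d) (Fin d) ℝ :=
  ((algebraMap ℚ ℝ).mapMatrix).comp (LinearMap.toMatrixAlgEquiv' (R := ℚ) (n := Fin d) :
    Module.End ℚ (Fin d → ℚ) ≃ₐ[ℚ] Matrix (Fin d) (Fin d) ℚ).toRingEquiv.toRingHom

lemma kap_apply (f : Module.End ℚ (Fin d → ℚ)) (a b : Fin d) :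
    kap f a b = ((f (Pi.single b 1) a : ℚ) : ℝ) := by
  simp [kap, LinearMap.toMatrixAlgEquiv'_apply]

lemma kap_mulVec (f : Module.End ℚ (Fin d → ℚ)) (x : Fin d → ℚ) :
    kap f *ᵥ cR x = cR (f x) := by
  funext a
  have h1 : f x = ∑ b, x b • f (Pi.single b 1) := by
    conv_lhs => rw [show x = ∑ b, x b • (Pi.single b (1 : ℚ) : Fin d → ℚ) by
      funext t; simp [Finset.sum_apply, Pi.single_apply]]
    rw [map_sum]
    simp only [map_smul]
  simp only [Matrix.mulVec, dotProduct, kap_apply, cR]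
  rw [h1]
  simp only [Finset.sum_apply, Pi.smul_apply, smul_eq_mul]
  push_cast
  exact Finset.sum_congr rfl fun b _ => mul_comm _ _

/-- integer matrices as rational endomorphisms -/
noncomputable def fz (σ : Matrix (Fin d) (Fin d) ℤ) : Module.End ℚ (Fin d → ℚ) :=
  Matrix.toLin' (σ.map (Int.cast : ℤ → ℚ))

lemma kap_fz (σ : Matrix (Fin d) (Fin d) ℤ) : kap (fz σ) = zR σ := by
  ext a b
  rw [kap_apply, fz, Matrix.toLin'_apply, Matrix.mulVec_single_one]
  simp [zR]

lemma kap_smul (q : ℚ) (f : Module.End ℚ (Fin d → ℚ)) : kap (q • f) = (q : ℝ) • kap f := by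
  ext a b
  simp [kap_apply]

/-- the conjugate by `h` -/
lemma conj_mul {h : Matrix (Fin d) (Fin d) ℝ} (hu : IsUnit h.det) (M N : Matrix (Fin d) (Fin d) ℝ) :
    h * (M * N) * h⁻¹ = (h * M * h⁻¹) * (h * N * h⁻¹) := by
  calc h * (M * N) * h⁻¹ = h * M * 1 * N * h⁻¹ := by rw [Matrix.mul_one]; simp only [Matrix.mul_assoc]
    _ = h * M * (h⁻¹ * h) * N * h⁻¹ := by rw [Matrix.nonsing_inv_mul _ hu]
    _ = _ := by simp only [Matrix.mul_assoc]

/-- the algebra of the rational endomorphisms which preserve the common kernel of the rows outside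
`J` -/
noncomputable def algJ (h : Matrix (Fin d) (Fin d) ℝ) (hu : IsUnit h.det) (J : Finset (Fin d)) :
    Subalgebra ℚ (Module.End ℚ (Fin d → ℚ)) where
  carrier := {f | ∀ i, i ∉ J → ∀ j ∈ J, (h * kap f * h⁻¹) i j = 0}
  mul_mem' := by
    intro f f' hf hf' i hi j hj
    rw [map_mul, conj_mul hu, Matrix.mul_apply]
    refine Finset.sum_eq_zero fun l _ => ?_
    by_cases hl : l ∈ J
    · rw [hf i hi l hl, zero_mul]
    · rw [hf' l hl j hj, mul_zero]
  add_mem' := by
    intro f f' hf hf' i hi j hj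
    rw [map_add, Matrix.mul_add, Matrix.add_mul, Matrix.add_apply, hf i hi j hj, hf' i hi j hj,
      add_zero]
  algebraMap_mem' := by
    intro q i hi j hj
    have h1 : kap (algebraMap ℚ (Module.End ℚ (Fin d → ℚ)) q) = (q : ℝ) • (1 : Matrix (Fin d) (Fin d) ℝ) := by
      rw [Algebra.algebraMap_eq_smul_one, kap_smul, map_one]
    rw [h1, Matrix.mul_smul, Matrix.mul_one, Matrix.smul_mul, Matrix.mul_nonsing_inv _ hu,
      Matrix.smul_apply, Matrix.one_apply_ne (show i ≠ j from fun hij => hi (by rw [hij]; exact hj)),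
      smul_zero]

lemma mem_algJ {h : Matrix (Fin d) (Fin d) ℝ} {hu : IsUnit h.det} {J : Finset (Fin d)}
    {f : Module.End ℚ (Fin d → ℚ)} :
    f ∈ algJ h hu J ↔ ∀ i, i ∉ J → ∀ j ∈ J, (h * kap f * h⁻¹) i j = 0 := Iff.rfl

/-- **An algebraic row.** If the common kernel of the rows outside `J` is locally constant at a point
of a minimal set, where the number of elements of `J` is prime to `d`, then every row outside `J`
which is a block of its own is algebraic of degree at most `d`. -/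
theorem block_alg (hd : 2 ≤ d) {π : Fin d → Fin d} {V ν : ℝ} (hV : 0 < V) (hν : 0 < ν)
    {Q : Set (Matrix (Fin d) (Fin d) ℝ)} (hQdet : ∀ h ∈ Q, |h.det| = V)
    (hQnu : ∀ h ∈ Q, HasNu h ν) (hQ : MinB π Q) {h₀ : Matrix (Fin d) (Fin d) ℝ} (hh₀ : h₀ ∈ Q)
    {J : Finset (Fin d)} (hco : Nat.Coprime J.card d) {i : Fin d} (hiJ : i ∉ J)
    (hi : ∀ l, π l = π i → l = i)
    (hloc : ∀ᶠ h in 𝓝[Q] h₀, ∀ i', i' ∉ J → ∀ j ∈ J, (h * h₀⁻¹) i' j = 0) :
    ∃ K : IntermediateField ℚ ℝ, FiniteDimensional ℚ K ∧ Module.finrank ℚ K ≤ d ∧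
      ∃ s : ℝ, s ≠ 0 ∧ ∀ j, s * h₀ i j ∈ K := by
  classical
  have hd0 : 0 < d := by omega
  have hdet : |h₀.det| = V := hQdet _ hh₀
  have hnu : HasNu h₀ ν := hQnu _ hh₀
  have hdet0 : h₀.det ≠ 0 := by
    intro h0
    rw [h0, abs_zero] at hdet
    exact hV.ne hdet
  have hu : IsUnit h₀.det := isUnit_iff_ne_zero.2 hdet0
  obtain ⟨W, hW, hWe⟩ := mem_nhdsWithin_iff_exists_mem_nhds_inter.1 hloc
  obtain ⟨c, γ, hγ, hlim⟩ := exists_return_seq hd hV hν hQdet hQnu hQ hh₀ hi hW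
  set e : Matrix (Fin d) (Fin d) ℝ := h₀⁻¹ * diagonal (Pi.single i 1) * h₀ with he
  set 𝒜 := algJ h₀ hu J with h𝒜
  have hst : IsScalarTower ℚ 𝒜 (Fin d → ℚ) := ⟨fun q f v => rfl⟩
  have hγ𝒜 : ∀ n, fz (γ n) ∈ 𝒜 := by
    intro n i' hi' j hj
    obtain ⟨a, ha, hmem⟩ := hγ n
    have h1 := hWe ⟨hmem.2, hmem.1⟩ i' hi' j hj
    rw [Matrix.mul_assoc, Matrix.mul_assoc, Matrix.diagonal_mul] at h1
    rw [kap_fz, Matrix.mul_assoc]
    exact (mul_eq_zero.1 h1).resolve_left (ha.1 i').ne'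
  -- the idempotent
  set ci : Fin d → ℝ := fun a => h₀⁻¹ a i with hci
  have he_vec : ∀ v : Fin d → ℝ, e *ᵥ v = (h₀ *ᵥ v) i • ci := by
    intro v
    rw [he, ← Matrix.mulVec_mulVec, ← Matrix.mulVec_mulVec]
    have h1 : (diagonal (Pi.single i (1 : ℝ)) *ᵥ (h₀ *ᵥ v)) = (h₀ *ᵥ v) i • Pi.single i (1 : ℝ) := by
      funext a
      rw [Matrix.mulVec_diagonal, Pi.smul_apply, smul_eq_mul]
      by_cases ha : a = i
      · subst ha; rw [mul_comm]
      · rw [Pi.single_eq_of_ne ha, zero_mul, mul_zero]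
    rw [h1, Matrix.mulVec_smul, Matrix.mulVec_single_one]
    rfl
  have he_row : ∀ p : Fin d → ℝ, p ᵥ* e = (p ᵥ* h₀⁻¹) i • h₀ i := by
    intro p
    rw [he, ← Matrix.vecMul_vecMul, ← Matrix.vecMul_vecMul]
    have h1 : ((p ᵥ* h₀⁻¹) ᵥ* diagonal (Pi.single i (1 : ℝ))) =
        (p ᵥ* h₀⁻¹) i • Pi.single i (1 : ℝ) := by
      funext a
      rw [Matrix.vecMul_diagonal, Pi.smul_apply, smul_eq_mul]
      by_cases ha : a = i
      · subst ha; rfl
      · rw [Pi.single_eq_of_ne ha, mul_zero, mul_zero]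
    rw [h1, Matrix.smul_vecMul, Matrix.single_one_vecMul]
    rfl
  have hcii : (h₀ *ᵥ ci) i = 1 := by
    have h1 : ci = h₀⁻¹ *ᵥ Pi.single i 1 := by
      rw [Matrix.mulVec_single_one]; rfl
    rw [h1, Matrix.mulVec_mulVec, Matrix.mul_nonsing_inv _ hu, Matrix.one_mulVec,
      Pi.single_eq_same]
  have hdual : ∀ r : Fin d → ℚ, cR r ⬝ᵥ ci = 0 → r = 0 := fun r hr =>
    dual_ne_rat hd hV hν hdet hnu i r hr
  -- irreducibility
  have hsimple : IsSimpleModule 𝒜 (Fin d → ℚ) := by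
    have hnt : Nontrivial (Submodule 𝒜 (Fin d → ℚ)) := by
      refine ⟨⊥, ⊤, fun hbt => ?_⟩
      have h1 : (Pi.single i (1 : ℚ) : Fin d → ℚ) ∈ (⊥ : Submodule 𝒜 (Fin d → ℚ)) := by
        rw [hbt]; trivial
      rw [Submodule.mem_bot] at h1
      have := congrFun h1 i
      simp at this
    have hso : ∀ W : Submodule 𝒜 (Fin d → ℚ), W = ⊥ ∨ W = ⊤ := by
      intro W
      by_contra hcon
      rw [not_or] at hcon
      obtain ⟨x, hx, hx0⟩ := (Submodule.ne_bot_iff W).1 hcon.1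
      have hlt : W.restrictScalars ℚ < ⊤ := by
        rw [lt_top_iff_ne_top]
        intro htop
        apply hcon.2
        rw [eq_top_iff]
        intro v _
        have : v ∈ W.restrictScalars ℚ := by rw [htop]; trivial
        exact this
      obtain ⟨φ, hφ0, hφ⟩ := Submodule.exists_le_ker_of_lt_top _ hlt
      set r : Fin d → ℚ := fun j => φ (Pi.single j 1) with hr
      have hrep : ∀ v : Fin d → ℚ, φ v = r ⬝ᵥ v := by
        intro v
        have h1 : v = ∑ s, v s • (Pi.single s (1 : ℚ) : Fin d → ℚ) := by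
          funext t
          simp [Finset.sum_apply, Pi.single_apply]
        conv_lhs => rw [h1]
        rw [map_sum]
        simp only [map_smul, smul_eq_mul, dotProduct, hr]
        exact Finset.sum_congr rfl fun s _ => mul_comm _ _
      have hr0 : r ≠ 0 := by
        intro h0
        apply hφ0
        ext s
        have : φ (Pi.single s 1) = 0 := congrFun h0 s
        simpa using this
      set L : Matrix (Fin d) (Fin d) ℝ →ₗ[ℝ] ℝ :=
        { toFun := fun M => cR r ⬝ᵥ (M *ᵥ cR x)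
          map_add' := fun M N => by rw [Matrix.add_mulVec, dotProduct_add]
          map_smul' := fun t M => by
            rw [Matrix.smul_mulVec, dotProduct_smul, RingHom.id_apply] } with hL
      have h1 : L e = 0 := by
        refine lim_zero L (fun n => ?_) hlim
        show cR r ⬝ᵥ (zR (γ n) *ᵥ cR x) = 0
        rw [← kap_fz, kap_mulVec]
        have h2 : (⟨fz (γ n), hγ𝒜 n⟩ : 𝒜) • x ∈ W := W.smul_mem _ hx
        have h3 : fz (γ n) x ∈ LinearMap.ker φ := hφ h2
        rw [LinearMap.mem_ker, hrep] at h3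
        have h4 : cR r ⬝ᵥ cR (fz (γ n) x) = ((r ⬝ᵥ (fz (γ n) x) : ℚ) : ℝ) := by
          simp only [dotProduct, cR]
          push_cast
          rfl
        rw [h4, h3]
        norm_num
      have h2 : L e = cR r ⬝ᵥ (e *ᵥ cR x) := rfl
      rw [h2, he_vec, dotProduct_smul, smul_eq_mul] at h1
      rcases mul_eq_zero.1 h1 with h3 | h3
      · exact hx0 (row_ne_rat hν hnu i x h3)
      · exact hr0 (hdual r h3)
    have hsio : IsSimpleOrder (Submodule 𝒜 (Fin d → ℚ)) := { eq_bot_or_eq_top := hso }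
    exact (isSimpleModule_iff _ _).2 hsio
  -- the centraliser is commutative
  have hD : ∀ N N' : Module.End 𝒜 (Fin d → ℚ), N * N' = N' * N := by
    have hval : ∀ N : Module.End 𝒜 (Fin d → ℚ), ∃ t : ℝ,
        kap (N.restrictScalars ℚ) *ᵥ ci = t • ci := by
      intro N
      set f : Module.End ℚ (Fin d → ℚ) := N.restrictScalars ℚ with hf
      have hcomm : ∀ n, kap f * zR (γ n) = zR (γ n) * kap f := by
        intro n
        rw [← kap_fz, ← map_mul, ← map_mul]
        congr 1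
        refine LinearMap.ext fun v => ?_
        exact N.map_smul (⟨fz (γ n), hγ𝒜 n⟩ : 𝒜) v
      have h1 : (LinearMap.mulLeft ℝ (kap f) - LinearMap.mulRight ℝ (kap f)) e = 0 := by
        refine lim_zero _ (fun n => ?_) hlim
        rw [LinearMap.sub_apply, LinearMap.mulLeft_apply, LinearMap.mulRight_apply, hcomm, sub_self]
      rw [LinearMap.sub_apply, LinearMap.mulLeft_apply, LinearMap.mulRight_apply,
        sub_eq_zero] at h1
      refine ⟨(h₀ *ᵥ (kap f *ᵥ ci)) i, ?_⟩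
      have h2 : e *ᵥ ci = ci := by rw [he_vec, hcii, one_smul]
      calc kap f *ᵥ ci = kap f *ᵥ (e *ᵥ ci) := by rw [h2]
        _ = e *ᵥ (kap f *ᵥ ci) := by rw [Matrix.mulVec_mulVec, h1, ← Matrix.mulVec_mulVec]
        _ = _ := he_vec _
    intro N N'
    obtain ⟨t, ht⟩ := hval N
    obtain ⟨t', ht'⟩ := hval N'
    set f : Module.End ℚ (Fin d → ℚ) := N.restrictScalars ℚ with hf
    set f' : Module.End ℚ (Fin d → ℚ) := N'.restrictScalars ℚ with hf'
    have h1 : kap (f * f' - f' * f) *ᵥ ci = 0 := by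
      rw [map_sub, map_mul, map_mul, Matrix.sub_mulVec, ← Matrix.mulVec_mulVec,
        ← Matrix.mulVec_mulVec, ht, ht', Matrix.mulVec_smul, Matrix.mulVec_smul, ht, ht',
        smul_smul, smul_smul, mul_comm, sub_self]
    have h2 : f * f' - f' * f = 0 := by
      have h3 : ∀ a, (fun b => (f * f' - f' * f) (Pi.single b 1) a) = 0 := by
        intro a
        apply hdual
        have h4 := congrFun h1 a
        rw [Pi.zero_apply] at h4
        rw [← h4]
        simp only [Matrix.mulVec, dotProduct, cR, kap_apply]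
      ext b a
      exact congrFun (h3 a) b
    refine LinearMap.ext fun v => ?_
    have h3 := LinearMap.congr_fun h2 v
    rw [LinearMap.sub_apply, LinearMap.zero_apply, sub_eq_zero] at h3
    exact h3
  -- the block homomorphism
  let ψ : 𝒜 →+* Matrix J J ℝ :=
    { toFun := fun f => (h₀ * kap f.1 * h₀⁻¹).submatrix Subtype.val Subtype.val
      map_one' := by
        have h1 : kap ((1 : 𝒜) : Module.End ℚ (Fin d → ℚ)) = 1 := map_one kap
        rw [h1, Matrix.mul_one, Matrix.mul_nonsing_inv _ hu]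
        exact Matrix.submatrix_one _ Subtype.val_injective
      map_mul' := by
        intro f f'
        have h1 : kap ((f * f' : 𝒜) : Module.End ℚ (Fin d → ℚ)) = kap f.1 * kap f'.1 :=
          map_mul kap _ _
        rw [h1, conj_mul hu]
        ext a b
        rw [Matrix.submatrix_apply, Matrix.mul_apply, Matrix.mul_apply,
          ← Finset.sum_subset (Finset.subset_univ J) (fun l _ hl => by
            rw [(mem_algJ.1 f'.2) l hl b.1 b.2, mul_zero]), ← Finset.sum_coe_sort J]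
        rfl
      map_zero' := by
        have h1 : kap ((0 : 𝒜) : Module.End ℚ (Fin d → ℚ)) = 0 := map_zero kap
        rw [h1, Matrix.mul_zero, Matrix.zero_mul]
        rfl
      map_add' := by
        intro f f'
        have h1 : kap ((f + f' : 𝒜) : Module.End ℚ (Fin d → ℚ)) = kap f.1 + kap f'.1 :=
          map_add kap _ _
        rw [h1, Matrix.mul_add, Matrix.add_mul]
        rfl }
  let φ : 𝒜 →+* Matrix (Fin d) (Fin d) ℚ :=
    ((LinearMap.toMatrixAlgEquiv' (R := ℚ) (n := Fin d) :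
      Module.End ℚ (Fin d → ℚ) ≃ₐ[ℚ] Matrix (Fin d) (Fin d) ℚ).toRingEquiv.toRingHom).comp
      𝒜.val.toRingHom
  have hcomm := RingLem.comm_of_coprime 𝒜 hD φ ψ (by rw [Fintype.card_fin, Fintype.card_coe]; exact hco)
  -- the row is a joint eigenvector
  have hrow : ∀ σ : Matrix (Fin d) (Fin d) ℤ, fz σ ∈ 𝒜 →
      h₀ i ᵥ* zR σ = (h₀ * zR σ * h₀⁻¹) i i • h₀ i := by
    intro σ hσ
    have h1 : (LinearMap.mulLeft ℝ (zR σ) - LinearMap.mulRight ℝ (zR σ)) e = 0 := by
      refine lim_zero _ (fun n => ?_) hlim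
      have h2 := congrArg Subtype.val (hcomm ⟨fz σ, hσ⟩ ⟨fz (γ n), hγ𝒜 n⟩)
      have h3 : fz σ * fz (γ n) = fz (γ n) * fz σ := h2
      have h4 := congrArg kap h3
      rw [map_mul, map_mul, kap_fz, kap_fz] at h4
      rw [LinearMap.sub_apply, LinearMap.mulLeft_apply, LinearMap.mulRight_apply, h4, sub_self]
    rw [LinearMap.sub_apply, LinearMap.mulLeft_apply, LinearMap.mulRight_apply,
      sub_eq_zero] at h1
    have h2 : h₀ i ᵥ* e = h₀ i := by
      rw [he_row]
      have h3 : (h₀ i ᵥ* h₀⁻¹) i = 1 := by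
        have h4 : (h₀ i ᵥ* h₀⁻¹) i = (h₀ * h₀⁻¹) i i := rfl
        rw [h4, Matrix.mul_nonsing_inv _ hu, Matrix.one_apply_eq]
      rw [h3, one_smul]
    calc h₀ i ᵥ* zR σ = (h₀ i ᵥ* e) ᵥ* zR σ := by rw [h2]
      _ = h₀ i ᵥ* (zR σ * e) := by rw [Matrix.vecMul_vecMul, h1]
      _ = ((h₀ i ᵥ* zR σ) ᵥ* h₀⁻¹) i • h₀ i := by rw [← Matrix.vecMul_vecMul, he_row]
      _ = _ := rfl
  refine alg_of_line hd0 (h₀ i) ?_ {σ | fz σ ∈ 𝒜} ?_
  · intro m hm
    by_contra hm0
    have h1 := hnu m hm0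
    have h2 : (h₀ *ᵥ iR m) i = 0 := hm
    rw [FF_eq, Finset.prod_eq_zero (Finset.mem_univ i) h2, abs_zero] at h1
    exact absurd h1 (not_le.2 hν)
  · intro p' hp'
    set L : Matrix (Fin d) (Fin d) ℝ →ₗ[ℝ] (Fin d → ℝ) :=
      { toFun := fun M => p' ᵥ* M - ((h₀ * M * h₀⁻¹) i i) • p'
        map_add' := fun M N => by
          rw [Matrix.vecMul_add, Matrix.mul_add, Matrix.add_mul, Matrix.add_apply, add_smul]
          abel
        map_smul' := fun t M => by
          rw [Matrix.vecMul_smul, Matrix.mul_smul, Matrix.smul_mul, Matrix.smul_apply,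
            RingHom.id_apply, smul_sub, smul_eq_mul, mul_smul] } with hL
    have h1 : L e = 0 := by
      refine lim_zero L (fun n => ?_) hlim
      show p' ᵥ* zR (γ n) - ((h₀ * zR (γ n) * h₀⁻¹) i i) • p' = 0
      rw [sub_eq_zero]
      exact hp' (γ n) (hγ𝒜 n) _ (hrow (γ n) (hγ𝒜 n))
    have h2 : p' ᵥ* e - ((h₀ * e * h₀⁻¹) i i) • p' = 0 := h1
    have h3 : h₀ * e * h₀⁻¹ = diagonal (Pi.single i 1) := by
      rw [he]
      calc h₀ * (h₀⁻¹ * diagonal (Pi.single i 1) * h₀) * h₀⁻¹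
          = (h₀ * h₀⁻¹) * diagonal (Pi.single i 1) * (h₀ * h₀⁻¹) := by
            simp only [Matrix.mul_assoc]
        _ = _ := by rw [Matrix.mul_nonsing_inv _ hu, Matrix.one_mul, Matrix.mul_one]
    rw [h3, Matrix.diagonal_apply_eq, Pi.single_eq_same, one_smul, sub_eq_zero, he_row] at h2
    exact ⟨_, h2.symm⟩

/-- In a counterexample the common kernel of the rows outside `J` is not locally constant. -/
theorem frequently_block (hd : 3 ≤ d) {g : Matrix (Fin d) (Fin d) ℝ} (hg : g.det ≠ 0) {ν : ℝ}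
    (hν : 0 < ν) (hnu : HasNu g ν) (hint : ¬ PropInt g) {π : Fin d → Fin d}
    {Q : Set (Matrix (Fin d) (Fin d) ℝ)} (hQg : Q ⊆ closure (Orb g)) (hQ : MinB π Q)
    {h₀ : Matrix (Fin d) (Fin d) ℝ} (hh₀ : h₀ ∈ Q) {J : Finset (Fin d)}
    (hco : Nat.Coprime J.card d) {i : Fin d} (hiJ : i ∉ J) (hi : ∀ l, π l = π i → l = i) :
    ∃ᶠ h in 𝓝[Q] h₀, ∃ i', i' ∉ J ∧ ∃ j ∈ J, (h * h₀⁻¹) i' j ≠ 0 := by
  by_contra hcon
  rw [Filter.not_frequently] at hcon
  push Not at hcon
  have hQdet : ∀ h ∈ Q, |h.det| = |g.det| := fun h hh => abs_det_closure (hQg hh)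
  have hQnu : ∀ h ∈ Q, HasNu h ν := fun h hh => hasNu_closure hnu (hQg hh)
  obtain ⟨K, hfin, hrank, s, hs, hmem⟩ :=
    block_alg (by omega) (abs_pos.2 hg) hν hQdet hQnu hQ hh₀ hco hiJ hi hcon
  rcases limit_alg hd hg (hQg hh₀) i s hs K hrank hmem with h1 | h1 | h1
  · obtain ⟨x, hx, hx0⟩ := h1
    have h2 := hQnu _ hh₀ x hx
    have h3 : (h₀ *ᵥ iR x) i = 0 := hx0
    rw [FF_eq, Finset.prod_eq_zero (Finset.mem_univ i) h3, abs_zero] at h2
    exact absurd h2 (not_le.2 hν)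
  · exact hint h1
  · obtain ⟨x, hx, hx1⟩ := dense_ne (by omega) h1 0 ν hν
    rw [sub_zero] at hx1
    exact absurd (hnu x hx) (not_le.2 hx1)

end Pool.Agent.Y327
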