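import Mathlib
import Pool.Agent.Y327.BlockAlg

/-! # Pairs from a block -/

open Filter Topology Matrix

namespace Pool.Agent.Y327

open H715R2

variable {d : ℕ}

/-- a diagonal matrix with two values -/
lemma exists_b2 {π : Fin d → Fin d} {J : Finset (Fin d)} (hJ : ∀ a b, π a = π b → a ∈ J → b ∈ J)
    {ρ : ℝ} (hρ : 0 < ρ) (hd : 0 < d) : ∃ b : Fin d → ℝ, BB π b ∧
      (∀ i, i ∉ J → ∀ j ∈ J, b i = ρ * b j) ∧ (∀ i ∈ J, ∀ j ∈ J, b i = b j) ∧
      ∀ i, i ∉ J → ∀ j, j ∉ J → b i = b j := by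
  classical
  have hdR : (0 : ℝ) < d := by exact_mod_cast hd
  set s : ℝ := Real.log ρ with hs
  set x : ℝ := Real.exp (-(s * ((Jᶜ.card : ℕ) : ℝ)) / d) with hx
  set y : ℝ := Real.exp (s * ((J.card : ℕ) : ℝ) / d) with hy
  have hcard : ((Jᶜ.card : ℕ) : ℝ) + ((J.card : ℕ) : ℝ) = d := by
    have h1 : Jᶜ.card + J.card = d := by
      rw [Finset.card_compl_add_card, Fintype.card_fin]
    exact_mod_cast h1
  have hxy : y = ρ * x := by
    rw [hx, hy]
    nth_rewrite 1 [← Real.exp_log hρ]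
    rw [← Real.exp_add, ← hs]
    congr 1
    field_simp
    rw [← hcard]
    ring
  refine ⟨fun l => if l ∈ J then x else y, ⟨fun i => ?_, ?_, fun i j hij => ?_⟩,
    fun i hi j hj => ?_, fun i hi j hj => ?_, fun i hi j hj => ?_⟩
  · dsimp only
    split_ifs <;> exact Real.exp_pos _
  · rw [← Finset.prod_mul_prod_compl J]
    have h1 : ∏ l ∈ J, (if l ∈ J then x else y) = x ^ J.card := by
      rw [Finset.prod_congr rfl (fun l hl => if_pos hl), Finset.prod_const]
    have h2 : ∏ l ∈ Jᶜ, (if l ∈ J then x else y) = y ^ Jᶜ.card := by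
      rw [Finset.prod_congr rfl (fun l hl => if_neg (Finset.mem_compl.1 hl)), Finset.prod_const]
    rw [h1, h2, hx, hy, ← Real.exp_nat_mul, ← Real.exp_nat_mul, ← Real.exp_add,
      Real.exp_eq_one_iff]
    field_simp
    ring
  · dsimp only
    by_cases hi : i ∈ J
    · rw [if_pos hi, if_pos (hJ i j hij hi)]
    · have hj : j ∉ J := fun hj => hi (hJ j i hij.symm hj)
      rw [if_neg hi, if_neg hj]
  · dsimp only
    rw [if_neg hi, if_pos hj]
    exact hxy
  · dsimp only
    rw [if_pos hi, if_pos hj]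
  · dsimp only
    rw [if_neg hi, if_neg hj]

/-- **Pairs which differ by a block.** -/
theorem tj_pair (hd : 0 < d) {π : Fin d → Fin d} {V ν : ℝ} (hV : 0 < V) (hν : 0 < ν)
    {Q : Set (Matrix (Fin d) (Fin d) ℝ)} (hQdet : ∀ h ∈ Q, |h.det| = V)
    (hQnu : ∀ h ∈ Q, HasNu h ν) (hQc : IsClosed Q) (hQinv : InvB π Q)
    {h₀ : Matrix (Fin d) (Fin d) ℝ} (hh₀ : h₀ ∈ Q) {J : Finset (Fin d)}
    (hJ : ∀ a b, π a = π b → a ∈ J → b ∈ J)
    (hfr : ∃ᶠ h in 𝓝[Q] h₀, ∃ i, i ∉ J ∧ ∃ j ∈ J, (h * h₀⁻¹) i j ≠ 0) :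
    ∃ h' ∈ Q, ∃ X : Matrix (Fin d) (Fin d) ℝ, X ≠ 0 ∧ (∀ i j, X i j ≠ 0 → i ∉ J ∧ j ∈ J) ∧
      (1 + X) * h' ∈ Q := by
  classical
  have hdet : |h₀.det| = V := hQdet _ hh₀
  have hdet0 : h₀.det ≠ 0 := by
    intro h0
    rw [h0, abs_zero] at hdet
    exact hV.ne hdet
  have hu : IsUnit h₀.det := isUnit_iff_ne_zero.2 hdet0
  obtain ⟨hs, hs1, hs2⟩ := Filter.exists_seq_forall_of_frequently
    (hfr.and_eventually self_mem_nhdsWithin)
  have hslim : Tendsto hs atTop (𝓝 h₀) := hs1.mono_right nhdsWithin_le_nhds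
  set q : ℕ → Matrix (Fin d) (Fin d) ℝ := fun n => hs n * h₀⁻¹ with hq
  have hqh : ∀ n, q n * h₀ = hs n := fun n => by
    rw [hq, Matrix.mul_assoc, Matrix.nonsing_inv_mul _ hu, Matrix.mul_one]
  have hqlim : Tendsto q atTop (𝓝 1) := by
    have h1 : Tendsto q atTop (𝓝 (h₀ * h₀⁻¹)) := hslim.mul tendsto_const_nhds
    rwa [Matrix.mul_nonsing_inv _ hu] at h1
  have hqent : ∀ i j, Tendsto (fun n => q n i j) atTop
      (𝓝 ((1 : Matrix (Fin d) (Fin d) ℝ) i j)) := fun i j =>
    ((continuous_apply_apply i j).tendsto (1 : Matrix (Fin d) (Fin d) ℝ)).comp hqlim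
  set lam : ℕ → ℝ := fun n => ∑ i, ∑ j, if i ∉ J ∧ j ∈ J then |q n i j| else 0 with hlam
  have hnn : ∀ n i j, 0 ≤ if i ∉ J ∧ j ∈ J then |q n i j| else 0 := by
    intro n i j
    split_ifs
    · exact abs_nonneg _
    · exact le_rfl
  have hle : ∀ n i j, i ∉ J → j ∈ J → |q n i j| ≤ lam n := by
    intro n i j hi hj
    have h1 : (if i ∉ J ∧ j ∈ J then |q n i j| else 0) ≤
        ∑ j, if i ∉ J ∧ j ∈ J then |q n i j| else 0 :=
      Finset.single_le_sum (f := fun j => if i ∉ J ∧ j ∈ J then |q n i j| else 0)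
        (fun j _ => hnn n i j) (Finset.mem_univ j)
    have h2 : (∑ j, if i ∉ J ∧ j ∈ J then |q n i j| else 0) ≤ lam n :=
      Finset.single_le_sum (f := fun i => ∑ j, if i ∉ J ∧ j ∈ J then |q n i j| else 0)
        (fun i _ => Finset.sum_nonneg fun j _ => hnn n i j) (Finset.mem_univ i)
    rw [if_pos ⟨hi, hj⟩] at h1
    exact h1.trans h2
  have hlam0 : ∀ n, 0 < lam n := by
    intro n
    obtain ⟨i, hi, j, hj, hne⟩ := (hs2 n).1
    exact (abs_pos.2 hne).trans_le (hle n i j hi hj)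
  have hlamlim : Tendsto lam atTop (𝓝 0) := by
    have h1 : Tendsto lam atTop (𝓝 (∑ i : Fin d, ∑ j : Fin d, (0 : ℝ))) := by
      refine tendsto_finsetSum _ fun i _ => tendsto_finsetSum _ fun j _ => ?_
      by_cases hij : i ∉ J ∧ j ∈ J
      · simp only [if_pos hij]
        have h2 := (hqent i j).abs
        rw [Matrix.one_apply_ne (show i ≠ j from fun h => hij.1 (by rw [h]; exact hij.2)),
          abs_zero] at h2
        exact h2
      · simp only [if_neg hij]
        exact tendsto_const_nhds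
    simpa using h1
  choose b hb hbk hbJ hbT using fun n => exists_b2 hJ (inv_pos.2 (hlam0 n)) hd
  -- the normalised block
  set y : ℕ → Matrix (Fin d) (Fin d) ℝ := fun n => Matrix.of fun i j =>
    if i ∉ J ∧ j ∈ J then q n i j / lam n else 0 with hy
  have hyent : ∀ n i j, y n i j = if i ∉ J ∧ j ∈ J then q n i j / lam n else 0 := fun n i j => rfl
  have hyb : ∀ n, y n ∈ {h : Matrix (Fin d) (Fin d) ℝ | ∀ i j, |h i j| ≤ 1} := by
    intro n i j
    rw [hyent]
    by_cases hij : i ∉ J ∧ j ∈ J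
    · rw [if_pos hij, abs_div, abs_of_pos (hlam0 n), div_le_one (hlam0 n)]
      exact hle n i j hij.1 hij.2
    · rw [if_neg hij, abs_zero]
      exact zero_le_one
  obtain ⟨X, -, φ, hφ, hX⟩ := (isCompact_box (d := d) 1).tendsto_subseq hyb
  have hXent : ∀ i j, Tendsto (fun n => y (φ n) i j) atTop (𝓝 (X i j)) := fun i j =>
    ((continuous_apply_apply i j).tendsto X).comp hX
  have hXsupp : ∀ i j, X i j ≠ 0 → i ∉ J ∧ j ∈ J := by
    intro i j hne
    by_contra hij
    apply hne
    refine tendsto_nhds_unique (hXent i j) ?_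
    simp only [hyent, if_neg hij]
    exact tendsto_const_nhds
  have hX0 : X ≠ 0 := by
    have hsum : ∑ i, ∑ j, |X i j| = 1 := by
      have h1 : Tendsto (fun n => ∑ i, ∑ j, |y (φ n) i j|) atTop (𝓝 (∑ i, ∑ j, |X i j|)) :=
        tendsto_finsetSum _ fun i _ => tendsto_finsetSum _ fun j _ => (hXent i j).abs
      have h2 : (fun n => ∑ i, ∑ j, |y (φ n) i j|) = fun _ => (1 : ℝ) := by
        funext n
        have h3 : ∀ i j, |y (φ n) i j| =
            (if i ∉ J ∧ j ∈ J then |q (φ n) i j| else 0) / lam (φ n) := by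
          intro i j
          rw [hyent]
          split_ifs
          · rw [abs_div, abs_of_pos (hlam0 (φ n))]
          · rw [abs_zero, zero_div]
        simp only [h3]
        rw [Finset.sum_congr rfl (fun i _ => (Finset.sum_div _ _ _).symm), ← Finset.sum_div]
        exact div_self (hlam0 (φ n)).ne'
      rw [h2] at h1
      exact tendsto_nhds_unique h1 tendsto_const_nhds
    intro h0
    rw [h0] at hsum
    simp at hsum
  have hlimX : Tendsto (fun n => diagonal (b (φ n)) * q (φ n) *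
      diagonal (fun i => (b (φ n) i)⁻¹)) atTop (𝓝 (1 + X)) := by
    refine tendsto_pi_nhds.2 fun i => tendsto_pi_nhds.2 fun j => ?_
    have hent : ∀ n, (diagonal (b (φ n)) * q (φ n) * diagonal (fun i => (b (φ n) i)⁻¹)) i j
        = b (φ n) i * q (φ n) i j * (b (φ n) j)⁻¹ := by
      intro n
      rw [Matrix.mul_diagonal, Matrix.diagonal_mul]
    simp only [hent, Matrix.add_apply]
    have hqij := (hqent i j).comp hφ.tendsto_atTop
    by_cases hi : i ∈ J
    · have hXij : X i j = 0 := by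
        by_contra hne
        exact (hXsupp i j hne).1 hi
      rw [hXij, add_zero]
      by_cases hj : j ∈ J
      · have h2 : (fun n => b (φ n) i * q (φ n) i j * (b (φ n) j)⁻¹)
            = fun n => q (φ n) i j := by
          funext n
          have h4 := ((hb (φ n)).1 j).ne'
          rw [hbJ (φ n) i hi j hj]
          field_simp
        rw [h2]
        exact hqij
      · have h2 : (fun n => b (φ n) i * q (φ n) i j * (b (φ n) j)⁻¹)
            = fun n => q (φ n) i j * lam (φ n) := by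
          funext n
          have h4 := ((hb (φ n)).1 i).ne'
          have h6 := (hlam0 (φ n)).ne'
          rw [hbk (φ n) j hj i hi]
          field_simp
        rw [h2]
        have h7 := hqij.mul (hlamlim.comp hφ.tendsto_atTop)
        rw [mul_zero] at h7
        rw [Matrix.one_apply_ne (show i ≠ j from fun h => hj (by rw [← h]; exact hi))]
        exact h7
    · by_cases hj : j ∈ J
      · have h2 : (fun n => b (φ n) i * q (φ n) i j * (b (φ n) j)⁻¹)
            = fun n => y (φ n) i j := by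
          funext n
          have h4 := ((hb (φ n)).1 j).ne'
          rw [hyent, if_pos ⟨hi, hj⟩, hbk (φ n) i hi j hj]
          field_simp
        rw [h2, Matrix.one_apply_ne (show i ≠ j from fun h => hi (by rw [h]; exact hj)), zero_add]
        exact hXent i j
      · have hXij : X i j = 0 := by
          by_contra hne
          exact hj (hXsupp i j hne).2
        rw [hXij, add_zero]
        have h2 : (fun n => b (φ n) i * q (φ n) i j * (b (φ n) j)⁻¹)
            = fun n => q (φ n) i j := by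
          funext n
          have h4 := ((hb (φ n)).1 j).ne'
          rw [hbT (φ n) i hi j hj]
          field_simp
        rw [h2]
        exact hqij
  obtain ⟨h', hh', hh''⟩ := limit_pair hd hV hν hQdet hQnu hQc hQinv (h := fun _ => h₀)
    (q := fun n => q (φ n)) (b := fun n => b (φ n)) (fun _ => hh₀) (fun n => by
      simp only [hqh]; exact (hs2 (φ n)).2) (fun n => hb (φ n)) hlimX
  exact ⟨h', hh', X, hX0, hXsupp, hh''⟩

/-- **Reduction to one row.** -/
theorem isolate_row (hd : 0 < d) {π : Fin d → Fin d} {V ν : ℝ} (hV : 0 < V) (hν : 0 < ν)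
    {Q : Set (Matrix (Fin d) (Fin d) ℝ)} (hQdet : ∀ h ∈ Q, |h.det| = V)
    (hQnu : ∀ h ∈ Q, HasNu h ν) (hQc : IsClosed Q) (hQinv : InvB π Q) {J : Finset (Fin d)}
    (hJ : ∀ a b, π a = π b → a ∈ J → b ∈ J) {i : Fin d} (hiJ : i ∉ J)
    (hi : ∀ l, π l = π i → l = i) {h : Matrix (Fin d) (Fin d) ℝ} (hh : h ∈ Q)
    {X : Matrix (Fin d) (Fin d) ℝ} (hX : ∀ i j, X i j ≠ 0 → i ∉ J ∧ j ∈ J)
    (hXh : (1 + X) * h ∈ Q) :
    ∃ h' ∈ Q, Md {i} (fun _ => X i) * h' ∈ Q := by
  classical
  set T : Finset (Fin d) := insert i J with hT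
  have hTblock : ∀ a b, π a = π b → a ∈ T → b ∈ T := by
    intro a b hab ha
    rw [hT, Finset.mem_insert] at ha ⊢
    rcases ha with ha | ha
    · subst ha
      exact Or.inl (hi b hab.symm)
    · exact Or.inr (hJ a b hab ha)
  set ψ : Fin d → ℝ := fun l => if l ∈ T then ((Tᶜ.card : ℕ) : ℝ) else -((T.card : ℕ) : ℝ) with hψ
  have hψsum : ∑ l, ψ l = 0 := by
    have h1 : ∑ l, ψ l = ∑ l ∈ T, ψ l + ∑ l ∈ Tᶜ, ψ l := (Finset.sum_add_sum_compl T ψ).symm
    have h2 : ∑ l ∈ T, ψ l = (T.card : ℝ) * ((Tᶜ.card : ℕ) : ℝ) := by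
      rw [Finset.sum_congr rfl (fun l hl => (if_pos hl : ψ l = _)), Finset.sum_const, nsmul_eq_mul]
    have h3 : ∑ l ∈ Tᶜ, ψ l = (Tᶜ.card : ℝ) * (-((T.card : ℕ) : ℝ)) := by
      rw [Finset.sum_congr rfl (fun l hl => (if_neg (Finset.mem_compl.1 hl) : ψ l = _)),
        Finset.sum_const, nsmul_eq_mul]
    rw [h1, h2, h3]
    ring
  have hiT : i ∈ T := Finset.mem_insert_self _ _
  set b : ℕ → Fin d → ℝ := fun n l => Real.exp ((n : ℝ) * ψ l) with hb
  have hbB : ∀ n, BB π (b n) := by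
    intro n
    refine ⟨fun i => Real.exp_pos _, ?_, fun i j hij => ?_⟩
    · rw [hb]
      simp only
      rw [← Real.exp_sum, ← Finset.mul_sum, hψsum, mul_zero, Real.exp_zero]
    · simp only [hb, hψ]
      by_cases hi : i ∈ T
      · rw [if_pos hi, if_pos (hTblock i j hij hi)]
      · have hj : j ∉ T := fun hj => hi (hTblock j i hij.symm hj)
        rw [if_neg hi, if_neg hj]
  refine limit_pair hd hV hν hQdet hQnu hQc hQinv (h := fun _ => h)
    (q := fun _ => 1 + X) (b := b) (fun _ => hh) (fun _ => hXh) hbB ?_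
  refine tendsto_pi_nhds.2 fun a => tendsto_pi_nhds.2 fun j => ?_
  have hent : ∀ n, (diagonal (b n) * (1 + X) * diagonal (fun i => (b n i)⁻¹)) a j
      = b n a * (1 + X) a j * (b n j)⁻¹ := by
    intro n
    rw [Matrix.mul_diagonal, Matrix.diagonal_mul]
  simp only [hent]
  have hXd : ∀ a, X a a = 0 := by
    intro a
    by_contra hne
    obtain ⟨h1, h2⟩ := hX a a hne
    exact h1 h2
  by_cases haj : a = j
  · subst haj
    have h1 : (fun n => b n a * (1 + X) a a * (b n a)⁻¹) = fun _ => (1 : ℝ) := by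
      funext n
      have := ((hbB n).1 a).ne'
      rw [Matrix.add_apply, Matrix.one_apply_eq, hXd, add_zero, mul_one]
      exact mul_inv_cancel₀ this
    rw [h1]
    have h2 : Md {i} (fun _ => X i) a a = 1 := by
      simp only [Md, Matrix.add_apply, Matrix.one_apply_eq, Matrix.of_apply, Finset.mem_singleton]
      by_cases ha : a = i
      · rw [if_pos ha, ha, hXd, add_zero]
      · rw [if_neg ha, add_zero]
    rw [h2]
    exact tendsto_const_nhds
  · have hval : (1 + X) a j = X a j := by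
      rw [Matrix.add_apply, Matrix.one_apply_ne haj, zero_add]
    rw [hval]
    by_cases hai : a = i
    · have h2 : Md {i} (fun _ => X i) a j = X a j := by
        rw [Md, Matrix.add_apply, Matrix.one_apply_ne haj, Matrix.of_apply,
          if_pos (Finset.mem_singleton.2 hai), zero_add, hai]
      rw [h2]
      by_cases hXaj : X a j = 0
      · rw [hXaj]
        simp only [mul_zero, zero_mul]
        exact tendsto_const_nhds
      · have hjT : j ∈ T := Finset.mem_insert_of_mem (hX a j hXaj).2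
        have haT : a ∈ T := by rw [hai]; exact hiT
        have h3 : (fun n => b n a * X a j * (b n j)⁻¹) = fun _ => X a j := by
          funext n
          have h4 : b n a = b n j := by simp only [hb, hψ, if_pos haT, if_pos hjT]
          have := ((hbB n).1 j).ne'
          rw [h4]
          field_simp
        rw [h3]
        exact tendsto_const_nhds
    · have h2 : Md {i} (fun _ => X i) a j = 0 := by
        rw [Md, Matrix.add_apply, Matrix.one_apply_ne haj, Matrix.of_apply,
          if_neg (fun h => hai (Finset.mem_singleton.1 h)), zero_add]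
      rw [h2]
      by_cases hXaj : X a j = 0
      · rw [hXaj]
        simp only [mul_zero, zero_mul]
        exact tendsto_const_nhds
      · obtain ⟨haJ, hjJ⟩ := hX a j hXaj
        have hjT : j ∈ T := Finset.mem_insert_of_mem hjJ
        have haT : a ∉ T := by
          rw [hT, Finset.mem_insert, not_or]
          exact ⟨hai, haJ⟩
        have h3 : ∀ n : ℕ, b n a * X a j * (b n j)⁻¹
            = Real.exp ((n : ℝ) * (ψ a - ψ j)) * X a j := by
          intro n
          simp only [hb]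
          rw [mul_sub, Real.exp_sub]
          ring
        simp only [h3]
        have h4 : ψ a - ψ j < 0 := by
          simp only [hψ, if_neg haT, if_pos hjT]
          have h5 : (0 : ℝ) ≤ (Tᶜ.card : ℝ) := Nat.cast_nonneg _
          have h6 : (0 : ℝ) < (T.card : ℝ) := by
            exact_mod_cast Finset.card_pos.2 ⟨i, hiT⟩
          linarith
        have h6 : Tendsto (fun n : ℕ => Real.exp ((n : ℝ) * (ψ a - ψ j))) atTop (𝓝 0) :=
          Real.tendsto_exp_atBot.comp
            (tendsto_natCast_atTop_atTop.atTop_mul_const_of_neg h4)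
        have h7 := h6.mul_const (X a j)
        rwa [zero_mul] at h7

/-- **The block step.** -/
theorem block_step (hd : 3 ≤ d) {g : Matrix (Fin d) (Fin d) ℝ} (hg : g.det ≠ 0) {ν : ℝ}
    (hν : 0 < ν) (hnu : HasNu g ν) (hint : ¬ PropInt g) {π : Fin d → Fin d}
    {Q : Set (Matrix (Fin d) (Fin d) ℝ)} (hQg : Q ⊆ closure (Orb g)) (hQ : MinB π Q)
    {J : Finset (Fin d)} (hco : Nat.Coprime J.card d) (hJd : J.card < d)
    (hJ : ∀ a b, π a = π b → a ∈ J → b ∈ J) (hsing : ∀ i, i ∉ J → ∀ l, π l = π i → l = i) :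
    ∃ i, i ∉ J ∧ ∃ w : Fin d → ℝ, w ≠ 0 ∧ (∀ l, w l ≠ 0 → l ∈ J) ∧ ∃ h ∈ Q,
      Md {i} (fun _ => w) * h ∈ Q := by
  classical
  have hd0 : 0 < d := by omega
  have hQdet : ∀ h ∈ Q, |h.det| = |g.det| := fun h hh => abs_det_closure (hQg hh)
  have hQnu : ∀ h ∈ Q, HasNu h ν := fun h hh => hasNu_closure hnu (hQg hh)
  obtain ⟨h₀, hh₀⟩ := hQ.ne
  obtain ⟨i₀, hi₀⟩ : ∃ i₀, i₀ ∉ J := by
    by_contra hcon
    push Not at hcon
    have h1 : J = Finset.univ := Finset.eq_univ_iff_forall.2 hcon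
    rw [h1, Finset.card_univ, Fintype.card_fin] at hJd
    exact lt_irrefl _ hJd
  have hfr := frequently_block hd hg hν hnu hint hQg hQ hh₀ hco hi₀ (hsing i₀ hi₀)
  obtain ⟨h₁, hh₁, X, hX0, hXs, hX⟩ := tj_pair hd0 (abs_pos.2 hg) hν hQdet hQnu hQ.closed hQ.inv
    hh₀ hJ hfr
  obtain ⟨i, hi⟩ : ∃ i, X i ≠ 0 := by
    by_contra hcon
    push Not at hcon
    exact hX0 (funext hcon)
  obtain ⟨j, hj⟩ : ∃ j, X i j ≠ 0 := by
    by_contra hcon
    push Not at hcon
    exact hi (funext hcon)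
  have hiJ : i ∉ J := (hXs i j hj).1
  obtain ⟨h₂, hh₂, hw₂⟩ := isolate_row hd0 (abs_pos.2 hg) hν hQdet hQnu hQ.closed hQ.inv hJ hiJ
    (hsing i hiJ) hh₁ hXs hX
  exact ⟨i, hiJ, X i, hi, fun l hl => (hXs i l hl).2, h₂, hh₂, hw₂⟩

end Pool.Agent.Y327
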