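import Mathlib
import Pool.Agent.Y327.RowPair

/-! # Cubes in the orbit closure of a counterexample -/

open Filter Topology Matrix

namespace Pool.Agent.Y327

open H715R2

variable {d : ℕ}

lemma Md_empty (W : Fin d → Fin d → ℝ) : Md ∅ W = 1 := by
  ext i j
  simp [Md]

open scoped Classical in
/-- the indices which are blocks of their own -/
noncomputable def singles (π : Fin d → Fin d) : Finset (Fin d) :=
  Finset.univ.filter (fun k => ∀ l, π l = π k → l = k)

lemma mem_singles {π : Fin d → Fin d} {k : Fin d} :
    k ∈ singles π ↔ ∀ l, π l = π k → l = k := by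
  simp [singles]

theorem cube (hd : 3 ≤ d) {g : Matrix (Fin d) (Fin d) ℝ} (hg : g.det ≠ 0) {ν : ℝ}
    (hν : 0 < ν) (hnu : HasNu g ν) (hint : ¬ PropInt g) (i : Fin d) :
    ∀ r : ℕ, 2 * r ≤ d + 1 → ∃ (π : Fin d → Fin d) (K : Finset (Fin d))
      (W : Fin d → Fin d → ℝ) (Q : Set (Matrix (Fin d) (Fin d) ℝ)),
      K.card = r ∧ (0 < r → i ∈ K) ∧
      (∀ k ∈ K, W k k = 0 ∧ W k ≠ 0 ∧ ∀ l, W k l ≠ 0 → π l = π k) ∧
      IsClosed Q ∧ Q.Nonempty ∧ InvB π Q ∧
      (∀ h ∈ Q, ∀ S ⊆ K, Md S W * h ∈ closure (Orb g)) ∧
      d ≤ (singles π).card + 2 * r := by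
  classical
  have hd0 : 0 < d := by omega
  intro r
  induction r with
  | zero =>
    intro _
    refine ⟨id, ∅, fun _ _ => 0, closure (Orb g), rfl, fun h => absurd h (lt_irrefl _),
      fun k hk => absurd hk (Finset.notMem_empty k), isClosed_closure,
      ⟨g, subset_closure (mem_orb_self g)⟩,
      fun h hh a γ ha hγ => closure_mul hh ha.1 ha.2.1 hγ, fun h hh S hS => ?_, ?_⟩
    · rw [Finset.subset_empty.1 hS, Md_empty, Matrix.one_mul]
      exact hh
    · have h1 : singles (id : Fin d → Fin d) = Finset.univ := by
        ext k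
        simp [singles]
      rw [h1, Finset.card_univ, Fintype.card_fin]
      omega
  | succ r ih =>
    intro hr
    obtain ⟨π, K, W, Q, hKc, hiK, hW, hQc, hQne, hQinv, hQcube, hsing⟩ := ih (by omega)
    have hQg : Q ⊆ closure (Orb g) := by
      intro h hh
      have := hQcube h hh ∅ (Finset.empty_subset _)
      rwa [Md_empty, Matrix.one_mul] at this
    have hdetc : ∀ h ∈ closure (Orb g), |h.det| = |g.det| := fun h hh => abs_det_closure hh
    have hnuc : ∀ h ∈ closure (Orb g), HasNu h ν := fun h hh => hasNu_closure hnu hh
    -- the new index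
    obtain ⟨k, hk, hki⟩ : ∃ k, (∀ l, π l = π k → l = k) ∧ (r = 0 → k = i) := by
      by_cases hr0 : r = 0
      · refine ⟨i, ?_, fun _ => rfl⟩
        have h1 : singles π = Finset.univ := by
          rw [← Finset.card_eq_iff_eq_univ, Fintype.card_fin]
          refine le_antisymm ?_ ?_
          · exact (Finset.card_le_univ _).trans (by simp)
          · rw [hr0] at hsing; omega
        exact mem_singles.1 (by rw [h1]; exact Finset.mem_univ i)
      · have h1 : 0 < (singles π).card := by omega
        obtain ⟨k, hk⟩ := Finset.card_pos.1 h1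
        exact ⟨k, mem_singles.1 hk, fun h => absurd h hr0⟩
    have hkK : k ∉ K := by
      intro hkK
      obtain ⟨h1, h2, h3⟩ := hW k hkK
      apply h2
      funext l
      by_contra hl
      have h4 : l = k := hk l (h3 l hl)
      rw [h4] at hl
      exact hl h1
    -- a minimal subset
    obtain ⟨M, hMQ, hM⟩ := exists_minB hd0 π (abs_pos.2 hg) hν hQc hQne hQinv
      (fun h hh => hdetc h (hQg hh)) (fun h hh => hnuc h (hQg hh))
    have hMg : M ⊆ closure (Orb g) := hMQ.trans hQg
    have hMdet : ∀ h ∈ M, |h.det| = |g.det| := fun h hh => hdetc h (hMg hh)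
    have hMnu : ∀ h ∈ M, HasNu h ν := fun h hh => hnuc h (hMg hh)
    obtain ⟨h₀, hh₀⟩ := hM.ne
    obtain ⟨h₁, hh₁, w, hwk, hw0, hw⟩ := row_pair hd0 (abs_pos.2 hg) hν hMdet hMnu hM.closed hM.inv
      hh₀ hk (frequently_row hd hg hν hnu hint hMg hM hh₀ hk)
    obtain ⟨l₀, hl₀⟩ : ∃ l₀, w l₀ ≠ 0 := by
      by_contra hcon
      push Not at hcon
      exact hw0 (funext hcon)
    have hl₀k : l₀ ≠ k := fun h => hl₀ (h ▸ hwk)
    obtain ⟨h₂, hh₂, hw₂⟩ := block_pair hd0 (abs_pos.2 hg) hν hMdet hMnu hM.closed hM.inv hk hh₁
      hwk hw l₀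
    set w' : Fin d → ℝ := fun l => if π l = π l₀ then w l else 0 with hw'
    have hw'k : w' k = 0 := by
      simp only [hw']
      split_ifs
      · exact hwk
      · rfl
    have hw'l : w' l₀ ≠ 0 := by
      simp only [hw', if_true]
      exact hl₀
    have hw'0 : w' ≠ 0 := fun h => hw'l (congrFun h l₀)
    have hw'supp : ∀ l, w' l ≠ 0 → π l = π l₀ ∧ l ≠ k := by
      intro l hl
      refine ⟨?_, fun h => hl (h ▸ hw'k)⟩
      by_contra hcon
      exact hl (by simp only [hw', if_neg hcon])
    set π' : Fin d → Fin d := fun l => if l = k then π l₀ else π l with hπ'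
    have hπ'k : π' k = π l₀ := by simp [hπ']
    have hπ'n : ∀ l, l ≠ k → π' l = π l := fun l hl => by simp [hπ', hl]
    have hBB : ∀ b, BB π' b → BB π b := by
      intro b hb
      refine ⟨hb.1, hb.2.1, fun l m hlm => ?_⟩
      by_cases hl : l = k
      · subst hl
        rw [hk m hlm.symm]
      · by_cases hm : m = k
        · subst hm
          exact absurd (hk l hlm) hl
        · exact hb.2.2 l m (by rw [hπ'n l hl, hπ'n m hm, hlm])
    set W' : Fin d → Fin d → ℝ := Function.update W k w' with hW'
    have hW'k : W' k = w' := by rw [hW', Function.update_self]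
    have hW'n : ∀ l, l ≠ k → W' l = W l := fun l hl => by rw [hW', Function.update_of_ne hl]
    refine ⟨π', insert k K, W', {h | h ∈ M ∧ Md {k} (fun _ => w') * h ∈ M}, ?_, ?_, ?_, ?_,
      ⟨h₂, hh₂, hw₂⟩, ?_, ?_, ?_⟩
    · rw [Finset.card_insert_of_notMem hkK, hKc]
    · intro _
      by_cases hr0 : r = 0
      · rw [← hki hr0]
        exact Finset.mem_insert_self _ _
      · exact Finset.mem_insert_of_mem (hiK (Nat.pos_of_ne_zero hr0))
    · intro m hm
      rcases Finset.mem_insert.1 hm with hm | hm
      · rw [hm, hW'k]
        refine ⟨hw'k, hw'0, fun l hl => ?_⟩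
        obtain ⟨h1, h2⟩ := hw'supp l hl
        rw [hπ'n l h2, hπ'k, h1]
      · have hmk : m ≠ k := fun h => hkK (h ▸ hm)
        obtain ⟨h1, h2, h3⟩ := hW m hm
        rw [hW'n m hmk]
        refine ⟨h1, h2, fun l hl => ?_⟩
        have h4 := h3 l hl
        have hlk : l ≠ k := by
          intro hlk
          subst hlk
          exact hmk (hk m h4.symm)
        rw [hπ'n l hlk, hπ'n m hmk, h4]
    · refine IsClosed.inter hM.closed (hM.closed.preimage ?_)
      exact continuous_const.matrix_mul continuous_id
    · rintro h ⟨hh1, hh2⟩ b γ hb hγ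
      refine ⟨hM.inv h hh1 b γ (hBB b hb) hγ, ?_⟩
      have h1 := hM.inv _ hh2 b γ (hBB b hb) hγ
      have h2 : Md {k} (fun _ => w') * diagonal b = diagonal b * Md {k} (fun _ => w') := by
        ext l m
        rw [Matrix.mul_diagonal, Matrix.diagonal_mul]
        by_cases hlm : l = m
        · subst hlm; ring
        · by_cases hl : l = k
          · subst hl
            simp only [Md, Matrix.add_apply, Matrix.one_apply_ne hlm, Matrix.of_apply,
              Finset.mem_singleton, if_true, zero_add]
            by_cases hm0 : w' m = 0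
            · rw [hm0]; ring
            · obtain ⟨h3, h4⟩ := hw'supp m hm0
              have h5 : b m = b l := hb.2.2 m l (by rw [hπ'n m h4, hπ'k, h3])
              rw [h5]; ring
          · simp [Md, Matrix.add_apply, Matrix.one_apply_ne hlm, Matrix.of_apply, hl]
      have h3 : Md {k} (fun _ => w') * (diagonal b * h * zR γ)
          = diagonal b * (Md {k} (fun _ => w') * h) * zR γ := by
        rw [← Matrix.mul_assoc, ← Matrix.mul_assoc, h2]
        simp only [Matrix.mul_assoc]
      show Md {k} (fun _ => w') * (diagonal b * h * zR γ) ∈ M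
      rw [h3]
      exact h1
    · rintro h ⟨hh1, hh2⟩ S hS
      by_cases hkS : k ∈ S
      · have hS₀ : S.erase k ⊆ K := by
          intro m hm
          have h1 := hS (Finset.mem_of_mem_erase hm)
          exact (Finset.mem_insert.1 h1).resolve_left (Finset.ne_of_mem_erase hm)
        have h1 := hQcube _ (hMQ hh2) (S.erase k) hS₀
        have h2 : Md (S.erase k) W * (Md {k} (fun _ => w') * h) = Md S W' * h := by
          rw [← Matrix.mul_assoc]
          congr 1
          have h3 : (Matrix.of (fun i j => if i ∈ S.erase k then W i j else 0) :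
              Matrix (Fin d) (Fin d) ℝ) *
              Matrix.of (fun i j => if i ∈ ({k} : Finset (Fin d)) then w' j else 0) = 0 := by
            ext i j
            rw [Matrix.mul_apply]
            refine Finset.sum_eq_zero fun l _ => ?_
            simp only [Matrix.of_apply, Finset.mem_singleton]
            by_cases hl : l = k
            · subst hl
              by_cases hi : i ∈ S.erase l
              · have hiK' : i ∈ K := hS₀ hi
                obtain ⟨-, -, h5⟩ := hW i hiK'
                have h6 : W i l = 0 := by
                  by_contra h7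
                  have h8 := h5 l h7
                  exact (Finset.ne_of_mem_erase hi) (hk i h8.symm)
                rw [if_pos hi, h6, zero_mul]
              · rw [if_neg hi, zero_mul]
            · rw [if_neg hl, mul_zero]
          simp only [Md]
          rw [Matrix.add_mul, Matrix.mul_add, Matrix.mul_add, h3]
          simp only [Matrix.one_mul, Matrix.mul_one, add_zero]
          rw [add_assoc]
          congr 1
          ext i j
          simp only [Matrix.add_apply, Matrix.of_apply, Finset.mem_singleton]
          by_cases hi : i = k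
          · subst hi
            simp [hkS, hW'k]
          · rw [if_neg hi, zero_add]
            by_cases hiS : i ∈ S
            · rw [if_pos (Finset.mem_erase.2 ⟨hi, hiS⟩), if_pos hiS, hW'n i hi]
            · rw [if_neg (fun h => hiS (Finset.mem_of_mem_erase h)), if_neg hiS]
        rw [← h2]
        exact h1
      · have hSK : S ⊆ K := by
          intro m hm
          have h1 := hS hm
          exact (Finset.mem_insert.1 h1).resolve_left (fun h => hkS (h ▸ hm))
        have h1 := hQcube h (hMQ hh1) S hSK
        have h2 : Md S W' = Md S W := by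
          simp only [Md]
          congr 1
          ext i j
          simp only [Matrix.of_apply]
          by_cases hi : i ∈ S
          · have hik : i ≠ k := fun h => hkS (h ▸ hi)
            rw [if_pos hi, if_pos hi, hW'n i hik]
          · rw [if_neg hi, if_neg hi]
        rw [h2]
        exact h1
    · have h1 : (singles π \ {k, l₀}) ⊆ singles π' := by
        intro m hm
        rw [Finset.mem_sdiff, mem_singles] at hm
        obtain ⟨hm1, hm2⟩ := hm
        simp only [Finset.mem_insert, Finset.mem_singleton, not_or] at hm2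
        rw [mem_singles]
        intro l hl
        rw [hπ'n m hm2.1] at hl
        by_cases hlk : l = k
        · rw [hlk, hπ'k] at hl
          exact absurd (hm1 l₀ hl).symm hm2.2
        · rw [hπ'n l hlk] at hl
          exact hm1 l hl
      have h2 := Finset.card_le_card h1
      have h3 := Finset.le_card_sdiff ({k, l₀} : Finset (Fin d)) (singles π)
      have h4 : ({k, l₀} : Finset (Fin d)).card ≤ 2 := Finset.card_le_two
      omega

end Pool.Agent.Y327
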