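import Mathlib
import Pool.Agent.Y327.BlockAlg

/-! # Algebras of rational matrices with a pattern of zeros -/

open Filter Topology Matrix

namespace Pool.Agent.Y327

open H715R2 RatSpan

variable {d : ℕ}

/-- the rational endomorphisms whose conjugate by `h` has zeros outside the relation `r` -/
noncomputable def algR (h : Matrix (Fin d) (Fin d) ℝ) (hu : IsUnit h.det)
    (r : Fin d → Fin d → Prop) (hrefl : ∀ i, r i i) (htr : ∀ i j k, r i j → r j k → r i k) :
    Subalgebra ℚ (Module.End ℚ (Fin d → ℚ)) where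
  carrier := {f | ∀ i j, ¬ r i j → (h * kap f * h⁻¹) i j = 0}
  mul_mem' := by
    intro f f' hf hf' i j hij
    rw [map_mul, conj_mul hu, Matrix.mul_apply]
    refine Finset.sum_eq_zero fun l _ => ?_
    by_cases hl : r i l
    · rw [hf' l j (fun h => hij (htr i l j hl h)), mul_zero]
    · rw [hf i l hl, zero_mul]
  add_mem' := by
    intro f f' hf hf' i j hij
    rw [map_add, Matrix.mul_add, Matrix.add_mul, Matrix.add_apply, hf i j hij, hf' i j hij,
      add_zero]
  algebraMap_mem' := by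
    intro q i j hij
    have h1 : kap (algebraMap ℚ (Module.End ℚ (Fin d → ℚ)) q) =
        (q : ℝ) • (1 : Matrix (Fin d) (Fin d) ℝ) := by
      rw [Algebra.algebraMap_eq_smul_one, kap_smul, map_one]
    rw [h1, Matrix.mul_smul, Matrix.mul_one, Matrix.smul_mul, Matrix.mul_nonsing_inv _ hu,
      Matrix.smul_apply, Matrix.one_apply_ne (show i ≠ j from fun h => hij (by rw [h]; exact hrefl j)),
      smul_zero]

lemma mem_algR {h : Matrix (Fin d) (Fin d) ℝ} {hu : IsUnit h.det} {r : Fin d → Fin d → Prop}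
    {hrefl : ∀ i, r i i} {htr : ∀ i j k, r i j → r j k → r i k}
    {f : Module.End ℚ (Fin d → ℚ)} :
    f ∈ algR h hu r hrefl htr ↔ ∀ i j, ¬ r i j → (h * kap f * h⁻¹) i j = 0 := Iff.rfl

/-- the rank one idempotent of an index -/
noncomputable def eI (h : Matrix (Fin d) (Fin d) ℝ) (i : Fin d) : Matrix (Fin d) (Fin d) ℝ :=
  h⁻¹ * diagonal (Pi.single i 1) * h

/-- there are elements whose multiples tend to the idempotent -/
def HasRet (𝒜 : Subalgebra ℚ (Module.End ℚ (Fin d → ℚ))) (h : Matrix (Fin d) (Fin d) ℝ)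
    (i : Fin d) : Prop :=
  ∃ (c : ℕ → ℝ) (γ : ℕ → Matrix (Fin d) (Fin d) ℤ), (∀ n, fz (γ n) ∈ 𝒜) ∧
    Tendsto (fun n => c n • zR (γ n)) atTop (𝓝 (eI h i))

lemma hasRet_algR (hd : 2 ≤ d) {π : Fin d → Fin d} {V ν : ℝ} (hV : 0 < V) (hν : 0 < ν)
    {Q : Set (Matrix (Fin d) (Fin d) ℝ)} (hQdet : ∀ h ∈ Q, |h.det| = V)
    (hQnu : ∀ h ∈ Q, HasNu h ν) (hQ : MinB π Q) {h₀ : Matrix (Fin d) (Fin d) ℝ} (hh₀ : h₀ ∈ Q)
    {i : Fin d} (hi : ∀ l, π l = π i → l = i) {hu : IsUnit h₀.det} {r : Fin d → Fin d → Prop}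
    {hrefl : ∀ i, r i i} {htr : ∀ i j k, r i j → r j k → r i k}
    (hloc : ∀ᶠ h in 𝓝[Q] h₀, ∀ a b, ¬ r a b → (h * h₀⁻¹) a b = 0) :
    HasRet (algR h₀ hu r hrefl htr) h₀ i := by
  obtain ⟨W, hW, hWe⟩ := mem_nhdsWithin_iff_exists_mem_nhds_inter.1 hloc
  obtain ⟨c, γ, hγ, hlim⟩ := exists_return_seq hd hV hν hQdet hQnu hQ hh₀ hi hW
  refine ⟨c, γ, fun n => ?_, hlim⟩
  intro a b hab
  obtain ⟨e, he, hmem⟩ := hγ n
  have h1 := hWe ⟨hmem.2, hmem.1⟩ a b hab
  rw [Matrix.mul_assoc, Matrix.mul_assoc, Matrix.diagonal_mul] at h1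
  rw [kap_fz, Matrix.mul_assoc]
  exact (mul_eq_zero.1 h1).resolve_left (he.1 a).ne'

lemma eI_mulVec (h : Matrix (Fin d) (Fin d) ℝ) (i : Fin d) (v : Fin d → ℝ) :
    eI h i *ᵥ v = (h *ᵥ v) i • (fun a => h⁻¹ a i) := by
  rw [eI, ← Matrix.mulVec_mulVec, ← Matrix.mulVec_mulVec]
  have h1 : (diagonal (Pi.single i (1 : ℝ)) *ᵥ (h *ᵥ v)) = (h *ᵥ v) i • Pi.single i (1 : ℝ) := by
    funext a
    rw [Matrix.mulVec_diagonal, Pi.smul_apply, smul_eq_mul]
    by_cases ha : a = i
    · subst ha; rw [mul_comm]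
    · rw [Pi.single_eq_of_ne ha, zero_mul, mul_zero]
  rw [h1, Matrix.mulVec_smul, Matrix.mulVec_single_one]
  rfl

lemma eI_vecMul (h : Matrix (Fin d) (Fin d) ℝ) (i : Fin d) (p : Fin d → ℝ) :
    p ᵥ* eI h i = (p ᵥ* h⁻¹) i • h i := by
  rw [eI, ← Matrix.vecMul_vecMul, ← Matrix.vecMul_vecMul]
  have h1 : ((p ᵥ* h⁻¹) ᵥ* diagonal (Pi.single i (1 : ℝ))) =
      (p ᵥ* h⁻¹) i • Pi.single i (1 : ℝ) := by
    funext a
    rw [Matrix.vecMul_diagonal, Pi.smul_apply, smul_eq_mul]
    by_cases ha : a = i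
    · subst ha; rfl
    · rw [Pi.single_eq_of_ne ha, mul_zero, mul_zero]
  rw [h1, Matrix.smul_vecMul, Matrix.single_one_vecMul]
  rfl

lemma col_eq {h : Matrix (Fin d) (Fin d) ℝ} (hu : IsUnit h.det) (i a : Fin d) :
    (h *ᵥ (fun b => h⁻¹ b i)) a = (1 : Matrix (Fin d) (Fin d) ℝ) a i := by
  have h1 : (fun b => h⁻¹ b i) = h⁻¹ *ᵥ Pi.single i 1 := by
    rw [Matrix.mulVec_single_one]; rfl
  rw [h1, Matrix.mulVec_mulVec, Matrix.mul_nonsing_inv _ hu, Matrix.one_mulVec]
  by_cases ha : a = i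
  · subst ha; simp
  · rw [Pi.single_eq_of_ne ha, Matrix.one_apply_ne ha]

/-- **Irreducibility.** -/
theorem simple_of_ret (hd : 2 ≤ d) {V ν : ℝ} (hV : 0 < V) (hν : 0 < ν)
    {h : Matrix (Fin d) (Fin d) ℝ} (hdet : |h.det| = V) (hnu : HasNu h ν)
    (𝒜 : Subalgebra ℚ (Module.End ℚ (Fin d → ℚ))) {i : Fin d} (hret : HasRet 𝒜 h i) :
    IsSimpleModule 𝒜 (Fin d → ℚ) := by
  classical
  have hst : IsScalarTower ℚ 𝒜 (Fin d → ℚ) := ⟨fun q f v => rfl⟩
  obtain ⟨c, γ, hγ𝒜, hlim⟩ := hret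
  have hdual : ∀ r : Fin d → ℚ, cR r ⬝ᵥ (fun a => h⁻¹ a i) = 0 → r = 0 := fun r hr =>
    dual_ne_rat hd hV hν hdet hnu i r hr
  have hnt : Nontrivial (Submodule 𝒜 (Fin d → ℚ)) := by
    refine ⟨⊥, ⊤, fun hbt => ?_⟩
    have h1 : (Pi.single i (1 : ℚ) : Fin d → ℚ) ∈ (⊥ : Submodule 𝒜 (Fin d → ℚ)) := by
      rw [hbt]; trivial
    rw [Submodule.mem_bot] at h1
    have := congrFun h1 i
    simp at this
  have hso : ∀ W : Submodule 𝒜 (Fin d → ℚ), W = ⊥ ∨ W = ⊤ := by
    intro W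
    by_contra hcon
    rw [not_or] at hcon
    obtain ⟨x, hx, hx0⟩ := (Submodule.ne_bot_iff W).1 hcon.1
    have hlt : W.restrictScalars ℚ < ⊤ := by
      rw [lt_top_iff_ne_top]
      intro htop
      apply hcon.2
      rw [eq_top_iff]
      intro v _
      have : v ∈ W.restrictScalars ℚ := by rw [htop]; trivial
      exact this
    obtain ⟨φ, hφ0, hφ⟩ := Submodule.exists_le_ker_of_lt_top _ hlt
    set r : Fin d → ℚ := fun j => φ (Pi.single j 1) with hr
    have hrep : ∀ v : Fin d → ℚ, φ v = r ⬝ᵥ v := by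
      intro v
      have h1 : v = ∑ s, v s • (Pi.single s (1 : ℚ) : Fin d → ℚ) := by
        funext t
        simp [Finset.sum_apply, Pi.single_apply]
      conv_lhs => rw [h1]
      rw [map_sum]
      simp only [map_smul, smul_eq_mul, dotProduct, hr]
      exact Finset.sum_congr rfl fun s _ => mul_comm _ _
    have hr0 : r ≠ 0 := by
      intro h0
      apply hφ0
      ext s
      have : φ (Pi.single s 1) = 0 := congrFun h0 s
      simpa using this
    set L : Matrix (Fin d) (Fin d) ℝ →ₗ[ℝ] ℝ :=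
      { toFun := fun M => cR r ⬝ᵥ (M *ᵥ cR x)
        map_add' := fun M N => by rw [Matrix.add_mulVec, dotProduct_add]
        map_smul' := fun t M => by
          rw [Matrix.smul_mulVec, dotProduct_smul, RingHom.id_apply] } with hL
    have h1 : L (eI h i) = 0 := by
      refine lim_zero L (fun n => ?_) hlim
      show cR r ⬝ᵥ (zR (γ n) *ᵥ cR x) = 0
      rw [← kap_fz, kap_mulVec]
      have h2 : (⟨fz (γ n), hγ𝒜 n⟩ : 𝒜) • x ∈ W := W.smul_mem _ hx
      have h3 : fz (γ n) x ∈ LinearMap.ker φ := hφ h2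
      rw [LinearMap.mem_ker, hrep] at h3
      have h4 : cR r ⬝ᵥ cR (fz (γ n) x) = ((r ⬝ᵥ (fz (γ n) x) : ℚ) : ℝ) := by
        simp only [dotProduct, cR]
        push_cast
        rfl
      rw [h4, h3]
      norm_num
    have h2 : L (eI h i) = cR r ⬝ᵥ (eI h i *ᵥ cR x) := rfl
    rw [h2, eI_mulVec, dotProduct_smul, smul_eq_mul] at h1
    rcases mul_eq_zero.1 h1 with h3 | h3
    · exact hx0 (row_ne_rat hν hnu i x h3)
    · exact hr0 (hdual r h3)
  have hsio : IsSimpleOrder (Submodule 𝒜 (Fin d → ℚ)) := { eq_bot_or_eq_top := hso }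
  exact (isSimpleModule_iff _ _).2 hsio

/-- the centraliser commutes with the idempotent -/
lemma comm_eI {h : Matrix (Fin d) (Fin d) ℝ} {𝒜 : Subalgebra ℚ (Module.End ℚ (Fin d → ℚ))}
    {i : Fin d} (hret : HasRet 𝒜 h i) {f : Module.End ℚ (Fin d → ℚ)}
    (hf : ∀ a ∈ 𝒜, f * a = a * f) : kap f * eI h i = eI h i * kap f := by
  obtain ⟨c, γ, hγ𝒜, hlim⟩ := hret
  have h1 : (LinearMap.mulLeft ℝ (kap f) - LinearMap.mulRight ℝ (kap f)) (eI h i) = 0 := by
    refine lim_zero _ (fun n => ?_) hlim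
    rw [LinearMap.sub_apply, LinearMap.mulLeft_apply, LinearMap.mulRight_apply, ← kap_fz,
      ← map_mul, ← map_mul, hf _ (hγ𝒜 n), sub_self]
  rw [LinearMap.sub_apply, LinearMap.mulLeft_apply, LinearMap.mulRight_apply,
    sub_eq_zero] at h1
  exact h1

/-- the row of the index is an eigenvector of the centraliser -/
lemma row_eig {h : Matrix (Fin d) (Fin d) ℝ} (hu : IsUnit h.det)
    {𝒜 : Subalgebra ℚ (Module.End ℚ (Fin d → ℚ))}
    {i : Fin d} (hret : HasRet 𝒜 h i) {f : Module.End ℚ (Fin d → ℚ)}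
    (hf : ∀ a ∈ 𝒜, f * a = a * f) : h i ᵥ* kap f = (h * kap f * h⁻¹) i i • h i := by
  have h1 := comm_eI hret hf
  have h2 : h i ᵥ* eI h i = h i := by
    rw [eI_vecMul]
    have h3 : (h i ᵥ* h⁻¹) i = 1 := by
      have h4 : (h i ᵥ* h⁻¹) i = (h * h⁻¹) i i := rfl
      rw [h4, Matrix.mul_nonsing_inv _ hu, Matrix.one_apply_eq]
    rw [h3, one_smul]
  calc h i ᵥ* kap f = (h i ᵥ* eI h i) ᵥ* kap f := by rw [h2]
    _ = h i ᵥ* (kap f * eI h i) := by rw [Matrix.vecMul_vecMul, h1]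
    _ = ((h i ᵥ* kap f) ᵥ* h⁻¹) i • h i := by rw [← Matrix.vecMul_vecMul, eI_vecMul]
    _ = _ := rfl

/-- the column of the index is an eigenvector of the centraliser -/
lemma col_eig {h : Matrix (Fin d) (Fin d) ℝ} (hu : IsUnit h.det)
    {𝒜 : Subalgebra ℚ (Module.End ℚ (Fin d → ℚ))}
    {i : Fin d} (hret : HasRet 𝒜 h i) {f : Module.End ℚ (Fin d → ℚ)}
    (hf : ∀ a ∈ 𝒜, f * a = a * f) :
    kap f *ᵥ (fun a => h⁻¹ a i) = (h * kap f * h⁻¹) i i • (fun a => h⁻¹ a i) := by
  have h1 := comm_eI hret hf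
  have h2 : eI h i *ᵥ (fun a => h⁻¹ a i) = fun a => h⁻¹ a i := by
    rw [eI_mulVec, col_eq hu, Matrix.one_apply_eq, one_smul]
  have h3 : (h *ᵥ (kap f *ᵥ (fun a => h⁻¹ a i))) i = (h * kap f * h⁻¹) i i := by
    rw [Matrix.mulVec_mulVec]
    rfl
  calc kap f *ᵥ (fun a => h⁻¹ a i) = kap f *ᵥ (eI h i *ᵥ (fun a => h⁻¹ a i)) := by rw [h2]
    _ = eI h i *ᵥ (kap f *ᵥ (fun a => h⁻¹ a i)) := by
      rw [Matrix.mulVec_mulVec, h1, ← Matrix.mulVec_mulVec]
    _ = _ := by rw [eI_mulVec, h3]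

/-- off-diagonal entries of the conjugate vanish in the row and the column of the index -/
lemma conj_row_zero {h : Matrix (Fin d) (Fin d) ℝ} (hu : IsUnit h.det)
    {𝒜 : Subalgebra ℚ (Module.End ℚ (Fin d → ℚ))}
    {i : Fin d} (hret : HasRet 𝒜 h i) {f : Module.End ℚ (Fin d → ℚ)}
    (hf : ∀ a ∈ 𝒜, f * a = a * f) {j : Fin d} (hij : i ≠ j) :
    (h * kap f * h⁻¹) i j = 0 ∧ (h * kap f * h⁻¹) j i = 0 := by
  constructor
  · have h1 : (h * kap f * h⁻¹) i j = ((h i ᵥ* kap f) ᵥ* h⁻¹) j := rfl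
    rw [h1, row_eig hu hret hf, Matrix.smul_vecMul, Pi.smul_apply]
    have h2 : (h i ᵥ* h⁻¹) j = (h * h⁻¹) i j := rfl
    rw [h2, Matrix.mul_nonsing_inv _ hu, Matrix.one_apply_ne hij, smul_zero]
  · have h1 : (h * kap f * h⁻¹) j i = (h *ᵥ (kap f *ᵥ (fun a => h⁻¹ a i))) j := by
      rw [Matrix.mulVec_mulVec]
      rfl
    rw [h1, col_eig hu hret hf, Matrix.mulVec_smul, Pi.smul_apply, col_eq hu,
      Matrix.one_apply_ne hij.symm, smul_zero]

/-- **Double centraliser.** -/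
theorem double_comm {V : Type*} [AddCommGroup V] [Module ℚ V] [FiniteDimensional ℚ V]
    (𝒜 : Subalgebra ℚ (Module.End ℚ V)) [hs : IsSimpleModule 𝒜 V] {f : Module.End ℚ V}
    (hf : ∀ g : Module.End ℚ V, (∀ a ∈ 𝒜, g * a = a * g) → f * g = g * f) : f ∈ 𝒜 := by
  classical
  let _ : DivisionRing (Module.End 𝒜 V) := inferInstance
  have hfin : Module.Finite (Module.End 𝒜 V) V := by
    obtain ⟨s, hs⟩ := (inferInstance : Module.Finite ℚ V).fg_top
    refine ⟨⟨s, ?_⟩⟩
    rw [eq_top_iff]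
    intro v _
    have hv : v ∈ Submodule.span ℚ (s : Set V) := by rw [hs]; trivial
    induction hv using Submodule.span_induction with
    | mem v hv => exact Submodule.subset_span hv
    | zero => exact Submodule.zero_mem _
    | add u v _ _ hu hv => exact Submodule.add_mem _ (hu trivial) (hv trivial)
    | smul c v _ hv =>
      have h1 : c • v = (algebraMap ℚ (Module.End 𝒜 V) c) • v := rfl
      rw [h1]
      exact Submodule.smul_mem _ _ (hv trivial)
  have hsurj := Module.Finite.toModuleEnd_moduleEnd_surjective (R := 𝒜) (M := V)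
  have hcomm : ∀ (N : Module.End 𝒜 V) (v : V), f (N v) = N (f v) := by
    intro N v
    have h1 := hf (N.restrictScalars ℚ) (fun a ha => by
      refine LinearMap.ext fun v => ?_
      exact N.map_smul (⟨a, ha⟩ : 𝒜) v)
    exact LinearMap.congr_fun h1 v
  let F : Module.End (Module.End 𝒜 V) V :=
    { toFun := f
      map_add' := map_add f
      map_smul' := fun N v => hcomm N v }
  obtain ⟨r, hr⟩ := hsurj F
  have h1 : f = r.1 := by
    refine LinearMap.ext fun v => ?_
    have := LinearMap.congr_fun hr v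
    exact this.symm
  rw [h1]
  exact r.2

/-- The degree of the module over its endomorphisms divides the size of every representation, and
the module has dimension the product of this degree and the dimension of the endomorphisms. -/
theorem exists_degree {V : Type*} [AddCommGroup V] [Module ℚ V] [FiniteDimensional ℚ V]
    (𝒜 : Subalgebra ℚ (Module.End ℚ V)) [hs : IsSimpleModule 𝒜 V] :
    ∃ s : ℕ, s * Module.finrank ℚ (Subalgebra.centralizer ℚ (𝒜 : Set (Module.End ℚ V))) =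
      Module.finrank ℚ V ∧ ∀ {m : Type} [Fintype m] [DecidableEq m] (_ : 𝒜 →+* Matrix m m ℝ),
        s ∣ Fintype.card m := by
  classical
  let _ : DivisionRing (Module.End 𝒜 V) := inferInstance
  have hfin : Module.Finite (Module.End 𝒜 V) V := by
    obtain ⟨s, hs⟩ := (inferInstance : Module.Finite ℚ V).fg_top
    refine ⟨⟨s, ?_⟩⟩
    rw [eq_top_iff]
    intro v _
    have hv : v ∈ Submodule.span ℚ (s : Set V) := by rw [hs]; trivial
    induction hv using Submodule.span_induction with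
    | mem v hv => exact Submodule.subset_span hv
    | zero => exact Submodule.zero_mem _
    | add u v _ _ hu hv => exact Submodule.add_mem _ (hu trivial) (hv trivial)
    | smul c v _ hv =>
      have h1 : c • v = (algebraMap ℚ (Module.End 𝒜 V) c) • v := rfl
      rw [h1]
      exact Submodule.smul_mem _ _ (hv trivial)
  set b := Module.finBasis (Module.End 𝒜 V) V with hb
  have hsurj := Module.Finite.toModuleEnd_moduleEnd_surjective (R := 𝒜) (M := V)
  set s := Module.finrank (Module.End 𝒜 V) V with hs'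
  -- matrix units
  have hu : ∀ i j : Fin s, ∃ r : 𝒜, ∀ v : V, r • v = (b.repr v j) • b i := by
    intro i j
    obtain ⟨r, hr⟩ := hsurj ((LinearMap.toSpanSingleton (Module.End 𝒜 V) V (b i)).comp (b.coord j))
    refine ⟨r, fun v => ?_⟩
    have := LinearMap.congr_fun hr v
    simpa using this
  choose E hE using hu
  have hfaith : ∀ r r' : 𝒜, (∀ v : V, r • v = r' • v) → r = r' := by
    intro r r' h
    apply Subtype.ext
    exact LinearMap.ext h
  have hmul : ∀ a c e f, E a c * E e f = if c = e then E a f else 0 := by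
    intro a c e f
    apply hfaith
    intro v
    rw [mul_smul, hE, hE]
    by_cases hce : c = e
    · subst hce
      rw [if_pos rfl, hE, map_smul, Finsupp.smul_apply, Module.Basis.repr_self,
        Finsupp.single_eq_same, smul_eq_mul, mul_one]
    · rw [if_neg hce, map_smul, Finsupp.smul_apply, Module.Basis.repr_self,
        Finsupp.single_eq_of_ne hce, smul_zero, zero_smul, zero_smul]
  have hsum : ∑ a, E a a = 1 := by
    apply hfaith
    intro v
    rw [Finset.sum_smul, one_smul]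
    simp only [hE]
    exact b.sum_repr v
  refine ⟨s, ?_, ?_⟩
  · -- the endomorphisms are the centraliser
    let ψ : Module.End 𝒜 V →ₗ[ℚ] Subalgebra.centralizer ℚ (𝒜 : Set (Module.End ℚ V)) :=
      { toFun := fun N => ⟨N.restrictScalars ℚ, by
          rw [Subalgebra.mem_centralizer_iff]
          intro a ha
          refine LinearMap.ext fun v => ?_
          exact (N.map_smul (⟨a, ha⟩ : 𝒜) v).symm⟩
        map_add' := fun N N' => rfl
        map_smul' := fun q N => rfl }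
    have hψ : Function.Bijective ψ := by
      constructor
      · intro N N' h
        refine LinearMap.ext fun v => ?_
        exact LinearMap.congr_fun (congrArg Subtype.val h) v
      · rintro ⟨f, hf⟩
        rw [Subalgebra.mem_centralizer_iff] at hf
        refine ⟨{ toFun := f, map_add' := map_add f, map_smul' := fun a v => ?_ }, rfl⟩
        exact (LinearMap.congr_fun (hf a.1 a.2) v).symm
    rw [← (LinearEquiv.ofBijective ψ hψ).finrank_eq, mul_comm]
    have hst : IsScalarTower ℚ (Module.End 𝒜 V) V := ⟨fun q f v => rfl⟩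
    exact Module.finrank_mul_finrank ℚ (Module.End 𝒜 V) V
  · intro m _ _ ψ
    have := RingLem.dvd_of_units (fun a c => ψ (E a c)) (fun a c e f => by
      rw [← map_mul, hmul]
      split_ifs
      · rfl
      · exact map_zero ψ) (by rw [← map_sum, hsum, map_one])
    rwa [Fintype.card_fin] at this

end Pool.Agent.Y327
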