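import Mathlib
import Pool.Agent.Y327.Pattern

/-! # Real solutions of rational linear equations -/

open Filter Topology Matrix

namespace Pool.Agent.Y327

open H715R2 RatSpan

variable {d : ℕ}

lemma kap_toLin' (A : Matrix (Fin d) (Fin d) ℚ) : kap (Matrix.toLin' A) = A.map (fun q : ℚ => (q : ℝ)) := by
  ext a b
  rw [kap_apply, Matrix.toLin'_apply, Matrix.mulVec_single_one]
  rfl

lemma end_ext {f g : Module.End ℚ (Fin d → ℚ)} (h : ∀ a b, f (Pi.single b 1) a = g (Pi.single b 1) a) :
    f = g := by
  refine LinearMap.pi_ext' fun b => ?_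
  ext a
  exact h a b

/-- Real matrices commuting with rational matrices are real combinations of rational ones. -/
theorem real_comm {S : Set (Module.End ℚ (Fin d → ℚ))} {X : Matrix (Fin d) (Fin d) ℝ}
    (hX : ∀ f ∈ S, X * kap f = kap f * X) (L : Matrix (Fin d) (Fin d) ℝ →ₗ[ℝ] ℝ)
    (hL : ∀ g : Module.End ℚ (Fin d → ℚ), (∀ f ∈ S, g * f = f * g) → L (kap g) = 0) :
    L X = 0 := by
  classical
  set B := Module.Basis.ofVectorSpace ℚ ℝ with hB
  set G : Module.Basis.ofVectorSpaceIndex ℚ ℝ → Matrix (Fin d) (Fin d) ℚ := fun m =>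
    Matrix.of fun a b => B.coord m (X a b) with hG
  have hcast : ∀ (m : Module.Basis.ofVectorSpaceIndex ℚ ℝ) (x : ℝ) (q : ℚ),
      B.coord m (x * (q : ℝ)) = B.coord m x * q := by
    intro m x q
    have h1 : x * (q : ℝ) = q • x := by rw [Rat.smul_def]; ring
    rw [h1, map_smul, smul_eq_mul, mul_comm]
  have hcast' : ∀ (m : Module.Basis.ofVectorSpaceIndex ℚ ℝ) (x : ℝ) (q : ℚ),
      B.coord m ((q : ℝ) * x) = q * B.coord m x := by
    intro m x q
    rw [mul_comm, hcast, mul_comm]
  have hcomm : ∀ m, ∀ f ∈ S, Matrix.toLin' (G m) * f = f * Matrix.toLin' (G m) := by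
    intro m f hf
    apply end_ext
    intro a b
    have h1 := congrArg (fun M : Matrix (Fin d) (Fin d) ℝ => B.coord m (M a b)) (hX f hf)
    simp only [Matrix.mul_apply, map_sum, kap_apply, hcast, hcast'] at h1
    have h2 : (Matrix.toLin' (G m) * f) (Pi.single b 1) a
        = ∑ c, B.coord m (X a c) * f (Pi.single b 1) c := by
      rw [Module.End.mul_apply, Matrix.toLin'_apply]
      rfl
    have h3 : (f * Matrix.toLin' (G m)) (Pi.single b 1) a
        = ∑ c, f (Pi.single c 1) a * B.coord m (X c b) := by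
      rw [Module.End.mul_apply, Matrix.toLin'_apply, Matrix.mulVec_single_one]
      have h4 : (G m).col b = ∑ c, G m c b • (Pi.single c (1 : ℚ) : Fin d → ℚ) := by
        funext t
        simp [Finset.sum_apply, Pi.single_apply]
      rw [h4, map_sum, Finset.sum_apply]
      refine Finset.sum_congr rfl fun c _ => ?_
      rw [map_smul, Pi.smul_apply, smul_eq_mul, mul_comm]
      rfl
    rw [h2, h3, h1]
  set T : Finset (Module.Basis.ofVectorSpaceIndex ℚ ℝ) :=
    Finset.univ.biUnion fun p : Fin d × Fin d => (B.repr (X p.1 p.2)).support with hT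
  have hXsum : X = ∑ m ∈ T, (B m : ℝ) • kap (Matrix.toLin' (G m)) := by
    ext a b
    rw [Matrix.sum_apply]
    have h1 : X a b = ∑ m ∈ (B.repr (X a b)).support, B.repr (X a b) m • B m := by
      conv_lhs => rw [← B.linearCombination_repr (X a b)]
      rw [Finsupp.linearCombination_apply, Finsupp.sum]
    rw [h1, Finset.sum_subset (s₂ := T)]
    · refine Finset.sum_congr rfl fun m _ => ?_
      rw [Matrix.smul_apply, kap_toLin', Matrix.map_apply, Rat.smul_def, smul_eq_mul, mul_comm]
      rfl
    · intro m hm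
      exact Finset.mem_biUnion.2 ⟨(a, b), Finset.mem_univ _, hm⟩
    · intro m _ hm
      rw [Finsupp.notMem_support_iff.1 hm, zero_smul]
  rw [hXsum, map_sum]
  refine Finset.sum_eq_zero fun m _ => ?_
  rw [map_smul, hL _ (hcomm m), smul_zero]

/-- Rational matrices which are independent over `ℚ` are independent over `ℝ`. -/
theorem real_indep {n : ℕ} {b : Fin n → Module.End ℚ (Fin d → ℚ)} (hb : LinearIndependent ℚ b)
    {c : Fin n → ℝ} (hc : ∑ k, c k • kap (b k) = 0) : c = 0 := by
  classical
  set B := Module.Basis.ofVectorSpace ℚ ℝ with hB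
  have hcast : ∀ (m : Module.Basis.ofVectorSpaceIndex ℚ ℝ) (x : ℝ) (q : ℚ),
      B.coord m (x * (q : ℝ)) = B.coord m x * q := by
    intro m x q
    have h1 : x * (q : ℝ) = q • x := by rw [Rat.smul_def]; ring
    rw [h1, map_smul, smul_eq_mul, mul_comm]
  have h1 : ∀ m, ∑ k, B.coord m (c k) • b k = 0 := by
    intro m
    apply end_ext
    intro p q
    have h2 := congrArg (fun M : Matrix (Fin d) (Fin d) ℝ => B.coord m (M p q)) hc
    simp only [Matrix.sum_apply, Matrix.smul_apply, kap_apply, smul_eq_mul, map_sum, hcast,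
      Matrix.zero_apply, map_zero] at h2
    simpa [LinearMap.sum_apply, Finset.sum_apply] using h2
  funext k
  have h2 : ∀ m, B.repr (c k) m = 0 := fun m =>
    Fintype.linearIndependent_iff.1 hb (fun k => B.coord m (c k)) (h1 m) k
  have h3 : B.repr (c k) = 0 := Finsupp.ext h2
  exact (LinearEquiv.map_eq_zero_iff B.repr).1 h3

end Pool.Agent.Y327
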