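import Mathlib
import Pool.Agent.H905R2.OppD
import Pool.Agent.Y327.RowPair

/-! # Two integral products of linear forms with all factors but one in common -/

open Filter Topology Matrix Polynomial

namespace Pool.Agent.Y327

open H715R2

variable {d : ℕ}

/-- eigenrows of an irreducible integer matrix -/
lemma eig_of_opp {g : Matrix (Fin d) (Fin d) ℝ} (hg : g.det ≠ 0) {A : Matrix (Fin d) (Fin d) ℤ}
    (hirr : Irreducible (A.charpoly.map (Int.castRingHom ℚ)))
    (hinv : ∀ i : Fin d, ∀ x : Fin d → ℝ, ∑ j, g i j * x j = 0 →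
      ∑ j, g i j * ((A.map (Int.cast : ℤ → ℝ)).mulVec x) j = 0) :
    ∃ lam : Fin d → ℝ, Function.Injective lam ∧ g * zR A = diagonal lam * g := by
  classical
  have hu : IsUnit g.det := isUnit_iff_ne_zero.2 hg
  have hgg : g * g⁻¹ = 1 := Matrix.mul_nonsing_inv _ hu
  have hgg' : g⁻¹ * g = 1 := Matrix.nonsing_inv_mul _ hu
  have hoff : ∀ i j, i ≠ j → (g * zR A * g⁻¹) i j = 0 := by
    intro i j hij
    have h1 : ∑ l, g i l * (g⁻¹ l j) = 0 := by
      have h2 := congrFun (congrFun hgg i) j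
      rw [Matrix.mul_apply, Matrix.one_apply_ne hij] at h2
      exact h2
    have h2 := hinv i (fun l => g⁻¹ l j) h1
    rw [Matrix.mul_assoc, Matrix.mul_apply]
    exact h2
  have hD : g * zR A * g⁻¹ = diagonal (fun i => (g * zR A * g⁻¹) i i) := by
    ext i j
    by_cases hij : i = j
    · subst hij; simp
    · rw [Matrix.diagonal_apply_ne _ hij, hoff i j hij]
  set lam : Fin d → ℝ := fun i => (g * zR A * g⁻¹) i i with hlam
  have heq : g * zR A = diagonal lam * g := by
    rw [← hD, Matrix.mul_assoc, hgg', Matrix.mul_one]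
  refine ⟨lam, ?_, heq⟩
  have hcp : (zR A).charpoly = ∏ i, (X - C (lam i)) := by
    have h1 : (g * (zR A * g⁻¹)).charpoly = (zR A * g⁻¹ * g).charpoly :=
      Matrix.charpoly_mul_comm _ _
    rw [Matrix.mul_assoc (zR A), hgg', Matrix.mul_one, ← Matrix.mul_assoc, hD,
      Matrix.charpoly_diagonal] at h1
    exact h1.symm
  have hmap : (A.charpoly.map (Int.castRingHom ℚ)).map (algebraMap ℚ ℝ) = (zR A).charpoly := by
    rw [Polynomial.map_map]
    have h1 : (algebraMap ℚ ℝ).comp (Int.castRingHom ℚ) = Int.castRingHom ℝ := by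
      ext; simp
    rw [h1]
    exact (Matrix.charpoly_map A (Int.castRingHom ℝ)).symm
  have hsep : ((A.charpoly.map (Int.castRingHom ℚ)).map (algebraMap ℚ ℝ)).Separable :=
    hirr.separable.map
  rw [hmap, hcp] at hsep
  have h2 := (separable_prod_X_sub_C_iff.1 hsep)
  exact h2

lemma Md_mul_neg {k : Fin d} {w : Fin d → ℝ} (hwk : w k = 0) :
    Md {k} (fun _ => w) * Md {k} (fun _ => -w) = 1 := by
  classical
  have h1 : (Matrix.of (fun i j => if i ∈ ({k} : Finset (Fin d)) then w j else 0) :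
      Matrix (Fin d) (Fin d) ℝ) *
      Matrix.of (fun i j => if i ∈ ({k} : Finset (Fin d)) then (-w) j else 0) = 0 := by
    ext i j
    rw [Matrix.mul_apply]
    refine Finset.sum_eq_zero fun l _ => ?_
    simp only [Matrix.of_apply, Finset.mem_singleton]
    by_cases hl : l = k
    · subst hl
      simp [hwk]
    · rw [if_neg hl, mul_zero]
  simp only [Md]
  rw [Matrix.add_mul, Matrix.mul_add, Matrix.mul_add, h1]
  simp only [Matrix.one_mul, Matrix.mul_one, add_zero]
  ext i j
  simp only [Matrix.add_apply, Matrix.of_apply, Finset.mem_singleton, Pi.neg_apply]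
  split_ifs <;> ring

lemma Md_det_ne {k : Fin d} {w : Fin d → ℝ} (hwk : w k = 0) :
    (Md {k} (fun _ => w)).det ≠ 0 := by
  intro h0
  have h1 := congrArg Matrix.det (Md_mul_neg hwk)
  rw [det_mul, h0, zero_mul, det_one] at h1
  exact zero_ne_one h1

lemma Md_row {k : Fin d} (w : Fin d → ℝ) (g : Matrix (Fin d) (Fin d) ℝ) :
    (Md {k} (fun _ => w) * g) k = g k + w ᵥ* g := by
  funext j
  rw [Md, Matrix.add_mul, Matrix.one_mul, Matrix.add_apply, Matrix.mul_apply]
  simp only [Matrix.of_apply, Finset.mem_singleton, if_true, Pi.add_apply]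
  rfl

lemma Md_row_ne {k : Fin d} (w : Fin d → ℝ) (g : Matrix (Fin d) (Fin d) ℝ) {i : Fin d}
    (hi : i ≠ k) : (Md {k} (fun _ => w) * g) i = g i := by
  funext j
  rw [Md, Matrix.add_mul, Matrix.one_mul, Matrix.add_apply, Matrix.mul_apply]
  simp [hi]

lemma row_indep {g : Matrix (Fin d) (Fin d) ℝ} {ν : ℝ} (hν : 0 < ν) (hnu : HasNu g ν) (k : Fin d)
    (N : Matrix (Fin d) (Fin d) ℤ) (hN : g k ᵥ* zR N = 0) : N = 0 := by
  classical
  ext i j
  by_contra hij
  have h1 : (fun l => N l j) ≠ 0 := fun h => hij (congrFun h i)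
  have h2 := hnu _ h1
  have h3 : (g *ᵥ iR (fun l => N l j)) k = 0 := congrFun hN j
  rw [FF_eq, Finset.prod_eq_zero (Finset.mem_univ k) h3, abs_zero] at h2
  exact absurd h2 (not_le.2 hν)

/-- Two integral products with `d - 1` common factors are proportional. -/
theorem unique_factor (hd : 2 ≤ d) {g : Matrix (Fin d) (Fin d) ℝ} (hg : g.det ≠ 0) {ν : ℝ}
    (hν : 0 < ν) (hnu : HasNu g ν) (hP : PropInt g) {k : Fin d} {w : Fin d → ℝ} (hwk : w k = 0)
    (hnu' : HasNu (Md {k} (fun _ => w) * g) ν) (hP' : PropInt (Md {k} (fun _ => w) * g)) :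
    w = 0 := by
  classical
  have hd0 : 0 < d := by omega
  set g' := Md {k} (fun _ => w) * g with hg'
  have hrowk : g' k = g k + w ᵥ* g := Md_row w g
  have hrow : ∀ i, i ≠ k → g' i = g i := fun i hi => Md_row_ne w g hi
  have hdet' : g'.det ≠ 0 := by
    rw [hg', det_mul]
    exact mul_ne_zero (Md_det_ne hwk) hg
  have hnz : ∀ (h : Matrix (Fin d) (Fin d) ℝ), HasNu h ν → ∀ p : Fin d → ℤ, p ≠ 0 →
      FF h (iR p) ≠ 0 := by
    intro h hh p hp h0
    have h1 := hh p hp
    rw [h0, abs_zero] at h1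
    exact absurd h1 (not_le.2 hν)
  obtain ⟨A, -, hA1, -, hA2⟩ := Pool.Agent.H905R2.Opp.oppA g hd0 hg hP (hnz g hnu)
  obtain ⟨B, -, hB1, -, hB2⟩ := Pool.Agent.H905R2.Opp.oppA g' hd0 hdet' hP' (hnz g' hnu')
  obtain ⟨lam, hlam, hAg⟩ := eig_of_opp hg hA1 hA2
  obtain ⟨mu, hmu, hBg⟩ := eig_of_opp hdet' hB1 hB2
  have hArow : ∀ i, g i ᵥ* zR A = lam i • g i := by
    intro i
    funext j
    have h1 := congrFun (congrFun hAg i) j
    rw [Matrix.diagonal_mul] at h1
    exact h1
  have hBrow : ∀ i, g' i ᵥ* zR B = mu i • g' i := by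
    intro i
    funext j
    have h1 := congrFun (congrFun hBg i) j
    rw [Matrix.diagonal_mul] at h1
    exact h1
  -- the two matrices commute
  obtain ⟨i, hi⟩ : ∃ i : Fin d, i ≠ k := by
    have : Nontrivial (Fin d) := Fin.nontrivial_iff_two_le.2 hd
    exact exists_ne k
  have hcomm : A * B = B * A := by
    have h1 : g i ᵥ* zR (A * B - B * A) = 0 := by
      have h2 : zR (A * B - B * A) = zR A * zR B - zR B * zR A := by
        rw [← zR_mul, ← zR_mul]
        ext a b
        simp [zR]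
      have h3 := hBrow i
      rw [hrow i hi] at h3
      rw [h2, Matrix.vecMul_sub, ← Matrix.vecMul_vecMul, ← Matrix.vecMul_vecMul, hArow, h3,
        Matrix.smul_vecMul, Matrix.smul_vecMul, hArow, h3, smul_smul, smul_smul, mul_comm, sub_self]
    exact sub_eq_zero.1 (row_indep hν hnu i _ h1)
  -- so the row `k` of `g` is an eigenrow of `B`
  set c : Fin d → ℝ := (g k ᵥ* zR B) ᵥ* g⁻¹ with hc
  have hu : IsUnit g.det := isUnit_iff_ne_zero.2 hg
  have hcg : c ᵥ* g = g k ᵥ* zR B := by
    rw [hc, Matrix.vecMul_vecMul, Matrix.nonsing_inv_mul _ hu, Matrix.vecMul_one]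
  have hczero : ∀ l, l ≠ k → c l = 0 := by
    have h1 : (c ᵥ* g) ᵥ* zR A = lam k • (c ᵥ* g) := by
      rw [hcg, Matrix.vecMul_vecMul, ← zR_mul, ← hcomm, zR_mul, ← Matrix.vecMul_vecMul, hArow,
        Matrix.smul_vecMul]
    rw [Matrix.vecMul_vecMul, hAg, ← Matrix.vecMul_vecMul, ← Matrix.smul_vecMul] at h1
    have h2 : c ᵥ* diagonal lam = lam k • c := by
      have h3 := congrArg (fun v : Fin d → ℝ => v ᵥ* g⁻¹) h1
      simp only [Matrix.vecMul_vecMul, Matrix.mul_nonsing_inv _ hu, Matrix.mul_one,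
        Matrix.vecMul_one] at h3
      rw [Matrix.mul_assoc, Matrix.mul_nonsing_inv _ hu, Matrix.mul_one] at h3
      exact h3
    intro l hl
    have h3 := congrFun h2 l
    rw [Matrix.vecMul_diagonal, Pi.smul_apply, smul_eq_mul] at h3
    have h4 : c l * (lam l - lam k) = 0 := by linarith
    rcases mul_eq_zero.1 h4 with h5 | h5
    · exact h5
    · exact absurd (hlam (sub_eq_zero.1 h5)) hl
  have hkB : g k ᵥ* zR B = c k • g k := by
    rw [← hcg]
    funext j
    simp only [Matrix.vecMul, dotProduct, Pi.smul_apply, smul_eq_mul]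
    rw [Finset.sum_eq_single k]
    · intro l _ hl
      rw [hczero l hl, zero_mul]
    · intro h; exact absurd (Finset.mem_univ k) h
  -- compare
  have h1 := hBrow k
  rw [hrowk, Matrix.add_vecMul, hkB] at h1
  have h2 : (w ᵥ* g) ᵥ* zR B = (fun l => w l * mu l) ᵥ* g := by
    funext j
    have h3 : ∀ l, l ≠ k → ∑ m, g l m * (zR B) m j = mu l * g l j := by
      intro l hl
      have h4 := congrFun (hBrow l) j
      rw [hrow l hl] at h4
      exact h4
    simp only [Matrix.vecMul, dotProduct]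
    have h5 : ∀ m, (∑ l, w l * g l m) * (zR B) m j = ∑ l, w l * (g l m * (zR B) m j) := by
      intro m
      rw [Finset.sum_mul]
      exact Finset.sum_congr rfl fun l _ => by ring
    simp only [h5]
    rw [Finset.sum_comm]
    refine Finset.sum_congr rfl fun l _ => ?_
    rw [← Finset.mul_sum]
    by_cases hl : l = k
    · rw [hl, hwk]; ring
    · rw [h3 l hl]; ring
  rw [h2] at h1
  have h3 : (c k • (Pi.single k (1 : ℝ) : Fin d → ℝ) + fun l => w l * mu l) ᵥ* g
      = (mu k • ((Pi.single k (1 : ℝ) : Fin d → ℝ) + w)) ᵥ* g := by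
    rw [Matrix.add_vecMul, Matrix.smul_vecMul, Matrix.smul_vecMul, Matrix.add_vecMul,
      Matrix.single_one_vecMul]
    exact h1
  have h4 : (c k • (Pi.single k (1 : ℝ) : Fin d → ℝ) + fun l => w l * mu l)
      = (mu k • ((Pi.single k (1 : ℝ) : Fin d → ℝ) + w)) := by
    have h5 := congrArg (fun v : Fin d → ℝ => v ᵥ* g⁻¹) h3
    simpa only [Matrix.vecMul_vecMul, Matrix.mul_nonsing_inv _ hu, Matrix.vecMul_one] using h5
  funext l
  by_cases hl : l = k
  · rw [hl]; exact hwk
  · have h5 := congrFun h4 l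
    simp only [Pi.add_apply, Pi.smul_apply, smul_eq_mul, Pi.single_apply, if_neg hl, mul_zero,
      zero_add] at h5
    have h6 : w l * (mu l - mu k) = 0 := by linarith
    rcases mul_eq_zero.1 h6 with h7 | h7
    · exact h7
    · exact absurd (hmu (sub_eq_zero.1 h7)) hl

end Pool.Agent.Y327
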