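import Mathlib
import Pool.Agent.Y327.RealComm
import Pool.Agent.Y327.Unique

/-! # The field of symmetries of a minimal set and the classes of indices -/

open Filter Topology Matrix

namespace Pool.Agent.Y327

open H715R2 RatSpan

variable {d : ℕ}

/-- common denominators -/
lemma exists_int_scale (f : Module.End ℚ (Fin d → ℚ)) : ∃ k : ℤ, 0 < k ∧
    ∃ σ : Matrix (Fin d) (Fin d) ℤ, ((k : ℤ) : ℝ) • kap f = zR σ := by
  classical
  set q : Fin d → Fin d → ℚ := fun a b => f (Pi.single b 1) a with hq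
  set D : ℤ := ∏ a, ∏ b, ((q a b).den : ℤ) with hD
  have hDpos : 0 < D := by
    refine Finset.prod_pos fun a _ => Finset.prod_pos fun b _ => ?_
    exact_mod_cast (q a b).den_pos
  have h1 : ∀ a b, ∃ c : ℤ, (c : ℚ) = D * q a b := by
    intro a b
    have hdvd : ((q a b).den : ℤ) ∣ D := by
      refine (Finset.dvd_prod_of_mem (fun b => ((q a b).den : ℤ)) (Finset.mem_univ b)).trans ?_
      exact Finset.dvd_prod_of_mem (fun a => ∏ b, ((q a b).den : ℤ)) (Finset.mem_univ a)
    obtain ⟨e, he⟩ := hdvd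
    refine ⟨e * (q a b).num, ?_⟩
    have h3 := Rat.num_div_den (q a b)
    have h4 : ((q a b).den : ℚ) ≠ 0 := by
      exact_mod_cast (q a b).den_ne_zero
    conv_rhs => rw [← h3, he]
    push_cast
    field_simp
  choose c hc using h1
  refine ⟨D, hDpos, fun a b => c a b, ?_⟩
  ext a b
  rw [Matrix.smul_apply, kap_apply, smul_eq_mul]
  show _ = ((c a b : ℤ) : ℝ)
  have := congrArg (fun t : ℚ => (t : ℝ)) (hc a b)
  push_cast at this
  exact this.symm

/-- the rational endomorphisms which become diagonal -/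
def Dg (h : Matrix (Fin d) (Fin d) ℝ) (f : Module.End ℚ (Fin d → ℚ)) : Prop :=
  ∀ i j, i ≠ j → (h * kap f * h⁻¹) i j = 0

/-- no rational endomorphism which becomes diagonal separates the two indices -/
def Sam (h : Matrix (Fin d) (Fin d) ℝ) (i j : Fin d) : Prop :=
  ∀ f, Dg h f → (h * kap f * h⁻¹) i i = (h * kap f * h⁻¹) j j

lemma Sam.refl (h : Matrix (Fin d) (Fin d) ℝ) (i : Fin d) : Sam h i i := fun _ _ => rfl

lemma Sam.symm {h : Matrix (Fin d) (Fin d) ℝ} {i j : Fin d} (hij : Sam h i j) : Sam h j i :=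
  fun f hf => (hij f hf).symm

lemma Sam.trans {h : Matrix (Fin d) (Fin d) ℝ} {i j k : Fin d} (hij : Sam h i j)
    (hjk : Sam h j k) : Sam h i k := fun f hf => (hij f hf).trans (hjk f hf)

lemma dg_iff {h : Matrix (Fin d) (Fin d) ℝ} (hu : IsUnit h.det) {f : Module.End ℚ (Fin d → ℚ)} :
    Dg h f ↔ h * kap f = diagonal (fun i => (h * kap f * h⁻¹) i i) * h := by
  constructor
  · intro hf
    have h1 : h * kap f * h⁻¹ = diagonal (fun i => (h * kap f * h⁻¹) i i) := by
      ext i j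
      by_cases hij : i = j
      · subst hij; rw [diagonal_apply_eq]
      · rw [diagonal_apply_ne _ hij, hf i j hij]
    calc h * kap f = h * kap f * (h⁻¹ * h) := by rw [Matrix.nonsing_inv_mul _ hu, Matrix.mul_one]
      _ = (h * kap f * h⁻¹) * h := by simp only [Matrix.mul_assoc]
      _ = _ := by rw [← h1]
  · intro hf i j hij
    have h1 : h * kap f * h⁻¹ = diagonal (fun i => (h * kap f * h⁻¹) i i) := by
      conv_lhs => rw [hf]
      rw [Matrix.mul_assoc, Matrix.mul_nonsing_inv _ hu, Matrix.mul_one]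
    rw [h1, diagonal_apply_ne _ hij]

lemma eig_of_eq {h : Matrix (Fin d) (Fin d) ℝ} (hu : IsUnit h.det) {M : Matrix (Fin d) (Fin d) ℝ}
    {D : Fin d → ℝ} (hM : h * M = diagonal D * h) : h * M * h⁻¹ = diagonal D := by
  rw [hM, Matrix.mul_assoc, Matrix.mul_nonsing_inv _ hu, Matrix.mul_one]

lemma tendsto_inv_mat {hs : ℕ → Matrix (Fin d) (Fin d) ℝ} {h : Matrix (Fin d) (Fin d) ℝ}
    (hlim : Tendsto hs atTop (𝓝 h)) (hdet : h.det ≠ 0) :
    Tendsto (fun n => (hs n)⁻¹) atTop (𝓝 h⁻¹) := by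
  simp only [Matrix.inv_def, Ring.inverse_eq_inv']
  have h1 : Tendsto (fun n => (hs n).det) atTop (𝓝 h.det) :=
    ((Continuous.matrix_det continuous_id).tendsto h).comp hlim
  have h2 : Tendsto (fun n => (hs n).adjugate) atTop (𝓝 h.adjugate) :=
    ((Continuous.matrix_adjugate continuous_id).tendsto h).comp hlim
  exact (h1.inv₀ hdet).smul h2

/-- **Symmetries pass to the whole minimal set.** -/
theorem transfer {V : ℝ} (hV : 0 < V) {M : Set (Matrix (Fin d) (Fin d) ℝ)}
    (hMdet : ∀ h ∈ M, |h.det| = V) (hM : MinB id M) {h : Matrix (Fin d) (Fin d) ℝ} (hh : h ∈ M)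
    {σ : Matrix (Fin d) (Fin d) ℤ} {D : Fin d → ℝ} (hσ : h * zR σ = diagonal D * h) :
    ∀ h' ∈ M, ∃ σ' : Matrix (Fin d) (Fin d) ℤ, h' * zR σ' = diagonal D * h' := by
  have hdet0 : ∀ h ∈ M, h.det ≠ 0 := by
    intro h hh h0
    have := hMdet h hh
    rw [h0, abs_zero] at this
    exact hV.ne this
  set Z : Set (Matrix (Fin d) (Fin d) ℝ) :=
    {h' | h' ∈ M ∧ ∃ σ' : Matrix (Fin d) (Fin d) ℤ, h' * zR σ' = diagonal D * h'} with hZ
  have hZM : Z = M := by
    refine hM.min Z (fun x hx => hx.1) ?_ ⟨h, hh, σ, hσ⟩ ?_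
    · refine IsSeqClosed.isClosed ?_
      intro xs x hxs hx
      have hxM : x ∈ M := hM.closed.mem_of_tendsto hx (Eventually.of_forall fun n => (hxs n).1)
      refine ⟨hxM, ?_⟩
      choose σs hσs using fun n => (hxs n).2
      have h1 : ∀ n, zR (σs n) = (xs n)⁻¹ * (diagonal D * xs n) := by
        intro n
        rw [← hσs n, ← Matrix.mul_assoc, Matrix.nonsing_inv_mul _
          (isUnit_iff_ne_zero.2 (hdet0 _ (hxs n).1)), Matrix.one_mul]
      have h2 : Tendsto (fun n => zR (σs n)) atTop (𝓝 (x⁻¹ * (diagonal D * x))) := by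
        simp only [h1]
        exact (tendsto_inv_mat hx (hdet0 x hxM)).mul (tendsto_const_nhds.mul hx)
      have h3 : ∀ a b, ∃ z : ℤ, (z : ℝ) = (x⁻¹ * (diagonal D * x)) a b := by
        intro a b
        have h4 : Tendsto (fun n => ((σs n a b : ℤ) : ℝ)) atTop
            (𝓝 ((x⁻¹ * (diagonal D * x)) a b)) :=
          ((continuous_apply_apply a b).tendsto _).comp h2
        have h5 : IsClosed (Set.range (Int.cast : ℤ → ℝ)) := Int.isClosedEmbedding_coe_real.isClosed_range
        exact h5.mem_of_tendsto h4 (Eventually.of_forall fun n => ⟨_, rfl⟩)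
      choose z hz using h3
      refine ⟨fun a b => z a b, ?_⟩
      have h4 : zR (fun a b => z a b) = x⁻¹ * (diagonal D * x) := by
        ext a b
        exact hz a b
      rw [h4, ← Matrix.mul_assoc, Matrix.mul_nonsing_inv _
        (isUnit_iff_ne_zero.2 (hdet0 x hxM)), Matrix.one_mul]
    · rintro x ⟨hx, σ', hσ'⟩ a γ ha hγ
      refine ⟨hM.inv x hx a γ ha hγ, γ⁻¹ * σ' * γ, ?_⟩
      have h1 : γ * (γ⁻¹ * σ' * γ) = σ' * γ := by
        rw [← Matrix.mul_assoc, ← Matrix.mul_assoc, Matrix.mul_nonsing_inv _ hγ, Matrix.one_mul]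
      calc diagonal a * x * zR γ * zR (γ⁻¹ * σ' * γ)
          = diagonal a * x * (zR γ * zR (γ⁻¹ * σ' * γ)) := by rw [Matrix.mul_assoc]
        _ = diagonal a * x * (zR σ' * zR γ) := by rw [← zR_mul, h1, zR_mul]
        _ = diagonal a * (x * zR σ') * zR γ := by simp only [Matrix.mul_assoc]
        _ = diagonal a * (diagonal D * x) * zR γ := by rw [hσ']
        _ = (diagonal a * diagonal D) * x * zR γ := by simp only [Matrix.mul_assoc]
        _ = (diagonal D * diagonal a) * x * zR γ := by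
          rw [diagonal_mul_diagonal, diagonal_mul_diagonal]
          congr 3
          funext i
          rw [mul_comm]
        _ = _ := by simp only [Matrix.mul_assoc]
  intro h' hh'
  rw [← hZM] at hh'
  exact hh'.2

/-- the integral witness of a separation -/
lemma exists_sep {h : Matrix (Fin d) (Fin d) ℝ} (hu : IsUnit h.det) {i j : Fin d}
    (hij : ¬ Sam h i j) : ∃ (σ : Matrix (Fin d) (Fin d) ℤ) (D : Fin d → ℝ),
      h * zR σ = diagonal D * h ∧ D i ≠ D j := by
  unfold Sam at hij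
  push Not at hij
  obtain ⟨f, hf, hne⟩ := hij
  obtain ⟨k, hk, σ, hσ⟩ := exists_int_scale f
  have hk' : ((k : ℤ) : ℝ) ≠ 0 := by exact_mod_cast hk.ne'
  refine ⟨σ, fun l => (k : ℝ) * (h * kap f * h⁻¹) l l, ?_, ?_⟩
  · rw [← hσ, Matrix.mul_smul]
    rw [dg_iff hu] at hf
    conv_lhs => rw [hf]
    ext a b
    rw [Matrix.smul_apply, diagonal_mul, diagonal_mul, smul_eq_mul]
    ring
  · intro h0
    exact hne (mul_left_cancel₀ hk' h0)

lemma not_sam_of_int {h : Matrix (Fin d) (Fin d) ℝ} (hu : IsUnit h.det) {i j : Fin d}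
    {σ : Matrix (Fin d) (Fin d) ℤ} {D : Fin d → ℝ} (hσ : h * zR σ = diagonal D * h)
    (hD : D i ≠ D j) : ¬ Sam h i j := by
  intro hs
  have h1 := eig_of_eq hu hσ
  have h2 := hs (fz σ) (fun a b hab => by rw [kap_fz, h1, diagonal_apply_ne _ hab])
  rw [kap_fz, h1, diagonal_apply_eq, diagonal_apply_eq] at h2
  exact hD h2

/-- the classes are the same on a minimal set -/
theorem sam_transfer {V : ℝ} (hV : 0 < V) {M : Set (Matrix (Fin d) (Fin d) ℝ)}
    (hMdet : ∀ h ∈ M, |h.det| = V) (hM : MinB id M) {h h' : Matrix (Fin d) (Fin d) ℝ} (hh : h ∈ M)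
    (hh' : h' ∈ M) {i j : Fin d} (hij : Sam h' i j) : Sam h i j := by
  have hu : ∀ h ∈ M, IsUnit h.det := by
    intro h hh
    rw [isUnit_iff_ne_zero]
    intro h0
    have := hMdet h hh
    rw [h0, abs_zero] at this
    exact hV.ne this
  by_contra hcon
  obtain ⟨σ, D, hσ, hD⟩ := exists_sep (hu h hh) hcon
  obtain ⟨σ', hσ'⟩ := transfer hV hMdet hM hh hσ h' hh'
  exact not_sam_of_int (hu h' hh') hσ' hD hij

/-- **Row modifications respect the classes.** -/
theorem sam_of_pair (hd : 2 ≤ d) {V ν : ℝ} (hV : 0 < V) (hν : 0 < ν)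
    {M : Set (Matrix (Fin d) (Fin d) ℝ)} (hMdet : ∀ h ∈ M, |h.det| = V)
    (hMnu : ∀ h ∈ M, HasNu h ν) (hM : MinB id M) {h : Matrix (Fin d) (Fin d) ℝ} (hh : h ∈ M)
    {i : Fin d} {w : Fin d → ℝ} (hw : Md {i} (fun _ => w) * h ∈ M)
    {l : Fin d} (hl : w l ≠ 0) : Sam h i l := by
  classical
  have hu : ∀ h ∈ M, IsUnit h.det := by
    intro h hh
    rw [isUnit_iff_ne_zero]
    intro h0
    have := hMdet h hh
    rw [h0, abs_zero] at this
    exact hV.ne this
  by_contra hcon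
  obtain ⟨σ, D, hσ, hD⟩ := exists_sep (hu h hh) hcon
  obtain ⟨σ', hσ'⟩ := transfer hV hMdet hM hh hσ _ hw
  obtain ⟨k, hki⟩ : ∃ k : Fin d, k ≠ i := by
    by_contra h0
    push Not at h0
    have h1 : (Finset.univ : Finset (Fin d)) ⊆ {i} := fun k _ => Finset.mem_singleton.2 (h0 k)
    have h2 := Finset.card_le_card h1
    rw [Finset.card_univ, Fintype.card_fin, Finset.card_singleton] at h2
    omega
  have hrow : ∀ (m : Matrix (Fin d) (Fin d) ℝ) (τ : Matrix (Fin d) (Fin d) ℤ),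
      m * zR τ = diagonal D * m → ∀ a, m a ᵥ* zR τ = D a • m a := by
    intro m τ hm a
    funext b
    have h1 := congrFun (congrFun hm a) b
    rw [diagonal_mul] at h1
    exact h1
  have h1 := hrow h σ hσ k
  have h2 := hrow _ σ' hσ' k
  rw [Md_row_ne w h hki] at h2
  have h3 : σ' - σ = 0 := by
    refine row_indep hν (hMnu h hh) k _ ?_
    have h4 : zR (σ' - σ) = zR σ' - zR σ := by
      ext a b
      simp [zR]
    rw [h4, Matrix.vecMul_sub, h1, h2, sub_self]
  have h4 : σ' = σ := sub_eq_zero.1 h3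
  have h5 := hrow _ σ' hσ' i
  rw [Md_row, h4, Matrix.add_vecMul, hrow h σ hσ i, smul_add, add_left_cancel_iff] at h5
  -- compare coefficients
  have h6 : (w ᵥ* h) ᵥ* zR σ = (fun a => w a * D a) ᵥ* h := by
    rw [Matrix.vecMul_vecMul, hσ, ← Matrix.vecMul_vecMul]
    congr 1
    funext a
    rw [Matrix.vecMul_diagonal]
  rw [h6] at h5
  have h7 : (fun a => w a * D a) = D i • w := by
    have h8 : ((fun a => w a * D a) ᵥ* h) ᵥ* h⁻¹ = ((D i • w) ᵥ* h) ᵥ* h⁻¹ := by
      rw [h5]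
      congr 1
      exact (Matrix.smul_vecMul _ _ _).symm
    rwa [Matrix.vecMul_vecMul, Matrix.vecMul_vecMul, Matrix.mul_nonsing_inv _ (hu h hh),
      Matrix.vecMul_one, Matrix.vecMul_one] at h8
  have h8 := congrFun h7 l
  simp only [Pi.smul_apply, smul_eq_mul] at h8
  apply hD
  exact (mul_left_cancel₀ hl (by rw [h8, mul_comm])).symm

/-- **The local pattern.** -/
theorem local_pattern {V : ℝ} (hV : 0 < V) {M : Set (Matrix (Fin d) (Fin d) ℝ)}
    (hMdet : ∀ h ∈ M, |h.det| = V) (hM : MinB id M) {h₀ : Matrix (Fin d) (Fin d) ℝ}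
    (hh₀ : h₀ ∈ M) : ∀ᶠ h in 𝓝[M] h₀, ∀ a b, ¬ Sam h₀ a b → (h * h₀⁻¹) a b = 0 := by
  classical
  have hu : ∀ h ∈ M, IsUnit h.det := by
    intro h hh
    rw [isUnit_iff_ne_zero]
    intro h0
    have := hMdet h hh
    rw [h0, abs_zero] at this
    exact hV.ne this
  rw [Filter.eventually_all]
  intro a
  rw [Filter.eventually_all]
  intro b
  by_cases hab : Sam h₀ a b
  · exact Eventually.of_forall fun h hn => absurd hab hn
  by_contra hcon
  rw [Filter.not_eventually] at hcon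
  obtain ⟨σ, D, hσ, hD⟩ := exists_sep (hu h₀ hh₀) hab
  obtain ⟨hs, hs1, hs2⟩ := Filter.exists_seq_forall_of_frequently
    (hcon.and_eventually self_mem_nhdsWithin)
  have hslim : Tendsto hs atTop (𝓝 h₀) := hs1.mono_right nhdsWithin_le_nhds
  choose σs hσs using fun n => transfer hV hMdet hM hh₀ hσ (hs n) (hs2 n).2
  have h1 : ∀ n, zR (σs n) = (hs n)⁻¹ * (diagonal D * hs n) := by
    intro n
    rw [← hσs n, ← Matrix.mul_assoc, Matrix.nonsing_inv_mul _ (hu _ (hs2 n).2), Matrix.one_mul]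
  have h2 : Tendsto (fun n => zR (σs n)) atTop (𝓝 (zR σ)) := by
    have h3 : zR σ = h₀⁻¹ * (diagonal D * h₀) := by
      rw [← hσ, ← Matrix.mul_assoc, Matrix.nonsing_inv_mul _ (hu _ hh₀), Matrix.one_mul]
    rw [h3]
    simp only [h1]
    exact (tendsto_inv_mat hslim (isUnit_iff_ne_zero.1 (hu h₀ hh₀))).mul
      (tendsto_const_nhds.mul hslim)
  have h3 : ∀ᶠ n in atTop, ∀ p q, |zR (σs n) p q - zR σ p q| < 1 := by
    rw [Filter.eventually_all]
    intro p
    rw [Filter.eventually_all]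
    intro q
    have h4 : Tendsto (fun n => |zR (σs n) p q - zR σ p q|) atTop (𝓝 0) := by
      have h5 : Tendsto (fun n => zR (σs n) p q) atTop (𝓝 (zR σ p q)) :=
        ((continuous_apply_apply p q).tendsto _).comp h2
      have h6 := (h5.sub_const (zR σ p q)).abs
      rwa [sub_self, abs_zero] at h6
    exact h4.eventually (gt_mem_nhds one_pos)
  obtain ⟨n, hn⟩ := h3.exists
  have h4 : σs n = σ := by
    ext p q
    have h5 := hn p q
    have h6 : |((σs n p q - σ p q : ℤ) : ℝ)| < 1 := by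
      push_cast
      exact h5
    have h7 : |σs n p q - σ p q| < 1 := by exact_mod_cast h6
    have h8 := Int.abs_lt_one_iff.1 h7
    omega
  have h5 := hσs n
  rw [h4] at h5
  apply (hs2 n).1
  intro _
  -- the quotient commutes with the diagonal matrix
  have h6 : (hs n * h₀⁻¹) * diagonal D = diagonal D * (hs n * h₀⁻¹) := by
    have h7 := eig_of_eq (hu h₀ hh₀) hσ
    calc (hs n * h₀⁻¹) * diagonal D = (hs n * h₀⁻¹) * (h₀ * zR σ * h₀⁻¹) := by rw [h7]
      _ = hs n * (h₀⁻¹ * h₀) * zR σ * h₀⁻¹ := by simp only [Matrix.mul_assoc]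
      _ = (hs n * zR σ) * h₀⁻¹ := by rw [Matrix.nonsing_inv_mul _ (hu h₀ hh₀), Matrix.mul_one]
      _ = _ := by rw [h5, Matrix.mul_assoc]
  have h7 := congrFun (congrFun h6 a) b
  rw [Matrix.mul_diagonal, Matrix.diagonal_mul] at h7
  have h8 : (hs n * h₀⁻¹) a b * (D b - D a) = 0 := by linear_combination h7
  exact (mul_eq_zero.1 h8).resolve_right (sub_ne_zero.2 (Ne.symm hD))

end Pool.Agent.Y327
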