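import Mathlib
import Pool.Agent.Y327.BlockAlg

/-! # A number field acting on a rational vector space: the real algebra -/

open Filter Topology Matrix NumberField NumberField.mixedEmbedding

set_option linter.unusedSectionVars false

namespace Pool.Agent.Y327

open H715R2

variable {K : Type*} [Field K] [NumberField K] {d : ℕ}

/-- the linear extension to the mixed space of an action of a number field -/
noncomputable def jlin (ι : K →+* Module.End ℚ (Fin d → ℚ)) :
    mixedSpace K →ₗ[ℝ] Matrix (Fin d) (Fin d) ℝ :=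
  (latticeBasis K).constr ℝ (fun k => kap (ι (integralBasis K k)))

lemma jlin_emb (ι : K →+* Module.End ℚ (Fin d → ℚ)) (x : K) :
    jlin ι (mixedEmbedding K x) = kap (ι x) := by
  rw [jlin, Module.Basis.constr_apply_fintype]
  conv_rhs => rw [← (integralBasis K).sum_repr x]
  rw [map_sum, map_sum]
  refine Finset.sum_congr rfl fun k _ => ?_
  rw [map_rat_smul, kap_smul]
  congr 1
  exact latticeBasis_repr_apply K x k

lemma jlin_one (ι : K →+* Module.End ℚ (Fin d → ℚ)) : jlin ι 1 = 1 := by
  rw [← map_one (mixedEmbedding K), jlin_emb, map_one, map_one]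

lemma jlin_mul (ι : K →+* Module.End ℚ (Fin d → ℚ)) (x y : mixedSpace K) :
    jlin ι (x * y) = jlin ι x * jlin ι y := by
  have h1 : (LinearMap.mul ℝ (mixedSpace K)).compr₂ (jlin ι) =
      ((LinearMap.mul ℝ (Matrix (Fin d) (Fin d) ℝ)).compl₂ (jlin ι)).comp (jlin ι) := by
    refine (latticeBasis K).ext fun k => ?_
    refine (latticeBasis K).ext fun l => ?_
    simp only [LinearMap.compr₂_apply, LinearMap.mul_apply', LinearMap.comp_apply,
      LinearMap.compl₂_apply, latticeBasis_apply]
    rw [← map_mul, jlin_emb, jlin_emb, jlin_emb, map_mul, map_mul]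
  have h2 := LinearMap.congr_fun (LinearMap.congr_fun h1 x) y
  simpa using h2

/-- the algebra homomorphism -/
noncomputable def jhom (ι : K →+* Module.End ℚ (Fin d → ℚ)) :
    mixedSpace K →ₐ[ℝ] Matrix (Fin d) (Fin d) ℝ :=
  AlgHom.ofLinearMap (jlin ι) (jlin_one ι) (jlin_mul ι)

lemma jhom_emb (ι : K →+* Module.End ℚ (Fin d → ℚ)) (x : K) :
    jhom ι (mixedEmbedding K x) = kap (ι x) := jlin_emb ι x

lemma jhom_continuous (ι : K →+* Module.End ℚ (Fin d → ℚ)) : Continuous (jhom ι) :=
  (jlin ι).continuous_of_finiteDimensional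

/-- the exponential -/
noncomputable def Ex (v : mixedSpace K) : mixedSpace K :=
  (fun w => Real.exp (v.1 w), fun w => Complex.exp (v.2 w))

/-- the logarithm -/
noncomputable def Lx (v : mixedSpace K) : mixedSpace K :=
  (fun w => Real.log (v.1 w), fun w => Complex.log (v.2 w))

lemma Ex_add (v v' : mixedSpace K) : Ex (v + v') = Ex v * Ex v' := by
  ext w
  · simp [Ex, Real.exp_add]
  · simp [Ex, Complex.exp_add]

lemma Ex_zero : Ex (0 : mixedSpace K) = 1 := by
  ext w
  · simp [Ex]
  · simp [Ex]

lemma Ex_continuous : Continuous (Ex : mixedSpace K → mixedSpace K) := by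
  unfold Ex
  fun_prop

lemma Ex_neg_mul (v : mixedSpace K) : Ex (-v) * Ex v = 1 := by
  rw [← Ex_add, neg_add_cancel, Ex_zero]

lemma Ex_nsmul (v : mixedSpace K) (n : ℕ) : Ex ((n : ℝ) • v) = Ex v ^ n := by
  induction n with
  | zero => rw [Nat.cast_zero, zero_smul, Ex_zero, pow_zero]
  | succ n ih => rw [Nat.cast_succ, add_smul, one_smul, Ex_add, ih, pow_succ]

lemma Ex_Lx_eventually : ∀ᶠ c in 𝓝 (1 : mixedSpace K), Ex (Lx c) = c := by
  have h1 : ∀ᶠ c in 𝓝 (1 : mixedSpace K), ∀ w, 0 < c.1 w := by
    rw [Filter.eventually_all]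
    intro w
    have hc : Continuous (fun c : mixedSpace K => c.1 w) := by fun_prop
    exact (hc.tendsto 1).eventually (lt_mem_nhds (by simp))
  have h2 : ∀ᶠ c in 𝓝 (1 : mixedSpace K), ∀ w, c.2 w ≠ 0 := by
    rw [Filter.eventually_all]
    intro w
    have hc : Continuous (fun c : mixedSpace K => c.2 w) := by fun_prop
    exact (hc.tendsto 1).eventually (isOpen_ne.mem_nhds (by simp))
  filter_upwards [h1, h2] with c hc1 hc2
  ext w
  · simp only [Ex, Lx]
    exact Real.exp_log (hc1 w)
  · simp only [Ex, Lx]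
    exact Complex.exp_log (hc2 w)

lemma Lx_tendsto : Tendsto (Lx : mixedSpace K → mixedSpace K) (𝓝 1) (𝓝 0) := by
  unfold Lx
  refine Tendsto.prodMk_nhds ?_ ?_
  · refine tendsto_pi_nhds.2 fun w => ?_
    have hc : Continuous (fun c : mixedSpace K => c.1 w) := by fun_prop
    have h1 := (Real.continuousAt_log (x := 1) one_ne_zero).tendsto
    rw [Real.log_one] at h1
    have h2 := hc.tendsto 1
    exact h1.comp (by simpa using h2)
  · refine tendsto_pi_nhds.2 fun w => ?_
    have hc : Continuous (fun c : mixedSpace K => c.2 w) := by fun_prop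
    have h1 := (continuousAt_clog (x := 1) Complex.one_mem_slitPlane).tendsto
    rw [Complex.log_one] at h1
    have h2 := hc.tendsto 1
    exact h1.comp (by simpa using h2)

/-- the idempotent of a real place -/
noncomputable def ech (w₁ : {w : InfinitePlace K // w.IsReal}) : mixedSpace K := by
  classical
  exact (Pi.single w₁ 1, 0)

open scoped Classical in
lemma ech_def (w₁ : {w : InfinitePlace K // w.IsReal}) :
    ech w₁ = ((Pi.single w₁ 1, 0) : mixedSpace K) := rfl

lemma ech_mul_self (w₁ : {w : InfinitePlace K // w.IsReal}) : ech w₁ * ech w₁ = ech w₁ := by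
  classical
  rw [ech_def]
  ext w
  · by_cases h : w = w₁
    · subst h; simp
    · simp [Pi.single_eq_of_ne h]
  · simp

lemma ech_mul (w₁ : {w : InfinitePlace K // w.IsReal}) (c : mixedSpace K) :
    ech w₁ * c = c.1 w₁ • ech w₁ := by
  classical
  rw [ech_def]
  ext w
  · by_cases h : w = w₁
    · subst h; simp
    · simp [Pi.single_eq_of_ne h]
  · simp

/-- the one-parameter group which contracts exactly one real place -/
noncomputable def zc (w₁ : {w : InfinitePlace K // w.IsReal}) (x : ℝ) : mixedSpace K :=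
  Real.exp (((Module.finrank ℚ K : ℝ) - 1) * x) • ech w₁ + Real.exp (-x) • (1 - ech w₁)

lemma zc_zero (w₁ : {w : InfinitePlace K // w.IsReal}) : zc w₁ 0 = 1 := by
  simp [zc]

lemma zc_add (w₁ : {w : InfinitePlace K // w.IsReal}) (x y : ℝ) :
    zc w₁ (x + y) = zc w₁ x * zc w₁ y := by
  have h1 : ech w₁ * (1 - ech w₁) = 0 := by rw [mul_sub, mul_one, ech_mul_self, sub_self]
  have h2 : (1 - ech w₁) * ech w₁ = 0 := by rw [sub_mul, one_mul, ech_mul_self, sub_self]
  have h3 : (1 - ech w₁) * (1 - ech w₁) = 1 - ech w₁ := by rw [mul_sub, mul_one, h2, sub_zero]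
  have h4 : ∀ a b c e : ℝ, (a • ech w₁ + b • (1 - ech w₁)) * (c • ech w₁ + e • (1 - ech w₁)) =
      (a * c) • ech w₁ + (b * e) • (1 - ech w₁) := by
    intro a b c e
    rw [add_mul, mul_add, mul_add, smul_mul_smul_comm, smul_mul_smul_comm,
      smul_mul_smul_comm, smul_mul_smul_comm, h1, h2, h3, ech_mul_self, smul_zero, smul_zero,
      add_zero, zero_add]
  rw [zc, zc, zc, h4, ← Real.exp_add, ← Real.exp_add]
  congr 2
  · ring_nf
  · ring_nf

lemma normAtPlace_zc (w₁ : {w : InfinitePlace K // w.IsReal}) (x : ℝ) (w : InfinitePlace K) :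
    normAtPlace w (zc w₁ x) =
      Real.exp (open Classical in if w = w₁.1 then ((Module.finrank ℚ K : ℝ) - 1) * x else -x) := by
  classical
  by_cases hw : w.IsReal
  · rw [normAtPlace_apply_of_isReal hw, zc, ech_def]
    by_cases h : w = w₁.1
    · have h' : (⟨w, hw⟩ : {w : InfinitePlace K // w.IsReal}) = w₁ := Subtype.ext h
      rw [if_pos h, h']
      simp
    · have h' : (⟨w, hw⟩ : {w : InfinitePlace K // w.IsReal}) ≠ w₁ := fun h' => h (by rw [← h'])
      rw [if_neg h]
      simp [Pi.single_eq_of_ne h']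
  · have hw' : w.IsComplex := InfinitePlace.not_isReal_iff_isComplex.1 hw
    have h : w ≠ w₁.1 := fun h => hw (by rw [h]; exact w₁.2)
    rw [normAtPlace_apply_of_isComplex hw', zc, ech_def, if_neg h]
    simp only [Prod.snd_add, Prod.smul_snd, Prod.snd_sub, Prod.snd_one, Pi.add_apply,
      Pi.smul_apply, Pi.one_apply, Pi.zero_apply, smul_zero, sub_zero, zero_add]
    rw [Complex.real_smul, mul_one, Complex.norm_real, Real.norm_eq_abs, abs_of_pos (Real.exp_pos _)]

end Pool.Agent.Y327
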