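import Mathlib
import Pool.Agent.Y327.Mixed
import Pool.Agent.H715R2.Units

/-! # Units of a number field acting on a rational vector space -/

open Filter Topology Matrix NumberField NumberField.mixedEmbedding

set_option linter.unusedSectionVars false

namespace Pool.Agent.Y327

open H715R2

variable {K : Type*} [Field K] [NumberField K] {d : ℕ}

/-- a multiple of the image of the ring of integers is integral -/
lemma exists_int_multiple (ι : K →+* Module.End ℚ (Fin d → ℚ)) : ∃ D : ℤ, 0 < D ∧ ∀ z : 𝓞 K,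
    ∃ β : Matrix (Fin d) (Fin d) ℤ, ((D : ℤ) : ℝ) • kap (ι (z : K)) = zR β := by
  classical
  set ω := RingOfIntegers.basis K with hω
  set q : Module.Free.ChooseBasisIndex ℤ (𝓞 K) → Fin d → Fin d → ℚ := fun k a b =>
    ι (ω k : K) (Pi.single b 1) a with hq
  set D : ℤ := ∏ k, ∏ a, ∏ b, ((q k a b).den : ℤ) with hD
  have hDpos : 0 < D := by
    refine Finset.prod_pos fun k _ => Finset.prod_pos fun a _ => Finset.prod_pos fun b _ => ?_
    exact_mod_cast (q k a b).den_pos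
  refine ⟨D, hDpos, fun z => ?_⟩
  have h1 : ∀ k a b, ∃ c : ℤ, (c : ℚ) = D * q k a b := by
    intro k a b
    have hdvd : ((q k a b).den : ℤ) ∣ D := by
      refine (Finset.dvd_prod_of_mem (fun b => ((q k a b).den : ℤ)) (Finset.mem_univ b)).trans ?_
      refine (Finset.dvd_prod_of_mem (fun a => ∏ b, ((q k a b).den : ℤ))
        (Finset.mem_univ a)).trans ?_
      exact Finset.dvd_prod_of_mem (fun k => ∏ a, ∏ b, ((q k a b).den : ℤ)) (Finset.mem_univ k)
    obtain ⟨e, he⟩ := hdvd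
    refine ⟨e * (q k a b).num, ?_⟩
    have h3 := Rat.num_div_den (q k a b)
    have h4 : ((q k a b).den : ℚ) ≠ 0 := by
      exact_mod_cast (q k a b).den_ne_zero
    conv_rhs => rw [← h3, he]
    push_cast
    field_simp
  choose c hc using h1
  have hz : (z : K) = ∑ k, ((ω.repr z k : ℤ) : ℚ) • (ω k : K) := by
    conv_lhs => rw [← ω.sum_repr z]
    push_cast
    simp [Algebra.smul_def]
  refine ⟨fun a b => ∑ k, ω.repr z k * c k a b, ?_⟩
  ext a b
  rw [hz, map_sum, map_sum, Matrix.smul_apply, Matrix.sum_apply, smul_eq_mul]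
  show _ = ((∑ k, ω.repr z k * c k a b : ℤ) : ℝ)
  push_cast
  rw [Finset.mul_sum]
  refine Finset.sum_congr rfl fun k _ => ?_
  rw [map_rat_smul, kap_smul, Matrix.smul_apply, kap_apply, smul_eq_mul]
  have h5 : ((c k a b : ℤ) : ℝ) = D * ((q k a b : ℚ) : ℝ) := by
    have := congrArg (fun t : ℚ => (t : ℝ)) (hc k a b)
    push_cast at this
    exact this
  rw [h5]
  push_cast
  ring

/-- **Integral action of powers of units.** -/
theorem exists_pow_int (ι : K →+* Module.End ℚ (Fin d → ℚ)) : ∃ N : ℕ, 0 < N ∧ ∀ u : (𝓞 K)ˣ,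
    ∃ γ : Matrix (Fin d) (Fin d) ℤ, IsUnit γ.det ∧
      kap (ι (((u ^ N : (𝓞 K)ˣ) : 𝓞 K) : K)) = zR γ := by
  classical
  obtain ⟨D, hD, hDz⟩ := exists_int_multiple ι
  set I : Ideal (𝓞 K) := Ideal.span {((D : ℤ) : 𝓞 K)} with hI
  have hIne : I ≠ ⊥ := by
    rw [hI, Ne, Ideal.span_singleton_eq_bot]
    exact_mod_cast hD.ne'
  have : Finite (𝓞 K ⧸ I) := I.finiteQuotientOfFreeOfNeBot hIne
  have : Finite (𝓞 K ⧸ I)ˣ := inferInstance
  set N0 := Nat.card (𝓞 K ⧸ I)ˣ with hN0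
  have hN0pos : 0 < N0 := Nat.card_pos
  have key : ∀ u : (𝓞 K)ˣ, ∃ γ : Matrix (Fin d) (Fin d) ℤ,
      kap (ι (((u ^ N0 : (𝓞 K)ˣ) : 𝓞 K) : K)) = zR γ := by
    intro u
    have h3 : (Ideal.Quotient.mk I) ((u ^ N0 : (𝓞 K)ˣ) : 𝓞 K) = (Ideal.Quotient.mk I) 1 := by
      have h4 : (Units.map (Ideal.Quotient.mk I : 𝓞 K →* 𝓞 K ⧸ I) u) ^ N0 = 1 := by
        rw [hN0, pow_card_eq_one']
      have h5 := congrArg (fun v : (𝓞 K ⧸ I)ˣ => (v : 𝓞 K ⧸ I)) h4
      simpa using h5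
    rw [Ideal.Quotient.eq, hI, Ideal.mem_span_singleton] at h3
    obtain ⟨z, hz⟩ := h3
    obtain ⟨β, hβ⟩ := hDz z
    refine ⟨1 + β, ?_⟩
    have h6 : (((u ^ N0 : (𝓞 K)ˣ) : 𝓞 K) : K) = 1 + ((D : ℤ) : K) * (z : K) := by
      have := congrArg (fun t : 𝓞 K => (t : K)) hz
      simp only [map_sub, map_one, map_mul, map_intCast] at this
      linear_combination this
    rw [h6, map_add, map_one, map_add, map_one, map_mul, map_mul, map_intCast, map_intCast]
    have h7 : zR (1 + β) = 1 + zR β := by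
      have h8 : zR (1 + β) = zR 1 + zR β := by
        ext a b
        by_cases hab : a = b
        · simp [zR, hab]
        · simp [zR, hab]
      rw [h8, zR_one]
    rw [h7, ← hβ]
    congr 1
    rw [← smul_eq_mul, Int.cast_smul_eq_zsmul, Int.cast_smul_eq_zsmul]
  refine ⟨N0, hN0pos, fun u => ?_⟩
  obtain ⟨γ, hγ⟩ := key u
  obtain ⟨γ', hγ'⟩ := key u⁻¹
  refine ⟨γ, ?_, hγ⟩
  have h1 : zR γ * zR γ' = 1 := by
    rw [← hγ, ← hγ', ← map_mul, ← map_mul]
    have h2 : (((u ^ N0 : (𝓞 K)ˣ) : 𝓞 K) : K) * (((u⁻¹ ^ N0 : (𝓞 K)ˣ) : 𝓞 K) : K) = 1 := by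
      rw [← map_mul, ← Units.val_mul, inv_pow, mul_inv_cancel, Units.val_one, map_one]
    rw [h2, map_one, map_one]
  have h2 : ((γ.det * γ'.det : ℤ) : ℝ) = 1 := by
    have h3 := congrArg Matrix.det h1
    rw [det_mul, det_zR, det_zR, det_one] at h3
    rw [Int.cast_mul]
    exact h3
  have h3 : γ.det * γ'.det = 1 := by exact_mod_cast h2
  exact IsUnit.of_mul_eq_one _ h3

/-- **Units adapted to a real place.** -/
theorem exists_units_seq
    (w₁ : {w : InfinitePlace K // w.IsReal}) {N : ℕ} (hN : 0 < N) :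
    ∃ R : ℝ, ∀ n : ℕ, ∃ u : (𝓞 K)ˣ, ∀ w : InfinitePlace K,
      normAtPlace w (zc w₁ n * mixedEmbedding K (((u ^ N : (𝓞 K)ˣ) : 𝓞 K) : K)) ≤ R ∧
      normAtPlace w (zc w₁ (-n) * mixedEmbedding K ((((u⁻¹) ^ N : (𝓞 K)ˣ) : 𝓞 K) : K)) ≤ R := by
  classical
  obtain ⟨R, hR0, hR⟩ := exists_unit_pow_near K N hN
  refine ⟨Real.exp R, fun n => ?_⟩
  set p : InfinitePlace K → ℝ := fun w => if w = w₁.1 then -(((Module.finrank ℚ K : ℝ) - 1) * n)
    else n with hp
  have hsum : ∑ τ : K →+* ℂ, p (InfinitePlace.mk τ) = 0 := by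
    have h1 : ∀ τ : K →+* ℂ, p (InfinitePlace.mk τ) =
        (n : ℝ) - (if InfinitePlace.mk τ = w₁.1 then ((Module.finrank ℚ K : ℝ)) * n else 0) := by
      intro τ
      simp only [hp]
      split_ifs <;> ring
    simp only [h1]
    rw [Finset.sum_sub_distrib, ← Finset.sum_filter, Finset.sum_const, Finset.sum_const,
      Finset.card_univ, Embeddings.card, InfinitePlace.card_filter_mk_eq,
      InfinitePlace.mult, if_pos w₁.2]
    simp
  obtain ⟨u, hu⟩ := hR p hsum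
  refine ⟨u, fun w => ⟨?_, ?_⟩⟩
  · rw [map_mul, normAtPlace_apply, normAtPlace_zc]
    have h1 := hu w.embedding
    rw [InfinitePlace.mk_embedding, InfinitePlace.norm_embedding_eq] at h1
    have h2 : 0 < w ((((u ^ N : (𝓞 K)ˣ) : 𝓞 K)) : K) := by
      rw [InfinitePlace.pos_iff]
      exact_mod_cast (u ^ N).ne_zero
    rw [← Real.exp_log h2, ← Real.exp_add]
    refine Real.exp_le_exp.2 ?_
    have h3 := (abs_le.1 h1).2
    simp only [hp] at h3
    split_ifs at h3 ⊢ <;> linarith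
  · rw [map_mul, normAtPlace_apply, normAtPlace_zc]
    have h1 := hu w.embedding
    rw [InfinitePlace.mk_embedding, InfinitePlace.norm_embedding_eq] at h1
    have h2 : 0 < w ((((u ^ N : (𝓞 K)ˣ) : 𝓞 K)) : K) := by
      rw [InfinitePlace.pos_iff]
      exact_mod_cast (u ^ N).ne_zero
    have h5 : w ((((u⁻¹ ^ N : (𝓞 K)ˣ) : 𝓞 K)) : K) = (w ((((u ^ N : (𝓞 K)ˣ) : 𝓞 K)) : K))⁻¹ := by
      refine eq_inv_of_mul_eq_one_left ?_
      rw [← map_mul, ← map_mul, ← Units.val_mul, inv_pow,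
        inv_mul_cancel, Units.val_one, map_one, map_one]
    rw [h5, ← Real.exp_log h2, ← Real.exp_neg, ← Real.exp_add]
    refine Real.exp_le_exp.2 ?_
    have h3 := (abs_le.1 h1).1
    simp only [hp] at h3
    split_ifs at h3 ⊢ <;> linarith

end Pool.Agent.Y327
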