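import Mathlib
import Pool.Agent.Y327.UnitAct

/-! # Returns to the identity in the mixed space -/

open Filter Topology Matrix NumberField NumberField.mixedEmbedding

set_option linter.unusedSectionVars false

namespace Pool.Agent.Y327

open H715R2

variable {K : Type*} [Field K] [NumberField K] {d : ℕ}

/-- a norm on the mixed space -/
noncomputable def nx (x : mixedSpace K) : ℝ := ∑ w : InfinitePlace K, normAtPlace w x

lemma nx_nonneg (x : mixedSpace K) : 0 ≤ nx x :=
  Finset.sum_nonneg fun w _ => normAtPlace_nonneg w x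

lemma nx_continuous : Continuous (nx : mixedSpace K → ℝ) :=
  continuous_finsetSum _ fun w _ => continuous_normAtPlace w

lemma nx_smul (c : ℝ) (x : mixedSpace K) : nx (c • x) = |c| * nx x := by
  rw [nx, nx, Finset.mul_sum]
  exact Finset.sum_congr rfl fun w _ => normAtPlace_smul w x c

lemma nx_zero : nx (0 : mixedSpace K) = 0 := by
  rw [nx]
  exact Finset.sum_eq_zero fun w _ => map_zero _

lemma nx_pos {x : mixedSpace K} (hx : x ≠ 0) : 0 < nx x := by
  obtain ⟨w, hw⟩ := exists_normAtPlace_ne_zero_iff.2 hx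
  have h1 : normAtPlace w x ≤ nx x :=
    Finset.single_le_sum (f := fun w => normAtPlace w x) (fun w _ => normAtPlace_nonneg w x)
      (Finset.mem_univ w)
  exact lt_of_lt_of_le (lt_of_le_of_ne (normAtPlace_nonneg w x) (Ne.symm hw)) h1

lemma le_nx (x : mixedSpace K) (w : InfinitePlace K) : normAtPlace w x ≤ nx x :=
  Finset.single_le_sum (f := fun w => normAtPlace w x) (fun w _ => normAtPlace_nonneg w x)
    (Finset.mem_univ w)

lemma isCompact_places (R : ℝ) :
    IsCompact {x : mixedSpace K | ∀ w : InfinitePlace K, normAtPlace w x ≤ R} := by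
  have h1 : IsCompact ((Set.univ.pi fun _ : {w : InfinitePlace K // w.IsReal} =>
      Metric.closedBall (0 : ℝ) R) ×ˢ (Set.univ.pi fun _ : {w : InfinitePlace K // w.IsComplex} =>
      Metric.closedBall (0 : ℂ) R)) :=
    (isCompact_univ_pi fun _ => isCompact_closedBall 0 R).prod
      (isCompact_univ_pi fun _ => isCompact_closedBall 0 R)
  refine h1.of_isClosed_subset ?_ ?_
  · have h2 : {x : mixedSpace K | ∀ w : InfinitePlace K, normAtPlace w x ≤ R} =
        ⋂ w : InfinitePlace K, {x | normAtPlace w x ≤ R} := by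
      ext x; simp
    rw [h2]
    exact isClosed_iInter fun w => isClosed_le (continuous_normAtPlace w) continuous_const
  · intro x hx
    refine ⟨fun w _ => ?_, fun w _ => ?_⟩
    · have := hx w.1
      rw [normAtPlace_apply_of_isReal w.2] at this
      rw [mem_closedBall_zero_iff]
      exact this
    · have := hx w.1
      rw [normAtPlace_apply_of_isComplex w.2] at this
      rw [mem_closedBall_zero_iff]
      exact this

/-- **Returns to the identity.** -/
theorem exists_near_one (w₁ : {w : InfinitePlace K // w.IsReal}) {N : ℕ} (hN : 0 < N) :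
    ∃ (v : ℕ → (𝓞 K)ˣ) (t : ℕ → ℝ), Tendsto t atTop atTop ∧
      Tendsto (fun n => zc w₁ (t n) * mixedEmbedding K ((((v n) ^ N : (𝓞 K)ˣ) : 𝓞 K) : K))
        atTop (𝓝 1) := by
  obtain ⟨R, hR⟩ := exists_units_seq w₁ hN
  choose u hu using hR
  set c : ℕ → mixedSpace K × mixedSpace K := fun n =>
    (zc w₁ n * mixedEmbedding K ((((u n) ^ N : (𝓞 K)ˣ) : 𝓞 K) : K),
      zc w₁ (-n) * mixedEmbedding K (((((u n)⁻¹) ^ N : (𝓞 K)ˣ) : 𝓞 K) : K)) with hc
  have hcpt := (isCompact_places (K := K) R).prod (isCompact_places (K := K) R)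
  obtain ⟨⟨a, b⟩, -, φ, hφ, hlim⟩ := hcpt.tendsto_subseq (x := c) (fun n =>
    ⟨fun w => (hu n w).1, fun w => (hu n w).2⟩)
  have h1 : Tendsto (fun n => (c (φ n)).1) atTop (𝓝 a) := (continuous_fst.tendsto _).comp hlim
  have h2 : Tendsto (fun n => (c (φ n)).2) atTop (𝓝 b) := (continuous_snd.tendsto _).comp hlim
  have hmulc : ∀ (x y : ℝ) (v v' : (𝓞 K)ˣ),
      (zc w₁ x * mixedEmbedding K (((v ^ N : (𝓞 K)ˣ) : 𝓞 K) : K)) *
      (zc w₁ y * mixedEmbedding K (((v' ^ N : (𝓞 K)ˣ) : 𝓞 K) : K)) =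
      zc w₁ (x + y) * mixedEmbedding K ((((v * v') ^ N : (𝓞 K)ˣ) : 𝓞 K) : K) := by
    intro x y v v'
    have h0 : ((((v * v') ^ N : (𝓞 K)ˣ) : 𝓞 K) : K) =
        (((v ^ N : (𝓞 K)ˣ) : 𝓞 K) : K) * (((v' ^ N : (𝓞 K)ˣ) : 𝓞 K) : K) := by
      rw [mul_pow, Units.val_mul]
      rfl
    rw [zc_add, h0, map_mul]
    ring
  have h3 : a * b = 1 := by
    refine tendsto_nhds_unique (h1.mul h2) ?_
    refine tendsto_const_nhds.congr fun n => ?_
    show 1 = (zc w₁ (φ n) * mixedEmbedding K ((((u (φ n)) ^ N : (𝓞 K)ˣ) : 𝓞 K) : K)) *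
      (zc w₁ (-(φ n)) * mixedEmbedding K (((((u (φ n))⁻¹) ^ N : (𝓞 K)ˣ) : 𝓞 K) : K))
    have h0 : ((((1 : (𝓞 K)ˣ) : (𝓞 K)ˣ) : 𝓞 K) : K) = 1 := rfl
    rw [hmulc, add_neg_cancel, zc_zero, mul_inv_cancel, one_pow, h0, map_one, mul_one]
  refine ⟨fun n => u (φ (2 * n)) * (u (φ n))⁻¹, fun n => (φ (2 * n) : ℝ) + -(φ n : ℝ), ?_, ?_⟩
  · refine tendsto_atTop_mono (f := fun n : ℕ => (n : ℝ)) (fun n => ?_) tendsto_natCast_atTop_atTop
    have h4 : ∀ m k : ℕ, φ m + k ≤ φ (m + k) := by
      intro m k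
      induction k with
      | zero => simp
      | succ k ih =>
        have h5 : φ (m + k) < φ (m + (k + 1)) := hφ (by omega)
        omega
    have h5 := h4 n n
    rw [← two_mul] at h5
    have h6 : ((φ n + n : ℕ) : ℝ) ≤ (φ (2 * n) : ℝ) := by exact_mod_cast h5
    push_cast at h6
    linarith
  · have h4 : Tendsto (fun n => (c (φ (2 * n))).1 * (c (φ n)).2) atTop (𝓝 (a * b)) := by
      refine Tendsto.mul ?_ h2
      exact h1.comp (tendsto_id.const_mul_atTop' (by norm_num))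
    rw [h3] at h4
    refine h4.congr fun n => ?_
    exact hmulc _ _ _ _

end Pool.Agent.Y327
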