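import Mathlib
import Pool.Agent.Y327.NearOne

/-! # Rigidity of fields of symmetries -/

open Filter Topology Matrix NumberField NumberField.mixedEmbedding

set_option linter.unusedSectionVars false

namespace Pool.Agent.Y327

open H715R2

variable {K : Type*} [Field K] [NumberField K] {d : ℕ}

lemma dot_self_nonneg (u : Fin d → ℝ) : 0 ≤ u ⬝ᵥ u :=
  Finset.sum_nonneg fun i _ => mul_self_nonneg (u i)

lemma parallel_of_no_sign {u v : Fin d → ℝ} (hu : u ≠ 0)
    (h : ∀ y : Fin d → ℝ, ¬ (u ⬝ᵥ y < 0 ∧ 0 < v ⬝ᵥ y)) : ∃ c : ℝ, v = c • u := by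
  have huu : 0 < u ⬝ᵥ u := by
    rcases lt_or_eq_of_le (dot_self_nonneg u) with h1 | h1
    · exact h1
    · exact absurd (dotProduct_self_eq_zero.1 h1.symm) hu
  set r : Fin d → ℝ := (u ⬝ᵥ u) • v - (u ⬝ᵥ v) • u with hr
  by_cases hr0 : r = 0
  · refine ⟨(u ⬝ᵥ v) / (u ⬝ᵥ u), ?_⟩
    rw [hr, sub_eq_zero] at hr0
    rw [div_eq_inv_mul, mul_smul, ← hr0, smul_smul, inv_mul_cancel₀ huu.ne', one_smul]
  · exfalso
    have hrr : 0 < r ⬝ᵥ r := by
      rcases lt_or_eq_of_le (dot_self_nonneg r) with h1 | h1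
      · exact h1
      · exact absurd (dotProduct_self_eq_zero.1 h1.symm) hr0
    have hG : r ⬝ᵥ r = (u ⬝ᵥ u) * ((u ⬝ᵥ u) * (v ⬝ᵥ v) - (u ⬝ᵥ v) * (u ⬝ᵥ v)) := by
      rw [hr]
      simp only [sub_dotProduct, dotProduct_sub, smul_dotProduct, dotProduct_smul, smul_eq_mul]
      rw [dotProduct_comm v u]
      ring
    have hG0 : 0 < (u ⬝ᵥ u) * (v ⬝ᵥ v) - (u ⬝ᵥ v) * (u ⬝ᵥ v) := by
      rw [hG] at hrr
      exact (mul_pos_iff_of_pos_left huu).1 hrr
    refine h (-((v ⬝ᵥ v) + (u ⬝ᵥ v)) • u + ((u ⬝ᵥ u) + (u ⬝ᵥ v)) • v) ⟨?_, ?_⟩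
    · simp only [dotProduct_add, dotProduct_smul, smul_eq_mul]
      nlinarith
    · simp only [dotProduct_add, dotProduct_smul, smul_eq_mul]
      rw [dotProduct_comm v u]
      nlinarith

/-- elements acting as positive diagonal matrices -/
def Pd (ι : K →+* Module.End ℚ (Fin d → ℚ)) (h : Matrix (Fin d) (Fin d) ℝ) : Set (mixedSpace K) :=
  {c | ∃ a : Fin d → ℝ, (∀ i, 0 < a i) ∧ h * jhom ι c = diagonal a * h}

lemma Pd_one (ι : K →+* Module.End ℚ (Fin d → ℚ)) (h : Matrix (Fin d) (Fin d) ℝ) :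
    (1 : mixedSpace K) ∈ Pd ι h :=
  ⟨fun _ => 1, fun _ => one_pos, by rw [map_one, Matrix.mul_one, diagonal_one, Matrix.one_mul]⟩

lemma Pd_mul {ι : K →+* Module.End ℚ (Fin d → ℚ)} {h : Matrix (Fin d) (Fin d) ℝ}
    {c c' : mixedSpace K} (hc : c ∈ Pd ι h) (hc' : c' ∈ Pd ι h) : c * c' ∈ Pd ι h := by
  obtain ⟨a, ha, h1⟩ := hc
  obtain ⟨a', ha', h2⟩ := hc'
  refine ⟨fun i => a i * a' i, fun i => mul_pos (ha i) (ha' i), ?_⟩
  rw [map_mul, ← Matrix.mul_assoc, h1, Matrix.mul_assoc, h2, ← Matrix.mul_assoc,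
    diagonal_mul_diagonal]

lemma Pd_pow {ι : K →+* Module.End ℚ (Fin d → ℚ)} {h : Matrix (Fin d) (Fin d) ℝ}
    {c : mixedSpace K} (hc : c ∈ Pd ι h) (n : ℕ) : c ^ n ∈ Pd ι h := by
  induction n with
  | zero => rw [pow_zero]; exact Pd_one ι h
  | succ n ih => rw [pow_succ]; exact Pd_mul ih hc

/-- elements which act within the positive multiples of a set -/
def Sm (ι : K →+* Module.End ℚ (Fin d → ℚ)) (M : Set (Matrix (Fin d) (Fin d) ℝ))
    (h : Matrix (Fin d) (Fin d) ℝ) : Set (mixedSpace K) :=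
  {c | ∃ ρ : ℝ, 0 < ρ ∧ ∃ m ∈ M, h * jhom ι c = ρ • m}

lemma Sm_of_Pd (hd : 0 < d) {ι : K →+* Module.End ℚ (Fin d → ℚ)}
    {M : Set (Matrix (Fin d) (Fin d) ℝ)} (hMinv : InvB id M)
    {h : Matrix (Fin d) (Fin d) ℝ} (hh : h ∈ M) {c c' : mixedSpace K} (hc : c ∈ Pd ι h)
    {γ : Matrix (Fin d) (Fin d) ℤ} (hγ : IsUnit γ.det) (hc' : jhom ι c' = zR γ) :
    c * c' ∈ Sm ι M h := by
  obtain ⟨a, ha, h1⟩ := hc
  have hdR : (0 : ℝ) < d := by exact_mod_cast hd
  set s : ℝ := (∑ i, Real.log (a i)) / d with hs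
  refine ⟨Real.exp s, Real.exp_pos _, diagonal (fun i => a i * Real.exp (-s)) * h * zR γ,
    hMinv h hh _ γ ⟨fun i => mul_pos (ha i) (Real.exp_pos _), ?_, fun i j hij => by
      rw [show i = j from hij]⟩ hγ, ?_⟩
  · have h2 : ∀ i, a i * Real.exp (-s) = Real.exp (Real.log (a i) + -s) := by
      intro i
      rw [Real.exp_add, Real.exp_log (ha i)]
    simp only [h2]
    rw [← Real.exp_sum, Finset.sum_add_distrib, Finset.sum_const, Finset.card_univ,
      Fintype.card_fin, nsmul_eq_mul, hs, Real.exp_eq_one_iff]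
    field_simp
    ring
  · rw [map_mul, ← Matrix.mul_assoc, h1, hc']
    rw [← Matrix.smul_mul, ← Matrix.smul_mul]
    congr 2
    ext i j
    rw [Matrix.smul_apply]
    by_cases hij : i = j
    · subst hij
      rw [diagonal_apply_eq, diagonal_apply_eq, smul_eq_mul, Real.exp_neg]
      have := (Real.exp_pos s).ne'
      field_simp
    · rw [diagonal_apply_ne _ hij, diagonal_apply_ne _ hij, smul_zero]

lemma Sm_closed (hd : 0 < d) {ι : K →+* Module.End ℚ (Fin d → ℚ)} {V : ℝ} (hV : 0 < V)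
    {M : Set (Matrix (Fin d) (Fin d) ℝ)} (hMdet : ∀ h ∈ M, |h.det| = V) (hMc : IsClosed M)
    {h : Matrix (Fin d) (Fin d) ℝ} {cs : ℕ → mixedSpace K} (hcs : ∀ n, cs n ∈ Sm ι M h)
    {c : mixedSpace K} (hlim : Tendsto cs atTop (𝓝 c)) (hdet : (h * jhom ι c).det ≠ 0) :
    c ∈ Sm ι M h := by
  choose ρ hρ m hm hcm using hcs
  have hdR : (0 : ℝ) < d := by exact_mod_cast hd
  have h1 : Tendsto (fun n => h * jhom ι (cs n)) atTop (𝓝 (h * jhom ι c)) :=
    tendsto_const_nhds.mul (((jhom_continuous ι).tendsto c).comp hlim)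
  have h2 : Tendsto (fun n => |(h * jhom ι (cs n)).det|) atTop (𝓝 |(h * jhom ι c).det|) :=
    ((Continuous.matrix_det continuous_id).tendsto _ |>.comp h1).abs
  have h3 : ∀ n, |(h * jhom ι (cs n)).det| = ρ n ^ d * V := by
    intro n
    rw [hcm, det_smul, Fintype.card_fin, abs_mul, abs_of_pos (pow_pos (hρ n) d),
      hMdet _ (hm n)]
  have h4 : ∀ n, ρ n = Real.exp (Real.log (|(h * jhom ι (cs n)).det| / V) / d) := by
    intro n
    rw [h3, mul_div_cancel_right₀ _ hV.ne', Real.log_pow, mul_div_cancel_left₀ _ hdR.ne',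
      Real.exp_log (hρ n)]
  set ρ' : ℝ := Real.exp (Real.log (|(h * jhom ι c).det| / V) / d) with hρ'
  have h5 : Tendsto ρ atTop (𝓝 ρ') := by
    have h6 : Tendsto (fun n => Real.log (|(h * jhom ι (cs n)).det| / V)) atTop
        (𝓝 (Real.log (|(h * jhom ι c).det| / V))) := by
      refine Tendsto.log (h2.div_const V) ?_
      exact (div_pos (abs_pos.2 hdet) hV).ne'
    have h7 := (Real.continuous_exp.tendsto _).comp (h6.div_const (d : ℝ))
    refine h7.congr fun n => ?_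
    exact (h4 n).symm
  have hρ'0 : 0 < ρ' := Real.exp_pos _
  have h6 : Tendsto m atTop (𝓝 (ρ'⁻¹ • (h * jhom ι c))) := by
    have h7 := (h5.inv₀ hρ'0.ne').smul h1
    refine h7.congr fun n => ?_
    rw [hcm, smul_smul, inv_mul_cancel₀ (hρ n).ne', one_smul]
  refine ⟨ρ', hρ'0, ρ'⁻¹ • (h * jhom ι c), hMc.mem_of_tendsto h6 (Eventually.of_forall hm), ?_⟩
  rw [smul_smul, mul_inv_cancel₀ hρ'0.ne', one_smul]

lemma Sm_ne_zero {ι : K →+* Module.End ℚ (Fin d → ℚ)} {ν : ℝ} (hν : 0 < ν)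
    {M : Set (Matrix (Fin d) (Fin d) ℝ)} (hMnu : ∀ h ∈ M, HasNu h ν)
    {h : Matrix (Fin d) (Fin d) ℝ} {c : mixedSpace K} (hc : c ∈ Sm ι M h) {x : Fin d → ℤ}
    (hx : x ≠ 0) (i : Fin d) : (h * jhom ι c) i ⬝ᵥ iR x ≠ 0 := by
  obtain ⟨ρ, hρ, m, hm, hcm⟩ := hc
  intro h0
  have h1 := hMnu m hm x hx
  have h2 : (m *ᵥ iR x) i = 0 := by
    have h3 : (h * jhom ι c) i ⬝ᵥ iR x = ρ * (m *ᵥ iR x) i := by
      rw [hcm]
      show (ρ • m i) ⬝ᵥ iR x = ρ * (m i ⬝ᵥ iR x)
      rw [smul_dotProduct, smul_eq_mul]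
    rw [h3] at h0
    exact (mul_eq_zero.1 h0).resolve_left hρ.ne'
  rw [FF_eq, Finset.prod_eq_zero (Finset.mem_univ i) h2, abs_zero] at h1
  exact absurd h1 (not_le.2 hν)

lemma det_Ex {ι : K →+* Module.End ℚ (Fin d → ℚ)} (v : mixedSpace K) :
    (jhom ι (Ex v)).det ≠ 0 := by
  intro h0
  have h1 := congrArg (fun c => (jhom ι c).det) (Ex_neg_mul v)
  simp only [map_mul, map_one, det_mul, det_one] at h1
  rw [h0, mul_zero] at h1
  exact zero_ne_one h1

/-- **One-parameter groups are diagonal.** -/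
lemma diag_of_line {ι : K →+* Module.End ℚ (Fin d → ℚ)} {ν : ℝ} (hν : 0 < ν)
    {M : Set (Matrix (Fin d) (Fin d) ℝ)} (hMnu : ∀ h ∈ M, HasNu h ν)
    {h : Matrix (Fin d) (Fin d) ℝ} (hdet : h.det ≠ 0) {w : mixedSpace K}
    (hw : ∀ t : ℝ, 0 ≤ t → Ex (t • w) ∈ Sm ι M h) (t : ℝ) :
    ∃ a : Fin d → ℝ, h * jhom ι (Ex (t • w)) = diagonal a * h := by
  -- nonnegative times
  have hpos : ∀ t : ℝ, 0 ≤ t → ∃ a : Fin d → ℝ, h * jhom ι (Ex (t • w)) = diagonal a * h := by
    intro t ht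
    have hrow : ∀ i, ∃ c : ℝ, (h * jhom ι (Ex (t • w))) i = c • h i := by
      intro i
      refine parallel_of_no_sign ?_ ?_
      · intro h0
        apply hdet
        exact Matrix.det_eq_zero_of_row_eq_zero i fun j => congrFun h0 j
      · rintro y ⟨hy1, hy2⟩
        set U : Set (Fin d → ℝ) := {y | h i ⬝ᵥ y < 0 ∧ 0 < (h * jhom ι (Ex (t • w))) i ⬝ᵥ y} with hU
        have hUo : IsOpen U := by
          have h1 : U = {y | h i ⬝ᵥ y < 0} ∩ {y | 0 < (h * jhom ι (Ex (t • w))) i ⬝ᵥ y} := rfl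
          rw [h1]
          exact (isOpen_lt (continuous_const.dotProduct continuous_id) continuous_const).inter
            (isOpen_lt continuous_const (continuous_const.dotProduct continuous_id))
        obtain ⟨m, k, hk, hmk⟩ := exists_int_point U hUo y ⟨hy1, hy2⟩
        have hk' : (0 : ℝ) < k := by exact_mod_cast hk
        have h1 : iR m = (k : ℝ) • (fun l => (m l : ℝ) / k) := by
          funext l
          simp only [iR, Pi.smul_apply, smul_eq_mul]
          field_simp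
        have h2 : h i ⬝ᵥ iR m < 0 := by
          rw [h1, dotProduct_smul, smul_eq_mul]
          exact mul_neg_of_pos_of_neg hk' hmk.1
        have h3 : 0 < (h * jhom ι (Ex (t • w))) i ⬝ᵥ iR m := by
          rw [h1, dotProduct_smul, smul_eq_mul]
          exact mul_pos hk' hmk.2
        have hm0 : m ≠ 0 := by
          intro h0
          rw [h0] at h2
          have : iR (0 : Fin d → ℤ) = 0 := by funext l; simp [iR]
          rw [this, dotProduct_zero] at h2
          exact lt_irrefl _ h2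
        set f : ℝ → ℝ := fun s => (h * jhom ι (Ex (s • w))) i ⬝ᵥ iR m with hf
        have hfc : Continuous f := by
          have h4 : Continuous (fun s : ℝ => h * jhom ι (Ex (s • w))) := by
            refine continuous_const.matrix_mul ((jhom_continuous ι).comp (Ex_continuous.comp ?_))
            exact continuous_id.smul continuous_const
          exact ((continuous_apply i).comp h4).dotProduct continuous_const
        have hf0 : f 0 < 0 := by
          simp only [hf, zero_smul, Ex_zero, map_one, Matrix.mul_one]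
          exact h2
        obtain ⟨s, hs, hfs⟩ := intermediate_value_Icc ht hfc.continuousOn
          (show (0 : ℝ) ∈ Set.Icc (f 0) (f t) from ⟨hf0.le, h3.le⟩)
        exact Sm_ne_zero hν hMnu (hw s hs.1) hm0 i hfs
    choose a ha using hrow
    refine ⟨a, ?_⟩
    ext i j
    rw [diagonal_mul]
    have := congrFun (ha i) j
    simpa using this
  rcases le_total 0 t with ht | ht
  · exact hpos t ht
  · obtain ⟨a, ha⟩ := hpos (-t) (by linarith)
    have hdet2 : (h * jhom ι (Ex ((-t) • w))).det ≠ 0 := by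
      rw [det_mul]
      exact mul_ne_zero hdet (det_Ex _)
    have ha0 : ∀ i, a i ≠ 0 := by
      intro i h0
      apply hdet2
      rw [ha, det_mul, det_diagonal, Finset.prod_eq_zero (Finset.mem_univ i) h0, zero_mul]
    refine ⟨fun i => (a i)⁻¹, ?_⟩
    have h1 : jhom ι (Ex ((-t) • w)) * jhom ι (Ex (t • w)) = 1 := by
      rw [← map_mul, neg_smul, Ex_neg_mul, map_one]
    have h2 : (diagonal (fun i => (a i)⁻¹) : Matrix (Fin d) (Fin d) ℝ) * diagonal a = 1 := by
      rw [diagonal_mul_diagonal]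
      have : (fun i => (a i)⁻¹ * a i) = fun _ => (1 : ℝ) := by
        funext i
        exact inv_mul_cancel₀ (ha0 i)
      rw [this, diagonal_one]
    calc h * jhom ι (Ex (t • w))
        = (diagonal (fun i => (a i)⁻¹) * diagonal a) * h * jhom ι (Ex (t • w)) := by
          rw [h2, Matrix.one_mul]
      _ = diagonal (fun i => (a i)⁻¹) * (diagonal a * h) * jhom ι (Ex (t • w)) := by
          simp only [Matrix.mul_assoc]
      _ = diagonal (fun i => (a i)⁻¹) * (h * jhom ι (Ex ((-t) • w))) * jhom ι (Ex (t • w)) := by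
          rw [ha]
      _ = diagonal (fun i => (a i)⁻¹) * h * (jhom ι (Ex ((-t) • w)) * jhom ι (Ex (t • w))) := by
          simp only [Matrix.mul_assoc]
      _ = _ := by rw [h1, Matrix.mul_one]

end Pool.Agent.Y327
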