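import Mathlib
import Pool.Agent.Y327.Classes
import Pool.Agent.Y327.Rigid2

/-! # The step: no locally constant subspaces inside a class -/

open Filter Topology Matrix NumberField NumberField.mixedEmbedding

namespace Pool.Agent.Y327

open H715R2 RatSpan

variable {d : ℕ}

/-- a subalgebra which is a field, as a number field -/
lemma exists_numberField (𝒞 : Subalgebra ℚ (Module.End ℚ (Fin d → ℚ))) (hf : IsField 𝒞) :
    ∃ (K : Type) (_ : Field K) (_ : NumberField K) (ι : K →+* Module.End ℚ (Fin d → ℚ)),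
      ∀ f, f ∈ 𝒞 ↔ ∃ x, ι x = f := by
  have hnt : Nontrivial 𝒞 := hf.nontrivial
  have hchar : CharZero 𝒞 := algebraRat.charZero 𝒞
  have hfin : Module.Finite ℚ 𝒞 := inferInstance
  let ι₀ : 𝒞 →+* Module.End ℚ (Fin d → ℚ) := 𝒞.val.toRingHom
  have hι₀ : ∀ f, f ∈ 𝒞 ↔ ∃ x, ι₀ x = f :=
    fun f => ⟨fun h => ⟨⟨f, h⟩, rfl⟩, by rintro ⟨x, rfl⟩; exact x.2⟩
  let F : Field 𝒞 := hf.toField
  have hnf : @NumberField 𝒞 F := by
    refine @NumberField.mk 𝒞 F ?_ ?_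
    · exact hchar
    · have h2 := hfin
      convert h2
      exact Subsingleton.elim _ _
  exact ⟨𝒞, F, hnf, ι₀, hι₀⟩

lemma exists_inv_of {A : Type*} [Ring A] [Algebra ℚ A] [FiniteDimensional ℚ A] {a : A}
    (ha : ∀ b, a * b = 0 → b = 0) : ∃ b, a * b = 1 := by
  have hm : Function.Injective (LinearMap.mulLeft ℚ a) :=
    (injective_iff_map_eq_zero _).2 ha
  exact (LinearMap.injective_iff_surjective.1 hm) 1

lemma jhom_zero_of {K : Type*} [Field K] [NumberField K]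
    {X : Type*} [AddCommGroup X] [Module ℝ X] (L : mixedSpace K →ₗ[ℝ] X)
    (hL : ∀ x : K, L (mixedEmbedding K x) = 0) (c : mixedSpace K) : L c = 0 := by
  have h1 : L = 0 := (latticeBasis K).ext fun k => by
    rw [latticeBasis_apply, hL, LinearMap.zero_apply]
  rw [h1, LinearMap.zero_apply]

theorem frequently_step (hd : 3 ≤ d) {g : Matrix (Fin d) (Fin d) ℝ} (hg : g.det ≠ 0) {ν : ℝ}
    (hν : 0 < ν) (hnu : HasNu g ν) {M : Set (Matrix (Fin d) (Fin d) ℝ)}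
    (hMg : M ⊆ closure (Orb g)) (hM : MinB id M) {π : Fin d → Fin d}
    {Q : Set (Matrix (Fin d) (Fin d) ℝ)} (hQM : Q ⊆ M) (hQ : MinB π Q)
    {h₀ : Matrix (Fin d) (Fin d) ℝ} (hh₀ : h₀ ∈ Q) {J : Finset (Fin d)} {i₀ j₀ : Fin d}
    (hj₀ : j₀ ∈ J) (hi₀ : i₀ ∉ J) (hij : Sam h₀ i₀ j₀)
    (hsing : ∀ i, i ∉ J → Sam h₀ i j₀ → ∀ l, π l = π i → l = i) :
    ∃ᶠ h in 𝓝[Q] h₀, ∃ i', i' ∉ J ∧ ∃ j ∈ J, (h * h₀⁻¹) i' j ≠ 0 := by
  classical
  have hd0 : 0 < d := by omega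
  have hV : 0 < |g.det| := abs_pos.2 hg
  have hMdet : ∀ h ∈ M, |h.det| = |g.det| := fun h hh => abs_det_closure (hMg hh)
  have hMnu : ∀ h ∈ M, HasNu h ν := fun h hh => hasNu_closure hnu (hMg hh)
  have hQdet : ∀ h ∈ Q, |h.det| = |g.det| := fun h hh => hMdet h (hQM hh)
  have hQnu : ∀ h ∈ Q, HasNu h ν := fun h hh => hMnu h (hQM hh)
  have hu : IsUnit h₀.det := by
    rw [isUnit_iff_ne_zero]
    intro h0
    have := hMdet h₀ (hQM hh₀)
    rw [h0, abs_zero] at this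
    exact hV.ne this
  by_contra hcon
  rw [Filter.not_frequently] at hcon
  push Not at hcon
  -- the pattern
  set r : Fin d → Fin d → Prop := fun a b => Sam h₀ a b ∧ (b ∈ J → a ∈ J) with hr
  have hrefl : ∀ i, r i i := fun i => ⟨Sam.refl _ _, id⟩
  have htr : ∀ i j k, r i j → r j k → r i k := fun i j k h1 h2 =>
    ⟨h1.1.trans h2.1, fun h => h1.2 (h2.2 h)⟩
  have hloc : ∀ᶠ h in 𝓝[Q] h₀, ∀ a b, ¬ r a b → (h * h₀⁻¹) a b = 0 := by
    have h1 := (local_pattern hV hMdet hM (hQM hh₀)).filter_mono (nhdsWithin_mono h₀ hQM)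
    filter_upwards [h1, hcon] with h h2 h3 a b hab
    by_cases hs : Sam h₀ a b
    · have h4 : ¬ (b ∈ J → a ∈ J) := fun h4 => hab ⟨hs, h4⟩
      push Not at h4
      exact h3 a h4.2 b h4.1
    · exact h2 a b hs
  set 𝒜 := algR h₀ hu r hrefl htr with h𝒜
  have hret : ∀ i, i ∉ J → Sam h₀ i j₀ → HasRet 𝒜 h₀ i := fun i hi hs =>
    hasRet_algR (by omega) hV hν hQdet hQnu hQ hh₀ (hsing i hi hs) hloc
  have hret₀ := hret i₀ hi₀ hij
  have hsimple := simple_of_ret (by omega) hV hν (hQdet _ hh₀) (hQnu _ hh₀) 𝒜 hret₀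
  -- the centraliser
  set 𝒞 := Subalgebra.centralizer ℚ (𝒜 : Set (Module.End ℚ (Fin d → ℚ))) with h𝒞
  have h𝒞m : ∀ f, f ∈ 𝒞 ↔ ∀ a ∈ 𝒜, f * a = a * f := by
    intro f
    rw [h𝒞, Subalgebra.mem_centralizer_iff]
    exact ⟨fun h a ha => (h a ha).symm, fun h a ha => (h a ha).symm⟩
  have hrow : ∀ f ∈ 𝒞, ∀ i, i ∉ J → Sam h₀ i j₀ → ∀ j, i ≠ j →
      (h₀ * kap f * h₀⁻¹) i j = 0 ∧ (h₀ * kap f * h₀⁻¹) j i = 0 := fun f hf i hi hs j hne =>
    conj_row_zero hu (hret i hi hs) ((h𝒞m f).1 hf) hne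
  have hcls : ∀ f ∈ 𝒞, ∀ a b, ¬ Sam h₀ a b → (h₀ * kap f * h₀⁻¹) a b = 0 := by
    intro f hf a b hab
    unfold Sam at hab
    push Not at hab
    obtain ⟨p, hp, hne⟩ := hab
    have hp𝒜 : p ∈ 𝒜 := by
      intro i j hij
      exact hp i j (fun h => hij (by rw [h]; exact hrefl j))
    have h1 := (h𝒞m f).1 hf p hp𝒜
    have h2 := congrArg (fun x => (h₀ * kap x * h₀⁻¹) a b) h1
    simp only [map_mul] at h2
    rw [conj_mul hu, conj_mul hu] at h2
    have h3 : h₀ * kap p * h₀⁻¹ = diagonal (fun i => (h₀ * kap p * h₀⁻¹) i i) := by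
      ext i j
      by_cases hij : i = j
      · subst hij; rw [diagonal_apply_eq]
      · rw [diagonal_apply_ne _ hij, hp i j hij]
    rw [h3, Matrix.mul_diagonal, Matrix.diagonal_mul] at h2
    have h4 : (h₀ * kap f * h₀⁻¹) a b *
        ((h₀ * kap p * h₀⁻¹) b b - (h₀ * kap p * h₀⁻¹) a a) = 0 := by linear_combination h2
    exact (mul_eq_zero.1 h4).resolve_right (sub_ne_zero.2 (Ne.symm hne))
  -- the eigenvalue
  have hcol : ∀ f ∈ 𝒞, kap f *ᵥ (fun a => h₀⁻¹ a i₀) =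
      (h₀ * kap f * h₀⁻¹) i₀ i₀ • (fun a => h₀⁻¹ a i₀) := fun f hf =>
    col_eig hu hret₀ ((h𝒞m f).1 hf)
  have hrow' : ∀ f ∈ 𝒞, h₀ i₀ ᵥ* kap f = (h₀ * kap f * h₀⁻¹) i₀ i₀ • h₀ i₀ := fun f hf =>
    row_eig hu hret₀ ((h𝒞m f).1 hf)
  have hzero : ∀ f ∈ 𝒞, (h₀ * kap f * h₀⁻¹) i₀ i₀ = 0 → f = 0 := by
    intro f hf h0
    have h1 := hrow' f hf
    rw [h0, zero_smul] at h1
    apply end_ext
    intro a b
    have h2 : (fun a => f (Pi.single b 1) a) = (0 : Fin d → ℚ) := by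
      refine row_ne_rat hν (hQnu _ hh₀) i₀ _ ?_
      have h3 := congrFun h1 b
      rw [Pi.zero_apply] at h3
      rw [← h3]
      simp only [Matrix.mulVec, Matrix.vecMul, dotProduct, cR, kap_apply]
    exact congrFun h2 a
  have hmul : ∀ f ∈ 𝒞, ∀ f' ∈ 𝒞, (h₀ * kap (f * f') * h₀⁻¹) i₀ i₀ =
      (h₀ * kap f * h₀⁻¹) i₀ i₀ * (h₀ * kap f' * h₀⁻¹) i₀ i₀ := by
    intro f hf f' hf'
    rw [map_mul, conj_mul hu, Matrix.mul_apply, Finset.sum_eq_single i₀]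
    · intro l _ hl
      rw [(hrow f hf i₀ hi₀ hij l (Ne.symm hl)).1, zero_mul]
    · intro h; exact absurd (Finset.mem_univ _) h
  have hadd : ∀ f f' : Module.End ℚ (Fin d → ℚ), (h₀ * kap (f + f') * h₀⁻¹) i₀ i₀ =
      (h₀ * kap f * h₀⁻¹) i₀ i₀ + (h₀ * kap f' * h₀⁻¹) i₀ i₀ := by
    intro f f'
    rw [map_add, Matrix.mul_add, Matrix.add_mul, Matrix.add_apply]
  have hcommC : ∀ f ∈ 𝒞, ∀ f' ∈ 𝒞, f * f' = f' * f := by
    intro f hf f' hf'
    have h1 : f * f' - f' * f = 0 := by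
      refine hzero _ (𝒞.sub_mem (𝒞.mul_mem hf hf') (𝒞.mul_mem hf' hf)) ?_
      rw [map_sub, Matrix.mul_sub, Matrix.sub_mul, Matrix.sub_apply, hmul f hf f' hf',
        hmul f' hf' f hf]
      ring
    exact sub_eq_zero.1 h1
  have hfield : IsField 𝒞 := by
    have hdom : ∀ a b : 𝒞, a * b = 0 → a = 0 ∨ b = 0 := by
      intro a b hab
      have h1 : (a : Module.End ℚ (Fin d → ℚ)) * b = 0 := congrArg Subtype.val hab
      have h2 := hmul a a.2 b b.2
      rw [h1, map_zero, Matrix.mul_zero, Matrix.zero_mul, Matrix.zero_apply] at h2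
      rcases mul_eq_zero.1 h2.symm with h3 | h3
      · exact Or.inl (Subtype.ext (hzero a a.2 h3))
      · exact Or.inr (Subtype.ext (hzero b b.2 h3))
    refine ⟨⟨0, 1, ?_⟩, fun a b => Subtype.ext (hcommC a a.2 b b.2), ?_⟩
    · intro h0
      have h1 : (0 : Module.End ℚ (Fin d → ℚ)) = 1 := congrArg Subtype.val h0
      have h2 := congrFun (LinearMap.congr_fun h1 (Pi.single i₀ 1)) i₀
      simp at h2
    · intro a ha
      exact exists_inv_of fun b hb => (hdom a b hb).resolve_left ha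
  obtain ⟨K, iF, iN, ι, hι⟩ := exists_numberField 𝒞 hfield
  have hι𝒞 : ∀ x, ι x ∈ 𝒞 := fun x => (hι _).2 ⟨x, rfl⟩
  -- the real place
  let χ : K →+* ℝ :=
    { toFun := fun x => (h₀ * kap (ι x) * h₀⁻¹) i₀ i₀
      map_one' := by
        show (h₀ * kap (ι 1) * h₀⁻¹) i₀ i₀ = 1
        rw [map_one, map_one, Matrix.mul_one, Matrix.mul_nonsing_inv _ hu, Matrix.one_apply_eq]
      map_mul' := fun x y => by
        show (h₀ * kap (ι (x * y)) * h₀⁻¹) i₀ i₀ = _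
        rw [map_mul, hmul _ (hι𝒞 x) _ (hι𝒞 y)]
      map_zero' := by
        show (h₀ * kap (ι 0) * h₀⁻¹) i₀ i₀ = 0
        rw [map_zero, map_zero, Matrix.mul_zero, Matrix.zero_mul, Matrix.zero_apply]
      map_add' := fun x y => by
        show (h₀ * kap (ι (x + y)) * h₀⁻¹) i₀ i₀ = _
        rw [map_add, hadd] }
  set τ : K →+* ℂ := Complex.ofRealHom.comp χ with hτ
  have hτr : ComplexEmbedding.IsReal τ := by
    ext x
    simp [hτ]
  have hw₁ : (InfinitePlace.mk τ).IsReal := InfinitePlace.isReal_mk_iff.2 hτr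
  set w₁ : {w : InfinitePlace K // w.IsReal} := ⟨InfinitePlace.mk τ, hw₁⟩ with hw₁def
  have hw₁x : ∀ x : K, (mixedEmbedding K x).1 w₁ = χ x := by
    intro x
    rw [mixedEmbedding_apply_isReal]
    have h1 : ((InfinitePlace.embedding_of_isReal w₁.2 x : ℝ) : ℂ) = ((χ x : ℝ) : ℂ) := by
      rw [InfinitePlace.embedding_of_isReal_apply]
      have h2 : w₁.1.embedding = τ := InfinitePlace.embedding_mk_eq_of_isReal hτr
      rw [h2]
      rfl
    exact_mod_cast h1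
  set Xe : Matrix (Fin d) (Fin d) ℝ := jhom ι (ech w₁) with hXe
  have hXeK : ∀ x : K, Xe * kap (ι x) = χ x • Xe ∧ kap (ι x) * Xe = χ x • Xe := by
    intro x
    have h1 : ech w₁ * mixedEmbedding K x = χ x • ech w₁ := by rw [ech_mul, hw₁x]
    constructor
    · rw [hXe, ← jhom_emb, ← map_mul, h1, map_smul]
    · rw [hXe, ← jhom_emb, ← map_mul, mul_comm, h1, map_smul]
  -- linear equations pass to the real span
  have hspan : ∀ (L : Matrix (Fin d) (Fin d) ℝ →ₗ[ℝ] ℝ), (∀ f ∈ 𝒞, L (kap f) = 0) → L Xe = 0 := by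
    intro L hL
    refine jhom_zero_of (L.comp (jhom ι).toLinearMap) (fun x => ?_) (ech w₁)
    show L (jhom ι (mixedEmbedding K x)) = 0
    rw [jhom_emb]
    exact hL _ (hι𝒞 x)
  set ent : Fin d → Fin d → Matrix (Fin d) (Fin d) ℝ →ₗ[ℝ] ℝ := fun a b =>
    { toFun := fun Z => (h₀ * Z * h₀⁻¹) a b
      map_add' := fun Z Z' => by rw [Matrix.mul_add, Matrix.add_mul, Matrix.add_apply]
      map_smul' := fun t Z => by
        rw [Matrix.mul_smul, Matrix.smul_mul, Matrix.smul_apply, RingHom.id_apply] } with hent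
  have hXec : Xe *ᵥ (fun a => h₀⁻¹ a i₀) = fun a => h₀⁻¹ a i₀ := by
    have h1 : ∀ c : mixedSpace K, jhom ι c *ᵥ (fun a => h₀⁻¹ a i₀) =
        c.1 w₁ • (fun a => h₀⁻¹ a i₀) := by
      intro c
      let L : mixedSpace K →ₗ[ℝ] (Fin d → ℝ) :=
        { toFun := fun c => jhom ι c *ᵥ (fun a => h₀⁻¹ a i₀) - c.1 w₁ • (fun a => h₀⁻¹ a i₀)
          map_add' := fun c c' => by
            rw [map_add, Matrix.add_mulVec, Prod.fst_add, Pi.add_apply, add_smul]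
            abel
          map_smul' := fun t c => by
            rw [map_smul, Matrix.smul_mulVec, Prod.smul_fst, Pi.smul_apply, smul_eq_mul, mul_smul,
              RingHom.id_apply, smul_sub] }
      have h2 := jhom_zero_of L (fun x => by
        show jhom ι (mixedEmbedding K x) *ᵥ (fun a => h₀⁻¹ a i₀) -
          (mixedEmbedding K x).1 w₁ • (fun a => h₀⁻¹ a i₀) = 0
        rw [jhom_emb, hw₁x, hcol _ (hι𝒞 x), sub_eq_zero]
        rfl) c
      exact sub_eq_zero.1 h2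
    rw [hXe, h1, ech_def]
    simp
  -- the idempotent kills the other columns
  have hkill : ∀ b, ¬ r i₀ b → Xe *ᵥ (fun a => h₀⁻¹ a b) = 0 := by
    intro b hb
    by_contra hv0
    set v : Fin d → ℝ := Xe *ᵥ (fun a => h₀⁻¹ a b) with hv
    have hvv : 0 < v ⬝ᵥ v := by
      rcases lt_or_eq_of_le (dot_self_nonneg v) with h1 | h1
      · exact h1
      · exact absurd (dotProduct_self_eq_zero.1 h1.symm) hv0
    set Y : Matrix (Fin d) (Fin d) ℝ := (v ⬝ᵥ v)⁻¹ • Matrix.vecMulVec (fun a => h₀⁻¹ a i₀) v with hY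
    have hYv : Y *ᵥ v = fun a => h₀⁻¹ a i₀ := by
      funext a
      rw [hY, Matrix.smul_mulVec, Pi.smul_apply, smul_eq_mul]
      have h1 : (Matrix.vecMulVec (fun a => h₀⁻¹ a i₀) v *ᵥ v) a = h₀⁻¹ a i₀ * (v ⬝ᵥ v) := by
        simp only [Matrix.mulVec, dotProduct, Matrix.vecMulVec_apply]
        rw [Finset.mul_sum]
        refine Finset.sum_congr rfl fun l _ => ?_
        ring
      rw [h1]
      field_simp
    have h1 : ent i₀ b (Xe * Y * Xe) = 0 := by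
      refine real_comm (S := (𝒞 : Set (Module.End ℚ (Fin d → ℚ)))) ?_ _ ?_
      · intro f hf
        obtain ⟨x, rfl⟩ := (hι f).1 hf
        obtain ⟨h2, h3⟩ := hXeK x
        rw [Matrix.mul_assoc, h2, Matrix.mul_smul, ← Matrix.mul_assoc, ← Matrix.mul_assoc, h3,
          Matrix.smul_mul, Matrix.smul_mul]
      · intro p hp
        have h2 : p ∈ 𝒜 := double_comm 𝒜 (fun q hq => hp q ((h𝒞m q).2 hq))
        exact h2 i₀ b hb
    have h2 : ent i₀ b (Xe * Y * Xe) = (h₀ *ᵥ ((Xe * Y * Xe) *ᵥ (fun a => h₀⁻¹ a b))) i₀ := by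
      rw [Matrix.mulVec_mulVec]
      rfl
    rw [h2, ← Matrix.mulVec_mulVec, ← hv, ← Matrix.mulVec_mulVec, hYv, hXec, col_eq hu,
      Matrix.one_apply_eq] at h1
    exact one_ne_zero h1
  have hediag : ∃ a : Fin d → ℝ, h₀ * jhom ι (ech w₁) = diagonal a * h₀ := by
    have h1 : ∀ a b, a ≠ b → (h₀ * Xe * h₀⁻¹) a b = 0 := by
      intro a b hab
      by_cases hb : r i₀ b
      · have hbJ : b ∉ J := fun h => hi₀ (hb.2 h)
        exact hspan (ent a b) (fun f hf =>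
          (hrow f hf b hbJ (hb.1.symm.trans hij) a (Ne.symm hab)).2)
      · have h2 : (h₀ * Xe * h₀⁻¹) a b = (h₀ *ᵥ (Xe *ᵥ (fun a => h₀⁻¹ a b))) a := by
          rw [Matrix.mulVec_mulVec]
          rfl
        rw [h2, hkill b hb, Matrix.mulVec_zero, Pi.zero_apply]
    refine ⟨fun i => (h₀ * Xe * h₀⁻¹) i i, ?_⟩
    have h2 : h₀ * Xe * h₀⁻¹ = diagonal (fun i => (h₀ * Xe * h₀⁻¹) i i) := by
      ext i j
      by_cases hij : i = j
      · subst hij; rw [diagonal_apply_eq]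
      · rw [diagonal_apply_ne _ hij, h1 i j hij]
    calc h₀ * jhom ι (ech w₁) = (h₀ * Xe * h₀⁻¹) * h₀ := by
          rw [Matrix.mul_assoc, Matrix.nonsing_inv_mul _ hu, Matrix.mul_one]
      _ = _ := by rw [← h2]
  have hrig := rigid hd0 ι hV hν hMdet hMnu hM.closed hM.inv (hQM hh₀) w₁ hediag
  have hDg : ∀ f ∈ 𝒞, Dg h₀ f := by
    intro f hf
    obtain ⟨x, rfl⟩ := (hι f).1 hf
    obtain ⟨a, ha⟩ := hrig x
    intro i j hne
    rw [eig_of_eq hu ha, diagonal_apply_ne _ hne]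
  -- the contradiction
  have h1 : ent i₀ j₀ (h₀⁻¹ * Matrix.single i₀ j₀ (1 : ℝ) * h₀) = 0 := by
    refine real_comm (S := (𝒞 : Set (Module.End ℚ (Fin d → ℚ)))) ?_ _ ?_
    · intro f hf
      have hf' := hDg f hf
      have h2 := (dg_iff hu).1 hf'
      set D : Fin d → ℝ := fun i => (h₀ * kap f * h₀⁻¹) i i with hD
      have h3 : kap f * h₀⁻¹ = h₀⁻¹ * diagonal D := by
        calc kap f * h₀⁻¹ = (h₀⁻¹ * h₀) * kap f * h₀⁻¹ := by
              rw [Matrix.nonsing_inv_mul _ hu, Matrix.one_mul]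
          _ = h₀⁻¹ * (h₀ * kap f) * h₀⁻¹ := by simp only [Matrix.mul_assoc]
          _ = h₀⁻¹ * (diagonal D * h₀) * h₀⁻¹ := by rw [h2]
          _ = h₀⁻¹ * diagonal D * (h₀ * h₀⁻¹) := by simp only [Matrix.mul_assoc]
          _ = _ := by rw [Matrix.mul_nonsing_inv _ hu, Matrix.mul_one]
      have h4 : Matrix.single i₀ j₀ (1 : ℝ) * diagonal D =
          diagonal D * Matrix.single i₀ j₀ (1 : ℝ) := by
        ext a b
        rw [Matrix.mul_diagonal, Matrix.diagonal_mul]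
        simp only [Matrix.single_apply]
        by_cases h : i₀ = a ∧ j₀ = b
        · obtain ⟨rfl, rfl⟩ := h
          rw [if_pos ⟨rfl, rfl⟩, one_mul, mul_one]
          exact (hij f hf').symm
        · rw [if_neg h, zero_mul, mul_zero]
      calc h₀⁻¹ * Matrix.single i₀ j₀ (1 : ℝ) * h₀ * kap f
          = h₀⁻¹ * Matrix.single i₀ j₀ (1 : ℝ) * (h₀ * kap f) := by simp only [Matrix.mul_assoc]
        _ = h₀⁻¹ * (Matrix.single i₀ j₀ (1 : ℝ) * diagonal D) * h₀ := by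
          rw [h2]; simp only [Matrix.mul_assoc]
        _ = (h₀⁻¹ * diagonal D) * Matrix.single i₀ j₀ (1 : ℝ) * h₀ := by
          rw [h4]; simp only [Matrix.mul_assoc]
        _ = (kap f * h₀⁻¹) * Matrix.single i₀ j₀ (1 : ℝ) * h₀ := by rw [h3]
        _ = _ := by simp only [Matrix.mul_assoc]
    · intro p hp
      have h2 : p ∈ 𝒜 := double_comm 𝒜 (fun q hq => hp q ((h𝒞m q).2 hq))
      exact h2 i₀ j₀ (fun h => hi₀ (h.2 hj₀))
  have h2 : ent i₀ j₀ (h₀⁻¹ * Matrix.single i₀ j₀ (1 : ℝ) * h₀) = 1 := by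
    show (h₀ * (h₀⁻¹ * Matrix.single i₀ j₀ (1 : ℝ) * h₀) * h₀⁻¹) i₀ j₀ = 1
    have h3 : h₀ * (h₀⁻¹ * Matrix.single i₀ j₀ (1 : ℝ) * h₀) * h₀⁻¹ =
        Matrix.single i₀ j₀ (1 : ℝ) := by
      calc h₀ * (h₀⁻¹ * Matrix.single i₀ j₀ (1 : ℝ) * h₀) * h₀⁻¹
          = (h₀ * h₀⁻¹) * Matrix.single i₀ j₀ (1 : ℝ) * (h₀ * h₀⁻¹) := by
            simp only [Matrix.mul_assoc]
        _ = _ := by rw [Matrix.mul_nonsing_inv _ hu, Matrix.one_mul, Matrix.mul_one]
    rw [h3]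
    simp
  rw [h2] at h1
  exact one_ne_zero h1

end Pool.Agent.Y327
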