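import Mathlib
import Pool.Agent.Y327.Step
import Pool.Agent.Y327.BlockPair
import Pool.Agent.Y327.Cube

/-! # The chain of row modifications -/

open Filter Topology Matrix

set_option linter.unusedSectionVars false

namespace Pool.Agent.Y327

open H715R2 RatSpan

variable {d : ℕ}

/-- the partition after the indices in `K` have been attached to their representatives -/
def pK (ρ : Fin d → Fin d) (K : Finset (Fin d)) : Fin d → Fin d := fun l => if l ∈ K then ρ l else l

lemma vecMul_Md (f : Fin d → ℝ) (S : Finset (Fin d)) (W : Fin d → Fin d → ℝ) :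
    f ᵥ* Md S W = f + ∑ l ∈ S, f l • W l := by
  classical
  rw [Md, Matrix.vecMul_add, Matrix.vecMul_one]
  congr 1
  funext j
  simp only [Matrix.vecMul, dotProduct, Matrix.of_apply, Finset.sum_apply, Pi.smul_apply,
    smul_eq_mul, mul_ite, mul_zero]
  rw [← Finset.sum_filter]
  refine Finset.sum_congr ?_ fun _ _ => rfl
  ext l
  simp

/-- the state of the construction -/
structure St (M : Set (Matrix (Fin d) (Fin d) ℝ)) (ρ : Fin d → Fin d) (K : Finset (Fin d))
    (W : Fin d → Fin d → ℝ) (Q : Set (Matrix (Fin d) (Fin d) ℝ)) : Prop where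
  closed : IsClosed Q
  ne : Q.Nonempty
  inv : InvB (pK ρ K) Q
  cube : ∀ h ∈ Q, ∀ S ⊆ K, Md S W * h ∈ M
  nrep : ∀ k ∈ K, ρ k ≠ k
  supp : ∀ k ∈ K, W k k = 0 ∧ W k ≠ 0 ∧ ∀ l, W k l ≠ 0 → pK ρ K l = pK ρ K k
  surj : ∀ t, ρ t = t → ∀ S ⊆ K, ∀ u : Fin d → ℝ, (∀ l, u l ≠ 0 → pK ρ K l = t) →
    ∃ a : Fin d → ℝ, (∀ l, a l ≠ 0 → pK ρ K l = t) ∧ a + ∑ l ∈ S, a l • W l = u
  spec : ∀ t, ρ t = t → ∀ u : Fin d → ℝ, u ≠ 0 → (∀ l, u l ≠ 0 → pK ρ K l = t) →
    ∃ S ⊆ K, ∃ a : Fin d → ℝ, (∀ l, a l ≠ 0 → pK ρ K l = t) ∧ a + ∑ l ∈ S, a l • W l = u ∧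
      a t ≠ 0
  edge : ∀ k ∈ K, ∃ s : ℝ, s ≠ 0 ∧ ∃ h ∈ M, Md {k} (fun _ l => if l = ρ k then s else 0) * h ∈ M

section

variable {ρ : Fin d → Fin d} (hρρ : ∀ l, ρ (ρ l) = ρ l)
include hρρ

/-- an index which is not a representative and not yet attached is a block of its own -/
lemma pK_single {K : Finset (Fin d)} {k : Fin d} (hk : k ∉ K) (hρk : ρ k ≠ k) (l : Fin d)
    (hl : pK ρ K l = pK ρ K k) : l = k := by
  simp only [pK, if_neg hk] at hl
  by_cases hlK : l ∈ K
  · rw [if_pos hlK] at hl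
    exact absurd (by rw [← hl, hρρ]) hρk
  · rwa [if_neg hlK] at hl

lemma pK_ne_rep {K : Finset (Fin d)} {k t : Fin d} (hk : k ∉ K) (hρk : ρ k ≠ k) (ht : ρ t = t) :
    pK ρ K k ≠ t := by
  simp only [pK, if_neg hk]
  intro h
  exact hρk (by rw [h, ht])

lemma pK_insert_ne {K : Finset (Fin d)} {k l : Fin d} (hl : l ≠ k) :
    pK ρ (insert k K) l = pK ρ K l := by
  simp only [pK, Finset.mem_insert]
  by_cases hlK : l ∈ K
  · rw [if_pos (Or.inr hlK), if_pos hlK]
  · rw [if_neg (fun h => h.elim hl hlK), if_neg hlK]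

lemma pK_insert_self {K : Finset (Fin d)} {k : Fin d} : pK ρ (insert k K) k = ρ k := by
  simp [pK]

/-- the surjectivity invariant -/
lemma surj_step {K : Finset (Fin d)} {W : Fin d → Fin d → ℝ} {k : Fin d} {w : Fin d → ℝ}
    (hk : k ∉ K) (hρk : ρ k ≠ k) (hw : ∀ l, w l ≠ 0 → pK ρ K l = ρ k)
    (h : ∀ t, ρ t = t → ∀ S ⊆ K, ∀ u : Fin d → ℝ, (∀ l, u l ≠ 0 → pK ρ K l = t) →
      ∃ a : Fin d → ℝ, (∀ l, a l ≠ 0 → pK ρ K l = t) ∧ a + ∑ l ∈ S, a l • W l = u) :
    ∀ t, ρ t = t → ∀ S ⊆ insert k K, ∀ u : Fin d → ℝ,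
      (∀ l, u l ≠ 0 → pK ρ (insert k K) l = t) →
      ∃ a : Fin d → ℝ, (∀ l, a l ≠ 0 → pK ρ (insert k K) l = t) ∧
        a + ∑ l ∈ S, a l • Function.update W k w l = u := by
  classical
  intro t ht S hS u hu
  have hS₀ : S.erase k ⊆ K := by
    intro m hm
    exact (Finset.mem_insert.1 (hS (Finset.mem_of_mem_erase hm))).resolve_left
      (Finset.ne_of_mem_erase hm)
  set ek : Fin d → ℝ := Pi.single k 1 with hek
  set u' : Fin d → ℝ := u - u k • ek - (if k ∈ S then u k • w else 0) with hu'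
  have hwk : w k = 0 := by
    by_contra h0
    exact pK_ne_rep hρρ hk hρk (hρρ k) (hw k h0)
  have hu'supp : ∀ l, u' l ≠ 0 → pK ρ K l = t := by
    intro l hl
    by_cases hlk : l = k
    · exfalso
      apply hl
      rw [hlk, hu']
      split_ifs <;> simp [hek, hwk]
    · by_cases hul : u l = 0
      · -- then the entry comes from `w`
        have h1 : u' l = - (if k ∈ S then u k * w l else 0) := by
          rw [hu']
          split_ifs <;> simp [hek, Pi.single_eq_of_ne hlk, hul]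
        rw [h1] at hl
        have hkS : k ∈ S := by
          by_contra h0
          rw [if_neg h0, neg_zero] at hl
          exact hl rfl
        rw [if_pos hkS] at hl
        have huk : u k ≠ 0 := fun h0 => hl (by rw [h0, zero_mul, neg_zero])
        have hwl : w l ≠ 0 := fun h0 => hl (by rw [h0, mul_zero, neg_zero])
        have h2 := hu k huk
        rw [pK_insert_self hρρ] at h2
        rw [hw l hwl, h2]
      · rw [← pK_insert_ne hρρ hlk]
        exact hu l hul
  obtain ⟨a', ha'supp, ha'⟩ := h t ht (S.erase k) hS₀ u' hu'supp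
  have ha'k : a' k = 0 := by
    by_contra h0
    exact pK_ne_rep hρρ hk hρk ht (ha'supp k h0)
  refine ⟨a' + u k • ek, fun l hl => ?_, ?_⟩
  · by_cases hlk : l = k
    · rw [hlk] at hl ⊢
      have huk : u k ≠ 0 := by
        intro h0
        apply hl
        simp [ha'k, h0]
      exact hu k huk
    · rw [pK_insert_ne hρρ hlk]
      refine ha'supp l ?_
      simpa [hek, Pi.single_eq_of_ne hlk] using hl
  · have hsum : ∑ l ∈ S, (a' + u k • ek) l • Function.update W k w l =
        (∑ l ∈ S.erase k, a' l • W l) + (if k ∈ S then u k • w else 0) := by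
      by_cases hkS : k ∈ S
      · rw [← Finset.sum_erase_add _ _ hkS, if_pos hkS]
        congr 1
        · refine Finset.sum_congr rfl fun l hl => ?_
          have hlk := Finset.ne_of_mem_erase hl
          rw [Function.update_of_ne hlk]
          simp [hek, Pi.single_eq_of_ne hlk]
        · rw [Function.update_self]
          simp [hek, ha'k]
      · rw [if_neg hkS, add_zero, Finset.erase_eq_of_notMem hkS]
        refine Finset.sum_congr rfl fun l hl => ?_
        have hlk : l ≠ k := fun h0 => hkS (h0 ▸ hl)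
        rw [Function.update_of_ne hlk]
        simp [hek, Pi.single_eq_of_ne hlk]
    rw [hsum]
    have h1 : a' + u k • ek + ((∑ l ∈ S.erase k, a' l • W l) + (if k ∈ S then u k • w else 0)) =
        (a' + ∑ l ∈ S.erase k, a' l • W l) + u k • ek + (if k ∈ S then u k • w else 0) := by
      abel
    rw [h1, ha', hu']
    abel

/-- the special invariant -/
lemma spec_step {K : Finset (Fin d)} {W : Fin d → Fin d → ℝ} {k : Fin d} {w : Fin d → ℝ}
    (hk : k ∉ K) (hρk : ρ k ≠ k) (hw0 : w ≠ 0) (hw : ∀ l, w l ≠ 0 → pK ρ K l = ρ k)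
    (h : ∀ t, ρ t = t → ∀ S ⊆ K, ∀ u : Fin d → ℝ, (∀ l, u l ≠ 0 → pK ρ K l = t) →
      ∃ a : Fin d → ℝ, (∀ l, a l ≠ 0 → pK ρ K l = t) ∧ a + ∑ l ∈ S, a l • W l = u)
    (h' : ∀ t, ρ t = t → ∀ u : Fin d → ℝ, u ≠ 0 → (∀ l, u l ≠ 0 → pK ρ K l = t) →
      ∃ S ⊆ K, ∃ a : Fin d → ℝ, (∀ l, a l ≠ 0 → pK ρ K l = t) ∧ a + ∑ l ∈ S, a l • W l = u ∧
        a t ≠ 0) :
    ∀ t, ρ t = t → ∀ u : Fin d → ℝ, u ≠ 0 → (∀ l, u l ≠ 0 → pK ρ (insert k K) l = t) →
      ∃ S ⊆ insert k K, ∃ a : Fin d → ℝ, (∀ l, a l ≠ 0 → pK ρ (insert k K) l = t) ∧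
        a + ∑ l ∈ S, a l • Function.update W k w l = u ∧ a t ≠ 0 := by
  classical
  intro t ht u hu0 hu
  set ek : Fin d → ℝ := Pi.single k 1 with hek
  have hupd : ∀ (S : Finset (Fin d)), S ⊆ K → ∀ a : Fin d → ℝ, (∀ l ∈ S, True) →
      ∑ l ∈ S, a l • Function.update W k w l = ∑ l ∈ S, a l • W l := by
    intro S hS a _
    refine Finset.sum_congr rfl fun l hl => ?_
    have hlk : l ≠ k := fun h0 => hk (h0 ▸ hS hl)
    rw [Function.update_of_ne hlk]
  have hkt : k ≠ t := fun h0 => hρk (by rw [h0, ht])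
  by_cases huk : u k = 0
  · obtain ⟨S, hS, a, hasupp, ha, hat⟩ := h' t ht u hu0 (fun l hl => by
      have hlk : l ≠ k := fun h0 => hl (by rw [h0, huk])
      rw [← pK_insert_ne hρρ hlk]
      exact hu l hl)
    refine ⟨S, hS.trans (Finset.subset_insert _ _), a, fun l hl => ?_, ?_, hat⟩
    · have hlk : l ≠ k := by
        intro h0
        rw [h0] at hl
        exact pK_ne_rep hρρ hk hρk ht (hasupp k hl)
      rw [pK_insert_ne hρρ hlk]
      exact hasupp l hl
    · rw [hupd S hS a (fun _ _ => trivial), ha]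
  · have htk : ρ k = t := by
      have := hu k huk
      rwa [pK_insert_self hρρ] at this
    rw [htk] at hw
    obtain ⟨S, hS, b, hbsupp, hb, hbt⟩ := h' t ht w hw0 hw
    set u' : Fin d → ℝ := u - u k • ek with hu'
    have hu'supp : ∀ l, u' l ≠ 0 → pK ρ K l = t := by
      intro l hl
      by_cases hlk : l = k
      · exfalso
        apply hl
        rw [hlk, hu']
        simp [hek]
      · rw [← pK_insert_ne hρρ hlk]
        refine hu l ?_
        simpa [hu', hek, Pi.single_eq_of_ne hlk] using hl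
    obtain ⟨a, hasupp, ha⟩ := h t ht S hS u' hu'supp
    have hak : a k = 0 := by
      by_contra h0
      exact pK_ne_rep hρρ hk hρk ht (hasupp k h0)
    have hbk : b k = 0 := by
      by_contra h0
      exact pK_ne_rep hρρ hk hρk ht (hbsupp k h0)
    have hkS : k ∉ S := fun h0 => hk (hS h0)
    have hekt : ek t = 0 := by rw [hek, Pi.single_eq_of_ne hkt.symm]
    have hekS : ∀ l ∈ S, ek l = 0 := by
      intro l hl
      have hlk : l ≠ k := fun h0 => hkS (h0 ▸ hl)
      rw [hek, Pi.single_eq_of_ne hlk]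
    have hsupp : ∀ (c : ℝ) (l : Fin d), (a - c • b + u k • ek) l ≠ 0 →
        pK ρ (insert k K) l = t := by
      intro c l hl
      by_cases hlk : l = k
      · rw [hlk, pK_insert_self hρρ, htk]
      · rw [pK_insert_ne hρρ hlk]
        by_cases h1 : a l = 0
        · refine hbsupp l fun h2 => hl ?_
          simp [hek, Pi.single_eq_of_ne hlk, h1, h2]
        · exact hasupp l h1
    by_cases hat : a t = 0
    · refine ⟨insert k S, Finset.insert_subset_insert _ hS, a - u k • b + u k • ek,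
        hsupp (u k), ?_, ?_⟩
      · rw [Finset.sum_insert hkS, Function.update_self]
        have h1 : (a - u k • b + u k • ek) k = u k := by
          simp [hak, hbk, hek]
        rw [h1, hupd S hS _ (fun _ _ => trivial)]
        have h2 : ∑ l ∈ S, (a - u k • b + u k • ek) l • W l =
            ∑ l ∈ S, a l • W l - u k • ∑ l ∈ S, b l • W l := by
          rw [Finset.smul_sum, ← Finset.sum_sub_distrib]
          refine Finset.sum_congr rfl fun l hl => ?_
          simp only [Pi.add_apply, Pi.sub_apply, Pi.smul_apply, smul_eq_mul, hekS l hl, mul_zero,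
            add_zero, sub_smul, mul_smul]
        rw [h2]
        have h3 : ∑ l ∈ S, a l • W l = u' - a := by rw [← ha]; abel
        have h4 : ∑ l ∈ S, b l • W l = w - b := by rw [← hb]; abel
        rw [h3, h4, hu', smul_sub]
        abel
      · simp only [Pi.add_apply, Pi.sub_apply, Pi.smul_apply, smul_eq_mul, hat, hekt, mul_zero,
          add_zero, zero_sub, neg_ne_zero]
        exact mul_ne_zero huk hbt
    · refine ⟨S, hS.trans (Finset.subset_insert _ _), a + u k • ek, fun l hl => ?_, ?_, ?_⟩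
      · refine hsupp 0 l ?_
        simpa using hl
      · rw [hupd S hS _ (fun _ _ => trivial)]
        have h2 : ∑ l ∈ S, (a + u k • ek) l • W l = ∑ l ∈ S, a l • W l := by
          refine Finset.sum_congr rfl fun l hl => ?_
          simp only [Pi.add_apply, Pi.smul_apply, smul_eq_mul, hekS l hl, mul_zero, add_zero]
        have h3 : ∑ l ∈ S, a l • W l = u' - a := by rw [← ha]; abel
        rw [h2, h3, hu']
        abel
      · simp only [Pi.add_apply, Pi.smul_apply, smul_eq_mul, hekt, mul_zero, add_zero]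
        exact hat

end

end Pool.Agent.Y327
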