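import Mathlib
import Pool.Agent.Y327.Chain

/-! # The chain of row modifications: induction -/

open Filter Topology Matrix

set_option linter.unusedSectionVars false

namespace Pool.Agent.Y327

open H715R2 RatSpan

variable {d : ℕ}

lemma st_zero {M : Set (Matrix (Fin d) (Fin d) ℝ)} (hM : MinB id M) {ρ : Fin d → Fin d} :
    St M ρ ∅ (fun _ _ => 0) M := by
  classical
  have hp : pK ρ ∅ = (id : Fin d → Fin d) := by
    funext l
    simp [pK]
  refine ⟨hM.closed, hM.ne, by rw [hp]; exact hM.inv, fun h hh S hS => ?_,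
    fun k hk => absurd hk (Finset.notMem_empty k), fun k hk => absurd hk (Finset.notMem_empty k),
    ?_, ?_, fun k hk => absurd hk (Finset.notMem_empty k)⟩
  · rw [Finset.subset_empty.1 hS, Md_empty, Matrix.one_mul]
    exact hh
  · intro t ht S hS u hu
    refine ⟨u, hu, ?_⟩
    rw [Finset.subset_empty.1 hS, Finset.sum_empty, add_zero]
  · intro t ht u hu0 hu
    refine ⟨∅, Finset.Subset.refl _, u, hu, by rw [Finset.sum_empty, add_zero], ?_⟩
    intro h0
    apply hu0
    funext l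
    by_contra hl
    have h1 := hu l hl
    rw [hp] at h1
    have h2 : l = t := h1
    rw [h2] at hl
    exact hl h0

theorem st_step (hd : 3 ≤ d) {g : Matrix (Fin d) (Fin d) ℝ} (hg : g.det ≠ 0) {ν : ℝ}
    (hν : 0 < ν) (hnu : HasNu g ν) {M : Set (Matrix (Fin d) (Fin d) ℝ)}
    (hMg : M ⊆ closure (Orb g)) (hM : MinB id M) {h₀ : Matrix (Fin d) (Fin d) ℝ} (hh₀ : h₀ ∈ M)
    {ρ : Fin d → Fin d} (hρ1 : ∀ l, Sam h₀ l (ρ l)) (hρ2 : ∀ l m, Sam h₀ l m → ρ l = ρ m)
    {K : Finset (Fin d)} {W : Fin d → Fin d → ℝ} {Q : Set (Matrix (Fin d) (Fin d) ℝ)}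
    (hSt : St M ρ K W Q) {i₀ : Fin d} (hi₀K : i₀ ∉ K) (hi₀ρ : ρ i₀ ≠ i₀) :
    ∃ k, k ∉ K ∧ ρ k ≠ k ∧ ∃ W' Q', St M ρ (insert k K) W' Q' := by
  classical
  have hd0 : 0 < d := by omega
  have hV : 0 < |g.det| := abs_pos.2 hg
  have hMdet : ∀ h ∈ M, |h.det| = |g.det| := fun h hh => abs_det_closure (hMg hh)
  have hMnu : ∀ h ∈ M, HasNu h ν := fun h hh => hasNu_closure hnu (hMg hh)
  have hρρ : ∀ l, ρ (ρ l) = ρ l := fun l => (hρ2 _ _ (hρ1 l)).symm
  have hQM : Q ⊆ M := by
    intro h hh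
    have := hSt.cube h hh ∅ (Finset.empty_subset _)
    rwa [Md_empty, Matrix.one_mul] at this
  obtain ⟨Q₁, hQ₁Q, hQ₁⟩ := exists_minB hd0 (pK ρ K) hV hν hSt.closed hSt.ne hSt.inv
    (fun h hh => hMdet h (hQM hh)) (fun h hh => hMnu h (hQM hh))
  have hQ₁M : Q₁ ⊆ M := hQ₁Q.trans hQM
  have hQdet : ∀ h ∈ Q₁, |h.det| = |g.det| := fun h hh => hMdet h (hQ₁M hh)
  have hQnu : ∀ h ∈ Q₁, HasNu h ν := fun h hh => hMnu h (hQ₁M hh)
  obtain ⟨h₁, hh₁⟩ := hQ₁.ne
  set t : Fin d := ρ i₀ with ht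
  have hρt : ρ t = t := hρρ i₀
  set J : Finset (Fin d) := Finset.univ.filter (fun l => pK ρ K l = t) with hJ
  have hJm : ∀ l, l ∈ J ↔ pK ρ K l = t := fun l => by simp [hJ]
  have htK : t ∉ K := fun h => hSt.nrep t h hρt
  have htJ : t ∈ J := by rw [hJm]; simp [pK, htK]
  have hi₀J : i₀ ∉ J := by
    rw [hJm]
    exact pK_ne_rep hρρ hi₀K hi₀ρ hρt
  have hsamM : ∀ h ∈ M, ∀ i j, Sam h i j → ρ i = ρ j := fun h hh i j hij =>
    hρ2 i j (sam_transfer hV hMdet hM hh₀ hh hij)
  have hsamM' : ∀ h ∈ M, ∀ i j, Sam h₀ i j → Sam h i j := fun h hh i j hij =>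
    sam_transfer hV hMdet hM hh hh₀ hij
  have hρ_of_J : ∀ l ∈ J, ρ l = t := by
    intro l hl
    rw [hJm] at hl
    simp only [pK] at hl
    by_cases hlK : l ∈ K
    · rwa [if_pos hlK] at hl
    · rw [if_neg hlK] at hl
      rw [hl, hρt]
  have hnJ : ∀ i, i ∉ J → ρ i = t → i ∉ K ∧ ρ i ≠ i := by
    intro i hiJ hi
    have hiK : i ∉ K := by
      intro hiK
      apply hiJ
      rw [hJm]
      simp only [pK, if_pos hiK]
      exact hi
    refine ⟨hiK, fun h => hiJ ?_⟩
    rw [hJm]
    simp only [pK, if_neg hiK]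
    rw [← h]
    exact hi
  have hfr := frequently_step hd hg hν hnu hMg hM hQ₁M hQ₁ hh₁ htJ hi₀J
    (hsamM' h₁ (hQ₁M hh₁) _ _ (hρ1 i₀)) (by
      intro i hiJ hi l hl
      have h1 : ρ i = t := by
        have := hsamM h₁ (hQ₁M hh₁) _ _ hi
        rw [this, hρt]
      obtain ⟨h2, h3⟩ := hnJ i hiJ h1
      exact pK_single hρρ h2 h3 l hl)
  have hJsat : ∀ a b, pK ρ K a = pK ρ K b → a ∈ J → b ∈ J := by
    intro a b hab ha
    rw [hJm] at ha ⊢
    rw [← hab, ha]
  obtain ⟨h₂, hh₂, X, hX0, hXs, hX⟩ := tj_pair hd0 hV hν hQdet hQnu hQ₁.closed hQ₁.inv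
    hh₁ hJsat hfr
  obtain ⟨k, hk⟩ : ∃ i, X i ≠ 0 := by
    by_contra hcon
    push Not at hcon
    exact hX0 (funext hcon)
  obtain ⟨j, hj⟩ : ∃ j, X k j ≠ 0 := by
    by_contra hcon
    push Not at hcon
    exact hk (funext hcon)
  have hkJ : k ∉ J := (hXs k j hj).1
  -- the row lies in the class
  have hρk : ρ k = t := by
    obtain ⟨h₃, hh₃, hw₃⟩ := isolate_row hd0 hV hν hMdet hMnu hM.closed hM.inv (J := J)
      (fun a b hab ha => by rwa [show b = a from hab.symm]) hkJ (fun l hl => hl) (hQ₁M hh₂) hXs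
      (hQ₁M hX)
    have h1 := sam_of_pair (by omega) hV hν hMdet hMnu hM hh₃ hw₃ hj
    rw [hsamM h₃ hh₃ _ _ h1]
    exact hρ_of_J j (hXs k j hj).2
  obtain ⟨hkK, hρkk⟩ := hnJ k hkJ hρk
  have hksing : ∀ l, pK ρ K l = pK ρ K k → l = k := fun l hl => pK_single hρρ hkK hρkk l hl
  obtain ⟨h₂, hh₂, hw₂⟩ := isolate_row hd0 hV hν hQdet hQnu hQ₁.closed hQ₁.inv hJsat hkJ
    hksing hh₂ hXs hX
  set w : Fin d → ℝ := X k with hw
  have hw0 : w ≠ 0 := hk
  have hwJ : ∀ l, w l ≠ 0 → pK ρ K l = t := fun l hl => (hJm l).1 (hXs k l hl).2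
  have hwk : w k = 0 := by
    by_contra h0
    exact hkJ (hXs k k h0).2
  have hwρ : ∀ l, w l ≠ 0 → pK ρ K l = ρ k := fun l hl => by rw [hρk]; exact hwJ l hl
  set W' : Fin d → Fin d → ℝ := Function.update W k w with hW'
  have hW'k : W' k = w := by rw [hW', Function.update_self]
  have hW'n : ∀ l, l ≠ k → W' l = W l := fun l hl => by rw [hW', Function.update_of_ne hl]
  have hWk : ∀ i ∈ K, W i k = 0 := by
    intro i hi
    by_contra h0
    have h1 := (hSt.supp i hi).2.2 k h0
    exact hSt.nrep i hi (by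
      have h2 := hksing i h1.symm
      exact absurd (h2 ▸ hi) hkK)
  have hBB : ∀ b, BB (pK ρ (insert k K)) b → BB (pK ρ K) b := by
    intro b hb
    refine ⟨hb.1, hb.2.1, fun l m hlm => ?_⟩
    by_cases hl : l = k
    · subst hl
      rw [hksing m hlm.symm]
    · by_cases hm : m = k
      · subst hm
        exact absurd (hksing l hlm) hl
      · exact hb.2.2 l m (by rw [pK_insert_ne hρρ hl, pK_insert_ne hρρ hm, hlm])
  -- an edge
  have hedge : ∃ s : ℝ, s ≠ 0 ∧ ∃ h ∈ M, Md {k} (fun _ l => if l = ρ k then s else 0) * h ∈ M := by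
    obtain ⟨S, hS, f, hfsupp, hf, hft⟩ := hSt.spec t hρt w hw0 hwJ
    have hfk : f k = 0 := by
      by_contra h0
      exact hkJ ((hJm k).2 (hfsupp k h0))
    have h1 : Md S W * h₂ ∈ M := hSt.cube _ (hQ₁Q hh₂) S hS
    have h2 : Md S W * (Md {k} (fun _ => w) * h₂) ∈ M := hSt.cube _ (hQ₁Q hw₂) S hS
    have h3 : Md S W * Md {k} (fun _ => w) = Md {k} (fun _ => f) * Md S W := by
      have h4 : f ᵥ* Md S W = w := by rw [vecMul_Md, hf]
      ext a b
      have hL : (Md S W * Md {k} (fun _ => w)) a b = (Md S W) a b + (Md S W) a k * w b := by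
        have h5 : (Md {k} (fun _ => w) : Matrix (Fin d) (Fin d) ℝ) =
            1 + Matrix.vecMulVec (Pi.single k 1) w := by
          rw [Md]
          congr 1
          ext i j
          simp only [Matrix.of_apply, Finset.mem_singleton, Matrix.vecMulVec_apply]
          by_cases hi : i = k
          · subst hi; simp
          · rw [if_neg hi, Pi.single_eq_of_ne hi, zero_mul]
        rw [h5, Matrix.mul_add, Matrix.mul_one, Matrix.add_apply, Matrix.mul_vecMulVec,
          Matrix.vecMulVec_apply, Matrix.mulVec_single_one]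
        rfl
      have hSk : (Md S W) a k = (1 : Matrix (Fin d) (Fin d) ℝ) a k := by
        rw [Md, Matrix.add_apply, Matrix.of_apply]
        by_cases ha : a ∈ S
        · rw [if_pos ha, hWk a (hS ha), add_zero]
        · rw [if_neg ha, add_zero]
      rw [hL, hSk]
      by_cases hak : a = k
      · subst hak
        have h5 := congrFun (Md_row f (Md S W) (k := a)) b
        rw [h5, Pi.add_apply, h4, Matrix.one_apply_eq, one_mul]
      · have h5 := congrFun (Md_row_ne f (Md S W) hak) b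
        rw [h5, Matrix.one_apply_ne hak, zero_mul, add_zero]
    rw [← Matrix.mul_assoc, h3, Matrix.mul_assoc] at h2
    obtain ⟨h₄, hh₄, hw₄⟩ := block_pair hd0 hV hν hMdet hMnu hM.closed hM.inv (π := id)
      (fun l hl => hl) h1 hfk h2 t
    refine ⟨f t, hft, h₄, hh₄, ?_⟩
    have h5 : (fun (_ : Fin d) l => if id l = id t then f l else 0) =
        fun (_ : Fin d) l => if l = ρ k then f t else 0 := by
      funext _ l
      rw [hρk]
      by_cases hl : l = t
      · subst hl; simp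
      · rw [if_neg hl, if_neg (show ¬ id l = id t from hl)]
    rw [← h5]
    exact hw₄
  refine ⟨k, hkK, hρkk, W', {h | h ∈ Q₁ ∧ Md {k} (fun _ => w) * h ∈ Q₁}, ?_, ⟨h₂, hh₂, hw₂⟩, ?_,
    ?_, ?_, ?_, ?_, ?_, ?_⟩
  · refine IsClosed.inter hQ₁.closed (hQ₁.closed.preimage ?_)
    exact continuous_const.matrix_mul continuous_id
  · rintro h ⟨hh1, hh2⟩ b γ hb hγ
    refine ⟨hQ₁.inv h hh1 b γ (hBB b hb) hγ, ?_⟩
    have h1 := hQ₁.inv _ hh2 b γ (hBB b hb) hγ
    have h2 : Md {k} (fun _ => w) * diagonal b = diagonal b * Md {k} (fun _ => w) := by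
      ext l m
      rw [Matrix.mul_diagonal, Matrix.diagonal_mul]
      by_cases hlm : l = m
      · subst hlm; ring
      · by_cases hl : l = k
        · subst hl
          simp only [Md, Matrix.add_apply, Matrix.one_apply_ne hlm, Matrix.of_apply,
            Finset.mem_singleton, if_true, zero_add]
          by_cases hm0 : w m = 0
          · rw [hm0]; ring
          · have h5 : b m = b l := hb.2.2 m l (by
              rw [pK_insert_ne hρρ (Ne.symm hlm), pK_insert_self hρρ, hρk]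
              exact hwJ m hm0)
            rw [h5]; ring
        · simp [Md, Matrix.add_apply, Matrix.one_apply_ne hlm, Matrix.of_apply, hl]
    have h3 : Md {k} (fun _ => w) * (diagonal b * h * zR γ)
        = diagonal b * (Md {k} (fun _ => w) * h) * zR γ := by
      rw [← Matrix.mul_assoc, ← Matrix.mul_assoc, h2]
      simp only [Matrix.mul_assoc]
    show Md {k} (fun _ => w) * (diagonal b * h * zR γ) ∈ Q₁
    rw [h3]
    exact h1
  · rintro h ⟨hh1, hh2⟩ S hS
    by_cases hkS : k ∈ S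
    · have hS₀ : S.erase k ⊆ K := by
        intro m hm
        have h1 := hS (Finset.mem_of_mem_erase hm)
        exact (Finset.mem_insert.1 h1).resolve_left (Finset.ne_of_mem_erase hm)
      have h1 := hSt.cube _ (hQ₁Q hh2) (S.erase k) hS₀
      have h2 : Md (S.erase k) W * (Md {k} (fun _ => w) * h) = Md S W' * h := by
        rw [← Matrix.mul_assoc]
        congr 1
        have h3 : (Matrix.of (fun i j => if i ∈ S.erase k then W i j else 0) :
            Matrix (Fin d) (Fin d) ℝ) *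
            Matrix.of (fun i j => if i ∈ ({k} : Finset (Fin d)) then w j else 0) = 0 := by
          ext i j
          rw [Matrix.mul_apply]
          refine Finset.sum_eq_zero fun l _ => ?_
          simp only [Matrix.of_apply, Finset.mem_singleton]
          by_cases hl : l = k
          · subst hl
            by_cases hi : i ∈ S.erase l
            · rw [if_pos hi, hWk i (hS₀ hi), zero_mul]
            · rw [if_neg hi, zero_mul]
          · rw [if_neg hl, mul_zero]
        simp only [Md]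
        rw [Matrix.add_mul, Matrix.mul_add, Matrix.mul_add, h3]
        simp only [Matrix.one_mul, Matrix.mul_one, add_zero]
        rw [add_assoc]
        congr 1
        ext i j
        simp only [Matrix.add_apply, Matrix.of_apply, Finset.mem_singleton]
        by_cases hi : i = k
        · subst hi
          simp [hkS, hW'k]
        · rw [if_neg hi, zero_add]
          by_cases hiS : i ∈ S
          · rw [if_pos (Finset.mem_erase.2 ⟨hi, hiS⟩), if_pos hiS, hW'n i hi]
          · rw [if_neg (fun h => hiS (Finset.mem_of_mem_erase h)), if_neg hiS]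
      rw [← h2]
      exact h1
    · have hSK : S ⊆ K := by
        intro m hm
        have h1 := hS hm
        exact (Finset.mem_insert.1 h1).resolve_left (fun h => hkS (h ▸ hm))
      have h1 := hSt.cube h (hQ₁Q hh1) S hSK
      have h2 : Md S W' = Md S W := by
        simp only [Md]
        congr 1
        ext i j
        simp only [Matrix.of_apply]
        by_cases hi : i ∈ S
        · have hik : i ≠ k := fun h => hkS (h ▸ hi)
          rw [if_pos hi, if_pos hi, hW'n i hik]
        · rw [if_neg hi, if_neg hi]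
      rw [h2]
      exact h1
  · intro m hm
    rcases Finset.mem_insert.1 hm with hm | hm
    · rw [hm]; exact hρkk
    · exact hSt.nrep m hm
  · intro m hm
    rcases Finset.mem_insert.1 hm with hm | hm
    · rw [hm, hW'k]
      refine ⟨hwk, hw0, fun l hl => ?_⟩
      have hlk : l ≠ k := fun h0 => hl (by rw [h0]; exact hwk)
      rw [pK_insert_ne hρρ hlk, pK_insert_self hρρ]
      exact hwρ l hl
    · have hmk : m ≠ k := fun h => hkK (h ▸ hm)
      obtain ⟨h1, h2, h3⟩ := hSt.supp m hm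
      rw [hW'n m hmk]
      refine ⟨h1, h2, fun l hl => ?_⟩
      have hlk : l ≠ k := by
        intro hlk
        rw [hlk, hWk m hm] at hl
        exact hl rfl
      rw [pK_insert_ne hρρ hlk, pK_insert_ne hρρ hmk]
      exact h3 l hl
  · exact surj_step hρρ hkK hρkk hwρ hSt.surj
  · exact spec_step hρρ hkK hρkk hw0 hwρ hSt.surj hSt.spec
  · intro m hm
    rcases Finset.mem_insert.1 hm with hm | hm
    · rw [hm]; exact hedge
    · exact hSt.edge m hm

/-- **The full cube.** -/
theorem st_full (hd : 3 ≤ d) {g : Matrix (Fin d) (Fin d) ℝ} (hg : g.det ≠ 0) {ν : ℝ}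
    (hν : 0 < ν) (hnu : HasNu g ν) {M : Set (Matrix (Fin d) (Fin d) ℝ)}
    (hMg : M ⊆ closure (Orb g)) (hM : MinB id M) {h₀ : Matrix (Fin d) (Fin d) ℝ} (hh₀ : h₀ ∈ M)
    {ρ : Fin d → Fin d} (hρ1 : ∀ l, Sam h₀ l (ρ l)) (hρ2 : ∀ l m, Sam h₀ l m → ρ l = ρ m) :
    ∃ K : Finset (Fin d), (∀ l, l ∈ K ↔ ρ l ≠ l) ∧ ∃ W Q, St M ρ K W Q := by
  classical
  set F : Finset (Fin d) := Finset.univ.filter (fun l => ρ l ≠ l) with hF
  have hFm : ∀ l, l ∈ F ↔ ρ l ≠ l := fun l => by simp [hF]
  have key : ∀ n : ℕ, n ≤ F.card → ∃ K ⊆ F, K.card = n ∧ ∃ W Q, St M ρ K W Q := by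
    intro n
    induction n with
    | zero => intro _; exact ⟨∅, Finset.empty_subset _, rfl, _, _, st_zero hM⟩
    | succ n ih =>
      intro hn
      obtain ⟨K, hKF, hKc, W, Q, hSt⟩ := ih (by omega)
      obtain ⟨i₀, hi₀F, hi₀K⟩ : ∃ i₀ ∈ F, i₀ ∉ K := by
        by_contra hcon
        push Not at hcon
        have h1 := Finset.card_le_card (show F ⊆ K from hcon)
        omega
      obtain ⟨k, hkK, hρk, W', Q', hSt'⟩ := st_step hd hg hν hnu hMg hM hh₀ hρ1 hρ2 hSt hi₀K
        ((hFm i₀).1 hi₀F)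
      refine ⟨insert k K, ?_, by rw [Finset.card_insert_of_notMem hkK, hKc], W', Q', hSt'⟩
      intro l hl
      rcases Finset.mem_insert.1 hl with h | h
      · rw [h, hFm]; exact hρk
      · exact hKF h
  obtain ⟨K, hKF, hKc, W, Q, hSt⟩ := key F.card le_rfl
  have hK : K = F := Finset.eq_of_subset_of_card_le hKF hKc.ge
  exact ⟨K, fun l => by rw [hK]; exact hFm l, W, Q, hSt⟩

end Pool.Agent.Y327
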