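import Mathlib
import Pool.Agent.Y327.Chain2

/-! # The sizes of the classes and the field of symmetries -/

open Filter Topology Matrix

set_option linter.unusedSectionVars false

namespace Pool.Agent.Y327

open H715R2 RatSpan

variable {d : ℕ}

/-- representatives of the classes, with one prescribed -/
lemma exists_rep (h₀ : Matrix (Fin d) (Fin d) ℝ) (j₀ : Fin d) : ∃ ρ : Fin d → Fin d,
    (∀ l, Sam h₀ l (ρ l)) ∧ (∀ l m, Sam h₀ l m → ρ l = ρ m) ∧ ρ j₀ = j₀ := by
  classical
  let S : Setoid (Fin d) := ⟨Sam h₀, Sam.refl h₀, Sam.symm, Sam.trans⟩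
  have hout : ∀ l, Sam h₀ l (Quotient.mk S l).out := by
    intro l
    have h1 : S.r (Quotient.mk S l).out l := Quotient.exact (Quotient.out_eq (Quotient.mk S l))
    exact Sam.symm h1
  refine ⟨fun l => if Sam h₀ l j₀ then j₀ else (Quotient.mk S l).out, fun l => ?_,
    fun l m hlm => ?_, ?_⟩
  · dsimp only
    split_ifs with h
    · exact h
    · exact hout l
  · dsimp only
    have h1 : Quotient.mk S l = Quotient.mk S m := Quotient.sound hlm
    by_cases h : Sam h₀ l j₀
    · rw [if_pos h, if_pos (hlm.symm.trans h)]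
    · rw [if_neg h, if_neg (fun h2 => h (hlm.trans h2)), h1]
  · dsimp only
    rw [if_pos (Sam.refl h₀ j₀)]

/-- the algebra of the rational endomorphisms which become diagonal -/
noncomputable def symA (h : Matrix (Fin d) (Fin d) ℝ) (hu : IsUnit h.det) :
    Subalgebra ℚ (Module.End ℚ (Fin d → ℚ)) :=
  algR h hu (fun i j => i = j) (fun _ => rfl) (fun _ _ _ h1 h2 => h1.trans h2)

lemma mem_symA {h : Matrix (Fin d) (Fin d) ℝ} {hu : IsUnit h.det}
    {f : Module.End ℚ (Fin d → ℚ)} : f ∈ symA h hu ↔ Dg h f := Iff.rfl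

lemma exists_li {E : Type*} [AddCommGroup E] [Module ℚ E] [FiniteDimensional ℚ E]
    (S : Submodule ℚ E) : ∃ (n : ℕ) (b : Fin n → E), n = Module.finrank ℚ S ∧
      LinearIndependent ℚ b ∧ ∀ k, b k ∈ S := by
  refine ⟨_, fun k => (Module.finBasis ℚ S k : E), rfl, ?_, fun k => (Module.finBasis ℚ S k).2⟩
  exact (Module.finBasis ℚ S).linearIndependent.map' S.subtype
    (LinearMap.ker_eq_bot.2 Subtype.val_injective)

/-- **The sizes of the classes.** -/
theorem class_sizes (hd : 3 ≤ d) {g : Matrix (Fin d) (Fin d) ℝ} (hg : g.det ≠ 0) {ν : ℝ}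
    (hν : 0 < ν) (hnu : HasNu g ν) {M : Set (Matrix (Fin d) (Fin d) ℝ)}
    (hMg : M ⊆ closure (Orb g)) (hM : MinB id M) {h₀ : Matrix (Fin d) (Fin d) ℝ} (hh₀ : h₀ ∈ M)
    (hu : IsUnit h₀.det) :
    ∃ s : ℕ, s * Module.finrank ℚ (symA h₀ hu) = d ∧
      (∀ i, Nat.card {j // Sam h₀ i j} = s) := by
  classical
  have hd0 : 0 < d := by omega
  have hV : 0 < |g.det| := abs_pos.2 hg
  have hMdet : ∀ h ∈ M, |h.det| = |g.det| := fun h hh => abs_det_closure (hMg hh)
  have hMnu : ∀ h ∈ M, HasNu h ν := fun h hh => hasNu_closure hnu (hMg hh)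
  set 𝒜 := algR h₀ hu (Sam h₀) (Sam.refl h₀) (fun _ _ _ h1 h2 => h1.trans h2) with h𝒜
  have hret : ∀ i, HasRet 𝒜 h₀ i := fun i =>
    hasRet_algR (by omega) hV hν hMdet hMnu hM hh₀ (π := id) (fun l hl => hl)
      (local_pattern hV hMdet hM hh₀)
  have hsimple := simple_of_ret (by omega) hV hν (hMdet _ hh₀) (hMnu _ hh₀) 𝒜 (hret ⟨0, hd0⟩)
  obtain ⟨s, hs1, hs2⟩ := exists_degree 𝒜
  set 𝒞 := Subalgebra.centralizer ℚ (𝒜 : Set (Module.End ℚ (Fin d → ℚ))) with h𝒞
  have h𝒞m : ∀ f, f ∈ 𝒞 ↔ ∀ a ∈ 𝒜, f * a = a * f := by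
    intro f
    rw [h𝒞, Subalgebra.mem_centralizer_iff]
    exact ⟨fun h a ha => (h a ha).symm, fun h a ha => (h a ha).symm⟩
  have h𝒞D : ∀ f ∈ 𝒞, Dg h₀ f := fun f hf i j hij =>
    (conj_row_zero hu (hret i) ((h𝒞m f).1 hf) hij).1
  have hD𝒞 : ∀ f, Dg h₀ f → f ∈ 𝒞 := by
    intro f hf
    rw [h𝒞m]
    intro a ha
    have hinj : ∀ x y : Module.End ℚ (Fin d → ℚ), h₀ * kap x * h₀⁻¹ = h₀ * kap y * h₀⁻¹ → x = y := by
      intro x y hxy
      have h1 : kap x = kap y := by
        have h2 := congrArg (fun m => h₀⁻¹ * m * h₀) hxy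
        have h3 : ∀ z : Matrix (Fin d) (Fin d) ℝ, h₀⁻¹ * (h₀ * z * h₀⁻¹) * h₀ = z := by
          intro z
          calc h₀⁻¹ * (h₀ * z * h₀⁻¹) * h₀ = (h₀⁻¹ * h₀) * z * (h₀⁻¹ * h₀) := by
                simp only [Matrix.mul_assoc]
            _ = z := by rw [Matrix.nonsing_inv_mul _ hu, Matrix.one_mul, Matrix.mul_one]
        simp only [h3] at h2
        exact h2
      apply end_ext
      intro a b
      have h2 := congrFun (congrFun h1 a) b
      rw [kap_apply, kap_apply] at h2
      exact_mod_cast h2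
    apply hinj
    rw [map_mul, map_mul, conj_mul hu, conj_mul hu]
    have h3 : h₀ * kap f * h₀⁻¹ = diagonal (fun i => (h₀ * kap f * h₀⁻¹) i i) := by
      ext i j
      by_cases hij : i = j
      · subst hij; rw [diagonal_apply_eq]
      · rw [diagonal_apply_ne _ hij, hf i j hij]
    rw [h3]
    ext i j
    rw [Matrix.diagonal_mul, Matrix.mul_diagonal]
    by_cases hij : Sam h₀ i j
    · rw [hij f hf, mul_comm]
    · rw [ha i j hij, mul_zero, zero_mul]
  have h𝒞sym : 𝒞 = symA h₀ hu := by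
    ext f
    exact ⟨h𝒞D f, hD𝒞 f⟩
  rw [← h𝒞sym]
  have hs1' : s * Module.finrank ℚ 𝒞 = d := by
    rw [hs1, Module.finrank_fintype_fun_eq_card, Fintype.card_fin]
  refine ⟨s, hs1', ?_⟩
  have hs0 : 0 < s := by
    rcases Nat.eq_zero_or_pos s with h | h
    · rw [h, zero_mul] at hs1'; omega
    · exact h
  -- the divisibility
  have hdvd : ∀ i, s ∣ Fintype.card {j // Sam h₀ i j} := by
    intro i
    refine hs2
      { toFun := fun f => (h₀ * kap f.1 * h₀⁻¹).submatrix Subtype.val Subtype.val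
        map_one' := by
          have h1 : kap ((1 : 𝒜) : Module.End ℚ (Fin d → ℚ)) = 1 := map_one kap
          rw [h1, Matrix.mul_one, Matrix.mul_nonsing_inv _ hu]
          exact Matrix.submatrix_one _ Subtype.val_injective
        map_mul' := by
          intro f f'
          have h1 : kap ((f * f' : 𝒜) : Module.End ℚ (Fin d → ℚ)) = kap f.1 * kap f'.1 :=
            map_mul kap _ _
          rw [h1, conj_mul hu]
          ext a b
          rw [Matrix.submatrix_apply, Matrix.mul_apply, Matrix.mul_apply]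
          have h2 : ∀ l, ¬ Sam h₀ i l → (h₀ * kap f.1 * h₀⁻¹) a l * (h₀ * kap f'.1 * h₀⁻¹) l b = 0 := by
            intro l hl
            rw [(mem_algR.1 f.2) a l (fun h => hl (a.2.trans h)), zero_mul]
          rw [← Finset.sum_subset (Finset.subset_univ (Finset.univ.filter (fun l => Sam h₀ i l)))
            (fun l _ hl => h2 l (fun h => hl (by simpa using h)))]
          rw [Finset.sum_subtype (p := fun l => Sam h₀ i l) (Finset.univ.filter (fun l => Sam h₀ i l))
            (fun l => by simp)]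
          rfl
        map_zero' := by
          have h1 : kap ((0 : 𝒜) : Module.End ℚ (Fin d → ℚ)) = 0 := map_zero kap
          rw [h1, Matrix.mul_zero, Matrix.zero_mul]
          rfl
        map_add' := by
          intro f f'
          have h1 : kap ((f + f' : 𝒜) : Module.End ℚ (Fin d → ℚ)) = kap f.1 + kap f'.1 :=
            map_add kap _ _
          rw [h1, Matrix.mul_add, Matrix.add_mul]
          rfl }
  -- the number of classes
  obtain ⟨ρ, hρ1, hρ2, -⟩ := exists_rep h₀ ⟨0, hd0⟩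
  have hρρ : ∀ l, ρ (ρ l) = ρ l := fun l => (hρ2 _ _ (hρ1 l)).symm
  set T : Finset (Fin d) := Finset.univ.filter (fun t => ρ t = t) with hT
  obtain ⟨n, b, hn, hb', hb𝒞⟩ := exists_li (Subalgebra.toSubmodule 𝒞)
  have hs1'' : s * n = d := by rw [hn]; exact hs1'
  have hnT : n ≤ T.card := by
    set χ : Fin n → (T → ℝ) := fun k t => (h₀ * kap (b k) * h₀⁻¹) t.1 t.1 with hχ
    have hli : LinearIndependent ℝ χ := by
      rw [Fintype.linearIndependent_iff]
      intro c hc
      have h1 : ∑ k, c k • kap (b k) = 0 := by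
        have h2 : h₀ * (∑ k, c k • kap (b k)) * h₀⁻¹ = 0 := by
          ext i j
          rw [Matrix.mul_sum, Finset.sum_mul, Matrix.sum_apply, Matrix.zero_apply]
          by_cases hij : i = j
          · subst hij
            have h3 := congrFun hc ⟨ρ i, by simp [hT, hρρ]⟩
            simp only [Finset.sum_apply, Pi.smul_apply, hχ, smul_eq_mul, Pi.zero_apply] at h3
            rw [← h3]
            refine Finset.sum_congr rfl fun k _ => ?_
            rw [Matrix.mul_smul, Matrix.smul_mul, Matrix.smul_apply, smul_eq_mul,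
              hρ1 i _ (h𝒞D _ (hb𝒞 k))]
          · refine Finset.sum_eq_zero fun k _ => ?_
            rw [Matrix.mul_smul, Matrix.smul_mul, Matrix.smul_apply, h𝒞D _ (hb𝒞 k) i j hij,
              smul_zero]
        calc ∑ k, c k • kap (b k)
            = (h₀⁻¹ * h₀) * (∑ k, c k • kap (b k)) * (h₀⁻¹ * h₀) := by
              rw [Matrix.nonsing_inv_mul _ hu, Matrix.one_mul, Matrix.mul_one]
          _ = h₀⁻¹ * (h₀ * (∑ k, c k • kap (b k)) * h₀⁻¹) * h₀ := by
              simp only [Matrix.mul_assoc]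
          _ = 0 := by rw [h2, Matrix.mul_zero, Matrix.zero_mul]
      intro k
      exact congrFun (real_indep hb' h1) k
    have h1 := hli.fintype_card_le_finrank
    rwa [Fintype.card_fin, Module.finrank_fintype_fun_eq_card, Fintype.card_coe] at h1
  have hfib : ∀ t ∈ T, Finset.univ.filter (fun j => ρ j = t) =
      Finset.univ.filter (fun j => Sam h₀ t j) := by
    intro t ht
    have ht' : ρ t = t := by simpa [hT] using ht
    ext j
    simp only [Finset.mem_filter, Finset.mem_univ, true_and]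
    constructor
    · intro h
      rw [← h]
      exact (hρ1 j).symm
    · intro h
      rw [← hρ2 _ _ h, ht']
  have hcardT : ∀ t ∈ T, s ≤ (Finset.univ.filter (fun j => ρ j = t)).card := by
    intro t ht
    have h1 := hdvd t
    rw [Fintype.card_subtype, ← hfib t ht] at h1
    refine Nat.le_of_dvd ?_ h1
    rw [Finset.card_pos]
    exact ⟨t, by simpa [hT] using ht⟩
  have hsum : d = ∑ t ∈ T, (Finset.univ.filter (fun j => ρ j = t)).card := by
    have h1 := Finset.card_eq_sum_card_fiberwise (s := (Finset.univ : Finset (Fin d))) (t := T)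
      (f := ρ) (fun l _ => by simp [hT, hρρ])
    rw [Finset.card_univ, Fintype.card_fin] at h1
    exact h1
  have heq : ∀ t ∈ T, s = (Finset.univ.filter (fun j => ρ j = t)).card := by
    refine (Finset.sum_eq_sum_iff_of_le hcardT).1 ?_
    refine le_antisymm (Finset.sum_le_sum hcardT) ?_
    rw [← hsum, Finset.sum_const, smul_eq_mul]
    calc d = s * n := hs1''.symm
      _ ≤ s * T.card := Nat.mul_le_mul_left s hnT
      _ = T.card * s := mul_comm _ _
  intro i
  have h1 := heq (ρ i) (by simp [hT, hρρ])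
  rw [hfib (ρ i) (by simp [hT, hρρ])] at h1
  rw [Nat.card_eq_fintype_card, Fintype.card_subtype, h1]
  congr 1
  ext j
  simp only [Finset.mem_filter, Finset.mem_univ, true_and]
  exact ⟨fun h => (hρ1 i).symm.trans h, fun h => (hρ1 i).trans h⟩

/-- in a counterexample the classes are not singletons -/
theorem class_nontrivial (hd : 3 ≤ d) {g : Matrix (Fin d) (Fin d) ℝ} (hg : g.det ≠ 0) {ν : ℝ}
    (hν : 0 < ν) (hnu : HasNu g ν) (hint : ¬ PropInt g) {M : Set (Matrix (Fin d) (Fin d) ℝ)}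
    (hMg : M ⊆ closure (Orb g)) (hM : MinB id M) {h₀ : Matrix (Fin d) (Fin d) ℝ} (hh₀ : h₀ ∈ M)
    (i : Fin d) : ∃ j, j ≠ i ∧ Sam h₀ i j := by
  have hd0 : 0 < d := by omega
  have hV : 0 < |g.det| := abs_pos.2 hg
  have hMdet : ∀ h ∈ M, |h.det| = |g.det| := fun h hh => abs_det_closure (hMg hh)
  have hMnu : ∀ h ∈ M, HasNu h ν := fun h hh => hasNu_closure hnu (hMg hh)
  have hk : ∀ l : Fin d, id l = id i → l = i := fun l hl => hl
  obtain ⟨h₁, hh₁, w, hwk, hw0, hw⟩ := row_pair hd0 (abs_pos.2 hg) hν hMdet hMnu hM.closed hM.inv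
    hh₀ hk (frequently_row hd hg hν hnu hint hMg hM hh₀ hk)
  obtain ⟨j, hj⟩ : ∃ j, w j ≠ 0 := by
    by_contra hcon
    push Not at hcon
    exact hw0 (funext hcon)
  refine ⟨j, fun h => hj (h ▸ hwk), ?_⟩
  exact sam_transfer hV hMdet hM hh₀ hh₁ (sam_of_pair (by omega) hV hν hMdet hMnu hM hh₁ hw hj)

end Pool.Agent.Y327
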