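import Mathlib
import Pool.Agent.Y327.Unique
import Pool.Agent.H715R2.Isolation
import Pool.Agent.H715R2.BuildDat
import Pool.Agent.H715R2.CountableValues

/-! # Recurrence of integral forms under the walls of the diagonal group -/

open NumberField Filter Topology Matrix

namespace Pool.Agent.Y327

open H715R2

section

variable {K : Type*} [Field K] [NumberField K] {d : ℕ}

/-- units act through integer matrices -/
lemma unit_act (D : Dat K d) (t : Fin d → (K →+* ℂ)) (hbij : Function.Bijective t)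
    (hreal : ∀ τ : K →+* ℂ, ComplexEmbedding.IsReal τ)
    (B : Matrix (Fin d) (Fin d) ℝ)
    (hBc : ∀ k j, ((B k j : ℝ) : ℂ) = t k (D.b j)) (hBdet : B.det ≠ 0) (v : (𝓞 K)ˣ) :
    ∃ γ : Matrix (Fin d) (Fin d) ℤ, IsUnit γ.det ∧
      B * zR γ = diagonal (fun k => Real.exp (lg D.N (t k) v)) * B ∧
      ∏ k, Real.exp (lg D.N (t k) v) = 1 := by
  classical
  choose U hU using fun j => D.act v (Pi.single j 1)
  set γ : Matrix (Fin d) (Fin d) ℤ := fun j' j => U j j' with hγdef
  have hBγ : B * zR γ = diagonal (fun k => Real.exp (lg D.N (t k) v)) * B := by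
    ext k j
    rw [diagonal_mul, Matrix.mul_apply]
    have h1 := congrArg (t k) (hU j)
    have h2 : (∑ j', ((Pi.single j (1 : ℤ) : Fin d → ℤ) j' : ℚ) • D.b j') = D.b j := by
      rw [Finset.sum_eq_single j]
      · simp
      · intro j' _ hj'
        simp [Pi.single_eq_of_ne hj']
      · intro h
        exact absurd (Finset.mem_univ _) h
    rw [h2, map_mul, map_sum] at h1
    have h3 : t k ((((v ^ D.N : (𝓞 K)ˣ) : 𝓞 K) : K)) = ((Real.exp (lg D.N (t k) v) : ℝ) : ℂ) :=
      pos_real hreal D.N D.hNe (t k) v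
    rw [h3, ← hBc] at h1
    have h4 : ∀ j', t k (((U j j' : ℤ) : ℚ) • D.b j') =
        ((zR γ j' j : ℝ) : ℂ) * ((B k j' : ℝ) : ℂ) := by
      intro j'
      have hz : zR γ j' j = ((U j j' : ℤ) : ℝ) := rfl
      rw [Algebra.smul_def, map_mul, hBc, hz]
      simp
    rw [Finset.sum_congr rfl fun j' _ => h4 j'] at h1
    have h5 : ∑ j', zR γ j' j * B k j' = Real.exp (lg D.N (t k) v) * B k j := by
      exact_mod_cast h1
    rw [← h5]
    exact Finset.sum_congr rfl fun j' _ => mul_comm _ _
  have hprod : ∏ k, Real.exp (lg D.N (t k) v) = 1 := by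
    rw [← Real.exp_sum]
    have h1 : ∑ k, lg D.N (t k) v = ∑ τ : K →+* ℂ, lg D.N τ v :=
      Fintype.sum_bijective t hbij _ _ fun i => rfl
    rw [h1, sum_lg, Real.exp_zero]
  have hγdet : (γ.det : ℝ) = 1 := by
    have h1 := congrArg Matrix.det hBγ
    rw [det_mul, det_mul, det_diagonal, hprod, det_zR, one_mul] at h1
    exact mul_left_cancel₀ hBdet (by rw [h1, mul_one])
  have hγu : IsUnit γ.det := by
    have : γ.det = 1 := by exact_mod_cast hγdet
    rw [this]; exact isUnit_one
  exact ⟨γ, hγu, hBγ, hprod⟩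

end

variable {d : ℕ}

/-- the partition with the single block `{i, j}` -/
def pij (i j : Fin d) : Fin d → Fin d := fun l => if l = i then j else l

lemma pij_iff {i j : Fin d} {a : Fin d → ℝ} :
    BB (pij i j) a ↔ (∀ l, 0 < a l) ∧ ∏ l, a l = 1 ∧ a i = a j := by
  constructor
  · intro h
    refine ⟨h.1, h.2.1, h.2.2 i j ?_⟩
    simp only [pij, if_true]
    split_ifs <;> rfl
  · rintro ⟨h1, h2, h3⟩
    refine ⟨h1, h2, fun l m hlm => ?_⟩
    simp only [pij] at hlm
    by_cases hl : l = i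
    · by_cases hm : m = i
      · rw [hl, hm]
      · rw [if_pos hl, if_neg hm] at hlm
        rw [hl, ← hlm, h3]
    · by_cases hm : m = i
      · rw [if_neg hl, if_pos hm] at hlm
        rw [hm, hlm, h3]
      · rw [if_neg hl, if_neg hm] at hlm
        rw [hlm]

/-- orbit under a block group -/
def OrbB (π : Fin d → Fin d) (g : Matrix (Fin d) (Fin d) ℝ) : Set (Matrix (Fin d) (Fin d) ℝ) :=
  {h | ∃ (a : Fin d → ℝ) (γ : Matrix (Fin d) (Fin d) ℤ), BB π a ∧ IsUnit γ.det ∧
    h = diagonal a * g * zR γ}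

/-- the algebraic data of an integral form bounded away from zero -/
theorem dat_of_propInt (hd : 3 ≤ d) {g : Matrix (Fin d) (Fin d) ℝ} (hg : g.det ≠ 0) {ν : ℝ}
    (hν : 0 < ν) (hnu : HasNu g ν) (hP : PropInt g) :
    ∃ (K : IntermediateField ℚ ℝ) (_ : NumberField K) (D : Dat K d) (t : Fin d → (K →+* ℂ))
      (B : Matrix (Fin d) (Fin d) ℝ) (c : Fin d → ℝ), Function.Bijective t ∧
      (∀ τ : K →+* ℂ, ComplexEmbedding.IsReal τ) ∧
      (∀ k j, ((B k j : ℝ) : ℂ) = t k (D.b j)) ∧ B.det ≠ 0 ∧ g = diagonal c * B := by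
  classical
  have hd0 : 0 < d := by omega
  have hnz : ∀ p : Fin d → ℤ, p ≠ 0 → FF g (iR p) ≠ 0 := by
    intro p hp h0
    have h1 := hnu p hp
    rw [h0, abs_zero] at h1
    exact absurd h1 (not_le.2 hν)
  obtain ⟨A, -, hA1, -, hA2⟩ := Pool.Agent.H905R2.Opp.oppA g hd0 hg hP hnz
  obtain ⟨lam, hlam, hAg⟩ := eig_of_opp hg hA1 hA2
  obtain ⟨K, hfin, hrank, s, hs, hmem⟩ := exists_alg_row hg A lam hlam hAg ⟨0, hd0⟩
  obtain ⟨hNF, D, hD⟩ := build_dat hd g hg ⟨0, hd0⟩ s hs K hrank hmem (by
    intro m hm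
    by_contra hm0
    have h2 := hnz m hm0
    apply h2
    rw [FF_eq]
    have h3 : (g *ᵥ iR m) ⟨0, hd0⟩ = 0 := hm
    exact Finset.prod_eq_zero (Finset.mem_univ _) h3)
  rcases D.monomial_or_dense with h1 | h1
  · choose t ht using h1
    obtain ⟨B, c, hB, hc0, hDg, hBdet, hreal⟩ := D.mono_matrix t ht
    exact ⟨K, hNF, D, t, B, c, D.mono_bij t ht, hreal, hB, hBdet, by rw [← hD]; exact hDg⟩
  · exfalso
    have h2 : VV g = Set.univ := by
      rw [← hD]; exact h1
    obtain ⟨x, hx, hx1⟩ := dense_ne (by omega) h2 0 ν hν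
    rw [sub_zero] at hx1
    exact absurd (hnu x hx) (not_le.2 hx1)

/-- **Recurrence of integral forms.** -/
theorem recur_of_propInt (hd : 3 ≤ d) {g : Matrix (Fin d) (Fin d) ℝ} (hg : g.det ≠ 0) {ν : ℝ}
    (hν : 0 < ν) (hnu : HasNu g ν) (hP : PropInt g) {i j : Fin d} (hij : i ≠ j) {a : Fin d → ℝ}
    (ha : BB id a) : diagonal a * g ∈ closure (OrbB (pij i j) g) := by
  classical
  obtain ⟨K, hNF, D, t, B, c, hbij, hreal, hBc, hBdet, hgB⟩ := dat_of_propInt hd hg hν hnu hP
  obtain ⟨k, hki, hkj⟩ : ∃ k : Fin d, k ≠ i ∧ k ≠ j := by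
    by_contra hcon
    push Not at hcon
    have h1 : (Finset.univ : Finset (Fin d)) ⊆ {i, j} := by
      intro k _
      simp only [Finset.mem_insert, Finset.mem_singleton]
      by_cases hk : k = i
      · exact Or.inl hk
      · exact Or.inr (hcon k hk)
    have h2 := Finset.card_le_card h1
    rw [Finset.card_univ, Fintype.card_fin] at h2
    have h3 : ({i, j} : Finset (Fin d)).card ≤ 2 := Finset.card_le_two
    omega
  have hdense := psi_dense hreal D.N D.hN D.hNe (t i) (t j) (t k)
    (fun h => hij (hbij.1 h).symm) (fun h => hki (hbij.1 h)) (fun h => hkj (hbij.1 h))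
  -- units with ratios tending to the ratio of `a`
  set s : ℝ := Real.log (a i) - Real.log (a j) with hs
  have hv : ∀ n : ℕ, ∃ v : (𝓞 K)ˣ,
      |lg D.N (t i) v - lg D.N (t j) v - s| < 1 / ((n : ℝ) + 1) := by
    intro n
    obtain ⟨y, hy, ⟨z, hz⟩⟩ := Metric.dense_iff.1 hdense s (1 / ((n : ℝ) + 1)) (by positivity)
    refine ⟨z.toMul, ?_⟩
    rw [Metric.mem_ball, Real.dist_eq, ← hz] at hy
    exact hy
  choose v hv using hv
  choose γ hγu hγ hγp using fun n => unit_act D t hbij hreal B hBc hBdet (v n)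
  set u : ℕ → Fin d → ℝ := fun n k => Real.exp (lg D.N (t k) (v n)) with hu
  have hu0 : ∀ n k, 0 < u n k := fun n k => Real.exp_pos _
  have hgγ : ∀ n, g * zR (γ n) = diagonal (u n) * g := by
    intro n
    rw [hgB, Matrix.mul_assoc, hγ n, ← Matrix.mul_assoc, ← Matrix.mul_assoc,
      diagonal_mul_diagonal, diagonal_mul_diagonal]
    congr 2
    funext k
    rw [mul_comm]
  -- the correction
  set e : ℕ → ℝ := fun n => Real.exp ((lg D.N (t i) (v n) - lg D.N (t j) (v n) - s) / 2) with he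
  have helim : Tendsto e atTop (𝓝 1) := by
    have h1 : Tendsto (fun n => (lg D.N (t i) (v n) - lg D.N (t j) (v n) - s) / 2) atTop
        (𝓝 (0 / 2)) := by
      refine Tendsto.div_const ?_ 2
      refine squeeze_zero_norm (fun n => ?_) tendsto_one_div_add_atTop_nhds_zero_nat
      rw [Real.norm_eq_abs]
      exact (hv n).le
    rw [zero_div] at h1
    have h2 := (Real.continuous_exp.tendsto 0).comp h1
    rwa [Real.exp_zero] at h2
  set ec : ℕ → Fin d → ℝ := fun n l => if l = i then e n else if l = j then (e n)⁻¹ else 1 with hec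
  have he0 : ∀ n, 0 < e n := fun n => Real.exp_pos _
  have hec0 : ∀ n l, 0 < ec n l := by
    intro n l
    simp only [hec]
    split_ifs
    · exact he0 n
    · exact inv_pos.2 (he0 n)
    · exact one_pos
  have hecp : ∀ n, ∏ l, ec n l = 1 := by
    intro n
    rw [← Finset.mul_prod_erase _ _ (Finset.mem_univ i),
      ← Finset.mul_prod_erase _ _ (Finset.mem_erase.2 ⟨hij.symm, Finset.mem_univ j⟩)]
    rw [Finset.prod_eq_one]
    · simp only [hec, if_true, if_neg hij.symm, mul_one]
      exact mul_inv_cancel₀ (he0 n).ne'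
    · intro l hl
      have h1 := Finset.ne_of_mem_erase hl
      have h2 := Finset.ne_of_mem_erase (Finset.mem_of_mem_erase hl)
      simp only [hec, if_neg h1, if_neg h2]
  set b : ℕ → Fin d → ℝ := fun n l => a l * (u n l)⁻¹ * ec n l with hb
  have hbB : ∀ n, BB (pij i j) (b n) := by
    intro n
    rw [pij_iff]
    refine ⟨fun l => mul_pos (mul_pos (ha.1 l) (inv_pos.2 (hu0 n l))) (hec0 n l), ?_, ?_⟩
    · simp only [hb]
      rw [Finset.prod_mul_distrib, Finset.prod_mul_distrib, ha.2.1, Finset.prod_inv_distrib,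
        hγp n, hecp n]
      simp
    · simp only [hb, hec, hu, if_true, if_neg hij.symm]
      rw [← Real.exp_log (ha.1 i), ← Real.exp_log (ha.1 j), ← Real.exp_neg, ← Real.exp_neg, he]
      simp only
      rw [← Real.exp_neg, ← Real.exp_add, ← Real.exp_add, ← Real.exp_add, ← Real.exp_add]
      congr 1
      rw [hs]
      ring
  suffices hlim : Tendsto (fun n => diagonal (b n) * g * zR (γ n)) atTop (𝓝 (diagonal a * g)) from
    mem_closure_of_tendsto hlim (Eventually.of_forall fun n => ⟨b n, γ n, hbB n, hγu n, rfl⟩)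
  have h1 : ∀ n, diagonal (b n) * g * zR (γ n) = diagonal (fun l => a l * ec n l) * g := by
    intro n
    rw [Matrix.mul_assoc, hgγ n, ← Matrix.mul_assoc, diagonal_mul_diagonal]
    congr 2
    funext l
    simp only [hb]
    have := (hu0 n l).ne'
    field_simp
  simp only [h1]
  have h2 : Tendsto (fun n => (diagonal (fun l => a l * ec n l) : Matrix (Fin d) (Fin d) ℝ)) atTop
      (𝓝 (diagonal a)) := by
    have h3 : Tendsto (fun n => (fun l => a l * ec n l)) atTop (𝓝 a) := by
      refine tendsto_pi_nhds.2 fun l => ?_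
      have h4 : Tendsto (fun n => ec n l) atTop (𝓝 1) := by
        simp only [hec]
        split_ifs
        · exact helim
        · have := helim.inv₀ one_ne_zero
          rwa [inv_one] at this
        · exact tendsto_const_nhds
      have h5 := h4.const_mul (a l)
      rwa [mul_one] at h5
    have h6 : Continuous (fun c : Fin d → ℝ => (diagonal c : Matrix (Fin d) (Fin d) ℝ)) :=
      Continuous.matrix_diagonal continuous_id
    exact (h6.tendsto a).comp h3
  exact h2.mul tendsto_const_nhds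

/-- integrality passes to the orbit closure -/
theorem propInt_closure (hd : 3 ≤ d) {g h : Matrix (Fin d) (Fin d) ℝ} (hg : g.det ≠ 0) {ν : ℝ}
    (hν : 0 < ν) (hnu : HasNu g ν) (hP : PropInt g) (hh : h ∈ closure (Orb g)) : PropInt h := by
  have hdet : |h.det| = |g.det| := abs_det_closure hh
  have hdet0 : h.det ≠ 0 := by
    rw [← abs_ne_zero, hdet, abs_ne_zero]; exact hg
  obtain ⟨T, hT⟩ : ∃ T : ℝ, (d.factorial : ℝ) * |h.det| < (d : ℝ) ^ d * T := by
    have h1 : (0 : ℝ) < (d : ℝ) ^ d := by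
      have : (0 : ℝ) < d := by exact_mod_cast (by omega : 0 < d)
      positivity
    refine ⟨((d.factorial : ℝ) * |h.det| + 1) / (d : ℝ) ^ d, ?_⟩
    rw [mul_div_cancel₀ _ h1.ne']
    linarith
  have hC : (closure {t : ℝ | ∃ x : Fin d → ℤ, FF h (iR x) = t ∧ |t| < T}).Countable := by
    refine (countable_VV hP).mono ?_
    refine closure_minimal ?_ isClosed_closure
    rintro t ⟨x, hx, -⟩
    rw [← hx]
    exact mem_VV_of_mem_closure hh x
  rcases countable_values hd hdet0 T (fun h' hh' => mink_prod (by omega) |h.det| T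
    (abs_pos.2 hdet0) hT h' hh') hC with h1 | h1
  · exact h1
  · exfalso
    obtain ⟨x, hx, hx1⟩ := h1 ν hν
    exact absurd (hasNu_closure hnu hh x hx) (not_le.2 hx1)

end Pool.Agent.Y327
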