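import Mathlib
import Pool.Agent.Y327.Recur

/-! # A counterexample is not recurrent under a wall of the diagonal group -/

open Filter Topology Matrix

namespace Pool.Agent.Y327

open H715R2

variable {d : ℕ}

lemma MinB.eq_of_inter {π : Fin d → Fin d} {Q₁ Q₂ : Set (Matrix (Fin d) (Fin d) ℝ)}
    (h1 : MinB π Q₁) (h2 : MinB π Q₂) (hne : (Q₁ ∩ Q₂).Nonempty) : Q₁ = Q₂ := by
  have hinv : InvB π (Q₁ ∩ Q₂) := fun h hh a γ ha hγ =>
    ⟨h1.inv h hh.1 a γ ha hγ, h2.inv h hh.2 a γ ha hγ⟩
  have hc : IsClosed (Q₁ ∩ Q₂) := h1.closed.inter h2.closed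
  rw [← h1.min _ Set.inter_subset_left hc hne hinv]
  exact h2.min _ Set.inter_subset_right hc hne hinv

/-- translates of minimal sets by matrices commuting with the group are minimal -/
lemma MinB.shift {π : Fin d → Fin d} {Q : Set (Matrix (Fin d) (Fin d) ℝ)} (hQ : MinB π Q)
    {m m' : Matrix (Fin d) (Fin d) ℝ} (h1 : m * m' = 1) (h2 : m' * m = 1)
    (hm : ∀ b, BB π b → m * diagonal b = diagonal b * m)
    (hm' : ∀ b, BB π b → m' * diagonal b = diagonal b * m') :
    MinB π {x | m' * x ∈ Q} := by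
  have key : ∀ (n : Matrix (Fin d) (Fin d) ℝ) (Z : Set (Matrix (Fin d) (Fin d) ℝ)),
      (∀ b, BB π b → n * diagonal b = diagonal b * n) → InvB π Z → InvB π {x | n * x ∈ Z} := by
    intro n Z hn hZ x hx a γ ha hγ
    show n * (diagonal a * x * zR γ) ∈ Z
    have h3 : n * (diagonal a * x * zR γ) = diagonal a * (n * x) * zR γ := by
      rw [← Matrix.mul_assoc, ← Matrix.mul_assoc, hn a ha]
      simp only [Matrix.mul_assoc]
    rw [h3]
    exact hZ _ hx a γ ha hγ
  have hcont : ∀ n : Matrix (Fin d) (Fin d) ℝ,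
      Continuous (fun x : Matrix (Fin d) (Fin d) ℝ => n * x) := fun n =>
    continuous_const.matrix_mul continuous_id
  refine ⟨hQ.closed.preimage (hcont m'), ?_, key m' Q hm' hQ.inv, ?_⟩
  · obtain ⟨x, hx⟩ := hQ.ne
    refine ⟨m * x, ?_⟩
    show m' * (m * x) ∈ Q
    rwa [← Matrix.mul_assoc, h2, Matrix.one_mul]
  · intro Z hZ hZc hZne hZinv
    have h3 : {x | m * x ∈ Z} = Q := by
      refine hQ.min _ ?_ (hZc.preimage (hcont m)) ?_ (key m Z hm hZinv)
      · intro x hx
        have h4 : m' * (m * x) ∈ Q := hZ hx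
        rwa [← Matrix.mul_assoc, h2, Matrix.one_mul] at h4
      · obtain ⟨x, hx⟩ := hZne
        refine ⟨m' * x, ?_⟩
        show m * (m' * x) ∈ Z
        rwa [← Matrix.mul_assoc, h1, Matrix.one_mul]
    refine subset_antisymm hZ fun x hx => ?_
    have h4 : m' * x ∈ {x | m * x ∈ Z} := by rw [h3]; exact hx
    have h5 : m * (m' * x) ∈ Z := h4
    rwa [← Matrix.mul_assoc, h1, Matrix.one_mul] at h5

/-- the one-parameter group transversal to the wall -/
noncomputable def ew (i j : Fin d) (c : ℝ) : Fin d → ℝ :=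
  fun l => if l = i then c else if l = j then c⁻¹ else 1

lemma ew_BB {i j : Fin d} (hij : i ≠ j) {c : ℝ} (hc : 0 < c) : BB id (ew i j c) := by
  classical
  refine ⟨fun l => ?_, ?_, fun l m hlm => by rw [show l = m from hlm]⟩
  · simp only [ew]
    split_ifs
    · exact hc
    · exact inv_pos.2 hc
    · exact one_pos
  · rw [← Finset.mul_prod_erase _ _ (Finset.mem_univ i),
      ← Finset.mul_prod_erase _ _ (Finset.mem_erase.2 ⟨hij.symm, Finset.mem_univ j⟩)]
    rw [Finset.prod_eq_one]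
    · simp only [ew, if_true, if_neg hij.symm, mul_one]
      exact mul_inv_cancel₀ hc.ne'
    · intro l hl
      have h1 := Finset.ne_of_mem_erase hl
      have h2 := Finset.ne_of_mem_erase (Finset.mem_of_mem_erase hl)
      simp only [ew, if_neg h1, if_neg h2]

lemma ew_mul (i j : Fin d) (c c' : ℝ) :
    (diagonal (ew i j c) * diagonal (ew i j c') : Matrix (Fin d) (Fin d) ℝ)
      = diagonal (ew i j (c * c')) := by
  rw [diagonal_mul_diagonal]
  congr 1
  funext l
  simp only [ew]
  split_ifs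
  · rfl
  · rw [mul_inv]
  · rw [one_mul]

lemma ew_one (i j : Fin d) : (diagonal (ew i j 1) : Matrix (Fin d) (Fin d) ℝ) = 1 := by
  rw [← diagonal_one]
  congr 1
  funext l
  simp [ew]

lemma diag_comm (a b : Fin d → ℝ) : (diagonal a * diagonal b : Matrix (Fin d) (Fin d) ℝ)
    = diagonal b * diagonal a := by
  rw [diagonal_mul_diagonal, diagonal_mul_diagonal]
  congr 1
  funext l
  rw [mul_comm]

lemma transv_comm {i j : Fin d} (s : ℝ) {b : Fin d → ℝ} (hb : b i = b j) :
    transvection i j s * diagonal b = diagonal b * transvection i j s := by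
  ext k l
  rw [Matrix.mul_diagonal, Matrix.diagonal_mul]
  simp only [transvection, Matrix.add_apply, Matrix.single_apply]
  by_cases hkl : k = l
  · subst hkl; ring
  · rw [Matrix.one_apply_ne hkl]
    by_cases h : i = k ∧ j = l
    · rw [if_pos h, ← h.1, ← h.2, hb]; ring
    · rw [if_neg h]; ring

lemma transv_ew {i j : Fin d} (hij : i ≠ j) (s : ℝ) {c : ℝ} (hc : c ≠ 0) :
    diagonal (ew i j c) * transvection i j s
      = transvection i j (s * c ^ 2) * diagonal (ew i j c) := by
  ext k l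
  rw [Matrix.mul_diagonal, Matrix.diagonal_mul]
  simp only [transvection, Matrix.add_apply, Matrix.single_apply]
  by_cases hkl : k = l
  · subst hkl
    have h : ¬ (i = k ∧ j = k) := fun h => hij (h.1.trans h.2.symm)
    rw [if_neg h, if_neg h]; ring
  · rw [Matrix.one_apply_ne hkl]
    by_cases h : i = k ∧ j = l
    · obtain ⟨rfl, rfl⟩ := h
      simp only [and_self, if_true, ew, if_neg hij.symm]
      field_simp
      ring
    · rw [if_neg h, if_neg h]; ring

/-- **No unipotent invariance.** -/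
lemma no_unip (hd : 0 < d) {V ν : ℝ} (hV : 0 < V) (hν : 0 < ν)
    {M : Set (Matrix (Fin d) (Fin d) ℝ)} (hMdet : ∀ h ∈ M, |h.det| = V)
    (hMnu : ∀ h ∈ M, HasNu h ν) (hMc : IsClosed M) (hMinv : InvB id M) {i j : Fin d}
    (hij : i ≠ j) {s : ℝ} (hs : s ≠ 0) {h : Matrix (Fin d) (Fin d) ℝ}
    (hh : ∀ n : ℕ, transvection i j (n * s) * h ∈ M) : False := by
  classical
  have hh0 : h ∈ M := by
    have := hh 0
    rwa [Nat.cast_zero, zero_mul, transvection_zero, Matrix.one_mul] at this
  obtain ⟨R, hR⟩ := exists_bound hd V ν hV hν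
  set c : ℕ → ℝ := fun k => Real.sqrt (1 / ((k : ℝ) + 1)) with hc
  have hc0 : ∀ k, 0 < c k := fun k => Real.sqrt_pos.2 (by positivity)
  have hc2 : ∀ k, c k ^ 2 = 1 / ((k : ℝ) + 1) := fun k => Real.sq_sqrt (by positivity)
  have hγ : ∀ k, ∃ γ : Matrix (Fin d) (Fin d) ℤ, IsUnit γ.det ∧
      ∀ a b, |(diagonal (ew i j (c k)) * h * zR γ) a b| ≤ R := by
    intro k
    have h1 : diagonal (ew i j (c k)) * h ∈ M := hMinv.diag hh0 (ew_BB hij (hc0 k))
    exact hR _ (hMdet _ h1) (hMnu _ h1)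
  choose γ hγu hγR using hγ
  obtain ⟨h', -, φ, hφ, hlim⟩ := (isCompact_box (d := d) R).tendsto_subseq hγR
  have hkey : ∀ t : ℝ, 0 ≤ t → transvection i j (t * s) * h' ∈ M := by
    intro t ht
    have h1 : Tendsto (fun k : ℕ => ((⌊t * ((φ k : ℝ) + 1)⌋₊ : ℕ) : ℝ) * s * c (φ k) ^ 2) atTop
        (𝓝 (t * s)) := by
      have h2 : Tendsto (fun k : ℕ => ((⌊t * ((φ k : ℝ) + 1)⌋₊ : ℕ) : ℝ) / ((φ k : ℝ) + 1)) atTop
          (𝓝 t) := by
        have h3 : Tendsto (fun k : ℕ => ((φ k : ℝ) + 1)) atTop atTop := by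
          refine tendsto_atTop_add_const_right _ _ ?_
          exact tendsto_natCast_atTop_atTop.comp hφ.tendsto_atTop
        exact (tendsto_nat_floor_mul_div_atTop ht).comp h3
      have h3 := h2.mul_const s
      refine h3.congr fun k => ?_
      rw [hc2]
      ring
    have h2 : Continuous (fun r : ℝ => (transvection i j r : Matrix (Fin d) (Fin d) ℝ)) := by
      unfold transvection
      refine continuous_const.add ?_
      refine continuous_matrix fun k l => ?_
      simp only [Matrix.single_apply]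
      split_ifs
      · exact continuous_id
      · exact continuous_const
    have h3 := ((h2.tendsto (t * s)).comp h1).mul hlim
    refine hMc.mem_of_tendsto h3 (Eventually.of_forall fun k => ?_)
    have h4 := hMinv _ (hh ⌊t * ((φ k : ℝ) + 1)⌋₊) _ _ (ew_BB hij (hc0 (φ k))) (hγu (φ k))
    have h5 : diagonal (ew i j (c (φ k))) *
        (transvection i j (((⌊t * ((φ k : ℝ) + 1)⌋₊ : ℕ) : ℝ) * s) * h) * zR (γ (φ k)) =
        transvection i j (((⌊t * ((φ k : ℝ) + 1)⌋₊ : ℕ) : ℝ) * s * c (φ k) ^ 2) *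
          (diagonal (ew i j (c (φ k))) * h * zR (γ (φ k))) := by
      rw [← Matrix.mul_assoc, transv_ew hij _ (hc0 (φ k)).ne']
      simp only [Matrix.mul_assoc]
    rw [h5] at h4
    exact h4
  have hh' : h' ∈ M := by
    have := hkey 0 le_rfl
    rwa [zero_mul, transvection_zero, Matrix.one_mul] at this
  have hdet0 : h'.det ≠ 0 := by
    intro h0
    have h1 := hMdet _ hh'
    rw [h0, abs_zero] at h1
    exact hV.ne h1
  -- an integer point where the two coordinates have the right signs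
  obtain ⟨x, hx⟩ : ∃ x : Fin d → ℤ, (h' *ᵥ iR x) i * (s * (h' *ᵥ iR x) j) < 0 := by
    set U : Set (Fin d → ℝ) := {y | (h' *ᵥ y) i * (s * (h' *ᵥ y) j) < 0} with hU
    have hc1 : ∀ k, Continuous (fun y : Fin d → ℝ => (h' *ᵥ y) k) := fun k =>
      (continuous_apply k).comp (continuous_const.matrix_mulVec continuous_id)
    have hUo : IsOpen U :=
      isOpen_lt ((hc1 i).mul (continuous_const.mul (hc1 j))) continuous_const
    set z : Fin d → ℝ := fun k => if k = i then 1 else if k = j then -s else 0 with hz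
    have hzU : h'⁻¹ *ᵥ z ∈ U := by
      have h1 : h' *ᵥ (h'⁻¹ *ᵥ z) = z := by
        rw [Matrix.mulVec_mulVec, Matrix.mul_nonsing_inv _ (isUnit_iff_ne_zero.2 hdet0),
          Matrix.one_mulVec]
      show (h' *ᵥ (h'⁻¹ *ᵥ z)) i * (s * (h' *ᵥ (h'⁻¹ *ᵥ z)) j) < 0
      rw [h1]
      simp only [hz, if_true, if_neg hij.symm]
      have : 0 < s * s := mul_self_pos.2 hs
      linarith
    obtain ⟨m, k, hk, hmk⟩ := exists_int_point U hUo _ hzU
    refine ⟨m, ?_⟩
    have hk' : (0 : ℝ) < k := by exact_mod_cast hk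
    have h1 : iR m = (k : ℝ) • (fun l => (m l : ℝ) / k) := by
      funext l
      simp only [iR, Pi.smul_apply, smul_eq_mul]
      field_simp
    have h2 : (h' *ᵥ (fun l => (m l : ℝ) / k)) i * (s * (h' *ᵥ (fun l => (m l : ℝ) / k)) j) < 0 :=
      hmk
    rw [h1, Matrix.mulVec_smul, Pi.smul_apply, Pi.smul_apply, smul_eq_mul, smul_eq_mul]
    have h3 : (k : ℝ) * (h' *ᵥ (fun l => (m l : ℝ) / k)) i *
        (s * ((k : ℝ) * (h' *ᵥ (fun l => (m l : ℝ) / k)) j)) =
        (k : ℝ) ^ 2 * ((h' *ᵥ (fun l => (m l : ℝ) / k)) i *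
          (s * (h' *ᵥ (fun l => (m l : ℝ) / k)) j)) := by ring
    rw [h3]
    exact mul_neg_of_pos_of_neg (by positivity) h2
  have hx0 : x ≠ 0 := by
    intro h0
    rw [h0] at hx
    have : iR (0 : Fin d → ℤ) = 0 := by funext l; simp [iR]
    rw [this, Matrix.mulVec_zero] at hx
    simp at hx
  set α := (h' *ᵥ iR x) i with hα
  set β := s * (h' *ᵥ iR x) j with hβ
  have hβ0 : β ≠ 0 := by
    intro h0
    rw [h0, mul_zero] at hx
    exact lt_irrefl _ hx
  have ht : 0 ≤ -α / β := by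
    have h1 : 0 < -α * β := by linarith
    have h2 : -α / β = (-α * β) / (β * β) := by field_simp
    rw [h2]
    exact (div_pos h1 (mul_self_pos.2 hβ0)).le
  have hmem := hkey _ ht
  have h1 := hMnu _ hmem x hx0
  have h2 : ((transvection i j (-α / β * s) * h') *ᵥ iR x) i = 0 := by
    rw [← Matrix.mulVec_mulVec]
    have h3 : (transvection i j (-α / β * s) *ᵥ (h' *ᵥ iR x)) i
        = (h' *ᵥ iR x) i + (-α / β * s) * (h' *ᵥ iR x) j := by
      rw [transvection, Matrix.add_mulVec, Matrix.one_mulVec, Pi.add_apply, Matrix.single_mulVec]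
      simp
    rw [h3, ← hα]
    have h4 : -α / β * s * (h' *ᵥ iR x) j = -α / β * β := by rw [hβ]; ring
    rw [h4]
    field_simp
    ring
  rw [FF_eq, Finset.prod_eq_zero (Finset.mem_univ i) h2, abs_zero] at h1
  exact absurd h1 (not_le.2 hν)

/-- **A counterexample is not recurrent under a wall.** -/
theorem wall (hd : 3 ≤ d) {g : Matrix (Fin d) (Fin d) ℝ} (hg : g.det ≠ 0) {ν : ℝ}
    (hν : 0 < ν) (hnu : HasNu g ν) (hint : ¬ PropInt g) (i : Fin d) :
    ∃ j, j ≠ i ∧ ∃ h ∈ closure (Orb g), ∀ a, BB id a → a i ≠ a j →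
      diagonal a * h ∉ closure (OrbB (pij i j) h) := by
  classical
  have hd0 : 0 < d := by omega
  have hdetc : ∀ h ∈ closure (Orb g), |h.det| = |g.det| := fun h hh => abs_det_closure hh
  have hnuc : ∀ h ∈ closure (Orb g), HasNu h ν := fun h hh => hasNu_closure hnu hh
  obtain ⟨M, hMg, hM⟩ := exists_minB hd0 id (abs_pos.2 hg) hν isClosed_closure
    ⟨g, subset_closure (mem_orb_self g)⟩
    (fun h hh a γ ha hγ => closure_mul hh ha.1 ha.2.1 hγ) hdetc hnuc
  have hMdet : ∀ h ∈ M, |h.det| = |g.det| := fun h hh => hdetc h (hMg hh)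
  have hMnu : ∀ h ∈ M, HasNu h ν := fun h hh => hnuc h (hMg hh)
  have hk : ∀ l : Fin d, id l = id i → l = i := fun l hl => hl
  obtain ⟨h₀, hh₀⟩ := hM.ne
  obtain ⟨h₁, hh₁, w, hwk, hw0, hw⟩ := row_pair hd0 (abs_pos.2 hg) hν hMdet hMnu hM.closed hM.inv
    hh₀ hk (frequently_row hd hg hν hnu hint hMg hM hh₀ hk)
  obtain ⟨j, hj⟩ : ∃ j, w j ≠ 0 := by
    by_contra hcon
    push Not at hcon
    exact hw0 (funext hcon)
  have hji : j ≠ i := fun h => hj (h ▸ hwk)
  have hij : i ≠ j := hji.symm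
  obtain ⟨h₂, hh₂, hw₂⟩ := block_pair hd0 (abs_pos.2 hg) hν hMdet hMnu hM.closed hM.inv hk hh₁
    hwk hw j
  set s : ℝ := w j with hs
  have hT : Md {i} (fun _ l => if id l = id j then w l else 0) = transvection i j s := by
    ext k l
    simp only [Md, transvection, Matrix.add_apply, Matrix.of_apply, Matrix.single_apply, id,
      Finset.mem_singleton]
    congr 1
    by_cases hki : k = i
    · by_cases hlj : l = j
      · rw [hki, hlj]; simp [hs]
      · rw [if_pos hki, if_neg hlj, if_neg (fun h => hlj h.2.symm)]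
    · rw [if_neg hki, if_neg (fun h => hki h.1.symm)]
  rw [hT] at hw₂
  set π := pij i j with hπ
  have hπid : ∀ b, BB π b → BB id b := fun b hb =>
    ⟨hb.1, hb.2.1, fun l m hlm => by rw [show l = m from hlm]⟩
  have hπij : ∀ b, BB π b → b i = b j := fun b hb => (pij_iff.1 hb).2.2
  set P : Set (Matrix (Fin d) (Fin d) ℝ) := {h | h ∈ M ∧ transvection i j s * h ∈ M} with hP
  have hPc : IsClosed P :=
    hM.closed.inter (hM.closed.preimage (continuous_const.matrix_mul continuous_id))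
  have hPinv : InvB π P := by
    rintro h ⟨h1, h2⟩ b γ hb hγ
    refine ⟨hM.inv h h1 b γ (hπid b hb) hγ, ?_⟩
    have h3 := hM.inv _ h2 b γ (hπid b hb) hγ
    have h4 : transvection i j s * (diagonal b * h * zR γ)
        = diagonal b * (transvection i j s * h) * zR γ := by
      rw [← Matrix.mul_assoc, ← Matrix.mul_assoc, transv_comm s (hπij b hb)]
      simp only [Matrix.mul_assoc]
    show transvection i j s * (diagonal b * h * zR γ) ∈ M
    rw [h4]
    exact h3
  obtain ⟨Q, hQP, hQ⟩ := exists_minB hd0 π (abs_pos.2 hg) hν hPc ⟨h₂, hh₂, hw₂⟩ hPinv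
    (fun h hh => hMdet h hh.1) (fun h hh => hMnu h hh.1)
  obtain ⟨h, hh⟩ := hQ.ne
  refine ⟨j, hji, h, hMg (hQP hh).1, fun a ha haij hcl => ?_⟩
  have hcl' : diagonal a * h ∈ Q := by
    have h1 : closure (OrbB π h) ⊆ Q := by
      refine closure_minimal ?_ hQ.closed
      rintro _ ⟨b, γ, hb, hγ, rfl⟩
      exact hQ.inv h hh b γ hb hγ
    exact h1 hcl
  -- the set is invariant under a transversal element
  have hewQ : ∀ c, 0 < c → MinB π {x | diagonal (ew i j c⁻¹) * x ∈ Q} := by
    intro c hc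
    refine hQ.shift (m := diagonal (ew i j c)) (m' := diagonal (ew i j c⁻¹)) ?_ ?_ ?_ ?_
    · rw [ew_mul, mul_inv_cancel₀ hc.ne', ew_one]
    · rw [ew_mul, inv_mul_cancel₀ hc.ne', ew_one]
    · exact fun b _ => diag_comm _ _
    · exact fun b _ => diag_comm _ _
  have hsplit : ∀ b, BB id b → ∃ c, 0 < c ∧ c ^ 2 = b i / b j ∧ ∃ b', BB π b' ∧
      (diagonal b : Matrix (Fin d) (Fin d) ℝ) = diagonal (ew i j c) * diagonal b' := by
    intro b hb
    set c := Real.sqrt (b i / b j) with hc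
    have hpos : 0 < b i / b j := div_pos (hb.1 i) (hb.1 j)
    have hc0 : 0 < c := Real.sqrt_pos.2 hpos
    have hc2 : c ^ 2 = b i / b j := Real.sq_sqrt hpos.le
    have hinvB := ew_BB hij (inv_pos.2 hc0)
    refine ⟨c, hc0, hc2, fun l => ew i j c⁻¹ l * b l, ?_, ?_⟩
    · rw [hπ, pij_iff]
      refine ⟨(hinvB.mul hb).1, (hinvB.mul hb).2.1, ?_⟩
      simp only [ew, if_true, if_neg hij.symm, inv_inv]
      rw [inv_mul_eq_iff_eq_mul₀ hc0.ne', ← mul_assoc, ← pow_two, hc2,
        div_mul_cancel₀ _ (hb.1 j).ne']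
    · rw [← diagonal_mul_diagonal, ← Matrix.mul_assoc, ew_mul, mul_inv_cancel₀ hc0.ne', ew_one,
        Matrix.one_mul]
  obtain ⟨c₀, hc₀, hc₀2, b₀, hb₀, hab⟩ := hsplit a ha
  have hc₀1 : c₀ ≠ 1 := by
    intro h1
    rw [h1, one_pow] at hc₀2
    exact haij ((div_eq_one_iff_eq (ha.1 j).ne').1 hc₀2.symm)
  have hstep : ∀ x, x ∈ Q ↔ diagonal (ew i j c₀) * x ∈ Q := by
    have h1 : {x | diagonal (ew i j (c₀⁻¹)⁻¹) * x ∈ Q} = Q := by
      refine (hewQ c₀⁻¹ (inv_pos.2 hc₀)).eq_of_inter hQ ⟨diagonal b₀ * h, ?_, hQ.inv.diag hh hb₀⟩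
      show diagonal (ew i j (c₀⁻¹)⁻¹) * (diagonal b₀ * h) ∈ Q
      rw [inv_inv, ← Matrix.mul_assoc, ← hab]
      exact hcl'
    rw [inv_inv] at h1
    intro x
    constructor
    · intro hx
      have : x ∈ {x | diagonal (ew i j c₀) * x ∈ Q} := by rw [h1]; exact hx
      exact this
    · intro hx
      have : x ∈ {x | diagonal (ew i j c₀) * x ∈ Q} := hx
      rwa [h1] at this
  -- we may assume that the element expands
  obtain ⟨c₁, hc₁, hstep1⟩ : ∃ c₁ : ℝ, 1 < c₁ ∧ ∀ x, x ∈ Q ↔ diagonal (ew i j c₁) * x ∈ Q := by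
    rcases lt_or_gt_of_ne hc₀1 with h1 | h1
    · refine ⟨c₀⁻¹, (one_lt_inv₀ hc₀).2 h1, fun x => ?_⟩
      rw [hstep (diagonal (ew i j c₀⁻¹) * x), ← Matrix.mul_assoc, ew_mul,
        mul_inv_cancel₀ hc₀.ne', ew_one, Matrix.one_mul]
    · exact ⟨c₀, h1, hstep⟩
  have hc₁0 : 0 < c₁ := by linarith
  have hstepn : ∀ n : ℤ, ∀ x, x ∈ Q ↔ diagonal (ew i j (c₁ ^ n)) * x ∈ Q := by
    have hnat : ∀ n : ℕ, ∀ x, x ∈ Q ↔ diagonal (ew i j (c₁ ^ n)) * x ∈ Q := by
      intro n
      induction n with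
      | zero => intro x; rw [pow_zero, ew_one, Matrix.one_mul]
      | succ n ih =>
        intro x
        rw [hstep1 x, ih (diagonal (ew i j c₁) * x), ← Matrix.mul_assoc, ew_mul, pow_succ]
    intro n x
    rcases Int.eq_nat_or_neg n with ⟨m, rfl | rfl⟩
    · rw [zpow_natCast]; exact hnat m x
    · rw [hnat m (diagonal (ew i j (c₁ ^ (-(m : ℤ)))) * x), ← Matrix.mul_assoc, ew_mul,
        _root_.zpow_neg, zpow_natCast, mul_inv_cancel₀ (pow_pos hc₁0 m).ne', ew_one, Matrix.one_mul]
  -- the union of the translates is everything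
  set U : Set (Matrix (Fin d) (Fin d) ℝ) :=
    {x | ∃ c ∈ Set.Icc 1 c₁, diagonal (ew i j c⁻¹) * x ∈ Q} with hU
  have hUM : U = M := by
    refine hM.min U ?_ ?_ ?_ ?_
    · rintro x ⟨c, hc, hx⟩
      have hc0 : 0 < c := by linarith [hc.1]
      have h1 := hM.inv.diag (hQP hx).1 (ew_BB hij hc0)
      rwa [← Matrix.mul_assoc, ew_mul, mul_inv_cancel₀ hc0.ne', ew_one, Matrix.one_mul] at h1
    · refine IsSeqClosed.isClosed ?_
      intro xs x hxs hx
      choose c hc hcx using hxs
      obtain ⟨c', hc', φ, hφ, hlim⟩ := isCompact_Icc.tendsto_subseq hc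
      have hc'0 : c' ≠ 0 := by
        have := hc'.1
        intro h0
        rw [h0] at this
        linarith
      refine ⟨c', hc', ?_⟩
      have h1 : Tendsto (fun n => (diagonal (ew i j (c (φ n))⁻¹) : Matrix (Fin d) (Fin d) ℝ))
          atTop (𝓝 (diagonal (ew i j c'⁻¹))) := by
        have h2 : Tendsto (fun n => ew i j (c (φ n))⁻¹) atTop (𝓝 (ew i j c'⁻¹)) := by
          refine tendsto_pi_nhds.2 fun l => ?_
          simp only [ew, inv_inv]
          split_ifs
          · exact hlim.inv₀ hc'0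
          · exact hlim
          · exact tendsto_const_nhds
        have h6 : Continuous (fun c : Fin d → ℝ => (diagonal c : Matrix (Fin d) (Fin d) ℝ)) :=
          Continuous.matrix_diagonal continuous_id
        exact (h6.tendsto _).comp h2
      have h2 := h1.mul (hx.comp hφ.tendsto_atTop)
      exact hQ.closed.mem_of_tendsto h2 (Eventually.of_forall fun n => hcx (φ n))
    · exact ⟨h, 1, ⟨le_rfl, hc₁.le⟩, by
        show diagonal (ew i j 1⁻¹) * h ∈ Q
        rw [inv_one, ew_one, Matrix.one_mul]; exact hh⟩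
    · rintro x ⟨c, hc, hx⟩ b γ hb hγ
      have hc0 : 0 < c := by linarith [hc.1]
      obtain ⟨e, he, -, b', hb', hbb⟩ := hsplit b hb
      -- normalise the product `c * e`
      obtain ⟨n, hn1, hn2⟩ : ∃ n : ℤ, 1 ≤ c * e * c₁ ^ n ∧ c * e * c₁ ^ n ≤ c₁ := by
        obtain ⟨n, hn1, hn2⟩ := exists_mem_Ico_zpow (mul_pos hc0 he) hc₁
        refine ⟨-n, ?_, ?_⟩
        · rw [_root_.zpow_neg, ← div_eq_mul_inv, one_le_div (zpow_pos hc₁0 n)]
          exact hn1
        · rw [_root_.zpow_neg, ← div_eq_mul_inv, div_le_iff₀ (zpow_pos hc₁0 n)]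
          rw [zpow_add_one₀ hc₁0.ne'] at hn2
          linarith
      refine ⟨c * e * c₁ ^ n, ⟨hn1, hn2⟩, ?_⟩
      have h1 := hQ.inv _ hx b' γ hb' hγ
      have h2 := (hstepn (-n) _).1 h1
      have h3 : diagonal (ew i j (c * e * c₁ ^ n)⁻¹) * (diagonal b * x * zR γ)
          = diagonal (ew i j (c₁ ^ (-n))) * (diagonal b' * (diagonal (ew i j c⁻¹) * x) * zR γ) := by
        rw [hbb]
        have h4 : (diagonal (ew i j (c * e * c₁ ^ n)⁻¹) *
            (diagonal (ew i j e) * diagonal b') : Matrix (Fin d) (Fin d) ℝ)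
            = diagonal (ew i j (c₁ ^ (-n))) * (diagonal b' * diagonal (ew i j c⁻¹)) := by
          rw [diag_comm b', ← Matrix.mul_assoc, ← Matrix.mul_assoc, ew_mul, ew_mul]
          congr 3
          rw [_root_.zpow_neg]
          field_simp
        calc diagonal (ew i j (c * e * c₁ ^ n)⁻¹) * (diagonal (ew i j e) * diagonal b' * x * zR γ)
            = (diagonal (ew i j (c * e * c₁ ^ n)⁻¹) * (diagonal (ew i j e) * diagonal b'))
                * x * zR γ := by simp only [Matrix.mul_assoc]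
          _ = _ := by rw [h4]; simp only [Matrix.mul_assoc]
      rw [h3]
      exact h2
  -- the unipotent translate is one of the translates
  have hTQ : transvection i j s * h ∈ U := by rw [hUM]; exact (hQP hh).2
  obtain ⟨c, hc, hcT⟩ := hTQ
  have hc0 : 0 < c := by linarith [hc.1]
  have hTs : ∀ r : ℝ, MinB π {x | transvection i j (-r) * x ∈ Q} := by
    intro r
    refine hQ.shift (m := transvection i j r) (m' := transvection i j (-r)) ?_ ?_ ?_ ?_
    · rw [transvection_mul_transvection_same _ _ hij, add_neg_cancel, transvection_zero]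
    · rw [transvection_mul_transvection_same _ _ hij, neg_add_cancel, transvection_zero]
    · exact fun b hb => transv_comm _ (hπij b hb)
    · exact fun b hb => transv_comm _ (hπij b hb)
  have heq : {x | diagonal (ew i j c⁻¹) * x ∈ Q} = {x | transvection i j (-s) * x ∈ Q} := by
    refine (hewQ c hc0).eq_of_inter (hTs s) ⟨transvection i j s * h, hcT, ?_⟩
    show transvection i j (-s) * (transvection i j s * h) ∈ Q
    rw [← Matrix.mul_assoc, transvection_mul_transvection_same _ _ hij, neg_add_cancel,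
      transvection_zero, Matrix.one_mul]
    exact hh
  have hmemc : ∀ x ∈ Q, diagonal (ew i j c⁻¹) * (transvection i j s * x) ∈ Q := by
    intro x hx
    have h1 : transvection i j s * x ∈ {x | transvection i j (-s) * x ∈ Q} := by
      show transvection i j (-s) * (transvection i j s * x) ∈ Q
      rw [← Matrix.mul_assoc, transvection_mul_transvection_same _ _ hij, neg_add_cancel,
        transvection_zero, Matrix.one_mul]
      exact hx
    rw [← heq] at h1
    exact h1
  have hmemn : ∀ (n : ℕ), ∀ x ∈ Q,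
      diagonal (ew i j c⁻¹) * (transvection i j (s * ((c₁ ^ (-(n : ℤ)))) ^ 2) * x) ∈ Q := by
    intro n x hx
    have hp : (0 : ℝ) < c₁ ^ (-(n : ℤ)) := zpow_pos hc₁0 _
    -- `x = e(c₁ ^ (-n)) x'`
    have hx' : diagonal (ew i j (c₁ ^ (n : ℤ))) * x ∈ Q := (hstepn n x).1 hx
    have h1 := hmemc _ hx'
    have h2 := (hstepn (-(n : ℤ)) _).1 h1
    have h3 : diagonal (ew i j (c₁ ^ (-(n : ℤ)))) * (diagonal (ew i j c⁻¹) *
        (transvection i j s * (diagonal (ew i j (c₁ ^ (n : ℤ))) * x)))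
        = diagonal (ew i j c⁻¹) * (transvection i j (s * ((c₁ ^ (-(n : ℤ)))) ^ 2) * x) := by
      rw [← Matrix.mul_assoc, diag_comm, Matrix.mul_assoc]
      congr 1
      rw [← Matrix.mul_assoc, transv_ew hij _ hp.ne', Matrix.mul_assoc]
      congr 1
      rw [← Matrix.mul_assoc, ew_mul, ← zpow_add₀ hc₁0.ne', neg_add_cancel, zpow_zero, ew_one,
        Matrix.one_mul]
    rw [h3] at h2
    exact h2
  have hlimc : diagonal (ew i j c⁻¹) * h ∈ Q := by
    have hcont : Continuous (fun r : ℝ => diagonal (ew i j c⁻¹) *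
        ((transvection i j r : Matrix (Fin d) (Fin d) ℝ) * h)) := by
      have h2 : Continuous (fun r : ℝ => (transvection i j r : Matrix (Fin d) (Fin d) ℝ)) := by
        unfold transvection
        refine continuous_const.add ?_
        refine continuous_matrix fun k l => ?_
        simp only [Matrix.single_apply]
        split_ifs
        · exact continuous_id
        · exact continuous_const
      exact continuous_const.matrix_mul (h2.matrix_mul continuous_const)
    have h1 : Tendsto (fun n : ℕ => s * ((c₁ ^ (-(n : ℤ)))) ^ 2) atTop (𝓝 0) := by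
      have h2 : Tendsto (fun n : ℕ => (c₁⁻¹ ^ 2) ^ n) atTop (𝓝 0) := by
        refine tendsto_pow_atTop_nhds_zero_of_lt_one (by positivity) ?_
        exact pow_lt_one₀ (inv_pos.2 hc₁0).le (inv_lt_one_of_one_lt₀ hc₁) two_ne_zero
      have h3 := h2.const_mul s
      rw [mul_zero] at h3
      refine h3.congr fun n => ?_
      rw [_root_.zpow_neg, zpow_natCast, ← inv_pow, ← pow_mul, ← pow_mul, mul_comm 2 n]
    have h2 := (hcont.tendsto 0).comp h1
    simp only [transvection_zero, Matrix.one_mul] at h2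
    exact hQ.closed.mem_of_tendsto h2 (Eventually.of_forall fun n => hmemn n h hh)
  have hQc : {x | diagonal (ew i j c⁻¹) * x ∈ Q} = Q :=
    (hewQ c hc0).eq_of_inter hQ ⟨h, hlimc, hh⟩
  have hTmem : ∀ x ∈ Q, transvection i j s * x ∈ Q := by
    intro x hx
    have h1 : transvection i j s * x ∈ {x | diagonal (ew i j c⁻¹) * x ∈ Q} := hmemc x hx
    rwa [hQc] at h1
  refine no_unip hd0 (abs_pos.2 hg) hν hMdet hMnu hM.closed hM.inv hij hj (h := h) fun n => ?_
  have h1 : ∀ n : ℕ, transvection i j (n * s) * h ∈ Q := by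
    intro n
    induction n with
    | zero => rw [Nat.cast_zero, zero_mul, transvection_zero, Matrix.one_mul]; exact hh
    | succ n ih =>
      have h2 := hTmem _ ih
      rw [← Matrix.mul_assoc, transvection_mul_transvection_same _ _ hij] at h2
      have h3 : ((n + 1 : ℕ) : ℝ) * s = s + n * s := by push_cast; ring
      rw [h3]
      exact h2
  exact (hQP (h1 n)).1

end Pool.Agent.Y327
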