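import Mathlib
import Pool.Agent.Y327.Sizes
import Pool.Agent.Y327.Wall

/-! # The root directions of a minimal set -/

open Filter Topology Matrix

set_option linter.unusedSectionVars false

namespace Pool.Agent.Y327

open H715R2 RatSpan

variable {d : ℕ}

lemma diag_of_Dg {h : Matrix (Fin d) (Fin d) ℝ} {f : Module.End ℚ (Fin d → ℚ)} (hf : Dg h f) :
    h * kap f * h⁻¹ = diagonal (fun i => (h * kap f * h⁻¹) i i) := by
  ext i j
  by_cases hij : i = j
  · subst hij; rw [diagonal_apply_eq]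
  · rw [diagonal_apply_ne _ hij, hf i j hij]

/-- the symmetries form a field -/
theorem symA_isField (hd : 0 < d) {ν : ℝ} (hν : 0 < ν) {h : Matrix (Fin d) (Fin d) ℝ}
    (hnu : HasNu h ν) (hu : IsUnit h.det) : IsField (symA h hu) := by
  classical
  set i₀ : Fin d := ⟨0, hd⟩ with hi₀
  have hzero : ∀ f, Dg h f → (h * kap f * h⁻¹) i₀ i₀ = 0 → f = 0 := by
    intro f hf h0
    have h1 : h i₀ ᵥ* kap f = 0 := by
      have h2 := congrFun ((dg_iff hu).1 hf) i₀
      have h3 : (diagonal (fun i => (h * kap f * h⁻¹) i i) * h) i₀ = 0 := by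
        funext b
        rw [diagonal_mul, h0, zero_mul]
        rfl
      rw [h3] at h2
      exact h2
    apply end_ext
    intro a b
    have h2 : (fun a => f (Pi.single b 1) a) = (0 : Fin d → ℚ) := by
      refine row_ne_rat hν hnu i₀ _ ?_
      have h3 := congrFun h1 b
      rw [Pi.zero_apply] at h3
      rw [← h3]
      simp only [Matrix.mulVec, Matrix.vecMul, dotProduct, cR, kap_apply]
    exact congrFun h2 a
  have hmul : ∀ f, Dg h f → ∀ f', Dg h f' → (h * kap (f * f') * h⁻¹) i₀ i₀ =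
      (h * kap f * h⁻¹) i₀ i₀ * (h * kap f' * h⁻¹) i₀ i₀ := by
    intro f hf f' hf'
    rw [map_mul, conj_mul hu, diag_of_Dg hf, diag_of_Dg hf', diagonal_mul_diagonal,
      diagonal_apply_eq, diagonal_apply_eq, diagonal_apply_eq]
  have hcomm : ∀ f ∈ symA h hu, ∀ f' ∈ symA h hu, f * f' = f' * f := by
    intro f hf f' hf'
    have h1 : f * f' - f' * f = 0 := by
      refine hzero _ ((symA h hu).sub_mem ((symA h hu).mul_mem hf hf')
        ((symA h hu).mul_mem hf' hf)) ?_
      rw [map_sub, Matrix.mul_sub, Matrix.sub_mul, Matrix.sub_apply, hmul f hf f' hf',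
        hmul f' hf' f hf]
      ring
    exact sub_eq_zero.1 h1
  have hdom : ∀ a b : symA h hu, a * b = 0 → a = 0 ∨ b = 0 := by
    intro a b hab
    have h1 : (a : Module.End ℚ (Fin d → ℚ)) * b = 0 := congrArg Subtype.val hab
    have h2 := hmul a a.2 b b.2
    rw [h1, map_zero, Matrix.mul_zero, Matrix.zero_mul, Matrix.zero_apply] at h2
    rcases mul_eq_zero.1 h2.symm with h3 | h3
    · exact Or.inl (Subtype.ext (hzero a a.2 h3))
    · exact Or.inr (Subtype.ext (hzero b b.2 h3))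
  refine ⟨⟨0, 1, ?_⟩, fun a b => Subtype.ext (hcomm a a.2 b b.2), ?_⟩
  · intro h0
    have h1 : (0 : Module.End ℚ (Fin d → ℚ)) = 1 := congrArg Subtype.val h0
    have h2 := congrFun (LinearMap.congr_fun h1 (Pi.single i₀ 1)) i₀
    simp at h2
  · intro a ha
    exact exists_inv_of fun b hb => (hdom a b hb).resolve_left ha

/-- from one multiple of a root direction to all multiples -/
theorem all_multiples {M : Set (Matrix (Fin d) (Fin d) ℝ)} (hM : MinB id M) {i j : Fin d}
    (hij : i ≠ j) {s : ℝ} (hs : s ≠ 0) {h : Matrix (Fin d) (Fin d) ℝ} (hh : h ∈ M)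
    (hh' : transvection i j s * h ∈ M) (t : ℝ) : ∃ h' ∈ M, transvection i j t * h' ∈ M := by
  -- positive multiples
  have hpos : ∀ s t : ℝ, 0 < t / s → ∀ h ∈ M, transvection i j s * h ∈ M →
      ∃ h' ∈ M, transvection i j t * h' ∈ M := by
    intro s t hst h hh hh'
    have hs : s ≠ 0 := by
      intro h0
      rw [h0, div_zero] at hst
      exact lt_irrefl _ hst
    set c := Real.sqrt (t / s) with hc
    have hc0 : 0 < c := Real.sqrt_pos.2 hst
    have hc2 : c ^ 2 = t / s := Real.sq_sqrt hst.le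
    refine ⟨diagonal (ew i j c) * h, hM.inv.diag hh (ew_BB hij hc0), ?_⟩
    have h1 := hM.inv.diag hh' (ew_BB hij hc0)
    rw [← Matrix.mul_assoc, transv_ew hij s hc0.ne', hc2] at h1
    have h2 : s * (t / s) = t := by field_simp
    rw [h2, Matrix.mul_assoc] at h1
    exact h1
  rcases eq_or_ne t 0 with ht | ht
  · refine ⟨h, hh, ?_⟩
    rw [ht, transvection_zero, Matrix.one_mul]
    exact hh
  rcases lt_or_gt_of_ne (div_ne_zero ht hs) with h1 | h1
  · -- reverse the pair
    refine hpos (-s) t (by rw [div_neg]; linarith) (transvection i j s * h) hh' ?_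
    rw [← Matrix.mul_assoc, transvection_mul_transvection_same _ _ hij, neg_add_cancel,
      transvection_zero, Matrix.one_mul]
    exact hh
  · exact hpos s t h1 h hh hh'

lemma Md_eq_transvection (i j : Fin d) (s : ℝ) :
    Md {i} (fun _ l => if l = j then s else 0) = transvection i j s := by
  ext k l
  simp only [Md, transvection, Matrix.add_apply, Matrix.of_apply, Matrix.single_apply,
    Finset.mem_singleton]
  congr 1
  by_cases hki : k = i
  · by_cases hlj : l = j
    · rw [hki, hlj]; simp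
    · rw [if_pos hki, if_neg hlj, if_neg (fun h => hlj h.2.symm)]
  · rw [if_neg hki, if_neg (fun h => hki h.1.symm)]

/-- **Root directions inside the classes.** -/
theorem root_dir (hd : 3 ≤ d) {g : Matrix (Fin d) (Fin d) ℝ} (hg : g.det ≠ 0) {ν : ℝ}
    (hν : 0 < ν) (hnu : HasNu g ν) {M : Set (Matrix (Fin d) (Fin d) ℝ)}
    (hMg : M ⊆ closure (Orb g)) (hM : MinB id M) {h₀ : Matrix (Fin d) (Fin d) ℝ} (hh₀ : h₀ ∈ M)
    {i j : Fin d} (hij : i ≠ j) (hs : Sam h₀ i j) (t : ℝ) :
    ∃ h ∈ M, transvection i j t * h ∈ M := by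
  obtain ⟨ρ, hρ1, hρ2, hρj⟩ := exists_rep h₀ j
  obtain ⟨K, hK, W, Q, hSt⟩ := st_full hd hg hν hnu hMg hM hh₀ hρ1 hρ2
  have hρi : ρ i = j := by rw [hρ2 i j hs, hρj]
  obtain ⟨s, hs0, h, hh, hh'⟩ := hSt.edge i ((hK i).2 (by rw [hρi]; exact hij.symm))
  rw [hρi, Md_eq_transvection] at hh'
  exact all_multiples hM hij hs0 hh hh' t

/-- there are none between the classes -/
theorem no_root_dir (hd : 3 ≤ d) {g : Matrix (Fin d) (Fin d) ℝ} (hg : g.det ≠ 0) {ν : ℝ}
    (hν : 0 < ν) (hnu : HasNu g ν) {M : Set (Matrix (Fin d) (Fin d) ℝ)}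
    (hMg : M ⊆ closure (Orb g)) (hM : MinB id M) {h₀ : Matrix (Fin d) (Fin d) ℝ} (hh₀ : h₀ ∈ M)
    {i j : Fin d} (hs : ¬ Sam h₀ i j) {t : ℝ} (ht : t ≠ 0) {h : Matrix (Fin d) (Fin d) ℝ}
    (hh : h ∈ M) : transvection i j t * h ∉ M := by
  intro hh'
  have hV : 0 < |g.det| := abs_pos.2 hg
  have hMdet : ∀ h ∈ M, |h.det| = |g.det| := fun h hh => abs_det_closure (hMg hh)
  have hMnu : ∀ h ∈ M, HasNu h ν := fun h hh => hasNu_closure hnu (hMg hh)
  rw [← Md_eq_transvection] at hh'
  have h1 := sam_of_pair (by omega) hV hν hMdet hMnu hM hh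
    (w := fun l => if l = j then t else 0) hh' (l := j) (by simpa using ht)
  exact hs (sam_transfer hV hMdet hM hh₀ hh h1)

end Pool.Agent.Y327
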