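import Mathlib
import Pool.Agent.Y327.Root
import Pool.Agent.H905R2.OppD

/-! # The full cube, for every system of representatives -/

open Filter Topology Matrix

set_option linter.unusedSectionVars false

namespace Pool.Agent.Y327

open H715R2 RatSpan

variable {d : ℕ}

/-- a form with an irreducible RS-matrix is proportional to an integral form -/
theorem propInt_of_opp (hd : 3 ≤ d) {g : Matrix (Fin d) (Fin d) ℝ} (hg : g.det ≠ 0) {ν : ℝ}
    (hν : 0 < ν) (hnu : HasNu g ν) {A : Matrix (Fin d) (Fin d) ℤ}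
    (hirr : Irreducible (A.charpoly.map (Int.castRingHom ℚ)))
    (hinv : ∀ i : Fin d, ∀ x : Fin d → ℝ, ∑ j, g i j * x j = 0 →
      ∑ j, g i j * ((A.map (Int.cast : ℤ → ℝ)).mulVec x) j = 0) : PropInt g := by
  obtain ⟨lam, hlam, hAg⟩ := eig_of_opp hg hirr hinv
  obtain ⟨K', hfin, hrank, s, hs, hmem⟩ := exists_alg_row hg A lam hlam hAg ⟨0, by omega⟩
  rcases limit_alg hd hg (subset_closure (mem_orb_self g)) ⟨0, by omega⟩ s hs K' hrank hmem with
    h2 | h2 | h2
  · obtain ⟨x, hx, hx0⟩ := h2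
    have h3 := hnu x hx
    have h4 : (g.mulVec (iR x)) ⟨0, by omega⟩ = 0 := hx0
    rw [FF_eq, Finset.prod_eq_zero (Finset.mem_univ _) h4, abs_zero] at h3
    exact absurd h3 (not_le.2 hν)
  · exact h2
  · obtain ⟨x, hx, hx1⟩ := dense_ne (by omega) h2 0 ν hν
    rw [sub_zero] at hx1
    exact absurd (hnu x hx) (not_le.2 hx1)

/-- limits of a counterexample are counterexamples -/
theorem not_propInt_closure (hd : 3 ≤ d) {g : Matrix (Fin d) (Fin d) ℝ} (hg : g.det ≠ 0) {ν : ℝ}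
    (hν : 0 < ν) (hnu : HasNu g ν) (hint : ¬ PropInt g) {h : Matrix (Fin d) (Fin d) ℝ}
    (hh : h ∈ closure (Orb g)) : ¬ PropInt h := by
  intro hP
  have hdet : |h.det| = |g.det| := abs_det_closure hh
  have hdet0 : h.det ≠ 0 := by
    rw [← abs_ne_zero, hdet, abs_ne_zero]; exact hg
  obtain ⟨A, -, hA1, -, hA2⟩ := Pool.Agent.H905R2.Opp.oppA _ (by omega) hdet0 hP (by
    intro p hp h0
    have h2 := hasNu_closure hnu hh p hp
    rw [h0, abs_zero] at h2
    exact absurd h2 (not_le.2 hν))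
  obtain ⟨lam, hlam, hAg⟩ := eig_of_opp hdet0 hA1 hA2
  obtain ⟨K', hfin, hrank, s, hs, hmem⟩ := exists_alg_row hdet0 A lam hlam hAg ⟨0, by omega⟩
  rcases limit_alg hd hg hh ⟨0, by omega⟩ s hs K' hrank hmem with h2 | h2 | h2
  · obtain ⟨x, hx, hx0⟩ := h2
    have h3 := hasNu_closure hnu hh x hx
    have h4 : (h.mulVec (iR x)) ⟨0, by omega⟩ = 0 := hx0
    rw [FF_eq, Finset.prod_eq_zero (Finset.mem_univ _) h4, abs_zero] at h3
    exact absurd h3 (not_le.2 hν)
  · exact hint h2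
  · obtain ⟨x, hx, hx1⟩ := dense_ne (by omega) h2 0 ν hν
    rw [sub_zero] at hx1
    exact absurd (hnu x hx) (not_le.2 hx1)

/-- **The structure of a counterexample.** -/
theorem exists_classes (hd : 3 ≤ d) {g : Matrix (Fin d) (Fin d) ℝ} (hg : g.det ≠ 0) {ν : ℝ}
    (hν : 0 < ν) (hnu : HasNu g ν) (hint : ¬ PropInt g) :
    ∃ (s : ℕ) (c : Fin d → Fin d), 1 < s ∧ s ∣ d ∧ (∀ i, Nat.card {j // c j = c i} = s) ∧
      (∀ i j, i ≠ j → c i = c j → ∀ t : ℝ,
        ∃ h ∈ closure (Orb g), transvection i j t * h ∈ closure (Orb g)) ∧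
      ∀ R : Finset (Fin d), (∀ i, ∃! k, k ∈ R ∧ c k = c i) →
        ∃ h ∈ closure (Orb g), ∃ W : Fin d → Fin d → ℝ,
          (∀ k, k ∉ R → W k k = 0 ∧ W k ≠ 0 ∧ ∀ l, W k l ≠ 0 → c l = c k) ∧
          ∀ S : Finset (Fin d), (∀ k ∈ S, k ∉ R) → Md S W * h ∈ closure (Orb g) := by
  classical
  have hd0 : 0 < d := by omega
  obtain ⟨M, hMg, hM⟩ := exists_minB hd0 id (abs_pos.2 hg) hν isClosed_closure
    ⟨g, subset_closure (mem_orb_self g)⟩
    (fun h hh a γ ha hγ => closure_mul hh ha.1 ha.2.1 hγ) (fun h hh => abs_det_closure hh)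
    (fun h hh => hasNu_closure hnu hh)
  obtain ⟨h₀, hh₀⟩ := hM.ne
  have hu : IsUnit h₀.det := by
    rw [isUnit_iff_ne_zero, ← abs_ne_zero, abs_det_closure (hMg hh₀), abs_ne_zero]
    exact hg
  obtain ⟨s, hs1, hs2⟩ := class_sizes hd hg hν hnu hMg hM hh₀ hu
  obtain ⟨c, hc1, hc2, -⟩ := exists_rep h₀ ⟨0, hd0⟩
  have hcs : ∀ i j, c i = c j ↔ Sam h₀ i j := by
    intro i j
    refine ⟨fun h => ?_, hc2 i j⟩
    have h1 := hc1 i
    rw [h] at h1
    exact h1.trans (hc1 j).symm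
  have hcard : ∀ i, Nat.card {j // c j = c i} = s := by
    intro i
    rw [← hs2 i]
    refine Nat.card_congr (Equiv.subtypeEquivRight fun j => ?_)
    rw [hcs]
    exact ⟨Sam.symm, Sam.symm⟩
  refine ⟨s, c, ?_, ⟨_, hs1.symm⟩, hcard, ?_, ?_⟩
  · set i₀ : Fin d := ⟨0, hd0⟩ with hi₀
    obtain ⟨j, hji, hj⟩ := class_nontrivial hd hg hν hnu hint hMg hM hh₀ i₀
    rw [← hs2 i₀, Nat.card_eq_fintype_card, Fintype.one_lt_card_iff]
    exact ⟨⟨i₀, Sam.refl _ _⟩, ⟨j, hj⟩, fun h => hji (congrArg Subtype.val h).symm⟩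
  · intro i j hij hc t
    obtain ⟨h, hh, hh'⟩ := root_dir hd hg hν hnu hMg hM hh₀ hij ((hcs i j).1 hc) t
    exact ⟨h, hMg hh, hMg hh'⟩
  · intro R hR
    choose ρ hρ using fun i => (hR i).exists
    have hρu : ∀ i k, k ∈ R → c k = c i → k = ρ i := fun i k hk hc =>
      (hR i).unique ⟨hk, hc⟩ (hρ i)
    have hρ1 : ∀ l, Sam h₀ l (ρ l) := fun l => (hcs _ _).1 (hρ l).2.symm
    have hρ2 : ∀ l m, Sam h₀ l m → ρ l = ρ m := fun l m hlm =>
      hρu m (ρ l) (hρ l).1 ((hρ l).2.trans (hc2 l m hlm))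
    have hR' : ∀ l, l ∈ R ↔ ρ l = l := by
      intro l
      constructor
      · intro hl
        exact (hρu l l hl rfl).symm
      · intro hl
        rw [← hl]
        exact (hρ l).1
    obtain ⟨K, hK, W, Q, hSt⟩ := st_full hd hg hν hnu hMg hM hh₀ hρ1 hρ2
    obtain ⟨h, hh⟩ := hSt.ne
    have hKR : ∀ l, l ∈ K ↔ l ∉ R := fun l => by rw [hK, hR']
    have hpK : ∀ l, pK ρ K l = ρ l := by
      intro l
      unfold pK
      split_ifs with hl
      · rfl
      · rw [hKR, not_not, hR'] at hl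
        exact hl.symm
    refine ⟨h, ?_, W, fun k hk => ?_, fun S hS => hMg (hSt.cube h hh S fun k hk =>
      (hKR k).2 (hS k hk))⟩
    · have h1 := hSt.cube h hh ∅ (Finset.empty_subset _)
      rw [Md_empty, Matrix.one_mul] at h1
      exact hMg h1
    · obtain ⟨h1, h2, h3⟩ := hSt.supp k ((hKR k).2 hk)
      refine ⟨h1, h2, fun l hl => ?_⟩
      have h4 := h3 l hl
      rw [hpK, hpK] at h4
      rw [← (hρ l).2, ← (hρ k).2, h4]

/-- the number of indices which are not representatives -/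
lemma card_reps {s : ℕ} {c : Fin d → Fin d} (hs : 1 < s) (hsd : s ∣ d)
    (hc : ∀ i, Nat.card {j // c j = c i} = s) {R : Finset (Fin d)}
    (hR : ∀ i, ∃! k, k ∈ R ∧ c k = c i) : R.card * s = d := by
  classical
  have h1 : (Finset.univ : Finset (Fin d)).card = ∑ k ∈ R, s := by
    choose ρ hρ using fun i => (hR i).exists
    have hρu : ∀ i k, k ∈ R → c k = c i → k = ρ i := fun i k hk hc =>
      (hR i).unique ⟨hk, hc⟩ (hρ i)
    rw [Finset.card_eq_sum_card_fiberwise (f := ρ) (t := R) (fun i _ => (hρ i).1)]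
    refine Finset.sum_congr rfl fun k hk => ?_
    rw [← hc k, Nat.card_eq_fintype_card, Fintype.card_subtype]
    congr 1
    ext i
    simp only [Finset.mem_filter, Finset.mem_univ, true_and]
    constructor
    · intro h
      rw [← h]
      exact (hρ i).2.symm
    · intro h
      exact (hρu i k hk h.symm).symm
  rw [Finset.sum_const, Finset.card_univ, Fintype.card_fin, smul_eq_mul] at h1
  exact h1.symm

/-- a system of representatives -/
lemma exists_reps (c : Fin d → Fin d) : ∃ R : Finset (Fin d), ∀ i, ∃! k, k ∈ R ∧ c k = c i := by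
  classical
  choose f hf using fun b : Set.range c => b.2
  refine ⟨Finset.univ.image f, fun i => ⟨f ⟨c i, i, rfl⟩, ⟨?_, hf _⟩, ?_⟩⟩
  · exact Finset.mem_image_of_mem _ (Finset.mem_univ _)
  · rintro k ⟨hk, hck⟩
    obtain ⟨b, -, rfl⟩ := Finset.mem_image.1 hk
    rw [hf] at hck
    congr 1
    exact Subtype.ext hck

end Pool.Agent.Y327
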