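import Mathlib
import Pool.Agent.Y327.Root
import Pool.Agent.H715R2.Units

/-! # Wall recurrence and the classes -/

open Filter Topology Matrix NumberField

set_option linter.unusedSectionVars false

namespace Pool.Agent.Y327

open H715R2

variable {d : ℕ}

/-- **A root direction gives a point which is not recurrent under the wall.** -/
theorem wall_of_pair (hd0 : 0 < d) {V ν : ℝ} (hV : 0 < V) (hν : 0 < ν)
    {M : Set (Matrix (Fin d) (Fin d) ℝ)} (hMdet : ∀ h ∈ M, |h.det| = V)
    (hMnu : ∀ h ∈ M, HasNu h ν) (hM : MinB id M) {i j : Fin d} (hij : i ≠ j) {s : ℝ}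
    (hj : s ≠ 0) {h₂ : Matrix (Fin d) (Fin d) ℝ} (hh₂ : h₂ ∈ M)
    (hw₂ : transvection i j s * h₂ ∈ M) :
    ∃ h ∈ M, ∀ a, BB id a → a i ≠ a j →
      diagonal a * h ∉ closure (OrbB (pij i j) h) := by
  classical
  set π := pij i j with hπ
  have hπid : ∀ b, BB π b → BB id b := fun b hb =>
    ⟨hb.1, hb.2.1, fun l m hlm => by rw [show l = m from hlm]⟩
  have hπij : ∀ b, BB π b → b i = b j := fun b hb => (pij_iff.1 hb).2.2
  set P : Set (Matrix (Fin d) (Fin d) ℝ) := {h | h ∈ M ∧ transvection i j s * h ∈ M} with hP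
  have hPc : IsClosed P :=
    hM.closed.inter (hM.closed.preimage (continuous_const.matrix_mul continuous_id))
  have hPinv : InvB π P := by
    rintro h ⟨h1, h2⟩ b γ hb hγ
    refine ⟨hM.inv h h1 b γ (hπid b hb) hγ, ?_⟩
    have h3 := hM.inv _ h2 b γ (hπid b hb) hγ
    have h4 : transvection i j s * (diagonal b * h * zR γ)
        = diagonal b * (transvection i j s * h) * zR γ := by
      rw [← Matrix.mul_assoc, ← Matrix.mul_assoc, transv_comm s (hπij b hb)]
      simp only [Matrix.mul_assoc]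
    show transvection i j s * (diagonal b * h * zR γ) ∈ M
    rw [h4]
    exact h3
  obtain ⟨Q, hQP, hQ⟩ := exists_minB hd0 π hV hν hPc ⟨h₂, hh₂, hw₂⟩ hPinv
    (fun h hh => hMdet h hh.1) (fun h hh => hMnu h hh.1)
  obtain ⟨h, hh⟩ := hQ.ne
  refine ⟨h, (hQP hh).1, fun a ha haij hcl => ?_⟩
  have hcl' : diagonal a * h ∈ Q := by
    have h1 : closure (OrbB π h) ⊆ Q := by
      refine closure_minimal ?_ hQ.closed
      rintro _ ⟨b, γ, hb, hγ, rfl⟩
      exact hQ.inv h hh b γ hb hγ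
    exact h1 hcl
  -- the set is invariant under a transversal element
  have hewQ : ∀ c, 0 < c → MinB π {x | diagonal (ew i j c⁻¹) * x ∈ Q} := by
    intro c hc
    refine hQ.shift (m := diagonal (ew i j c)) (m' := diagonal (ew i j c⁻¹)) ?_ ?_ ?_ ?_
    · rw [ew_mul, mul_inv_cancel₀ hc.ne', ew_one]
    · rw [ew_mul, inv_mul_cancel₀ hc.ne', ew_one]
    · exact fun b _ => diag_comm _ _
    · exact fun b _ => diag_comm _ _
  have hsplit : ∀ b, BB id b → ∃ c, 0 < c ∧ c ^ 2 = b i / b j ∧ ∃ b', BB π b' ∧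
      (diagonal b : Matrix (Fin d) (Fin d) ℝ) = diagonal (ew i j c) * diagonal b' := by
    intro b hb
    set c := Real.sqrt (b i / b j) with hc
    have hpos : 0 < b i / b j := div_pos (hb.1 i) (hb.1 j)
    have hc0 : 0 < c := Real.sqrt_pos.2 hpos
    have hc2 : c ^ 2 = b i / b j := Real.sq_sqrt hpos.le
    have hinvB := ew_BB hij (inv_pos.2 hc0)
    refine ⟨c, hc0, hc2, fun l => ew i j c⁻¹ l * b l, ?_, ?_⟩
    · rw [hπ, pij_iff]
      refine ⟨(hinvB.mul hb).1, (hinvB.mul hb).2.1, ?_⟩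
      simp only [ew, if_true, if_neg hij.symm, inv_inv]
      rw [inv_mul_eq_iff_eq_mul₀ hc0.ne', ← mul_assoc, ← pow_two, hc2,
        div_mul_cancel₀ _ (hb.1 j).ne']
    · rw [← diagonal_mul_diagonal, ← Matrix.mul_assoc, ew_mul, mul_inv_cancel₀ hc0.ne', ew_one,
        Matrix.one_mul]
  obtain ⟨c₀, hc₀, hc₀2, b₀, hb₀, hab⟩ := hsplit a ha
  have hc₀1 : c₀ ≠ 1 := by
    intro h1
    rw [h1, one_pow] at hc₀2
    exact haij ((div_eq_one_iff_eq (ha.1 j).ne').1 hc₀2.symm)
  have hstep : ∀ x, x ∈ Q ↔ diagonal (ew i j c₀) * x ∈ Q := by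
    have h1 : {x | diagonal (ew i j (c₀⁻¹)⁻¹) * x ∈ Q} = Q := by
      refine (hewQ c₀⁻¹ (inv_pos.2 hc₀)).eq_of_inter hQ ⟨diagonal b₀ * h, ?_, hQ.inv.diag hh hb₀⟩
      show diagonal (ew i j (c₀⁻¹)⁻¹) * (diagonal b₀ * h) ∈ Q
      rw [inv_inv, ← Matrix.mul_assoc, ← hab]
      exact hcl'
    rw [inv_inv] at h1
    intro x
    constructor
    · intro hx
      have : x ∈ {x | diagonal (ew i j c₀) * x ∈ Q} := by rw [h1]; exact hx
      exact this
    · intro hx
      have : x ∈ {x | diagonal (ew i j c₀) * x ∈ Q} := hx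
      rwa [h1] at this
  -- we may assume that the element expands
  obtain ⟨c₁, hc₁, hstep1⟩ : ∃ c₁ : ℝ, 1 < c₁ ∧ ∀ x, x ∈ Q ↔ diagonal (ew i j c₁) * x ∈ Q := by
    rcases lt_or_gt_of_ne hc₀1 with h1 | h1
    · refine ⟨c₀⁻¹, (one_lt_inv₀ hc₀).2 h1, fun x => ?_⟩
      rw [hstep (diagonal (ew i j c₀⁻¹) * x), ← Matrix.mul_assoc, ew_mul,
        mul_inv_cancel₀ hc₀.ne', ew_one, Matrix.one_mul]
    · exact ⟨c₀, h1, hstep⟩
  have hc₁0 : 0 < c₁ := by linarith
  have hstepn : ∀ n : ℤ, ∀ x, x ∈ Q ↔ diagonal (ew i j (c₁ ^ n)) * x ∈ Q := by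
    have hnat : ∀ n : ℕ, ∀ x, x ∈ Q ↔ diagonal (ew i j (c₁ ^ n)) * x ∈ Q := by
      intro n
      induction n with
      | zero => intro x; rw [pow_zero, ew_one, Matrix.one_mul]
      | succ n ih =>
        intro x
        rw [hstep1 x, ih (diagonal (ew i j c₁) * x), ← Matrix.mul_assoc, ew_mul, pow_succ]
    intro n x
    rcases Int.eq_nat_or_neg n with ⟨m, rfl | rfl⟩
    · rw [zpow_natCast]; exact hnat m x
    · rw [hnat m (diagonal (ew i j (c₁ ^ (-(m : ℤ)))) * x), ← Matrix.mul_assoc, ew_mul,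
        _root_.zpow_neg, zpow_natCast, mul_inv_cancel₀ (pow_pos hc₁0 m).ne', ew_one, Matrix.one_mul]
  -- the union of the translates is everything
  set U : Set (Matrix (Fin d) (Fin d) ℝ) :=
    {x | ∃ c ∈ Set.Icc 1 c₁, diagonal (ew i j c⁻¹) * x ∈ Q} with hU
  have hUM : U = M := by
    refine hM.min U ?_ ?_ ?_ ?_
    · rintro x ⟨c, hc, hx⟩
      have hc0 : 0 < c := by linarith [hc.1]
      have h1 := hM.inv.diag (hQP hx).1 (ew_BB hij hc0)
      rwa [← Matrix.mul_assoc, ew_mul, mul_inv_cancel₀ hc0.ne', ew_one, Matrix.one_mul] at h1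
    · refine IsSeqClosed.isClosed ?_
      intro xs x hxs hx
      choose c hc hcx using hxs
      obtain ⟨c', hc', φ, hφ, hlim⟩ := isCompact_Icc.tendsto_subseq hc
      have hc'0 : c' ≠ 0 := by
        have := hc'.1
        intro h0
        rw [h0] at this
        linarith
      refine ⟨c', hc', ?_⟩
      have h1 : Tendsto (fun n => (diagonal (ew i j (c (φ n))⁻¹) : Matrix (Fin d) (Fin d) ℝ))
          atTop (𝓝 (diagonal (ew i j c'⁻¹))) := by
        have h2 : Tendsto (fun n => ew i j (c (φ n))⁻¹) atTop (𝓝 (ew i j c'⁻¹)) := by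
          refine tendsto_pi_nhds.2 fun l => ?_
          simp only [ew, inv_inv]
          split_ifs
          · exact hlim.inv₀ hc'0
          · exact hlim
          · exact tendsto_const_nhds
        have h6 : Continuous (fun c : Fin d → ℝ => (diagonal c : Matrix (Fin d) (Fin d) ℝ)) :=
          Continuous.matrix_diagonal continuous_id
        exact (h6.tendsto _).comp h2
      have h2 := h1.mul (hx.comp hφ.tendsto_atTop)
      exact hQ.closed.mem_of_tendsto h2 (Eventually.of_forall fun n => hcx (φ n))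
    · exact ⟨h, 1, ⟨le_rfl, hc₁.le⟩, by
        show diagonal (ew i j 1⁻¹) * h ∈ Q
        rw [inv_one, ew_one, Matrix.one_mul]; exact hh⟩
    · rintro x ⟨c, hc, hx⟩ b γ hb hγ
      have hc0 : 0 < c := by linarith [hc.1]
      obtain ⟨e, he, -, b', hb', hbb⟩ := hsplit b hb
      -- normalise the product `c * e`
      obtain ⟨n, hn1, hn2⟩ : ∃ n : ℤ, 1 ≤ c * e * c₁ ^ n ∧ c * e * c₁ ^ n ≤ c₁ := by
        obtain ⟨n, hn1, hn2⟩ := exists_mem_Ico_zpow (mul_pos hc0 he) hc₁
        refine ⟨-n, ?_, ?_⟩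
        · rw [_root_.zpow_neg, ← div_eq_mul_inv, one_le_div (zpow_pos hc₁0 n)]
          exact hn1
        · rw [_root_.zpow_neg, ← div_eq_mul_inv, div_le_iff₀ (zpow_pos hc₁0 n)]
          rw [zpow_add_one₀ hc₁0.ne'] at hn2
          linarith
      refine ⟨c * e * c₁ ^ n, ⟨hn1, hn2⟩, ?_⟩
      have h1 := hQ.inv _ hx b' γ hb' hγ
      have h2 := (hstepn (-n) _).1 h1
      have h3 : diagonal (ew i j (c * e * c₁ ^ n)⁻¹) * (diagonal b * x * zR γ)
          = diagonal (ew i j (c₁ ^ (-n))) * (diagonal b' * (diagonal (ew i j c⁻¹) * x) * zR γ) := by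
        rw [hbb]
        have h4 : (diagonal (ew i j (c * e * c₁ ^ n)⁻¹) *
            (diagonal (ew i j e) * diagonal b') : Matrix (Fin d) (Fin d) ℝ)
            = diagonal (ew i j (c₁ ^ (-n))) * (diagonal b' * diagonal (ew i j c⁻¹)) := by
          rw [diag_comm b', ← Matrix.mul_assoc, ← Matrix.mul_assoc, ew_mul, ew_mul]
          congr 3
          rw [_root_.zpow_neg]
          field_simp
        calc diagonal (ew i j (c * e * c₁ ^ n)⁻¹) * (diagonal (ew i j e) * diagonal b' * x * zR γ)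
            = (diagonal (ew i j (c * e * c₁ ^ n)⁻¹) * (diagonal (ew i j e) * diagonal b'))
                * x * zR γ := by simp only [Matrix.mul_assoc]
          _ = _ := by rw [h4]; simp only [Matrix.mul_assoc]
      rw [h3]
      exact h2
  -- the unipotent translate is one of the translates
  have hTQ : transvection i j s * h ∈ U := by rw [hUM]; exact (hQP hh).2
  obtain ⟨c, hc, hcT⟩ := hTQ
  have hc0 : 0 < c := by linarith [hc.1]
  have hTs : ∀ r : ℝ, MinB π {x | transvection i j (-r) * x ∈ Q} := by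
    intro r
    refine hQ.shift (m := transvection i j r) (m' := transvection i j (-r)) ?_ ?_ ?_ ?_
    · rw [transvection_mul_transvection_same _ _ hij, add_neg_cancel, transvection_zero]
    · rw [transvection_mul_transvection_same _ _ hij, neg_add_cancel, transvection_zero]
    · exact fun b hb => transv_comm _ (hπij b hb)
    · exact fun b hb => transv_comm _ (hπij b hb)
  have heq : {x | diagonal (ew i j c⁻¹) * x ∈ Q} = {x | transvection i j (-s) * x ∈ Q} := by
    refine (hewQ c hc0).eq_of_inter (hTs s) ⟨transvection i j s * h, hcT, ?_⟩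
    show transvection i j (-s) * (transvection i j s * h) ∈ Q
    rw [← Matrix.mul_assoc, transvection_mul_transvection_same _ _ hij, neg_add_cancel,
      transvection_zero, Matrix.one_mul]
    exact hh
  have hmemc : ∀ x ∈ Q, diagonal (ew i j c⁻¹) * (transvection i j s * x) ∈ Q := by
    intro x hx
    have h1 : transvection i j s * x ∈ {x | transvection i j (-s) * x ∈ Q} := by
      show transvection i j (-s) * (transvection i j s * x) ∈ Q
      rw [← Matrix.mul_assoc, transvection_mul_transvection_same _ _ hij, neg_add_cancel,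
        transvection_zero, Matrix.one_mul]
      exact hx
    rw [← heq] at h1
    exact h1
  have hmemn : ∀ (n : ℕ), ∀ x ∈ Q,
      diagonal (ew i j c⁻¹) * (transvection i j (s * ((c₁ ^ (-(n : ℤ)))) ^ 2) * x) ∈ Q := by
    intro n x hx
    have hp : (0 : ℝ) < c₁ ^ (-(n : ℤ)) := zpow_pos hc₁0 _
    -- `x = e(c₁ ^ (-n)) x'`
    have hx' : diagonal (ew i j (c₁ ^ (n : ℤ))) * x ∈ Q := (hstepn n x).1 hx
    have h1 := hmemc _ hx'
    have h2 := (hstepn (-(n : ℤ)) _).1 h1
    have h3 : diagonal (ew i j (c₁ ^ (-(n : ℤ)))) * (diagonal (ew i j c⁻¹) *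
        (transvection i j s * (diagonal (ew i j (c₁ ^ (n : ℤ))) * x)))
        = diagonal (ew i j c⁻¹) * (transvection i j (s * ((c₁ ^ (-(n : ℤ)))) ^ 2) * x) := by
      rw [← Matrix.mul_assoc, diag_comm, Matrix.mul_assoc]
      congr 1
      rw [← Matrix.mul_assoc, transv_ew hij _ hp.ne', Matrix.mul_assoc]
      congr 1
      rw [← Matrix.mul_assoc, ew_mul, ← zpow_add₀ hc₁0.ne', neg_add_cancel, zpow_zero, ew_one,
        Matrix.one_mul]
    rw [h3] at h2
    exact h2
  have hlimc : diagonal (ew i j c⁻¹) * h ∈ Q := by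
    have hcont : Continuous (fun r : ℝ => diagonal (ew i j c⁻¹) *
        ((transvection i j r : Matrix (Fin d) (Fin d) ℝ) * h)) := by
      have h2 : Continuous (fun r : ℝ => (transvection i j r : Matrix (Fin d) (Fin d) ℝ)) := by
        unfold transvection
        refine continuous_const.add ?_
        refine continuous_matrix fun k l => ?_
        simp only [Matrix.single_apply]
        split_ifs
        · exact continuous_id
        · exact continuous_const
      exact continuous_const.matrix_mul (h2.matrix_mul continuous_const)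
    have h1 : Tendsto (fun n : ℕ => s * ((c₁ ^ (-(n : ℤ)))) ^ 2) atTop (𝓝 0) := by
      have h2 : Tendsto (fun n : ℕ => (c₁⁻¹ ^ 2) ^ n) atTop (𝓝 0) := by
        refine tendsto_pow_atTop_nhds_zero_of_lt_one (by positivity) ?_
        exact pow_lt_one₀ (inv_pos.2 hc₁0).le (inv_lt_one_of_one_lt₀ hc₁) two_ne_zero
      have h3 := h2.const_mul s
      rw [mul_zero] at h3
      refine h3.congr fun n => ?_
      rw [_root_.zpow_neg, zpow_natCast, ← inv_pow, ← pow_mul, ← pow_mul, mul_comm 2 n]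
    have h2 := (hcont.tendsto 0).comp h1
    simp only [transvection_zero, Matrix.one_mul] at h2
    exact hQ.closed.mem_of_tendsto h2 (Eventually.of_forall fun n => hmemn n h hh)
  have hQc : {x | diagonal (ew i j c⁻¹) * x ∈ Q} = Q :=
    (hewQ c hc0).eq_of_inter hQ ⟨h, hlimc, hh⟩
  have hTmem : ∀ x ∈ Q, transvection i j s * x ∈ Q := by
    intro x hx
    have h1 : transvection i j s * x ∈ {x | diagonal (ew i j c⁻¹) * x ∈ Q} := hmemc x hx
    rwa [hQc] at h1
  refine no_unip hd0 hV hν hMdet hMnu hM.closed hM.inv hij hj (h := h) fun n => ?_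
  have h1 : ∀ n : ℕ, transvection i j (n * s) * h ∈ Q := by
    intro n
    induction n with
    | zero => rw [Nat.cast_zero, zero_mul, transvection_zero, Matrix.one_mul]; exact hh
    | succ n ih =>
      have h2 := hTmem _ ih
      rw [← Matrix.mul_assoc, transvection_mul_transvection_same _ _ hij] at h2
      have h3 : ((n + 1 : ℕ) : ℝ) * s = s + n * s := by push_cast; ring
      rw [h3]
      exact h2
  exact (hQP (h1 n)).1

/-- **Units separate the classes.** -/
theorem unit_separates (hd : 0 < d) {ν : ℝ} (hν : 0 < ν) {h : Matrix (Fin d) (Fin d) ℝ}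
    (hnu : HasNu h ν) (hu : IsUnit h.det) {i j : Fin d} (hij : ¬ Sam h i j) :
    ∃ (D : Fin d → ℝ) (σ : Matrix (Fin d) (Fin d) ℤ), (∀ l, 0 < D l) ∧ ∏ l, D l = 1 ∧
      D i ≠ D j ∧ h * zR σ = diagonal D * h := by
  classical
  have hfield := symA_isField hd hν hnu hu
  obtain ⟨K, iF, iN, ι, hι⟩ := exists_numberField (symA h hu) hfield
  have hDg : ∀ x, Dg h (ι x) := fun x => (hι _).2 ⟨x, rfl⟩
  have hmul : ∀ l, ∀ f, Dg h f → ∀ f', Dg h f' → (h * kap (f * f') * h⁻¹) l l =
      (h * kap f * h⁻¹) l l * (h * kap f' * h⁻¹) l l := by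
    intro l f hf f' hf'
    rw [map_mul, conj_mul hu, diag_of_Dg hf, diag_of_Dg hf', diagonal_mul_diagonal,
      diagonal_apply_eq, diagonal_apply_eq, diagonal_apply_eq]
  let χ : Fin d → K →+* ℝ := fun l =>
    { toFun := fun x => (h * kap (ι x) * h⁻¹) l l
      map_one' := by
        show (h * kap (ι 1) * h⁻¹) l l = 1
        rw [map_one, map_one, Matrix.mul_one, Matrix.mul_nonsing_inv _ hu, Matrix.one_apply_eq]
      map_mul' := fun x y => by
        show (h * kap (ι (x * y)) * h⁻¹) l l = _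
        rw [map_mul, hmul l _ (hDg x) _ (hDg y)]
      map_zero' := by
        show (h * kap (ι 0) * h⁻¹) l l = 0
        rw [map_zero, map_zero, Matrix.mul_zero, Matrix.zero_mul, Matrix.zero_apply]
      map_add' := fun x y => by
        show (h * kap (ι (x + y)) * h⁻¹) l l = _
        rw [map_add, map_add, Matrix.mul_add, Matrix.add_mul, Matrix.add_apply] }
  have hχ : ∀ x, h * kap (ι x) = diagonal (fun l => χ l x) * h := fun x =>
    (dg_iff hu).1 (hDg x)
  set τ : Fin d → K →+* ℂ := fun l => Complex.ofRealHom.comp (χ l) with hτ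
  have hval : ∀ l (x : K), InfinitePlace.mk (τ l) x = |χ l x| := by
    intro l x
    rw [InfinitePlace.apply]
    simp [hτ]
  obtain ⟨f, hf, hne⟩ : ∃ f, Dg h f ∧ (h * kap f * h⁻¹) i i ≠ (h * kap f * h⁻¹) j j := by
    by_contra hcon
    push Not at hcon
    exact hij hcon
  obtain ⟨x₀, rfl⟩ := (hι f).1 hf
  have hplace : InfinitePlace.mk (τ j) ≠ InfinitePlace.mk (τ i) := by
    intro h0
    have h1 : τ j = τ i := by
      rcases InfinitePlace.mk_eq_iff.1 h0 with h1 | h1
      · exact h1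
      · rw [← h1]
        ext x
        simp [hτ, ComplexEmbedding.conjugate_coe_eq]
    have h2 := congrArg (fun t : K →+* ℂ => t x₀) h1
    simp only [hτ, RingHom.comp_apply] at h2
    have h3 : χ j x₀ = χ i x₀ := Complex.ofReal_injective h2
    exact hne h3.symm
  obtain ⟨u, hu1⟩ := NumberField.Units.dirichletUnitTheorem.exists_unit K (InfinitePlace.mk (τ i))
  have hlogi : 0 ≤ Real.log (InfinitePlace.mk (τ i) ((u : 𝓞 K) : K)) := by
    by_contra hcon
    push Not at hcon
    have h1 := NumberField.Units.sum_mult_mul_log u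
    have h2 : ∑ w : InfinitePlace K, (w.mult : ℝ) * Real.log (w ((u : 𝓞 K) : K)) < 0 := by
      refine Finset.sum_neg (fun w _ => ?_) ⟨InfinitePlace.mk (τ i), Finset.mem_univ _⟩
      refine mul_neg_of_pos_of_neg (by exact_mod_cast InfinitePlace.mult_pos) ?_
      by_cases hw : w = InfinitePlace.mk (τ i)
      · rw [hw]; exact hcon
      · exact hu1 w hw
    exact absurd h1 h2.ne
  have hlogj := hu1 _ hplace
  rw [hval] at hlogi hlogj
  have hne0 : ∀ l (v : (𝓞 K)ˣ), χ l ((v : 𝓞 K) : K) ≠ 0 := by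
    intro l v
    rw [Ne, map_eq_zero]
    exact_mod_cast v.ne_zero
  have hi1 : 1 ≤ |χ i ((u : 𝓞 K) : K)| := by
    by_contra hcon
    push Not at hcon
    exact absurd (Real.log_neg (abs_pos.2 (hne0 i u)) hcon) (not_lt.2 hlogi)
  have hj1 : |χ j ((u : 𝓞 K) : K)| < 1 := by
    by_contra hcon
    push Not at hcon
    exact absurd (Real.log_nonneg hcon) (not_le.2 hlogj)
  obtain ⟨N, hN, hpow⟩ := exists_pow_int ι
  obtain ⟨γ, hγu, hγ⟩ := hpow u
  have hpw : ∀ l, χ l (((u ^ N : (𝓞 K)ˣ) : 𝓞 K) : K) = (χ l ((u : 𝓞 K) : K)) ^ N := by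
    intro l
    rw [← map_pow]
    rfl
  have hγh : h * zR γ = diagonal (fun l => (χ l ((u : 𝓞 K) : K)) ^ N) * h := by
    rw [← hγ, hχ]
    simp only [hpw]
  have hdet : ∏ l, (χ l ((u : 𝓞 K) : K)) ^ N = (γ.det : ℝ) := by
    have h1 := congrArg Matrix.det hγh
    rw [det_mul, det_mul, det_diagonal, det_zR, mul_comm] at h1
    exact (mul_right_cancel₀ hu.ne_zero h1).symm
  refine ⟨fun l => ((χ l ((u : 𝓞 K) : K)) ^ N) ^ 2, γ * γ, fun l => ?_, ?_, ?_, ?_⟩
  · have := pow_ne_zero N (hne0 l u)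
    positivity
  · rw [Finset.prod_pow, hdet]
    rcases Int.isUnit_iff.1 hγu with h1 | h1 <;> rw [h1] <;> norm_num
  · intro h0
    have h1 : (1 : ℝ) ≤ ((χ i ((u : 𝓞 K) : K)) ^ N) ^ 2 := by
      rw [← pow_mul, ← Even.pow_abs (by exact ⟨N, by ring⟩ : Even (N * 2))]
      exact one_le_pow₀ hi1
    have h2 : ((χ j ((u : 𝓞 K) : K)) ^ N) ^ 2 < 1 := by
      rw [← pow_mul, ← Even.pow_abs (by exact ⟨N, by ring⟩ : Even (N * 2))]
      exact pow_lt_one₀ (abs_nonneg _) hj1 (by omega)
    simp only at h0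
    linarith
  · rw [zR_mul, ← Matrix.mul_assoc, hγh, Matrix.mul_assoc, hγh, ← Matrix.mul_assoc,
      diagonal_mul_diagonal]
    congr 2
    funext l
    ring

/-- between the classes there is recurrence -/
theorem recur_of_not_sam (hd : 0 < d) {V ν : ℝ} (hV : 0 < V) (hν : 0 < ν)
    {M : Set (Matrix (Fin d) (Fin d) ℝ)} (hMdet : ∀ h ∈ M, |h.det| = V)
    (hMnu : ∀ h ∈ M, HasNu h ν) (hM : MinB id M) {h₀ : Matrix (Fin d) (Fin d) ℝ} (hh₀ : h₀ ∈ M)
    {i j : Fin d} (hij : ¬ Sam h₀ i j) {h : Matrix (Fin d) (Fin d) ℝ} (hh : h ∈ M) :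
    ∃ a, BB id a ∧ a i ≠ a j ∧ diagonal a * h ∈ closure (OrbB (pij i j) h) := by
  have hu : IsUnit h₀.det := by
    rw [isUnit_iff_ne_zero]
    intro h0
    have := hMdet h₀ hh₀
    rw [h0, abs_zero] at this
    exact hV.ne this
  obtain ⟨D, σ, hD0, hD1, hDij, hσ⟩ := unit_separates hd hν (hMnu h₀ hh₀) hu hij
  obtain ⟨σ', hσ'⟩ := transfer hV hMdet hM hh₀ hσ h hh
  refine ⟨D, ⟨hD0, hD1, fun k l hkl => by rw [show k = l from hkl]⟩, hDij, ?_⟩
  rw [← hσ']
  refine subset_closure ⟨fun _ => 1, σ', BB.one _, ?_, ?_⟩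
  · have h1 := congrArg Matrix.det hσ'
    rw [det_mul, det_mul, det_diagonal, det_zR, hD1, one_mul] at h1
    have hne : h.det ≠ 0 := by
      intro h0
      have := hMdet h hh
      rw [h0, abs_zero] at this
      exact hV.ne this
    have h2 : ((σ'.det : ℤ) : ℝ) = 1 := by
      have h3 : h.det * ((σ'.det : ℤ) : ℝ) = h.det * 1 := by rw [h1, mul_one]
      exact mul_left_cancel₀ hne h3
    have h3 : σ'.det = 1 := by exact_mod_cast h2
    rw [h3]
    exact isUnit_one
  · have h1 : (diagonal (fun _ => (1 : ℝ)) : Matrix (Fin d) (Fin d) ℝ) = 1 := diagonal_one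
    rw [h1, Matrix.one_mul]

/-- **Wall recurrence and the classes.** -/
theorem wall_iff (hd : 3 ≤ d) {g : Matrix (Fin d) (Fin d) ℝ} (hg : g.det ≠ 0) {ν : ℝ}
    (hν : 0 < ν) (hnu : HasNu g ν) {M : Set (Matrix (Fin d) (Fin d) ℝ)}
    (hMg : M ⊆ closure (Orb g)) (hM : MinB id M) {h₀ : Matrix (Fin d) (Fin d) ℝ} (hh₀ : h₀ ∈ M)
    {i j : Fin d} (hij : i ≠ j) :
    (∃ h ∈ M, ∀ a, BB id a → a i ≠ a j → diagonal a * h ∉ closure (OrbB (pij i j) h)) ↔
      Sam h₀ i j := by
  have hMdet : ∀ h ∈ M, |h.det| = |g.det| := fun h hh => abs_det_closure (hMg hh)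
  have hMnu : ∀ h ∈ M, HasNu h ν := fun h hh => hasNu_closure hnu (hMg hh)
  constructor
  · rintro ⟨h, hh, hno⟩
    by_contra hcon
    obtain ⟨a, ha, haij, hmem⟩ := recur_of_not_sam (by omega) (abs_pos.2 hg) hν hMdet hMnu hM hh₀
      hcon hh
    exact hno a ha haij hmem
  · intro hs
    obtain ⟨h, hh, hh'⟩ := root_dir hd hg hν hnu hMg hM hh₀ hij hs 1
    exact wall_of_pair (by omega) (abs_pos.2 hg) hν hMdet hMnu hM hij one_ne_zero hh hh'

end Pool.Agent.Y327
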