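import Mathlib
import Pool.Agent.Y327.Wall2

/-! # Large sets of indices meet the classes -/

open Filter Topology Matrix

set_option linter.unusedSectionVars false

namespace Pool.Agent.Y327

open H715R2

variable {d : ℕ}

/-- a set of more than `d - p` indices meets every class of a counterexample -/
theorem exists_sam_of_card (hd : 3 ≤ d) {g : Matrix (Fin d) (Fin d) ℝ} (hg : g.det ≠ 0) {ν : ℝ}
    (hν : 0 < ν) (hnu : HasNu g ν) (hint : ¬ PropInt g) {M : Set (Matrix (Fin d) (Fin d) ℝ)}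
    (hMg : M ⊆ closure (Orb g)) (hM : MinB id M) {h₀ : Matrix (Fin d) (Fin d) ℝ} (hh₀ : h₀ ∈ M)
    {i : Fin d} {J : Finset (Fin d)} (hJ : d < J.card + d.minFac) : ∃ j ∈ J, Sam h₀ i j := by
  classical
  have hd0 : 0 < d := by omega
  have hu : IsUnit h₀.det := by
    rw [isUnit_iff_ne_zero, ← abs_ne_zero, abs_det_closure (hMg hh₀), abs_ne_zero]
    exact hg
  obtain ⟨s, hs1, hs2⟩ := class_sizes hd hg hν hnu hMg hM hh₀ hu
  have hs : 1 < s := by
    obtain ⟨j, hji, hj⟩ := class_nontrivial hd hg hν hnu hint hMg hM hh₀ i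
    rw [← hs2 i, Nat.card_eq_fintype_card, Fintype.one_lt_card_iff]
    exact ⟨⟨i, Sam.refl _ _⟩, ⟨j, hj⟩, fun h => hji (congrArg Subtype.val h).symm⟩
  have hps : d.minFac ≤ s := Nat.minFac_le_of_dvd hs ⟨_, hs1.symm⟩
  have hcl := hs2 i
  rw [Nat.card_eq_fintype_card, Fintype.card_subtype] at hcl
  set C := Finset.univ.filter (fun j => Sam h₀ i j) with hC
  obtain ⟨j, hj⟩ : (C ∩ J).Nonempty := by
    by_contra hcon
    rw [Finset.not_nonempty_iff_eq_empty] at hcon
    have h1 := Finset.card_union_of_disjoint (Finset.disjoint_iff_inter_eq_empty.2 hcon)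
    have h2 : (C ∪ J).card ≤ d := by
      have := Finset.card_le_univ (C ∪ J)
      rwa [Fintype.card_fin] at this
    omega
  rw [Finset.mem_inter, hC, Finset.mem_filter] at hj
  exact ⟨j, hj.2, hj.1.2⟩

/-- a minimal set in the closure of the orbit -/
theorem exists_min_closure (hd : 0 < d) {g : Matrix (Fin d) (Fin d) ℝ} (hg : g.det ≠ 0) {ν : ℝ}
    (hν : 0 < ν) (hnu : HasNu g ν) : ∃ M ⊆ closure (Orb g), MinB id M :=
  exists_minB hd id (abs_pos.2 hg) hν isClosed_closure
    ⟨g, subset_closure (mem_orb_self g)⟩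
    (fun _ hh _ _ ha hγ => closure_mul hh ha.1 ha.2.1 hγ) (fun _ hh => abs_det_closure hh)
    (fun _ hh => hasNu_closure hnu hh)

end Pool.Agent.Y327
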