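import Mathlib
import Pool.Agent.Y327.Root

/-! # Small root pairs near every point of a minimal set -/

open Filter Topology Matrix

set_option linter.unusedSectionVars false

namespace Pool.Agent.Y327

open H715R2

variable {d : ℕ}

/-- conjugation of a transvection by a diagonal matrix -/
lemma diag_transvection {i j : Fin d} (hij : i ≠ j) (t : ℝ) {a : Fin d → ℝ} (ha : ∀ l, 0 < a l) :
    diagonal a * transvection i j t = transvection i j (t * (a i / a j)) * diagonal a := by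
  ext k l
  rw [Matrix.mul_diagonal, Matrix.diagonal_mul]
  simp only [transvection, Matrix.add_apply, Matrix.single_apply]
  by_cases hkl : k = l
  · subst hkl
    have h : ¬ (i = k ∧ j = k) := fun h => hij (h.1.trans h.2.symm)
    rw [if_neg h, if_neg h]; ring
  · rw [Matrix.one_apply_ne hkl]
    by_cases h : i = k ∧ j = l
    · obtain ⟨rfl, rfl⟩ := h
      simp only [and_self, if_true]
      have := (ha j).ne'
      field_simp
      ring
    · rw [if_neg h, if_neg h]; ring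

/-- **Small root pairs are dense.** -/
theorem small_pairs (hd0 : 0 < d) {V ν : ℝ} (hV : 0 < V) (hν : 0 < ν)
    {M : Set (Matrix (Fin d) (Fin d) ℝ)} (hMdet : ∀ h ∈ M, |h.det| = V)
    (hMnu : ∀ h ∈ M, HasNu h ν) (hM : MinB id M) {i j : Fin d} (hij : i ≠ j) {s : ℝ}
    (hs : s ≠ 0) {h₂ : Matrix (Fin d) (Fin d) ℝ} (hh₂ : h₂ ∈ M)
    (hw₂ : transvection i j s * h₂ ∈ M) :
    ∀ h₀ ∈ M, ∀ U ∈ 𝓝 h₀, ∀ δ : ℝ, 0 < δ → ∃ h ∈ M, h ∈ U ∧ ∃ t : ℝ, t ≠ 0 ∧ |t| < δ ∧
      transvection i j t * h ∈ M := by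
  classical
  set P : ℝ → Set (Matrix (Fin d) (Fin d) ℝ) := fun δ =>
    {h | h ∈ M ∧ ∃ t : ℝ, t ≠ 0 ∧ |t| < δ ∧ transvection i j t * h ∈ M} with hP
  have hPmono : ∀ δ δ' : ℝ, δ ≤ δ' → P δ ⊆ P δ' := by
    rintro δ δ' hδ h ⟨hh, t, ht, htδ, hth⟩
    exact ⟨hh, t, ht, htδ.trans_le hδ, hth⟩
  have hPmap : ∀ (a : Fin d → ℝ) (γ : Matrix (Fin d) (Fin d) ℤ), BB id a → IsUnit γ.det →
      ∀ δ δ' : ℝ, δ * (a i / a j) ≤ δ' → ∀ h ∈ P δ, diagonal a * h * zR γ ∈ P δ' := by
    rintro a γ ha hγ δ δ' hδ h ⟨hh, t, ht, htδ, hth⟩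
    have hpos : 0 < a i / a j := div_pos (ha.1 i) (ha.1 j)
    refine ⟨hM.inv h hh a γ ha hγ, t * (a i / a j), mul_ne_zero ht hpos.ne', ?_, ?_⟩
    · rw [abs_mul, abs_of_pos hpos]
      exact lt_of_lt_of_le (mul_lt_mul_of_pos_right htδ hpos) hδ
    · have h1 := hM.inv _ hth a γ ha hγ
      rw [← Matrix.mul_assoc (diagonal a), diag_transvection hij t ha.1] at h1
      simpa only [Matrix.mul_assoc] using h1
  set Z : Set (Matrix (Fin d) (Fin d) ℝ) := ⋂ n : ℕ, closure (P (1 / ((n : ℝ) + 1))) with hZ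
  have hZM : Z = M := by
    refine hM.min Z ?_ ?_ ?_ ?_
    · intro x hx
      have h1 := Set.mem_iInter.1 hx 0
      exact closure_minimal (fun y hy => hy.1) hM.closed h1
    · exact isClosed_iInter fun _ => isClosed_closure
    · -- nonempty
      obtain ⟨R, hR⟩ := exists_bound hd0 V ν hV hν
      have hstep : ∀ n : ℕ, ∃ x ∈ P (1 / ((n : ℝ) + 1)), ∀ a b, |x a b| ≤ R := by
        intro n
        have hn : (0 : ℝ) < 1 / ((n : ℝ) + 1) := by positivity
        obtain ⟨h, hh, hh'⟩ := all_multiples hM hij hs hh₂ hw₂ (1 / ((n : ℝ) + 1) / 2)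
        obtain ⟨γ, hγ, hγR⟩ := hR h (hMdet h hh) (hMnu h hh)
        refine ⟨h * zR γ, ⟨hM.inv.gam hh hγ, 1 / ((n : ℝ) + 1) / 2, by positivity, ?_, ?_⟩, hγR⟩
        · rw [abs_of_pos (by positivity)]
          linarith
        · rw [← Matrix.mul_assoc]
          exact hM.inv.gam hh' hγ
      choose x hx hxR using hstep
      obtain ⟨h', -, φ, hφ, hlim⟩ := (isCompact_box (d := d) R).tendsto_subseq hxR
      refine ⟨h', Set.mem_iInter.2 fun N => ?_⟩
      refine mem_closure_of_tendsto hlim ?_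
      filter_upwards [eventually_ge_atTop N] with n hn
      refine hPmono _ _ ?_ (hx (φ n))
      have h1 : (N : ℝ) ≤ φ n := by exact_mod_cast hn.trans (hφ.id_le n)
      exact one_div_le_one_div_of_le (by positivity) (by linarith)
    · intro x hx a γ ha hγ
      refine Set.mem_iInter.2 fun n => ?_
      have hpos : 0 < a i / a j := div_pos (ha.1 i) (ha.1 j)
      obtain ⟨m, hm⟩ := exists_nat_ge ((a i / a j) * ((n : ℝ) + 1))
      have h1 := Set.mem_iInter.1 hx m
      have hc : Continuous (fun h : Matrix (Fin d) (Fin d) ℝ => diagonal a * h * zR γ) :=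
        (continuous_const.matrix_mul continuous_id).matrix_mul continuous_const
      refine map_mem_closure (f := fun h : Matrix (Fin d) (Fin d) ℝ => diagonal a * h * zR γ) hc h1
        (hPmap a γ ha hγ _ _ ?_)
      rw [div_mul_eq_mul_div, one_mul, div_le_div_iff₀ (by positivity) (by positivity)]
      linarith
  intro h₀ hh₀ U hU δ hδ
  rw [← hZM] at hh₀
  obtain ⟨n, hn⟩ := exists_nat_one_div_lt hδ
  obtain ⟨h, hhU, hhP⟩ := mem_closure_iff_nhds.1 (Set.mem_iInter.1 hh₀ n) U hU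
  obtain ⟨hhM, t, ht, htδ, hth⟩ := hhP
  exact ⟨h, hhM, hhU, t, ht, htδ.trans hn, hth⟩

end Pool.Agent.Y327
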