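import Mathlib
import Pool.Agent.Y327.SmallPairs

/-! # Polynomials vanishing on a piece of a minimal set -/

open Filter Topology Matrix

set_option linter.unusedSectionVars false

namespace Pool.Agent.Y327

open H715R2

variable {d : ℕ}

/-- the value of a polynomial in the entries -/
noncomputable def ev (P : MvPolynomial (Fin d × Fin d) ℝ) (h : Matrix (Fin d) (Fin d) ℝ) : ℝ :=
  MvPolynomial.eval (fun p => h p.1 p.2) P

/-- the derivation in the direction of the root `i, j` -/
noncomputable def DD (i j : Fin d) : Derivation ℝ (MvPolynomial (Fin d × Fin d) ℝ)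
    (MvPolynomial (Fin d × Fin d) ℝ) :=
  MvPolynomial.mkDerivation ℝ (fun p => if p.1 = i then MvPolynomial.X (j, p.2) else 0)

/-- the polynomial along the root direction -/
noncomputable def qq (i j : Fin d) (h : Matrix (Fin d) (Fin d) ℝ) :
    MvPolynomial (Fin d × Fin d) ℝ →ₐ[ℝ] Polynomial ℝ :=
  MvPolynomial.aeval (fun p => Polynomial.C (h p.1 p.2) +
    (if p.1 = i then Polynomial.X * Polynomial.C (h j p.2) else 0))

lemma transvection_mul_entry {i j : Fin d} (t : ℝ) (h : Matrix (Fin d) (Fin d) ℝ) (a b : Fin d) :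
    (transvection i j t * h) a b = h a b + (if a = i then t * h j b else 0) := by
  rw [transvection, Matrix.add_mul, Matrix.one_mul, Matrix.add_apply]
  congr 1
  by_cases ha : a = i
  · subst ha
    rw [if_pos rfl, Matrix.single_mul_apply_same]
  · rw [if_neg ha, Matrix.single_mul_apply_of_ne _ _ _ _ _ ha]

lemma eval_qq {i j : Fin d} (h : Matrix (Fin d) (Fin d) ℝ)
    (P : MvPolynomial (Fin d × Fin d) ℝ) (t : ℝ) :
    (qq i j h P).eval t = ev P (transvection i j t * h) := by
  have h1 : (Polynomial.aeval t).comp (qq i j h) =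
      MvPolynomial.aeval (fun p : Fin d × Fin d => (transvection i j t * h) p.1 p.2) := by
    refine MvPolynomial.algHom_ext fun p => ?_
    rw [AlgHom.comp_apply, qq, MvPolynomial.aeval_X, MvPolynomial.aeval_X,
      transvection_mul_entry]
    split_ifs
    · simp
      ring
    · simp
  have h2 := AlgHom.congr_fun h1 P
  rw [AlgHom.comp_apply, Polynomial.aeval_def, Algebra.algebraMap_self, Polynomial.eval₂_id] at h2
  rw [h2, ev, MvPolynomial.aeval_def, Algebra.algebraMap_self]
  rfl

lemma derivative_qq {i j : Fin d} (hij : i ≠ j) (h : Matrix (Fin d) (Fin d) ℝ)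
    (P : MvPolynomial (Fin d × Fin d) ℝ) :
    Polynomial.derivative (qq i j h P) = qq i j h (DD i j P) := by
  induction P using MvPolynomial.induction_on with
  | C a =>
    have h1 : qq i j h (MvPolynomial.C a) = Polynomial.C a := by
      rw [qq, MvPolynomial.aeval_C]
      rfl
    rw [h1, Polynomial.derivative_C]
    have h2 : DD i j (MvPolynomial.C a) = 0 := (DD i j).map_algebraMap a
    rw [h2, map_zero]
  | add P Q hP hQ => rw [map_add, map_add, map_add, map_add, hP, hQ]
  | mul_X P p hP =>
    have hX : Polynomial.derivative (qq i j h (MvPolynomial.X p)) =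
        qq i j h (DD i j (MvPolynomial.X p)) := by
      rw [DD, MvPolynomial.mkDerivation_X, qq, MvPolynomial.aeval_X]
      by_cases hp : p.1 = i
      · rw [if_pos hp, if_pos hp, MvPolynomial.aeval_X, if_neg hij.symm]
        simp
      · rw [if_neg hp, if_neg hp]
        simp
    rw [map_mul, Polynomial.derivative_mul, hP, hX, Derivation.leibniz, map_add]
    simp only [smul_eq_mul, map_mul]
    ring

lemma continuous_ev (P : MvPolynomial (Fin d × Fin d) ℝ) :
    Continuous (ev P : Matrix (Fin d) (Fin d) ℝ → ℝ) := by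
  unfold ev
  refine (MvPolynomial.continuous_eval P).comp ?_
  exact continuous_pi fun p => continuous_apply_apply p.1 p.2

lemma continuous_transvection_mul (i j : Fin d) :
    Continuous (fun z : ℝ × Matrix (Fin d) (Fin d) ℝ => transvection i j z.1 * z.2) := by
  refine continuous_matrix fun a b => ?_
  have h1 : (fun z : ℝ × Matrix (Fin d) (Fin d) ℝ => (transvection i j z.1 * z.2) a b) =
      fun z => z.2 a b + (if a = i then z.1 * z.2 j b else 0) := by
    funext z
    exact transvection_mul_entry _ _ _ _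
  rw [h1]
  have hc : ∀ a b : Fin d, Continuous (fun z : ℝ × Matrix (Fin d) (Fin d) ℝ => z.2 a b) :=
    fun a b => (continuous_apply_apply a b).comp continuous_snd
  refine (hc a b).add ?_
  split_ifs
  · exact continuous_fst.mul (hc j b)
  · exact continuous_const

/-- **The ideal of a piece of a minimal set is stable under the root derivations.** -/
theorem rolle_step {M W : Set (Matrix (Fin d) (Fin d) ℝ)} (hW : IsOpen W) {i j : Fin d}
    (hij : i ≠ j)
    (hsmall : ∀ h₀ ∈ M, ∀ U ∈ 𝓝 h₀, ∀ δ : ℝ, 0 < δ → ∃ h ∈ M, h ∈ U ∧ ∃ t : ℝ, t ≠ 0 ∧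
      |t| < δ ∧ transvection i j t * h ∈ M)
    {P : MvPolynomial (Fin d × Fin d) ℝ} (hP : ∀ h ∈ M, h ∈ W → ev P h = 0) :
    ∀ h ∈ M, h ∈ W → ev (DD i j P) h = 0 := by
  intro h₀ hh₀ hW₀
  by_contra hne
  -- a neighbourhood in which the derivative does not vanish
  have hcont : Continuous (fun z : ℝ × Matrix (Fin d) (Fin d) ℝ =>
      ev (DD i j P) (transvection i j z.1 * z.2)) :=
    (continuous_ev _).comp (continuous_transvection_mul i j)
  have h1 : ∀ᶠ z : ℝ × Matrix (Fin d) (Fin d) ℝ in 𝓝 (0, h₀),
      ev (DD i j P) (transvection i j z.1 * z.2) ≠ 0 := by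
    refine hcont.continuousAt.eventually_ne ?_
    simp only [transvection_zero, Matrix.one_mul]
    exact hne
  have h2 : ∀ᶠ z : ℝ × Matrix (Fin d) (Fin d) ℝ in 𝓝 (0, h₀),
      transvection i j z.1 * z.2 ∈ W := by
    refine (continuous_transvection_mul i j).continuousAt.eventually_mem (hW.mem_nhds ?_)
    simp only [transvection_zero, Matrix.one_mul]
    exact hW₀
  have h3 := h1.and h2
  rw [nhds_prod_eq] at h3
  obtain ⟨A, hA, U, hU, hAU⟩ := Filter.eventually_prod_iff.1 h3
  obtain ⟨δ, hδ, hδA⟩ := Metric.eventually_nhds_iff.1 hA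
  obtain ⟨h, hhM, hhU, t, ht, htδ, hth⟩ := hsmall h₀ hh₀ {x | U x} hU δ hδ
  have hA' : ∀ τ : ℝ, |τ| < δ → A τ := fun τ hτ => hδA (by rwa [Real.dist_eq, sub_zero])
  have hgood : ∀ τ : ℝ, |τ| < δ → ev (DD i j P) (transvection i j τ * h) ≠ 0 ∧
      transvection i j τ * h ∈ W := fun τ hτ => hAU (hA' τ hτ) hhU
  have hq : ∀ τ : ℝ, HasDerivAt (fun x => (qq i j h P).eval x)
      (ev (DD i j P) (transvection i j τ * h)) τ := by
    intro τ
    have := (qq i j h P).hasDerivAt τ
    rwa [derivative_qq hij, eval_qq] at this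
  have hz0 : (qq i j h P).eval 0 = 0 := by
    rw [eval_qq, transvection_zero, Matrix.one_mul]
    refine hP h hhM ?_
    have := (hgood 0 (by rwa [abs_zero])).2
    rwa [transvection_zero, Matrix.one_mul] at this
  have hzt : (qq i j h P).eval t = 0 := by
    rw [eval_qq]
    exact hP _ hth (hgood t htδ).2
  have hcq : Continuous (fun x => (qq i j h P).eval x) := (qq i j h P).continuous
  rcases lt_or_gt_of_ne ht with h4 | h4
  · obtain ⟨τ, hτ, hτ0⟩ := exists_hasDerivAt_eq_zero h4 hcq.continuousOn (hzt.trans hz0.symm)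
      (fun x _ => hq x)
    refine (hgood τ ?_).1 hτ0
    rw [abs_of_neg hτ.2]
    rw [abs_of_neg h4] at htδ
    linarith [hτ.1]
  · obtain ⟨τ, hτ, hτ0⟩ := exists_hasDerivAt_eq_zero h4 hcq.continuousOn (hz0.trans hzt.symm)
      (fun x _ => hq x)
    refine (hgood τ ?_).1 hτ0
    rw [abs_of_pos hτ.1]
    rw [abs_of_pos h4] at htδ
    linarith [hτ.2]

/-- a set of polynomials stable under a root derivation which vanishes at a point vanishes along
the root direction -/
theorem vanish_along {i j : Fin d} (hij : i ≠ j) {I : Set (MvPolynomial (Fin d × Fin d) ℝ)}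
    (hI : ∀ P ∈ I, DD i j P ∈ I) {h : Matrix (Fin d) (Fin d) ℝ} (hh : ∀ P ∈ I, ev P h = 0)
    (t : ℝ) : ∀ P ∈ I, ev P (transvection i j t * h) = 0 := by
  have key : ∀ n : ℕ, ∀ P ∈ I, (qq i j h P).natDegree ≤ n → qq i j h P = 0 := by
    intro n
    induction n with
    | zero =>
      intro P hP hn
      have h1 := Polynomial.eq_C_of_natDegree_le_zero hn
      have h2 : (qq i j h P).eval 0 = 0 := by
        rw [eval_qq, transvection_zero, Matrix.one_mul]
        exact hh P hP
      rw [h1, Polynomial.eval_C] at h2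
      rw [h1, h2, Polynomial.C_0]
    | succ n ih =>
      intro P hP hn
      have h1 : qq i j h (DD i j P) = 0 := by
        refine ih _ (hI P hP) ?_
        rw [← derivative_qq hij]
        have := Polynomial.natDegree_derivative_le (qq i j h P)
        omega
      rw [← derivative_qq hij] at h1
      have h2 := Polynomial.derivative_eq_zero.1 h1
      have h3 := Polynomial.eq_C_of_natDegree_eq_zero h2
      have h4 : (qq i j h P).eval 0 = 0 := by
        rw [eval_qq, transvection_zero, Matrix.one_mul]
        exact hh P hP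
      rw [h3, Polynomial.eval_C] at h4
      rw [h3, h4, Polynomial.C_0]
  intro P hP
  rw [← eval_qq, key _ P hP le_rfl, Polynomial.eval_zero]

end Pool.Agent.Y327
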