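import Mathlib
import Pool.Agent.Y327.ZarDer

/-! # Sets of matrices stable under elementary operations inside classes -/

open Filter Topology Matrix

set_option linter.unusedSectionVars false

namespace Pool.Agent.Y327

open H715R2

variable {d : ℕ}

/-- the diagonal matrix with two inverse entries -/
noncomputable def dd (i j : Fin d) (c : ℝ) : Matrix (Fin d) (Fin d) ℝ :=
  diagonal (fun k => if k = i then c else if k = j then c⁻¹ else 1)

lemma dd_mul_apply (i j : Fin d) (c : ℝ) (g : Matrix (Fin d) (Fin d) ℝ) (a b : Fin d) :
    (dd i j c * g) a b = (if a = i then c else if a = j then c⁻¹ else 1) * g a b := by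
  rw [dd, Matrix.diagonal_mul]

/-- adding rows inside the class to a row, as a product of transvections -/
lemma stable_rowadd {R : Fin d → Fin d → Prop} {G : Set (Matrix (Fin d) (Fin d) ℝ)}
    (hG : ∀ i j : Fin d, i ≠ j → R i j → ∀ t : ℝ, ∀ g ∈ G, transvection i j t * g ∈ G)
    {i : Fin d} {w : Fin d → ℝ} (hwi : w i = 0) (hw : ∀ j, ¬ R i j → w j = 0) :
    ∀ g ∈ G, g.updateRow i (g i + w ᵥ* g) ∈ G := by
  classical
  have key : ∀ T : Finset (Fin d), i ∉ T → ∀ g ∈ G,
      g.updateRow i (g i + ∑ j ∈ T, w j • g j) ∈ G := by
    intro T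
    induction T using Finset.induction_on with
    | empty =>
      intro _ g hg
      rw [Finset.sum_empty, add_zero, Matrix.updateRow_eq_self]
      exact hg
    | insert j T hj ih =>
      intro hi g hg
      rw [Finset.mem_insert, not_or] at hi
      have h1 := ih hi.2 g hg
      by_cases hR : R i j
      · have h2 := hG i j hi.1 hR (w j) _ h1
        have h3 : transvection i j (w j) * g.updateRow i (g i + ∑ j ∈ T, w j • g j) =
            g.updateRow i (g i + ∑ j ∈ insert j T, w j • g j) := by
          ext a b
          rw [transvection_mul_entry]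
          by_cases ha : a = i
          · subst ha
            rw [if_pos rfl, Matrix.updateRow_self, Matrix.updateRow_self,
              Matrix.updateRow_ne (Ne.symm hi.1), Finset.sum_insert hj]
            simp only [Pi.add_apply, Pi.smul_apply, smul_eq_mul]
            ring
          · rw [if_neg ha, Matrix.updateRow_ne ha, Matrix.updateRow_ne ha, add_zero]
        rwa [h3] at h2
      · rw [Finset.sum_insert hj, hw j hR, zero_smul, zero_add]
        exact h1
  intro g hg
  have h1 := key (Finset.univ.erase i) (Finset.notMem_erase _ _) g hg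
  have h2 : ∑ j ∈ Finset.univ.erase i, w j • g j = w ᵥ* g := by
    funext b
    simp only [Matrix.vecMul, dotProduct, Finset.sum_apply, Pi.smul_apply, smul_eq_mul]
    rw [← Finset.add_sum_erase Finset.univ (fun j => w j * g j b) (Finset.mem_univ i), hwi,
      zero_mul, zero_add]
  rw [h2] at h1
  exact h1

/-- the identity matrix with the row vector `w` added to row `i` -/
def TT (i : Fin d) (w : Fin d → ℝ) : Matrix (Fin d) (Fin d) ℝ :=
  fun a b => (1 : Matrix (Fin d) (Fin d) ℝ) a b + if a = i then w b else 0

lemma det_TT (i : Fin d) (w : Fin d → ℝ) : (TT i w).det = 1 + w i := by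
  have h1 : TT i w = 1 + Matrix.replicateCol Unit (Pi.single i (1 : ℝ)) *
      Matrix.replicateRow Unit w := by
    ext a b
    rw [Matrix.add_apply, Matrix.mul_apply]
    simp only [TT, Finset.univ_unique, Finset.sum_singleton, Matrix.replicateCol_apply,
      Matrix.replicateRow_apply, Pi.single_apply]
    split_ifs <;> simp
  rw [h1, Matrix.det_one_add_replicateCol_mul_replicateRow]
  simp

lemma mul_TT_apply (i : Fin d) (w : Fin d → ℝ) (A : Matrix (Fin d) (Fin d) ℝ) (a b : Fin d) :
    (A * TT i w) a b = A a b + A a i * w b := by
  rw [Matrix.mul_apply]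
  simp only [TT, Matrix.one_apply, mul_add, Finset.sum_add_distrib, mul_ite, mul_one, mul_zero,
    Finset.sum_ite_eq', Finset.mem_univ, if_true]

lemma TT_mul (i : Fin d) (w : Fin d → ℝ) (g : Matrix (Fin d) (Fin d) ℝ) :
    TT i w * g = g.updateRow i (g i + w ᵥ* g) := by
  ext a b
  rw [Matrix.mul_apply]
  simp only [TT, add_mul, Finset.sum_add_distrib, Matrix.one_apply, ite_mul, one_mul, zero_mul,
    Finset.sum_ite_eq, Finset.mem_univ, if_true]
  by_cases ha : a = i
  · subst ha
    rw [Matrix.updateRow_self]
    simp only [if_true, Pi.add_apply]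
    rfl
  · rw [Matrix.updateRow_ne ha]
    simp only [if_neg ha, Finset.sum_const_zero, add_zero]

lemma TT_mul_TT {i : Fin d} {w : Fin d → ℝ} (hw : w i = 0) : TT i (-w) * TT i w = 1 := by
  ext a b
  rw [mul_TT_apply]
  simp only [TT, Pi.neg_apply, hw, neg_zero]
  by_cases ha : a = i
  · subst ha; simp
  · rw [if_neg ha, if_neg ha, Matrix.one_apply_ne ha]; ring

lemma dd_mul_dd {i j : Fin d} {c : ℝ} (hc : c ≠ 0) : dd i j c⁻¹ * dd i j c = 1 := by
  rw [dd, dd, diagonal_mul_diagonal, ← diagonal_one]
  congr 1
  funext k
  split_ifs
  · exact inv_mul_cancel₀ hc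
  · rw [inv_inv]; exact mul_inv_cancel₀ hc
  · exact one_mul 1

lemma det_dd {i j : Fin d} (hij : i ≠ j) {c : ℝ} (hc : c ≠ 0) : (dd i j c).det = 1 := by
  classical
  rw [dd, det_diagonal, ← Finset.mul_prod_erase Finset.univ _ (Finset.mem_univ i),
    ← Finset.mul_prod_erase (Finset.univ.erase i) _
      (Finset.mem_erase.2 ⟨hij.symm, Finset.mem_univ j⟩), if_pos rfl, if_neg hij.symm, if_pos rfl,
    Finset.prod_eq_one, mul_one, mul_inv_cancel₀ hc]
  intro x hx
  rw [Finset.mem_erase, Finset.mem_erase] at hx
  rw [if_neg hx.2.1, if_neg hx.1]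

lemma mul_dd_apply (i j : Fin d) (c : ℝ) (A : Matrix (Fin d) (Fin d) ℝ) (a b : Fin d) :
    (A * dd i j c) a b = A a b * (if b = i then c else if b = j then c⁻¹ else 1) := by
  rw [dd, Matrix.mul_diagonal]

lemma mul_transvection_apply' {l i : Fin d} (t : ℝ) (A : Matrix (Fin d) (Fin d) ℝ) (a b : Fin d) :
    (A * transvection l i t) a b = A a b + (if b = i then A a l * t else 0) := by
  rw [transvection, Matrix.mul_add, Matrix.mul_one, Matrix.add_apply]
  congr 1
  by_cases hb : b = i
  · subst hb
    rw [if_pos rfl, Matrix.mul_single_apply_same]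
  · rw [if_neg hb, Matrix.mul_single_apply_of_ne _ _ _ _ _ hb]

/-- **Stability under block matrices of determinant one.** -/
theorem stable_block {R : Fin d → Fin d → Prop} (hRs : ∀ i j, R i j → R j i)
    {G : Set (Matrix (Fin d) (Fin d) ℝ)}
    (hRt : ∀ i j k, R i j → R j k → R i k)
    (hG : ∀ i j : Fin d, i ≠ j → R i j → ∀ t : ℝ, ∀ g ∈ G, transvection i j t * g ∈ G)
    (hD : ∀ i j : Fin d, i ≠ j → ∀ c : ℝ, c ≠ 0 → ∀ g ∈ G, dd i j c * g ∈ G) :
    ∀ (n : ℕ) (K : Matrix (Fin d) (Fin d) ℝ), (∀ i j, ¬ R i j → K i j = 0) → K.det = 1 →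
      (∃ s : Finset (Fin d), s.card ≤ n ∧ ∀ j, j ∉ s → ∀ b, K j b = (1 : Matrix _ _ ℝ) j b) →
      ∀ g ∈ G, K * g ∈ G := by
  classical
  intro n
  induction n with
  | zero =>
    rintro K - - ⟨s, hs, hK⟩ g hg
    rw [Nat.le_zero, Finset.card_eq_zero] at hs
    subst hs
    have h1 : K = 1 := by
      ext a b
      exact hK a (Finset.notMem_empty _) b
    rwa [h1, Matrix.one_mul]
  | succ n ih =>
    -- the case of a nonzero diagonal entry
    have hA : ∀ (K : Matrix (Fin d) (Fin d) ℝ), (∀ i j, ¬ R i j → K i j = 0) → K.det = 1 →
        ∀ s : Finset (Fin d), s.card ≤ n + 1 → (∀ j, j ∉ s → ∀ b, K j b = (1 : Matrix _ _ ℝ) j b) →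
        ∀ i ∈ s, K i i ≠ 0 → ∀ g ∈ G, K * g ∈ G := by
      intro K hKR hKd s hs hK i hi hKi g hg
      by_cases hm : ∃ m ∈ s, m ≠ i
      · obtain ⟨m, hms, hmi⟩ := hm
        set c := K i i with hc
        set w : Fin d → ℝ := fun l => if l = i then 0 else if l = m then c * K i m else K i l
          with hw
        have hwi : w i = 0 := by simp [hw]
        have hwR : ∀ j, ¬ R i j → w j = 0 := by
          intro j hj
          simp only [hw]
          split_ifs with h1 h2
          · rfl
          · rw [← h2, hKR i j hj, mul_zero]
          · exact hKR i j hj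
        set K' := K * dd i m c⁻¹ * TT i (-w) with hK'
        have hK'K : K' * (TT i w * dd i m c) = K := by
          calc K' * (TT i w * dd i m c) = K * dd i m c⁻¹ * (TT i (-w) * TT i w) * dd i m c := by
                rw [hK']; simp only [Matrix.mul_assoc]
            _ = K := by
              rw [TT_mul_TT hwi, Matrix.mul_one, Matrix.mul_assoc, dd_mul_dd hKi, Matrix.mul_one]
        have hg1 : TT i w * (dd i m c * g) ∈ G := by
          rw [TT_mul]
          exact stable_rowadd hG hwi hwR _ (hD i m hmi.symm c hKi g hg)
        have hentry : ∀ a b, K' a b = K a b * (if b = i then c⁻¹ else if b = m then c else 1) -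
            (K a i * c⁻¹) * w b := by
          intro a b
          rw [hK', mul_TT_apply, mul_dd_apply, mul_dd_apply, if_pos rfl, inv_inv, Pi.neg_apply]
          ring
        have h1 := ih K' ?_ ?_ ⟨s.erase i, ?_, ?_⟩ _ hg1
        · rw [← hK'K]
          simpa only [Matrix.mul_assoc] using h1
        · intro a b hab
          rw [hentry, hKR a b hab, zero_mul, zero_sub, neg_eq_zero]
          by_cases h2 : R i b
          · have h3 : ¬ R a i := fun h => hab (hRt a i b h h2)
            rw [hKR a i h3, zero_mul, zero_mul]
          · rw [hwR b h2, mul_zero]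
        · rw [hK', det_mul, det_mul, hKd, det_dd hmi.symm (inv_ne_zero hKi), det_TT,
            Pi.neg_apply, hwi]
          ring
        · rw [Finset.card_erase_of_mem hi]
          omega
        · intro a ha b
          rw [Finset.mem_erase, not_and_or, not_not] at ha
          rw [hentry]
          rcases eq_or_ne a i with rfl | hai
          · rw [← hc, mul_inv_cancel₀ hKi, one_mul]
            simp only [hw]
            by_cases hb : b = a
            · subst hb
              rw [if_pos rfl, if_pos rfl, Matrix.one_apply_eq, sub_zero, ← hc,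
                mul_inv_cancel₀ hKi]
            · rw [if_neg hb, if_neg hb, Matrix.one_apply_ne (Ne.symm hb)]
              by_cases hbm : b = m
              · subst hbm
                rw [if_pos rfl, if_pos rfl]; ring
              · rw [if_neg hbm, if_neg hbm]; ring
          · have has : a ∉ s := ha.resolve_left hai
            have ham : a ≠ m := fun h => has (h ▸ hms)
            rw [hK a has, hK a has, Matrix.one_apply_ne hai, zero_mul, zero_mul, sub_zero]
            by_cases hab : a = b
            · subst hab
              rw [Matrix.one_apply_eq, if_neg hai, if_neg ham, one_mul]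
            · rw [Matrix.one_apply_ne hab, zero_mul]
      · push Not at hm
        have h1 : K = TT i (K i - (1 : Matrix (Fin d) (Fin d) ℝ) i) := by
          ext a b
          simp only [TT, Pi.sub_apply]
          by_cases ha : a = i
          · subst ha; simp
          · rw [if_neg ha, add_zero]
            exact hK a (fun h => ha (hm a h)) b
        have h2 : K i i = 1 := by
          have h3 := det_TT i (K i - (1 : Matrix (Fin d) (Fin d) ℝ) i)
          rw [← h1, hKd, Pi.sub_apply, Matrix.one_apply_eq] at h3
          linarith
        rw [h1, TT_mul]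
        refine stable_rowadd hG ?_ ?_ _ hg
        · rw [Pi.sub_apply, Matrix.one_apply_eq, h2, sub_self]
        · intro j hj
          have hij : i ≠ j := by
            rintro rfl
            rw [hKR i i hj] at h2
            exact zero_ne_one h2
          rw [Pi.sub_apply, Matrix.one_apply_ne hij, hKR i j hj, sub_zero]
    rintro K hKR hKd ⟨s, hs, hK⟩ g hg
    rcases s.eq_empty_or_nonempty with rfl | ⟨i, hi⟩
    · exact ih K hKR hKd ⟨∅, by simp, hK⟩ g hg
    by_cases hKi : K i i = 0
    · -- a nonzero entry of the row outside
      obtain ⟨l, hls, hKl⟩ : ∃ l ∈ s, K i l ≠ 0 := by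
        by_contra hcon
        push Not at hcon
        have h1 : (fun l => (1 : Matrix (Fin d) (Fin d) ℝ) i l - K i l) ᵥ* K = 0 := by
          funext b
          simp only [Matrix.vecMul, dotProduct, sub_mul, Finset.sum_sub_distrib, Pi.zero_apply]
          have h2 : ∑ x, (1 : Matrix (Fin d) (Fin d) ℝ) i x * K x b = K i b := by
            simp [Matrix.one_apply]
          have h3 : ∑ x, K i x * K x b = K i b := by
            have h4 : ∀ x, K i x * K x b = K i x * (1 : Matrix (Fin d) (Fin d) ℝ) x b := by
              intro x
              by_cases hx : x ∈ s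
              · rw [hcon x hx, zero_mul, zero_mul]
              · rw [hK x hx]
            simp only [h4]
            simp [Matrix.one_apply]
          rw [h2, h3, sub_self]
        have h2 := Matrix.eq_zero_of_vecMul_eq_zero (by rw [hKd]; exact one_ne_zero) h1
        have h3 := congrFun h2 i
        simp only [Matrix.one_apply_eq, hKi, sub_zero, Pi.zero_apply] at h3
        exact one_ne_zero h3
      have hli : l ≠ i := by
        rintro rfl
        exact hKl hKi
      have hRil : R i l := by
        by_contra h
        exact hKl (hKR i l h)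
      set K' := K * transvection l i (-1) with hK'
      have hK'K : K' * transvection l i 1 = K := by
        rw [hK', Matrix.mul_assoc, transvection_mul_transvection_same _ _ hli, neg_add_cancel,
          transvection_zero, Matrix.mul_one]
      have h1 := hA K' ?_ ?_ s hs ?_ i hi ?_ _ (hG l i hli (hRs i l hRil) 1 g hg)
      · rw [← hK'K]
        simpa only [Matrix.mul_assoc] using h1
      · intro a b hab
        rw [hK', mul_transvection_apply', hKR a b hab, zero_add]
        split_ifs with hb
        · subst hb
          have h3 : ¬ R a l := fun h => hab (hRt a l b h (hRs b l hRil))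
          rw [hKR a l h3, zero_mul]
        · rfl
      · rw [hK', det_mul, hKd, det_transvection_of_ne _ _ hli, mul_one]
      · intro a ha b
        have hal : a ≠ l := fun h => ha (h ▸ hls)
        rw [hK', mul_transvection_apply', hK a ha, hK a ha,
          Matrix.one_apply_ne hal, zero_mul, ite_self, add_zero]
      · rw [hK', mul_transvection_apply', if_pos rfl, hKi, zero_add]
        simpa using hKl
    · exact hA K hKR hKd s hs hK i hi hKi g hg

end Pool.Agent.Y327
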