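import Mathlib
import Pool.Agent.Y327.ZarBlk

/-! # Generic points of minimal sets -/

open Filter Topology Matrix

set_option linter.unusedSectionVars false

namespace Pool.Agent.Y327

open H715R2

variable {d : ℕ}

/-- along a diagonal direction a polynomial is a Laurent polynomial -/
lemma laurent (i j : Fin d) (h : Matrix (Fin d) (Fin d) ℝ)
    (P : MvPolynomial (Fin d × Fin d) ℝ) : ∃ (N : ℕ) (r : Polynomial ℝ), ∀ c : ℝ, c ≠ 0 →
      c ^ N * ev P (dd i j c * h) = r.eval c := by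
  induction P using MvPolynomial.induction_on with
  | C a => exact ⟨0, Polynomial.C a, fun c _ => by simp [ev]⟩
  | add P Q hP hQ =>
    obtain ⟨N, r, hr⟩ := hP
    obtain ⟨N', r', hr'⟩ := hQ
    refine ⟨N + N', Polynomial.X ^ N' * r + Polynomial.X ^ N * r', fun c hc => ?_⟩
    simp only [Polynomial.eval_add, Polynomial.eval_mul, Polynomial.eval_pow, Polynomial.eval_X,
      ← hr c hc, ← hr' c hc, ev, map_add]
    ring
  | mul_X P p hP =>
    obtain ⟨N, r, hr⟩ := hP
    refine ⟨N + 1, r * (Polynomial.C (h p.1 p.2) * (if p.1 = i then Polynomial.X * Polynomial.X else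
      if p.1 = j then 1 else Polynomial.X)), fun c hc => ?_⟩
    have h1 : ev (P * MvPolynomial.X p) (dd i j c * h) =
        ev P (dd i j c * h) * (dd i j c * h) p.1 p.2 := by
      simp only [ev, map_mul, MvPolynomial.eval_X]
    rw [h1, dd_mul_apply, Polynomial.eval_mul, ← hr c hc]
    split_ifs
    · simp only [Polynomial.eval_mul, Polynomial.eval_C, Polynomial.eval_X]
      ring
    · simp only [Polynomial.eval_mul, Polynomial.eval_C, Polynomial.eval_one]
      field_simp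
      ring
    · simp only [Polynomial.eval_mul, Polynomial.eval_C, Polynomial.eval_X]
      ring

lemma dd_BB {i j : Fin d} (hij : i ≠ j) {c : ℝ} (hc : 0 < c) :
    BB id (fun k : Fin d => if k = i then c else if k = j then c⁻¹ else 1) := by
  refine ⟨fun k => ?_, ?_, fun a b hab => by rw [show a = b from hab]⟩
  · dsimp only
    split_ifs
    · exact hc
    · exact inv_pos.2 hc
    · exact one_pos
  · have := det_dd hij hc.ne'
    rwa [dd, det_diagonal] at this

lemma continuousAt_dd (i j : Fin d) (h : Matrix (Fin d) (Fin d) ℝ) :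
    ContinuousAt (fun c : ℝ => dd i j c * h) 1 := by
  have h1 : (fun c : ℝ => dd i j c * h) = fun c : ℝ => fun a b : Fin d =>
      (if a = i then c else if a = j then c⁻¹ else 1) * h a b := by
    funext c a b
    exact dd_mul_apply i j c h a b
  rw [h1]
  refine continuousAt_pi.2 fun a => continuousAt_pi.2 fun b => ?_
  refine ContinuousAt.mul ?_ continuousAt_const
  split_ifs
  · exact continuousAt_id
  · exact continuousAt_inv₀ one_ne_zero
  · exact continuousAt_const

/-- polynomials vanishing on a piece of a minimal set vanish along the diagonal directions -/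
theorem dd_vanish {M W : Set (Matrix (Fin d) (Fin d) ℝ)} (hM : MinB id M) (hW : IsOpen W)
    {i j : Fin d} (hij : i ≠ j) {P : MvPolynomial (Fin d × Fin d) ℝ}
    (hP : ∀ h ∈ M, h ∈ W → ev P h = 0) {c : ℝ} (hc : c ≠ 0) :
    ∀ h ∈ M, h ∈ W → ev P (dd i j c * h) = 0 := by
  intro h hh hhW
  obtain ⟨N, r, hr⟩ := laurent i j h P
  have hone : dd i j 1 * h = h := by
    have : dd i j 1 = 1 := by
      rw [dd, ← diagonal_one]
      congr 1
      funext k
      split_ifs <;> simp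
    rw [this, Matrix.one_mul]
  have h1 : ∀ᶠ c in 𝓝 (1 : ℝ), dd i j c * h ∈ W := by
    refine (continuousAt_dd i j h).eventually_mem ?_
    rw [hone]
    exact hW.mem_nhds hhW
  have h2 : ∀ᶠ c in 𝓝 (1 : ℝ), 0 < c := lt_mem_nhds one_pos
  have h3 : ∀ᶠ c in 𝓝 (1 : ℝ), r.IsRoot c := by
    filter_upwards [h1, h2] with c hcW hc0
    have h4 : dd i j c * h ∈ M := hM.inv.diag hh (dd_BB hij hc0)
    rw [Polynomial.IsRoot, ← hr c hc0.ne', hP _ h4 hcW, mul_zero]
  have h4 : r = 0 := by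
    refine Polynomial.eq_zero_of_infinite_isRoot r ?_
    obtain ⟨δ, hδ, hδr⟩ := Metric.eventually_nhds_iff_ball.1 h3
    refine Set.Infinite.mono (s := Metric.ball (1 : ℝ) δ) (fun x hx => hδr x hx) ?_
    rw [Real.ball_eq_Ioo]
    exact Set.Ioo_infinite (by linarith)
  have h5 := hr c hc
  rw [h4, Polynomial.eval_zero] at h5
  exact (mul_eq_zero.1 h5).resolve_left (pow_ne_zero _ hc)

/-- the polynomial composed with a multiplication by a diagonal matrix -/
noncomputable def cmp (D : Fin d → ℝ) (P : MvPolynomial (Fin d × Fin d) ℝ) :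
    MvPolynomial (Fin d × Fin d) ℝ :=
  MvPolynomial.aeval (fun p => MvPolynomial.C (D p.1) * MvPolynomial.X p) P

lemma ev_cmp (D : Fin d → ℝ) (P : MvPolynomial (Fin d × Fin d) ℝ)
    (h : Matrix (Fin d) (Fin d) ℝ) : ev (cmp D P) h = ev P (diagonal D * h) := by
  induction P using MvPolynomial.induction_on with
  | C a =>
    have h1 : cmp D (MvPolynomial.C a) = MvPolynomial.C a := by
      rw [cmp, MvPolynomial.aeval_C]
      rfl
    rw [h1]
    simp [ev]
  | add P Q hP hQ =>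
    have h1 : cmp D (P + Q) = cmp D P + cmp D Q := map_add _ _ _
    rw [h1]
    simp only [ev, map_add] at hP hQ ⊢
    rw [hP, hQ]
  | mul_X P p hP =>
    have h1 : cmp D (P * MvPolynomial.X p) =
        cmp D P * (MvPolynomial.C (D p.1) * MvPolynomial.X p) := by
      rw [cmp, map_mul, MvPolynomial.aeval_X]
      rfl
    rw [h1]
    simp only [ev, map_mul, MvPolynomial.eval_C, MvPolynomial.eval_X, Matrix.diagonal_mul] at hP ⊢
    rw [hP]

/-- **Zariski density.** A polynomial which vanishes on a piece of a minimal set vanishes on the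
whole orbit of each point of the piece under the block matrices of determinant one. -/
theorem vanish_block {M W : Set (Matrix (Fin d) (Fin d) ℝ)} (hM : MinB id M) (hW : IsOpen W)
    {h₀ : Matrix (Fin d) (Fin d) ℝ}
    (hsmall : ∀ i j : Fin d, i ≠ j → Sam h₀ i j → ∀ h₁ ∈ M, ∀ U ∈ 𝓝 h₁, ∀ δ : ℝ, 0 < δ →
      ∃ h ∈ M, h ∈ U ∧ ∃ t : ℝ, t ≠ 0 ∧ |t| < δ ∧ transvection i j t * h ∈ M)
    {P : MvPolynomial (Fin d × Fin d) ℝ} (hP : ∀ h ∈ M, h ∈ W → ev P h = 0)
    {h : Matrix (Fin d) (Fin d) ℝ} (hh : h ∈ M) (hhW : h ∈ W)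
    {K : Matrix (Fin d) (Fin d) ℝ} (hK : ∀ i j, ¬ Sam h₀ i j → K i j = 0) (hKd : K.det = 1) :
    ev P (K * h) = 0 := by
  set I : Set (MvPolynomial (Fin d × Fin d) ℝ) := {P | ∀ h ∈ M, h ∈ W → ev P h = 0} with hI
  have hstable : ∀ i j : Fin d, i ≠ j → Sam h₀ i j → ∀ P ∈ I, DD i j P ∈ I :=
    fun i j hij hs P hP => rolle_step hW hij (hsmall i j hij hs) hP
  set G : Set (Matrix (Fin d) (Fin d) ℝ) := {g | ∀ P ∈ I, ev P g = 0} with hG
  have hGs : ∀ i j : Fin d, i ≠ j → Sam h₀ i j → ∀ t : ℝ, ∀ g ∈ G, transvection i j t * g ∈ G := by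
    intro i j hij hs t g hg P hP
    exact vanish_along hij (hstable i j hij hs) hg t P hP
  have hGd : ∀ i j : Fin d, i ≠ j → ∀ c : ℝ, c ≠ 0 → ∀ g ∈ G, dd i j c * g ∈ G := by
    intro i j hij c hc g hg P hP
    have h1 : cmp (fun k : Fin d => if k = i then c else if k = j then c⁻¹ else 1) P ∈ I := by
      intro h hh hhW
      rw [ev_cmp]
      exact dd_vanish hM hW hij hP hc h hh hhW
    have h2 := hg _ h1
    rwa [ev_cmp] at h2
  have hhG : h ∈ G := fun P hP => hP h hh hhW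
  exact stable_block (R := Sam h₀) (fun _ _ => Sam.symm) (fun _ _ _ => Sam.trans) hGs hGd d K hK hKd
    ⟨Finset.univ, by simp, fun j hj => absurd (Finset.mem_univ j) hj⟩ h hhG P hP

/-- **Generic points.** -/
theorem generic_dense {M : Set (Matrix (Fin d) (Fin d) ℝ)} (hM : MinB id M)
    {h₀ : Matrix (Fin d) (Fin d) ℝ}
    (hsmall : ∀ i j : Fin d, i ≠ j → Sam h₀ i j → ∀ h₁ ∈ M, ∀ U ∈ 𝓝 h₁, ∀ δ : ℝ, 0 < δ →
      ∃ h ∈ M, h ∈ U ∧ ∃ t : ℝ, t ≠ 0 ∧ |t| < δ ∧ transvection i j t * h ∈ M)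
    {Φ : Set (MvPolynomial (Fin d × Fin d) ℝ)} (hΦ : Φ.Countable) :
    ∀ h₁ ∈ M, ∀ U ∈ 𝓝 h₁, ∃ h ∈ M, h ∈ U ∧ ∀ P ∈ Φ, ev P h = 0 →
      ∀ K : Matrix (Fin d) (Fin d) ℝ, (∀ i j, ¬ Sam h₀ i j → K i j = 0) → K.det = 1 →
        ev P (K * h) = 0 := by
  intro h₁ hh₁ U hU
  have : LocallyCompactSpace (Matrix (Fin d) (Fin d) ℝ) :=
    inferInstanceAs (LocallyCompactSpace (Fin d → Fin d → ℝ))
  have : LocallyCompactSpace M := hM.closed.locallyCompactSpace
  have : BaireSpace M := inferInstance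
  have hZ : ∀ P : MvPolynomial (Fin d × Fin d) ℝ, IsClosed {x : M | ev P x.1 = 0} := fun P =>
    isClosed_eq ((continuous_ev P).comp continuous_subtype_val) continuous_const
  have h1 : Dense (⋂ P ∈ Φ, (frontier {x : M | ev P x.1 = 0})ᶜ) := by
    refine dense_biInter_of_isOpen (fun P _ => isClosed_frontier.isOpen_compl) hΦ (fun P _ => ?_)
    rw [← interior_eq_empty_iff_dense_compl]
    exact interior_frontier (hZ P)
  obtain ⟨V, hVU, hVo, hV1⟩ := mem_nhds_iff.1 hU
  obtain ⟨x, hxV, hx⟩ := h1.inter_open_nonempty (Subtype.val ⁻¹' V)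
    (hVo.preimage continuous_subtype_val) ⟨⟨h₁, hh₁⟩, hV1⟩
  refine ⟨x.1, x.2, hVU hxV, fun P hP hPx K hK hKd => ?_⟩
  have h2 := Set.mem_iInter₂.1 hx P hP
  have h3 : x ∈ interior {x : M | ev P x.1 = 0} := by
    rw [Set.mem_compl_iff, (hZ P).frontier_eq, Set.mem_sdiff, not_and_not_right] at h2
    exact h2 hPx
  obtain ⟨O, hO, hOo, hxO⟩ := mem_interior.1 h3
  obtain ⟨W, hWo, hWO⟩ := isOpen_induced_iff.1 hOo
  refine vanish_block hM hWo hsmall (fun h hh hhW => ?_) x.2 ?_ hK hKd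
  · have h4 : (⟨h, hh⟩ : M) ∈ O := by
      rw [← hWO]
      exact hhW
    exact hO h4
  · rw [← hWO] at hxO
    exact hxO

end Pool.Agent.Y327
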