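import Mathlib
import Pool.Agent.Y327.ZarGen

/-! # Algebraic independence of the entries of generic points -/

open Filter Topology Matrix

set_option linter.unusedSectionVars false

namespace Pool.Agent.Y327

open H715R2

variable {d : ℕ}

/-- a real polynomial which vanishes near a point is zero -/
lemma mvpoly_zero {ι : Type*} [Finite ι] (p : MvPolynomial ι ℝ) (y₁ : ι → ℝ)
    (h : ∀ᶠ y in 𝓝 y₁, MvPolynomial.eval y p = 0) : p = 0 := by
  classical
  have := Fintype.ofFinite ι
  obtain ⟨δ, hδ, hδp⟩ := Metric.eventually_nhds_iff_ball.1 h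
  refine MvPolynomial.funext_set (fun i => Set.Ioo (y₁ i - δ / 2) (y₁ i + δ / 2))
    (fun i => Set.Ioo_infinite (by linarith)) fun x hx => ?_
  rw [map_zero]
  refine hδp x ?_
  rw [Metric.mem_ball, dist_pi_lt_iff hδ]
  intro i
  have h1 := hx i (Set.mem_univ i)
  rw [Real.dist_eq, abs_lt]
  constructor <;> linarith [h1.1, h1.2]

/-- columns which form a basis on a set of rows -/
lemma exists_cols {h : Matrix (Fin d) (Fin d) ℝ} (hu : IsUnit h.det) (R : Fin d → Prop)
    [DecidablePred R] : ∃ (T : Finset (Fin d)) (N : Fin d → Fin d → ℝ),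
      T.card = Nat.card {j // R j} ∧
      (∀ b ∈ T, ∀ b' ∈ T, ∑ j, (if R j then h j b' * N b j else 0) = if b = b' then 1 else 0) ∧
      (∀ j j', R j → R j' → ∑ b ∈ T, h j b * N b j' = if j = j' then 1 else 0) := by
  classical
  set v : Fin d → ({j // R j} → ℝ) := fun b j => h j.1 b with hv
  have hspan : Submodule.span ℝ (Set.range v) = ⊤ := by
    rw [eq_top_iff, ← (Pi.basisFun ℝ {j // R j}).span_eq, Submodule.span_le]
    rintro _ ⟨j', rfl⟩
    have h1 : (Pi.basisFun ℝ {j // R j}) j' = ∑ b, h⁻¹ b j'.1 • v b := by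
      funext j
      rw [Finset.sum_apply]
      simp only [Pi.basisFun_apply, Pi.smul_apply, smul_eq_mul, hv]
      have h2 := congrFun (congrFun (Matrix.mul_nonsing_inv h hu) j.1) j'.1
      rw [Matrix.mul_apply, Matrix.one_apply] at h2
      rw [Pi.single_apply]
      simp only [mul_comm (h⁻¹ _ _), h2, Subtype.ext_iff]
    rw [h1]
    exact Submodule.sum_mem _ fun b _ =>
      Submodule.smul_mem _ _ (Submodule.subset_span ⟨b, rfl⟩)
  obtain ⟨κ, a, ha, hsp, hli⟩ := exists_linearIndependent' ℝ v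
  have : Finite κ := Finite.of_injective a ha
  have := Fintype.ofFinite κ
  set B : Module.Basis κ ℝ ({j // R j} → ℝ) := Module.Basis.mk hli (by rw [hsp, hspan]) with hB
  have hBa : ∀ κ', B κ' = v (a κ') := fun κ' => Module.Basis.mk_apply _ _ _
  set N : Fin d → Fin d → ℝ := fun b j => Function.extend a
    (fun κ' => if hj : R j then B.repr (Pi.single ⟨j, hj⟩ 1) κ' else 0) 0 b with hN
  have hNa : ∀ κ' j (hj : R j), N (a κ') j = B.repr (Pi.single ⟨j, hj⟩ 1) κ' := by
    intro κ' j hj
    simp only [hN]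
    rw [ha.extend_apply, dif_pos hj]
  refine ⟨Finset.univ.image a, N, ?_, ?_, ?_⟩
  · rw [Finset.card_image_of_injective _ ha, Finset.card_univ, Nat.card_eq_fintype_card]
    have h1 := Module.finrank_eq_card_basis B
    rw [Module.finrank_fintype_fun_eq_card] at h1
    exact h1.symm
  · intro b hb b' hb'
    rw [Finset.mem_image] at hb hb'
    obtain ⟨κ₁, -, rfl⟩ := hb
    obtain ⟨κ₂, -, rfl⟩ := hb'
    have h1 : ∑ j, (if R j then h j (a κ₂) * N (a κ₁) j else 0) =
        ∑ j : {j // R j}, h j.1 (a κ₂) * B.repr (Pi.single j 1) κ₁ := by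
      rw [← Finset.sum_filter, Finset.sum_subtype (p := R) _ (fun j => by simp)]
      exact Finset.sum_congr rfl fun j _ => by rw [hNa κ₁ j.1 j.2]
    have h2 : v (a κ₂) = ∑ j : {j // R j}, h j.1 (a κ₂) • (Pi.single j 1 : {j // R j} → ℝ) := by
      funext j
      rw [Finset.sum_apply]
      simp [hv, Pi.single_apply]
    have h3 : B.repr (v (a κ₂)) κ₁ = ∑ j : {j // R j}, h j.1 (a κ₂) * B.repr (Pi.single j 1) κ₁ := by
      conv_lhs => rw [h2]
      rw [map_sum, Finsupp.finsetSum_apply]
      exact Finset.sum_congr rfl fun j _ => by rw [map_smul, Finsupp.smul_apply, smul_eq_mul]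
    rw [h1, ← h3, ← hBa, B.repr_self, Finsupp.single_apply]
    simp only [ha.eq_iff]
    by_cases h4 : κ₁ = κ₂
    · rw [if_pos h4, if_pos h4.symm]
    · rw [if_neg h4, if_neg (Ne.symm h4)]
  · intro j j' hj hj'
    rw [Finset.sum_image fun x _ y _ hxy => ha hxy]
    have h1 := B.sum_repr (Pi.single ⟨j', hj'⟩ 1)
    have h2 := congrFun h1 ⟨j, hj⟩
    rw [Finset.sum_apply] at h2
    simp only [hBa, Pi.smul_apply, smul_eq_mul, Pi.single_apply, Subtype.mk.injEq] at h2
    rw [← h2]
    exact Finset.sum_congr rfl fun κ' _ => by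
      rw [hNa κ' j' hj', mul_comm]

/-- columns for the rows of each class -/
lemma exists_frame (h₀ : Matrix (Fin d) (Fin d) ℝ) {h : Matrix (Fin d) (Fin d) ℝ}
    (hu : IsUnit h.det) [∀ i j, Decidable (Sam h₀ i j)] :
    ∃ (T : Fin d → Finset (Fin d)) (N : Fin d → Fin d → Fin d → ℝ),
      (∀ i, (T i).card = Nat.card {j // Sam h₀ i j}) ∧
      (∀ i, ∀ b ∈ T i, ∀ b' ∈ T i,
        ∑ j, (if Sam h₀ i j then h j b' * N i b j else 0) = if b = b' then 1 else 0) ∧
      (∀ i j j', Sam h₀ i j → Sam h₀ i j' →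
        ∑ b ∈ T i, h j b * N i b j' = if j = j' then 1 else 0) := by
  classical
  choose T N h1 h2 h3 using fun i : Fin d => exists_cols hu (Sam h₀ i)
  exact ⟨T, N, h1, h2, fun i j j' hj hj' => h3 i j j' hj hj'⟩

/-- the block matrix with prescribed values in the chosen columns -/
noncomputable def KY (R : Fin d → Fin d → Prop) [∀ i j, Decidable (R i j)]
    (T : Fin d → Finset (Fin d)) (N : Fin d → Fin d → Fin d → ℝ) (Y : Fin d → Fin d → ℝ) :
    Matrix (Fin d) (Fin d) ℝ :=
  fun i j => if R i j then ∑ b ∈ T i, Y i b * N i b j else 0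

section frame

variable {R : Fin d → Fin d → Prop} [∀ i j, Decidable (R i j)] {T : Fin d → Finset (Fin d)}
  {N : Fin d → Fin d → Fin d → ℝ} {h : Matrix (Fin d) (Fin d) ℝ}

lemma KY_mul (hN : ∀ i, ∀ b ∈ T i, ∀ b' ∈ T i,
      ∑ j, (if R i j then h j b' * N i b j else 0) = if b = b' then 1 else 0)
    (Y : Fin d → Fin d → ℝ) (i b' : Fin d) (hb' : b' ∈ T i) : (KY R T N Y * h) i b' = Y i b' := by
  rw [Matrix.mul_apply]
  have h1 : ∀ j, KY R T N Y i j * h j b' =
      ∑ b ∈ T i, Y i b * (if R i j then h j b' * N i b j else 0) := by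
    intro j
    simp only [KY]
    split_ifs with hR
    · rw [Finset.sum_mul]
      exact Finset.sum_congr rfl fun b _ => by ring
    · simp
  simp only [h1]
  rw [Finset.sum_comm]
  simp only [← Finset.mul_sum]
  rw [Finset.sum_congr rfl fun b hb => by rw [hN i b hb b' hb']]
  simp [hb']

lemma KY_eq (hN : ∀ i j j', R i j → R i j' →
      ∑ b ∈ T i, h j b * N i b j' = if j = j' then 1 else 0)
    {K : Matrix (Fin d) (Fin d) ℝ} (hK : ∀ i j, ¬ R i j → K i j = 0) {Y : Fin d → Fin d → ℝ}
    (hY : ∀ i, ∀ b ∈ T i, Y i b = (K * h) i b) : KY R T N Y = K := by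
  ext i j
  simp only [KY]
  split_ifs with hR
  · rw [Finset.sum_congr rfl fun b hb => by rw [hY i b hb, Matrix.mul_apply, Finset.sum_mul],
      Finset.sum_comm]
    have h1 : ∀ j', ∑ b ∈ T i, K i j' * h j' b * N i b j = K i j' * (if j' = j then 1 else 0) := by
      intro j'
      by_cases hR' : R i j'
      · rw [← hN i j' j hR' hR, Finset.mul_sum]
        exact Finset.sum_congr rfl fun b _ => by ring
      · rw [hK i j' hR']
        simp
    simp only [h1, mul_ite, mul_one, mul_zero, Finset.sum_ite_eq', Finset.mem_univ, if_true]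
  · rw [hK i j hR]

lemma continuous_KY : Continuous (fun Y : Fin d → Fin d → ℝ => KY R T N Y) := by
  refine continuous_matrix fun i j => ?_
  simp only [KY]
  split_ifs
  · refine continuous_finsetSum _ fun b _ => ?_
    exact (continuous_apply_apply i b).mul continuous_const
  · exact continuous_const

/-- changing one entry -/
lemma KY_update {i₀ b₀ : Fin d} (hb₀ : b₀ ∈ T i₀) (Y : Fin d → Fin d → ℝ) (z : ℝ)
    (hY : Y i₀ b₀ = 0) :
    KY R T N (Function.update Y i₀ (Function.update (Y i₀) b₀ z)) =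
      (KY R T N Y).updateRow i₀ (KY R T N Y i₀ + z • fun j => if R i₀ j then N i₀ b₀ j else 0) := by
  ext i j
  by_cases hi : i = i₀
  · subst hi
    rw [Matrix.updateRow_self]
    simp only [KY, Function.update_self, Pi.add_apply, Pi.smul_apply, smul_eq_mul]
    split_ifs
    · rw [← Finset.add_sum_erase _ _ hb₀, ← Finset.add_sum_erase (T i) (fun b => Y i b * N i b j)
        hb₀, hY, Function.update_self]
      have h1 : ∑ x ∈ (T i).erase b₀, Function.update (Y i) b₀ z x * N i x j =
          ∑ x ∈ (T i).erase b₀, Y i x * N i x j :=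
        Finset.sum_congr rfl fun b hb => by
          rw [Function.update_of_ne (Finset.ne_of_mem_erase hb)]
      rw [h1]
      ring
    · ring
  · rw [Matrix.updateRow_ne hi]
    simp only [KY]
    rw [Function.update_of_ne hi]

end frame

/-- **Algebraic independence of all entries of the frame but one.** -/
theorem algInd_of_generic {k : Subfield ℝ} {h₀ h : Matrix (Fin d) (Fin d) ℝ}
    [∀ i j, Decidable (Sam h₀ i j)] {T : Fin d → Finset (Fin d)} {N : Fin d → Fin d → Fin d → ℝ}
    (hN1 : ∀ i, ∀ b ∈ T i, ∀ b' ∈ T i,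
      ∑ j, (if Sam h₀ i j then h j b' * N i b j else 0) = if b = b' then 1 else 0)
    (hN2 : ∀ i j j', Sam h₀ i j → Sam h₀ i j' →
      ∑ b ∈ T i, h j b * N i b j' = if j = j' then 1 else 0)
    (hgen : ∀ p : MvPolynomial (Fin d × Fin d) k, ev (p.map (algebraMap k ℝ)) h = 0 →
      ∀ K : Matrix (Fin d) (Fin d) ℝ, (∀ i j, ¬ Sam h₀ i j → K i j = 0) → K.det = 1 →
        ev (p.map (algebraMap k ℝ)) (K * h) = 0)
    (e₀ : Fin d × Fin d) (he₀ : e₀.2 ∈ T e₀.1) :
    AlgebraicIndependent k
      (fun e : {e : Fin d × Fin d // e.2 ∈ T e.1 ∧ e ≠ e₀} => h e.1.1 e.1.2) := by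
  classical
  rw [algebraicIndependent_iff]
  intro p hp
  -- the polynomial in all entries
  have hev : ∀ g : Matrix (Fin d) (Fin d) ℝ,
      ev ((MvPolynomial.rename Subtype.val p).map (algebraMap k ℝ)) g =
      MvPolynomial.eval (fun e : {e : Fin d × Fin d // e.2 ∈ T e.1 ∧ e ≠ e₀} => g e.1.1 e.1.2)
        (p.map (algebraMap k ℝ)) := by
    intro g
    rw [ev, MvPolynomial.map_rename, MvPolynomial.eval_rename]
    rfl
  have hgen' := hgen (MvPolynomial.rename Subtype.val p) (by
    rw [hev, MvPolynomial.eval_map, ← MvPolynomial.aeval_def]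
    exact hp)
  -- the two pieces of the determinant
  set Y : ({e : Fin d × Fin d // e.2 ∈ T e.1 ∧ e ≠ e₀} → ℝ) → Fin d → Fin d → ℝ :=
    fun y i b => if hE : b ∈ T i ∧ (i, b) ≠ e₀ then y ⟨(i, b), hE⟩ else 0 with hYdef
  have hYcont : Continuous Y := by
    refine continuous_pi fun i => continuous_pi fun b => ?_
    simp only [hYdef]
    split_ifs with hE
    · exact continuous_apply _
    · exact continuous_const
  set ρ : Fin d → ℝ := fun j => if Sam h₀ e₀.1 j then N e₀.1 e₀.2 j else 0 with hρ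
  have hY0 : ∀ y, Y y e₀.1 e₀.2 = 0 := by
    intro y
    simp only [hYdef]
    rw [dif_neg]
    rintro ⟨-, h1⟩
    exact h1 rfl
  set A : ({e : Fin d × Fin d // e.2 ∈ T e.1 ∧ e ≠ e₀} → ℝ) → ℝ :=
    fun y => (KY (Sam h₀) T N (Y y)).det with hA
  set B : ({e : Fin d × Fin d // e.2 ∈ T e.1 ∧ e ≠ e₀} → ℝ) → ℝ :=
    fun y => ((KY (Sam h₀) T N (Y y)).updateRow e₀.1 ρ).det with hB
  have hdet : ∀ y z, (KY (Sam h₀) T N
      (Function.update (Y y) e₀.1 (Function.update (Y y e₀.1) e₀.2 z))).det = A y + z * B y := by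
    intro y z
    rw [KY_update he₀ _ _ (hY0 y), Matrix.det_updateRow_add, Matrix.det_updateRow_smul,
      Matrix.updateRow_eq_self]
  have hBcont : Continuous B := by
    refine Continuous.matrix_det ?_
    refine Continuous.matrix_updateRow e₀.1 (continuous_KY.comp hYcont) continuous_const
  -- a point at which the second piece does not vanish
  obtain ⟨l, hl⟩ : ∃ l, ρ l ≠ 0 := by
    by_contra hcon
    push Not at hcon
    have h1 := hN1 e₀.1 e₀.2 he₀ e₀.2 he₀
    rw [if_pos rfl] at h1
    have h2 : ∑ j, (if Sam h₀ e₀.1 j then h j e₀.2 * N e₀.1 e₀.2 j else 0) = 0 := by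
      refine Finset.sum_eq_zero fun j _ => ?_
      have h3 := hcon j
      simp only [hρ] at h3
      split_ifs with h4
      · rw [if_pos h4] at h3
        rw [h3, mul_zero]
      · rfl
    rw [h2] at h1
    exact zero_ne_one h1
  have hRl : Sam h₀ e₀.1 l := by
    by_contra h1
    exact hl (by simp only [hρ]; rw [if_neg h1])
  set K₁ : Matrix (Fin d) (Fin d) ℝ := fun i j => if Equiv.swap e₀.1 l i = j then 1 else 0
    with hK₁
  have hK₁R : ∀ i j, ¬ Sam h₀ i j → K₁ i j = 0 := by
    intro i j hij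
    simp only [hK₁]
    rw [if_neg]
    intro h1
    apply hij
    rw [← h1]
    rcases eq_or_ne i e₀.1 with h2 | h2
    · rw [h2, Equiv.swap_apply_left]; exact hRl
    · rcases eq_or_ne i l with h3 | h3
      · rw [h3, Equiv.swap_apply_right]; exact hRl.symm
      · rw [Equiv.swap_apply_of_ne_of_ne h2 h3]; exact Sam.refl _ _
  set y₁ : {e : Fin d × Fin d // e.2 ∈ T e.1 ∧ e ≠ e₀} → ℝ := fun e => (K₁ * h) e.1.1 e.1.2
    with hy₁
  have hKrow : ∀ i, i ≠ e₀.1 → KY (Sam h₀) T N (Y y₁) i = K₁ i := by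
    intro i hi
    have h1 : KY (Sam h₀) T N (fun i b => (K₁ * h) i b) = K₁ :=
      KY_eq hN2 hK₁R (fun i b _ => rfl)
    rw [← h1]
    funext j
    simp only [KY]
    split_ifs
    · refine Finset.sum_congr rfl fun b hb => ?_
      congr 1
      simp only [hYdef]
      rw [dif_pos ⟨hb, fun h2 => hi (by rw [← h2])⟩]
    · rfl
  have hBne : B y₁ ≠ 0 := by
    intro h0
    obtain ⟨v, hv0, hv⟩ := Matrix.exists_vecMul_eq_zero_iff.2 h0
    have hvj : ∀ j, v e₀.1 * ρ j + ∑ i ∈ Finset.univ.erase e₀.1, v i * K₁ i j = 0 := by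
      intro j
      have h1 := congrFun hv j
      rw [Matrix.vecMul, dotProduct, ← Finset.add_sum_erase _ _ (Finset.mem_univ e₀.1),
        Matrix.updateRow_self, Pi.zero_apply] at h1
      rw [← h1]
      congr 1
      refine Finset.sum_congr rfl fun i hi => ?_
      rw [Matrix.updateRow_ne (Finset.ne_of_mem_erase hi), hKrow i (Finset.ne_of_mem_erase hi)]
    have hsum : ∀ j, ∑ i ∈ Finset.univ.erase e₀.1, v i * K₁ i j =
        if j = l then 0 else v (Equiv.swap e₀.1 l j) := by
      intro j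
      have h1 : ∀ i, v i * K₁ i j = if i = Equiv.swap e₀.1 l j then v i else 0 := by
        intro i
        simp only [hK₁]
        by_cases h2 : Equiv.swap e₀.1 l i = j
        · rw [if_pos h2, if_pos (by rw [← h2, Equiv.swap_apply_self]), mul_one]
        · rw [if_neg h2, if_neg (fun h3 => h2 (by rw [h3, Equiv.swap_apply_self])), mul_zero]
      simp only [h1]
      rw [Finset.sum_ite_eq']
      by_cases hj : j = l
      · rw [if_pos hj, if_neg]
        rw [hj, Equiv.swap_apply_right]
        exact Finset.notMem_erase _ _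
      · rw [if_neg hj, if_pos]
        rw [Finset.mem_erase]
        refine ⟨fun h2 => hj ?_, Finset.mem_univ _⟩
        rw [← Equiv.swap_apply_self e₀.1 l j, h2, Equiv.swap_apply_left]
    have hv1 : v e₀.1 = 0 := by
      have h1 := hvj l
      rw [hsum, if_pos rfl, add_zero] at h1
      exact (mul_eq_zero.1 h1).resolve_right hl
    apply hv0
    funext i
    rw [Pi.zero_apply]
    by_cases hi : i = e₀.1
    · rw [hi, hv1]
    · have h1 := hvj (Equiv.swap e₀.1 l i)
      rw [hv1, zero_mul, zero_add, hsum, if_neg, Equiv.swap_apply_self] at h1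
      · exact h1
      · intro h2
        apply hi
        rw [← Equiv.swap_apply_self e₀.1 l i, h2, Equiv.swap_apply_right]
  -- conclusion
  have hzero : p.map (algebraMap k ℝ) = 0 := by
    refine mvpoly_zero _ y₁ ?_
    filter_upwards [hBcont.continuousAt.eventually_ne hBne] with y hy
    set z := (1 - A y) / B y with hz
    have h1 : (KY (Sam h₀) T N
        (Function.update (Y y) e₀.1 (Function.update (Y y e₀.1) e₀.2 z))).det = 1 := by
      rw [hdet, hz, div_mul_cancel₀ _ hy]
      ring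
    have h2 := hgen' _ (fun i j hij => by simp only [KY]; rw [if_neg hij]) h1
    rw [hev] at h2
    rw [← h2]
    congr 2
    funext e
    rw [KY_mul hN1 _ _ _ e.2.1]
    by_cases hi : e.1.1 = e₀.1
    · have hb : e.1.2 ≠ e₀.2 := fun h3 => e.2.2 (Prod.ext hi h3)
      rw [hi, Function.update_self, Function.update_of_ne hb]
      simp only [hYdef]
      have h4 : ((e₀.1, e.1.2) : Fin d × Fin d) = e.1 := Prod.ext hi.symm rfl
      rw [dif_pos ⟨by rw [← hi]; exact e.2.1, by rw [h4]; exact e.2.2⟩]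
      congr 1
      exact Subtype.ext h4.symm
    · rw [Function.update_of_ne hi]
      simp only [hYdef]
      rw [dif_pos ⟨e.2.1, e.2.2⟩]
  exact MvPolynomial.map_injective _ (algebraMap k ℝ).injective (by rw [hzero, map_zero])

end Pool.Agent.Y327
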