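import Mathlib
import Pool.Agent.Y327.ZarAlg

/-! # All entries of the frame after a scaling -/

open Filter Topology Matrix

set_option linter.unusedSectionVars false

namespace Pool.Agent.Y327

open H715R2

variable {d : ℕ}

lemma countable_mvpoly (ι : Type) [Countable ι] (k : Type) [CommSemiring k] [Countable k] :
    Countable (MvPolynomial ι k) := by
  rw [← Cardinal.mk_le_aleph0_iff]
  refine MvPolynomial.cardinalMk_le_max.trans ?_
  simp only [max_le_iff, Cardinal.mk_le_aleph0_iff, le_refl, and_true]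
  exact ⟨inferInstance, inferInstance⟩

/-- the polynomial in the scaling parameter -/
noncomputable def qpol {ι : Type} {k : Subfield ℝ} (x : ι → ℝ) (p : MvPolynomial ι k) :
    Polynomial ℝ :=
  ∑ m ∈ Finset.range (p.totalDegree + 1),
    Polynomial.monomial m (MvPolynomial.aeval x (MvPolynomial.homogeneousComponent m p))

lemma aeval_smul_of_homog {ι : Type} {k : Subfield ℝ} {p : MvPolynomial ι k} {m : ℕ}
    (hp : p.IsHomogeneous m) (c : ℝ) (x : ι → ℝ) :
    MvPolynomial.aeval (c • x) p = c ^ m * MvPolynomial.aeval x p := by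
  have h1 : (p.map (algebraMap k ℝ)).IsHomogeneous m := hp.map _
  rw [MvPolynomial.aeval_def, MvPolynomial.aeval_def, ← MvPolynomial.eval_map,
    ← MvPolynomial.eval_map, MvPolynomial.eval_eq, MvPolynomial.eval_eq, Finset.mul_sum]
  refine Finset.sum_congr rfl fun s hs => ?_
  have h2 := h1 (MvPolynomial.mem_support_iff.1 hs)
  simp only [Finsupp.weight_apply, Pi.one_apply, smul_eq_mul, mul_one, Finsupp.sum] at h2
  simp only [Pi.smul_apply, smul_eq_mul, mul_pow, Finset.prod_mul_distrib]
  rw [Finset.prod_pow_eq_pow_sum, h2]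
  ring

lemma qpol_eval {ι : Type} {k : Subfield ℝ} (x : ι → ℝ) (p : MvPolynomial ι k) (c : ℝ) :
    (qpol x p).eval c = MvPolynomial.aeval (c • x) p := by
  conv_rhs => rw [← MvPolynomial.sum_homogeneousComponent p]
  rw [map_sum, qpol, Polynomial.eval_finsetSum]
  refine Finset.sum_congr rfl fun m _ => ?_
  rw [Polynomial.eval_monomial, aeval_smul_of_homog
    (MvPolynomial.homogeneousComponent_isHomogeneous m p)]
  ring

/-- a good scaling parameter -/
lemma exists_scale {ι : Type} [Countable ι] {k : Subfield ℝ} [Countable k] (x : ι → ℝ) :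
    ∃ c : ℝ, 0 < c ∧ ∀ p : MvPolynomial ι k, MvPolynomial.aeval (c • x) p = 0 →
      ∀ m, MvPolynomial.aeval x (MvPolynomial.homogeneousComponent m p) = 0 := by
  classical
  have := countable_mvpoly ι k
  set S : Set ℝ := ⋃ p : MvPolynomial ι k, {c | qpol x p ≠ 0 ∧ (qpol x p).IsRoot c} with hS
  have hSc : S.Countable := by
    refine Set.countable_iUnion fun p => ?_
    by_cases hp : qpol x p = 0
    · have : {c | qpol x p ≠ 0 ∧ (qpol x p).IsRoot c} = ∅ := by
        ext c
        simp [hp]
      rw [this]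
      exact Set.countable_empty
    · refine Set.Finite.countable ?_
      refine (Polynomial.finite_setOfPred_isRoot hp).subset fun c hc => hc.2
  obtain ⟨c, hc0, hcS⟩ : ∃ c, c ∈ Set.Ioi (0 : ℝ) ∧ c ∉ S := by
    by_contra hcon
    push Not at hcon
    have h1 : (Set.Ioi (0 : ℝ)).Countable := hSc.mono hcon
    have h2 := Cardinal.mk_Ioi_real 0
    have h3 := Cardinal.mk_le_aleph0_iff.2 h1.to_subtype
    rw [h2] at h3
    exact absurd h3 (not_le.2 Cardinal.aleph0_lt_continuum)
  refine ⟨c, hc0, fun p hp m => ?_⟩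
  have h1 : qpol x p = 0 := by
    by_contra h0
    exact hcS (Set.mem_iUnion.2 ⟨p, h0, by rw [Polynomial.IsRoot, qpol_eval, hp]⟩)
  have h2 := congrArg (fun q => Polynomial.coeff q m) h1
  simp only [qpol, Polynomial.finsetSum_coeff, Polynomial.coeff_monomial,
    Polynomial.coeff_zero, Finset.sum_ite_eq', Finset.mem_range] at h2
  by_cases hm : m < p.totalDegree + 1
  · rwa [if_pos hm] at h2
  · rw [MvPolynomial.homogeneousComponent_eq_zero m p (by omega), map_zero]

/-- **All entries of the frame are algebraically independent after a scaling.** -/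
theorem algInd_scaled {k : Subfield ℝ} [Countable k] (hd : 0 < d)
    {h₀ h : Matrix (Fin d) (Fin d) ℝ}
    [∀ i j, Decidable (Sam h₀ i j)] {T : Fin d → Finset (Fin d)} {N : Fin d → Fin d → Fin d → ℝ}
    (hN1 : ∀ i, ∀ b ∈ T i, ∀ b' ∈ T i,
      ∑ j, (if Sam h₀ i j then h j b' * N i b j else 0) = if b = b' then 1 else 0)
    (hN2 : ∀ i j j', Sam h₀ i j → Sam h₀ i j' →
      ∑ b ∈ T i, h j b * N i b j' = if j = j' then 1 else 0)
    (hgen : ∀ p : MvPolynomial (Fin d × Fin d) k, ev (p.map (algebraMap k ℝ)) h = 0 →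
      ∀ K : Matrix (Fin d) (Fin d) ℝ, (∀ i j, ¬ Sam h₀ i j → K i j = 0) → K.det = 1 →
        ev (p.map (algebraMap k ℝ)) (K * h) = 0) :
    ∃ c : ℝ, 0 < c ∧ AlgebraicIndependent k
      (fun e : {e : Fin d × Fin d // e.2 ∈ T e.1} => (c • h) e.1.1 e.1.2) := by
  classical
  obtain ⟨c, hc, hcp⟩ := exists_scale (k := k)
    (fun e : {e : Fin d × Fin d // e.2 ∈ T e.1} => h e.1.1 e.1.2)
  refine ⟨c, hc, ?_⟩
  rw [algebraicIndependent_iff]
  intro p hp
  have hev : ∀ (q : MvPolynomial {e : Fin d × Fin d // e.2 ∈ T e.1} k)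
      (g : Matrix (Fin d) (Fin d) ℝ),
      ev ((MvPolynomial.rename Subtype.val q).map (algebraMap k ℝ)) g =
      MvPolynomial.aeval (fun e : {e : Fin d × Fin d // e.2 ∈ T e.1} => g e.1.1 e.1.2) q := by
    intro q g
    rw [ev, MvPolynomial.map_rename, MvPolynomial.eval_rename, MvPolynomial.aeval_def,
      ← MvPolynomial.eval_map]
    rfl
  have hcomp : ∀ m, MvPolynomial.homogeneousComponent m p = 0 := by
    intro m
    set q := MvPolynomial.homogeneousComponent m p with hq
    have hqh : q.IsHomogeneous m := MvPolynomial.homogeneousComponent_isHomogeneous m p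
    have h1 := hgen (MvPolynomial.rename Subtype.val q) (by
      rw [hev]
      exact hcp p hp m)
    have h2 : ∀ K : Matrix (Fin d) (Fin d) ℝ, (∀ i j, ¬ Sam h₀ i j → K i j = 0) → 0 < K.det →
        MvPolynomial.aeval (fun e : {e : Fin d × Fin d // e.2 ∈ T e.1} => (K * h) e.1.1 e.1.2) q
          = 0 := by
      intro K hK hKd
      set μ : ℝ := K.det ^ ((d : ℝ)⁻¹) with hμ
      have hμ0 : 0 < μ := Real.rpow_pos_of_pos hKd _
      have hμd : μ ^ d = K.det := by
        rw [hμ, ← Real.rpow_natCast, ← Real.rpow_mul hKd.le, inv_mul_cancel₀ (by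
          exact_mod_cast hd.ne'), Real.rpow_one]
      have h3 := h1 (μ⁻¹ • K) (fun i j hij => by
        rw [Matrix.smul_apply, hK i j hij, smul_zero]) (by
        rw [Matrix.det_smul, Fintype.card_fin, inv_pow, hμd, inv_mul_cancel₀ hKd.ne'])
      rw [hev] at h3
      have h4 : (fun e : {e : Fin d × Fin d // e.2 ∈ T e.1} => (K * h) e.1.1 e.1.2) =
          μ • fun e : {e : Fin d × Fin d // e.2 ∈ T e.1} => ((μ⁻¹ • K) * h) e.1.1 e.1.2 := by
        funext e
        simp only [Matrix.smul_mul, Matrix.smul_apply, Pi.smul_apply, smul_eq_mul]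
        rw [← mul_assoc, mul_inv_cancel₀ hμ0.ne', one_mul]
      rw [h4, aeval_smul_of_homog hqh, h3, mul_zero]
    have hzero : q.map (algebraMap k ℝ) = 0 := by
      set Y : ({e : Fin d × Fin d // e.2 ∈ T e.1} → ℝ) → Fin d → Fin d → ℝ :=
        fun y i b => if hE : b ∈ T i then y ⟨(i, b), hE⟩ else 0 with hYdef
      have hYcont : Continuous Y := by
        refine continuous_pi fun i => continuous_pi fun b => ?_
        simp only [hYdef]
        split_ifs with hE
        · exact continuous_apply _
        · exact continuous_const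
      set y₁ : {e : Fin d × Fin d // e.2 ∈ T e.1} → ℝ := fun e => h e.1.1 e.1.2 with hy₁
      have hK1 : KY (Sam h₀) T N (Y y₁) = 1 := by
        refine KY_eq (h := h) hN2 (fun i j hij => ?_) (fun i b hb => ?_)
        · rw [Matrix.one_apply_ne]
          rintro rfl
          exact hij (Sam.refl _ _)
        · rw [Matrix.one_mul]
          simp only [hYdef]
          rw [dif_pos hb]
      have hcont : Continuous fun y => (KY (Sam h₀) T N (Y y)).det :=
        Continuous.matrix_det (continuous_KY.comp hYcont)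
      have h5 : ∀ᶠ y in 𝓝 y₁, 0 < (KY (Sam h₀) T N (Y y)).det := by
        refine hcont.continuousAt.eventually (lt_mem_nhds ?_)
        show 0 < (KY (Sam h₀) T N (Y y₁)).det
        rw [hK1, Matrix.det_one]
        exact one_pos
      refine mvpoly_zero _ y₁ ?_
      filter_upwards [h5] with y hy
      have h6 := h2 _ (fun i j hij => by simp only [KY]; rw [if_neg hij]) hy
      rw [MvPolynomial.aeval_def, ← MvPolynomial.eval_map] at h6
      rw [← h6]
      congr 2
      funext e
      rw [KY_mul hN1 _ _ _ e.2]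
      simp only [hYdef]
      rw [dif_pos e.2]
    exact MvPolynomial.map_injective _ (algebraMap k ℝ).injective (by rw [hzero, map_zero])
  rw [← MvPolynomial.sum_homogeneousComponent p]
  exact Finset.sum_eq_zero fun m _ => hcomp m

end Pool.Agent.Y327
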