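import Mathlib
import Pool.Agent.Y327.ZarScale
import Pool.Agent.Y327.Full

/-! # Generic points of the minimal sets of a counterexample -/

open Filter Topology Matrix

set_option linter.unusedSectionVars false

namespace Pool.Agent.Y327

open H715R2

variable {d : ℕ}

/-- **Generic points.** -/
theorem exists_generic (hd : 3 ≤ d) {g : Matrix (Fin d) (Fin d) ℝ} (hg : g.det ≠ 0) {ν : ℝ}
    (hν : 0 < ν) (hnu : HasNu g ν) {M : Set (Matrix (Fin d) (Fin d) ℝ)}
    (hMg : M ⊆ closure (Orb g)) (hM : MinB id M) {h₀ : Matrix (Fin d) (Fin d) ℝ} (hh₀ : h₀ ∈ M)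
    {Φ : Set (MvPolynomial (Fin d × Fin d) ℝ)} (hΦ : Φ.Countable) :
    ∀ h₁ ∈ M, ∀ U ∈ 𝓝 h₁, ∃ h ∈ M, h ∈ U ∧ ∀ P ∈ Φ, ev P h = 0 →
      ∀ K : Matrix (Fin d) (Fin d) ℝ, (∀ i j, ¬ Sam h₀ i j → K i j = 0) → K.det = 1 →
        ev P (K * h) = 0 := by
  have hd0 : 0 < d := by omega
  have hMdet : ∀ h ∈ M, |h.det| = |g.det| := fun h hh => abs_det_closure (hMg hh)
  have hMnu : ∀ h ∈ M, HasNu h ν := fun h hh => hasNu_closure hnu (hMg hh)
  refine generic_dense hM (fun i j hij hs => ?_) hΦ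
  obtain ⟨h₂, hh₂, hw₂⟩ := root_dir hd hg hν hnu hMg hM hh₀ hij hs 1
  exact small_pairs hd0 (abs_pos.2 hg) hν hMdet hMnu hM hij one_ne_zero hh₂ hw₂

/-- an integral product of linear forms has no algebraically independent entries in a row -/
theorem not_algInd_of_propInt {k : Subfield ℝ} {ν : ℝ} (hν : 0 < ν)
    {h : Matrix (Fin d) (Fin d) ℝ} (hnu : HasNu h ν) (hP : PropInt h) {i b b' : Fin d}
    (hb : b ≠ b') {E : Set (Fin d × Fin d)} (hE : (i, b) ∈ E) (hE' : (i, b') ∈ E) :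
    ¬ AlgebraicIndependent k (fun e : E => h e.1.1 e.1.2) := by
  classical
  intro hind
  obtain ⟨c, hc, hcoef⟩ := hP
  obtain ⟨P, hPc⟩ : ∃ P : MvPolynomial (Fin d) k, P.map (algebraMap k ℝ) = c • polyF h := by
    have h1 : c • polyF h ∈ Set.range (MvPolynomial.map (σ := Fin d) (algebraMap k ℝ)) := by
      rw [MvPolynomial.mem_range_map_iff_coeffs_subset]
      intro z hz
      rw [Finset.mem_coe, MvPolynomial.mem_coeffs_iff] at hz
      obtain ⟨m, -, rfl⟩ := hz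
      obtain ⟨z, hz⟩ := hcoef m
      exact ⟨(z : k), by rw [hz]; simp⟩
    exact h1
  have hbE : ((⟨(i, b), hE⟩ : E)) ≠ ⟨(i, b'), hE'⟩ := by
    intro h1
    exact hb (Prod.ext_iff.1 (Subtype.ext_iff.1 h1)).2
  set B : MvPolynomial E k := MvPolynomial.aeval (fun j : Fin d =>
    if j = b then MvPolynomial.X (⟨(i, b'), hE'⟩ : E) else
      if j = b' then - MvPolynomial.X (⟨(i, b), hE⟩ : E) else 0) P with hB
  have hev : ∀ x : E → ℝ, MvPolynomial.aeval x B = c * ∏ l, (h l b * x ⟨(i, b'), hE'⟩ -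
      h l b' * x ⟨(i, b), hE⟩) := by
    intro x
    have h1 : MvPolynomial.aeval x B = MvPolynomial.eval (fun j : Fin d =>
        if j = b then x ⟨(i, b'), hE'⟩ else if j = b' then - x ⟨(i, b), hE⟩ else 0)
        (P.map (algebraMap k ℝ)) := by
      rw [hB, MvPolynomial.eval_map, ← MvPolynomial.aeval_def, ← AlgHom.comp_apply]
      congr 1
      refine MvPolynomial.algHom_ext fun j => ?_
      rw [AlgHom.comp_apply, MvPolynomial.aeval_X, MvPolynomial.aeval_X]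
      split_ifs
      · rw [MvPolynomial.aeval_X]
      · rw [map_neg, MvPolynomial.aeval_X]
      · rw [map_zero]
    rw [h1, hPc, MvPolynomial.smul_eval, eval_polyF]
    congr 1
    refine Finset.prod_congr rfl fun l _ => ?_
    have h2 : ∀ j, h l j * (if j = b then x ⟨(i, b'), hE'⟩ else if j = b' then
        - x ⟨(i, b), hE⟩ else 0) = (if j = b then h l b * x ⟨(i, b'), hE'⟩ else 0) +
        (if j = b' then - (h l b' * x ⟨(i, b), hE⟩) else 0) := by
      intro j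
      by_cases hj : j = b
      · subst hj
        rw [if_pos rfl, if_pos rfl, if_neg hb, add_zero]
      · by_cases hj' : j = b'
        · subst hj'
          rw [if_neg hj, if_pos rfl, if_neg hj, if_pos rfl]
          ring
        · rw [if_neg hj, if_neg hj', if_neg hj, if_neg hj']
          ring
    simp only [h2, Finset.sum_add_distrib, Finset.sum_ite_eq', Finset.mem_univ, if_true]
    ring
  have h1 : B = 0 := by
    refine (algebraicIndependent_iff.1 hind) B ?_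
    rw [hev, Finset.prod_eq_zero (Finset.mem_univ i) (by ring), mul_zero]
  have h2 := hev (fun e => if e = ⟨(i, b'), hE'⟩ then 1 else 0)
  rw [h1, map_zero, if_pos rfl, if_neg hbE] at h2
  have h3 : ∏ l, h l b ≠ 0 := by
    have h4 := hnu (Pi.single b 1) (by
      intro h0
      have := congrFun h0 b
      simp at this)
    intro h0
    rw [FF_eq] at h4
    have h5 : ∀ l, (h *ᵥ iR (Pi.single b 1)) l = h l b := by
      intro l
      simp [Matrix.mulVec, dotProduct, iR, Pi.single_apply]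
    simp only [h5] at h4
    rw [h0, abs_zero] at h4
    exact absurd h4 (not_le.2 hν)
  simp only [mul_one, mul_zero, sub_zero] at h2
  exact (mul_ne_zero hc h3) h2.symm

/-- the value of a polynomial over a subfield at the entries of a matrix -/
lemma ev_map {k : Subfield ℝ} (P : MvPolynomial (Fin d × Fin d) k)
    (h : Matrix (Fin d) (Fin d) ℝ) :
    ev (P.map (algebraMap k ℝ)) h = MvPolynomial.aeval (fun e : Fin d × Fin d => h e.1 e.2) P := by
  rw [ev, MvPolynomial.eval_map, ← MvPolynomial.aeval_def]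

/-- the frame of a generic point -/
theorem frame_of_generic (hd : 3 ≤ d) {g : Matrix (Fin d) (Fin d) ℝ} (hg : g.det ≠ 0)
    {M : Set (Matrix (Fin d) (Fin d) ℝ)}
    (hMg : M ⊆ closure (Orb g)) (hM : MinB id M) {h₀ : Matrix (Fin d) (Fin d) ℝ} (hh₀ : h₀ ∈ M)
    {s : ℕ} (hs : ∀ i, Nat.card {j // Sam h₀ i j} = s) {k : Subfield ℝ} [Countable k]
    {h : Matrix (Fin d) (Fin d) ℝ} (hh : h ∈ M)
    (hgen : ∀ P : MvPolynomial (Fin d × Fin d) ℝ,
      P ∈ Set.range (MvPolynomial.map (σ := Fin d × Fin d) (algebraMap k ℝ)) → ev P h = 0 →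
      ∀ K : Matrix (Fin d) (Fin d) ℝ, (∀ i j, ¬ Sam h₀ i j → K i j = 0) → K.det = 1 →
        ev P (K * h) = 0) :
    (∀ P : MvPolynomial (Fin d × Fin d) k,
      MvPolynomial.aeval (fun e : Fin d × Fin d => h e.1 e.2) P = 0 →
      ∀ K : Matrix (Fin d) (Fin d) ℝ, (∀ i j, ¬ Sam h i j → K i j = 0) → K.det = 1 →
      MvPolynomial.aeval (fun e : Fin d × Fin d => (K * h) e.1 e.2) P = 0) ∧
    ∃ T : Fin d → Finset (Fin d), (∀ i, (T i).card = s) ∧
      (∀ e₀ : Fin d × Fin d, e₀.2 ∈ T e₀.1 → AlgebraicIndependent k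
        (fun e : {e : Fin d × Fin d | e.2 ∈ T e.1 ∧ e ≠ e₀} => h e.1.1 e.1.2)) ∧
      ∃ c : ℝ, 0 < c ∧ AlgebraicIndependent k
        (fun e : {e : Fin d × Fin d | e.2 ∈ T e.1} => (c • h) e.1.1 e.1.2) := by
  classical
  have hd0 : 0 < d := by omega
  have hV : 0 < |g.det| := abs_pos.2 hg
  have hMdet : ∀ h ∈ M, |h.det| = |g.det| := fun h hh => abs_det_closure (hMg hh)
  have hu : ∀ h ∈ M, IsUnit h.det := fun h hh => by
    rw [isUnit_iff_ne_zero, ← abs_ne_zero, hMdet h hh, abs_ne_zero]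
    exact hg
  have hgen' : ∀ p : MvPolynomial (Fin d × Fin d) k, ev (p.map (algebraMap k ℝ)) h = 0 →
      ∀ K : Matrix (Fin d) (Fin d) ℝ, (∀ i j, ¬ Sam h₀ i j → K i j = 0) → K.det = 1 →
        ev (p.map (algebraMap k ℝ)) (K * h) = 0 := fun p hp K hK hKd =>
    hgen _ ⟨p, rfl⟩ hp K hK hKd
  obtain ⟨T, N, hT, hN1, hN2⟩ := exists_frame h₀ (hu h hh)
  refine ⟨fun P hP K hK hKd => ?_, T, fun i => by rw [hT, hs], fun e₀ he₀ => ?_, ?_⟩
  · rw [← ev_map] at hP ⊢
    refine hgen' P hP K (fun i j hij => hK i j fun h1 => hij ?_) hKd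
    exact sam_transfer hV hMdet hM hh₀ hh h1
  · exact algInd_of_generic hN1 hN2 hgen' e₀ he₀
  · exact algInd_scaled hd0 hN1 hN2 hgen'

/-- **Generic points and frames.** -/
theorem generic_frame (hd : 3 ≤ d) {g : Matrix (Fin d) (Fin d) ℝ} (hg : g.det ≠ 0) {ν : ℝ}
    (hν : 0 < ν) (hnu : HasNu g ν) (hint : ¬ PropInt g) {M : Set (Matrix (Fin d) (Fin d) ℝ)}
    (hMg : M ⊆ closure (Orb g)) (hM : MinB id M) :
    ∃ s : ℕ, 1 < s ∧ s ∣ d ∧ ∀ (k : Subfield ℝ), Countable k →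
      ∀ U : Set (Matrix (Fin d) (Fin d) ℝ), IsOpen U → (U ∩ M).Nonempty → ∃ h ∈ U ∩ M,
        (∀ P : MvPolynomial (Fin d × Fin d) k,
          MvPolynomial.aeval (fun e : Fin d × Fin d => h e.1 e.2) P = 0 →
          ∀ K : Matrix (Fin d) (Fin d) ℝ, (∀ i j, ¬ Sam h i j → K i j = 0) → K.det = 1 →
          MvPolynomial.aeval (fun e : Fin d × Fin d => (K * h) e.1 e.2) P = 0) ∧
        ∃ T : Fin d → Finset (Fin d), (∀ i, (T i).card = s) ∧
          (∀ e₀ : Fin d × Fin d, e₀.2 ∈ T e₀.1 → AlgebraicIndependent k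
            (fun e : {e : Fin d × Fin d | e.2 ∈ T e.1 ∧ e ≠ e₀} => h e.1.1 e.1.2)) ∧
          ∃ c : ℝ, 0 < c ∧ AlgebraicIndependent k
            (fun e : {e : Fin d × Fin d | e.2 ∈ T e.1} => (c • h) e.1.1 e.1.2) := by
  classical
  have hd0 : 0 < d := by omega
  have hV : 0 < |g.det| := abs_pos.2 hg
  have hMdet : ∀ h ∈ M, |h.det| = |g.det| := fun h hh => abs_det_closure (hMg hh)
  have hu : ∀ h ∈ M, IsUnit h.det := fun h hh => by
    rw [isUnit_iff_ne_zero, ← abs_ne_zero, hMdet h hh, abs_ne_zero]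
    exact hg
  obtain ⟨h₀, hh₀⟩ := hM.ne
  obtain ⟨s, hs1, hs2⟩ := class_sizes hd hg hν hnu hMg hM hh₀ (hu h₀ hh₀)
  refine ⟨s, ?_, ⟨_, hs1.symm⟩, fun k hk U hU hUM => ?_⟩
  · set i₀ : Fin d := ⟨0, hd0⟩ with hi₀
    obtain ⟨j, hji, hj⟩ := class_nontrivial hd hg hν hnu hint hMg hM hh₀ i₀
    rw [← hs2 i₀, Nat.card_eq_fintype_card, Fintype.one_lt_card_iff]
    exact ⟨⟨i₀, Sam.refl _ _⟩, ⟨j, hj⟩, fun h => hji (congrArg Subtype.val h).symm⟩
  obtain ⟨h₁, hh₁U, hh₁⟩ := hUM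
  have := countable_mvpoly (Fin d × Fin d) k
  obtain ⟨h, hh, hhU, hgen⟩ := exists_generic hd hg hν hnu hMg hM hh₀
    (Φ := Set.range (MvPolynomial.map (σ := Fin d × Fin d) (algebraMap k ℝ)))
    (Set.countable_range _) h₁ hh₁ U (hU.mem_nhds hh₁U)
  exact ⟨h, ⟨hhU, hh⟩, frame_of_generic hd hg hMg hM hh₀ hs2 hh hgen⟩

end Pool.Agent.Y327
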