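import Mathlib

/-! # The number of dyadic boxes which meet a linear subspace -/

open Matrix

namespace Pool.Agent.Y327.Box

variable {d r : ℕ}

/-- the weight of a choice of `r` coordinates at a point -/
noncomputable def wt (P : Matrix (Fin d) (Fin r) ℝ) (z : Fin d → ℝ) (f : Fin r → Fin d) : ℝ :=
  |(P.submatrix f id).det| * ∏ s, |z (f s)|⁻¹

lemma update_sub (P : Matrix (Fin d) (Fin r) ℝ) (f : Fin r → Fin d) (s : Fin r) (j : Fin d) :
    (P.submatrix f id).updateRow s (P j) = P.submatrix (Function.update f s j) id := by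
  ext i t
  by_cases hi : i = s
  · subst hi
    simp
  · simp [Matrix.updateRow_ne hi, Function.update_of_ne hi]

/-- the coordinate `j` in terms of the coordinates `f s` -/
lemma row_coeff (P : Matrix (Fin d) (Fin r) ℝ) (f : Fin r → Fin d) (j : Fin d) (y : Fin r → ℝ) :
    (P.submatrix f id).det * (P *ᵥ y) j = ∑ s, (P.submatrix (Function.update f s j) id).det *
      (P *ᵥ y) (f s) := by
  have h1 := Matrix.mulVec_cramer (P.submatrix f id)ᵀ (P j)
  rw [Matrix.det_transpose] at h1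
  have h2 : ((P.submatrix f id)ᵀ *ᵥ (Matrix.cramer (P.submatrix f id)ᵀ) (P j)) ⬝ᵥ y
      = ((P.submatrix f id).det • P j) ⬝ᵥ y := by rw [h1]
  rw [smul_dotProduct, smul_eq_mul] at h2
  have h3 : (P *ᵥ y) j = P j ⬝ᵥ y := rfl
  rw [h3, ← h2, Matrix.mulVec_transpose, ← Matrix.dotProduct_mulVec]
  simp only [dotProduct]
  refine Finset.sum_congr rfl fun s _ => ?_
  rw [Matrix.cramer_transpose_apply, update_sub]
  rfl

lemma exists_max (P : Matrix (Fin d) (Fin r) ℝ) (z : Fin d → ℝ)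
    (hr : ∃ f : Fin r → Fin d, (P.submatrix f id).det ≠ 0) (hz : ∀ i, z i ≠ 0) :
    ∃ f : Fin r → Fin d, (P.submatrix f id).det ≠ 0 ∧ ∀ s j,
      |(P.submatrix (Function.update f s j) id).det| * |z (f s)| ≤
        |(P.submatrix f id).det| * |z j| := by
  classical
  obtain ⟨f₀, hf₀⟩ := hr
  haveI : Nonempty (Fin r → Fin d) := ⟨f₀⟩
  obtain ⟨f, hf⟩ := Finite.exists_max (wt P z)
  have hpos : ∀ f : Fin r → Fin d, 0 < ∏ s, |z (f s)|⁻¹ := fun f =>
    Finset.prod_pos fun s _ => inv_pos.2 (abs_pos.2 (hz _))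
  refine ⟨f, ?_, fun s j => ?_⟩
  · intro h0
    have h1 := hf f₀
    have h2 : wt P z f = 0 := by rw [wt, h0, abs_zero, zero_mul]
    rw [h2] at h1
    exact absurd h1 (not_le.2 (mul_pos (abs_pos.2 hf₀) (hpos f₀)))
  · have h1 := hf (Function.update f s j)
    unfold wt at h1
    have h2 : (∏ t, |z (Function.update f s j t)|⁻¹) =
        |z j|⁻¹ * ∏ t ∈ Finset.univ.erase s, |z (f t)|⁻¹ := by
      rw [← Finset.mul_prod_erase Finset.univ _ (Finset.mem_univ s), Function.update_self]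
      congr 1
      refine Finset.prod_congr rfl fun t ht => ?_
      rw [Function.update_of_ne (Finset.ne_of_mem_erase ht)]
    have h3 : (∏ t, |z (f t)|⁻¹) = |z (f s)|⁻¹ * ∏ t ∈ Finset.univ.erase s, |z (f t)|⁻¹ :=
      (Finset.mul_prod_erase Finset.univ _ (Finset.mem_univ s)).symm
    rw [h2, h3, ← mul_assoc, ← mul_assoc] at h1
    have h4 : 0 < ∏ t ∈ Finset.univ.erase s, |z (f t)|⁻¹ :=
      Finset.prod_pos fun s _ => inv_pos.2 (abs_pos.2 (hz _))
    have h5 := le_of_mul_le_mul_right h1 h4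
    have hj := abs_pos.2 (hz j)
    have hs := abs_pos.2 (hz (f s))
    rw [← div_eq_mul_inv, ← div_eq_mul_inv, div_le_div_iff₀ hj hs] at h5
    exact h5

lemma compare {P : Matrix (Fin d) (Fin r) ℝ} {f : Fin r → Fin d}
    (hf : (P.submatrix f id).det ≠ 0) {z z' : Fin d → ℝ} {y : Fin r → ℝ} (hy : P *ᵥ y = z)
    (hb : ∀ s j, |(P.submatrix (Function.update f s j) id).det| * |z' (f s)| ≤
        |(P.submatrix f id).det| * |z' j|) {A : ℝ} (hA0 : 0 ≤ A)
    (hA : ∀ s, |z (f s)| ≤ A * |z' (f s)|) (j : Fin d) : |z j| ≤ r * A * |z' j| := by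
  have h1 := row_coeff P f j y
  rw [hy] at h1
  have hpos := abs_pos.2 hf
  have h2 : |(P.submatrix f id).det| * |z j| ≤ |(P.submatrix f id).det| * (r * A * |z' j|) := by
    rw [← abs_mul, h1]
    refine (Finset.abs_sum_le_sum_abs _ _).trans ?_
    have h3 : ∀ s ∈ (Finset.univ : Finset (Fin r)),
        |(P.submatrix (Function.update f s j) id).det * z (f s)| ≤
          A * (|(P.submatrix f id).det| * |z' j|) := by
      intro s _
      rw [abs_mul]
      calc _ ≤ |(P.submatrix (Function.update f s j) id).det| * (A * |z' (f s)|) :=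
            mul_le_mul_of_nonneg_left (hA s) (abs_nonneg _)
        _ = A * (|(P.submatrix (Function.update f s j) id).det| * |z' (f s)|) := by ring
        _ ≤ _ := mul_le_mul_of_nonneg_left (hb s j) hA0
    refine (Finset.sum_le_sum h3).trans (le_of_eq ?_)
    rw [Finset.sum_const, Finset.card_univ, Fintype.card_fin, nsmul_eq_mul]
    ring
  exact le_of_mul_le_mul_left h2 hpos

/-- a nonsingular square submatrix of a matrix with independent columns -/
lemma exists_minor (P : Matrix (Fin d) (Fin r) ℝ) (hP : ∀ y, P *ᵥ y = 0 → y = 0) :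
    ∃ f : Fin r → Fin d, (P.submatrix f id).det ≠ 0 := by
  classical
  have hspan : Submodule.span ℝ (Set.range fun j => P j) = ⊤ := by
    by_contra hne
    obtain ⟨φ, hφ0, hφ⟩ := Submodule.exists_le_ker_of_lt_top _ (lt_top_iff_ne_top.2 hne)
    apply hφ0
    set y : Fin r → ℝ := fun s => φ (Pi.single s 1) with hy
    have hrep : ∀ v : Fin r → ℝ, φ v = v ⬝ᵥ y := by
      intro v
      have h1 : v = ∑ s, v s • (Pi.single s (1 : ℝ) : Fin r → ℝ) := by
        funext t
        simp [Finset.sum_apply, Pi.single_apply]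
      conv_lhs => rw [h1]
      rw [map_sum]
      simp only [map_smul, smul_eq_mul, dotProduct, hy]
    have hy0 : y = 0 := by
      apply hP
      funext j
      have h1 : P j ∈ LinearMap.ker φ := hφ (Submodule.subset_span ⟨j, rfl⟩)
      rw [LinearMap.mem_ker, hrep] at h1
      exact h1
    ext s
    have : φ (Pi.single s 1) = 0 := congrFun hy0 s
    simpa using this
  obtain ⟨κ, a, ha, hspan', hli⟩ := exists_linearIndependent' ℝ (fun j => P j)
  have hbas := Module.Basis.mk hli (by rw [hspan', hspan])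
  set e : κ ≃ Fin r := hbas.indexEquiv (Pi.basisFun ℝ (Fin r)) with he
  refine ⟨a ∘ e.symm, ?_⟩
  have h1 : LinearIndependent ℝ (P.submatrix (a ∘ e.symm) id).row := by
    have := hli.comp e.symm e.symm.injective
    exact this
  have h2 := (Matrix.linearIndependent_rows_iff_isUnit.1 h1)
  exact ((Matrix.isUnit_iff_isUnit_det _).1 h2).ne_zero

/-- **Counting boxes.** The number of dyadic boxes with product about one which meet a linear
subspace of dimension `r` is bounded by a constant times `N ^ (r - 1)`. -/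
theorem card_le_of_subspace (d : ℕ) (k : Fin d) {κ₁ κ₂ ν V : ℝ} (hκ₁ : 0 < κ₁) (hκ : κ₁ ≤ κ₂)
    (hν : 0 < ν) (hV : 0 < V) :
    ∃ C : ℕ, ∀ (E : Submodule ℝ (Fin d → ℝ)) (N : ℕ) (𝒩 : Finset (Fin d → ℕ))
      (z : (Fin d → ℕ) → (Fin d → ℝ)),
      (∀ n ∈ 𝒩, n k = 0 ∧ (∀ j, n j ≤ N) ∧ z n ∈ E ∧
        (∀ j, j ≠ k → κ₁ * (1 / 2) ^ n j ≤ |z n j| ∧ |z n j| ≤ κ₂ * (1 / 2) ^ n j) ∧
        ν ≤ ∏ j, |z n j| ∧ ∏ j, |z n j| ≤ V) →
      𝒩.card ≤ C * (N + 1) ^ (Module.finrank ℝ E - 1) := by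
  classical
  have hd0 : 0 < d := Fin.pos k
  have hκ₂ : 0 < κ₂ := hκ₁.trans_le hκ
  set A : ℝ := κ₂ / κ₁ with hA
  have hA1 : 1 ≤ A := (one_le_div hκ₁).2 hκ
  have hA0 : 0 < A := by linarith
  have hdR : (1 : ℝ) ≤ d := by exact_mod_cast hd0
  set D : ℝ := d * A with hD
  have hD1 : 1 ≤ D := by
    rw [hD]; nlinarith
  have hD0 : 0 < D := by linarith
  set C' : ℝ := max D (V / ν * D ^ (d - 1)) with hC'
  have hC'0 : 0 < C' := lt_max_of_lt_left hD0
  obtain ⟨L, hL⟩ := pow_unbounded_of_one_lt (C' * A) (one_lt_two (α := ℝ))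
  refine ⟨(d + 1) ^ d * (2 * L + 1) ^ d, fun E N 𝒩 z h𝒩 => ?_⟩
  rcases 𝒩.eq_empty_or_nonempty with hemp | ⟨n₀, hn₀⟩
  · rw [hemp, Finset.card_empty]; exact Nat.zero_le _
  have hzne : ∀ n ∈ 𝒩, ∀ i, z n i ≠ 0 := by
    intro n hn i h0
    have h1 := (h𝒩 n hn).2.2.2.2.1
    rw [Finset.prod_eq_zero (Finset.mem_univ i) (by rw [h0, abs_zero])] at h1
    exact absurd h1 (not_le.2 hν)
  set r : ℕ := Module.finrank ℝ E with hr
  have hrd : r ≤ d := by
    have := Submodule.finrank_le E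
    rwa [Module.finrank_fin_fun] at this
  have hr0 : 0 < r := by
    rw [hr]
    have h1 : (⟨z n₀, (h𝒩 n₀ hn₀).2.2.1⟩ : E) ≠ 0 := by
      intro h0
      exact hzne n₀ hn₀ k (congrFun (congrArg Subtype.val h0) k)
    haveI : Nontrivial E := ⟨⟨_, _, h1⟩⟩
    exact Module.finrank_pos
  set b : Module.Basis (Fin r) ℝ E := Module.finBasis ℝ E with hb
  set P : Matrix (Fin d) (Fin r) ℝ := Matrix.of fun j s => (b s : Fin d → ℝ) j with hP
  have hPmul : ∀ y : Fin r → ℝ, P *ᵥ y = ((∑ s, y s • b s : E) : Fin d → ℝ) := by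
    intro y
    funext j
    simp only [Matrix.mulVec, dotProduct, hP, Matrix.of_apply, Submodule.coe_sum,
      Submodule.coe_smul, Finset.sum_apply, Pi.smul_apply, smul_eq_mul]
    exact Finset.sum_congr rfl fun s _ => mul_comm _ _
  have hPinj : ∀ y, P *ᵥ y = 0 → y = 0 := by
    intro y hy
    rw [hPmul] at hy
    have h1 : (∑ s, y s • b s : E) = 0 := Subtype.ext hy
    funext s
    have h2 := (Fintype.linearIndependent_iff.1 b.linearIndependent) y h1 s
    exact h2
  have hPE : ∀ w ∈ E, ∃ y, P *ᵥ y = w := by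
    intro w hw
    refine ⟨fun s => b.repr ⟨w, hw⟩ s, ?_⟩
    rw [hPmul, b.sum_repr]
  have hminor := exists_minor P hPinj
  -- the choice of coordinates
  have hch : ∀ n : Fin d → ℕ, ∃ f : Fin r → Fin d, n ∈ 𝒩 → (P.submatrix f id).det ≠ 0 ∧ ∀ s j,
      |(P.submatrix (Function.update f s j) id).det| * |z n (f s)| ≤
        |(P.submatrix f id).det| * |z n j| := by
    intro n
    by_cases hn : n ∈ 𝒩
    · obtain ⟨f, hf⟩ := exists_max P (z n) hminor (hzne n hn)
      exact ⟨f, fun _ => hf⟩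
    · exact ⟨hminor.choose, fun h => absurd h hn⟩
  choose φ hφ using hch
  -- comparison of two points
  have hcmp : ∀ f : Fin r → Fin d, ∀ s₀ : Fin r, (∀ s, s ≠ s₀ → f s ≠ k) →
      ∀ n ∈ 𝒩, ∀ n' ∈ 𝒩, φ n = f → φ n' = f → (∀ s, s ≠ s₀ → n (f s) = n' (f s)) →
      |z n (f s₀)| ≤ |z n' (f s₀)| → ∀ j, n j ≤ n' j + L ∧ n' j ≤ n j + L := by
    intro f s₀ hs₀ n hn n' hn' hfn hfn' hnn hle j
    obtain ⟨hnk, hnN, hzE, hzb, hzν, hzV⟩ := h𝒩 n hn
    obtain ⟨hnk', hnN', hzE', hzb', hzν', hzV'⟩ := h𝒩 n' hn'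
    have hφn' := hφ n' hn'
    rw [hfn'] at hφn'
    obtain ⟨y, hy⟩ := hPE _ hzE
    have hAs : ∀ s, |z n (f s)| ≤ A * |z n' (f s)| := by
      intro s
      by_cases hs : s = s₀
      · rw [hs]
        calc _ ≤ |z n' (f s₀)| := hle
          _ = 1 * |z n' (f s₀)| := (one_mul _).symm
          _ ≤ _ := mul_le_mul_of_nonneg_right hA1 (abs_nonneg _)
      · have h1 := (hzb (f s) (hs₀ s hs)).2
        have h2 := (hzb' (f s) (hs₀ s hs)).1
        rw [← hnn s hs] at h2
        calc _ ≤ κ₂ * (1 / 2) ^ n (f s) := h1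
          _ = A * (κ₁ * (1 / 2) ^ n (f s)) := by rw [hA]; field_simp
          _ ≤ _ := mul_le_mul_of_nonneg_left h2 hA0.le
    have hup : ∀ j, |z n j| ≤ D * |z n' j| := by
      intro j
      have h1 := compare hφn'.1 hy hφn'.2 hA0.le hAs j
      refine h1.trans (mul_le_mul_of_nonneg_right ?_ (abs_nonneg _))
      rw [hD]
      exact mul_le_mul_of_nonneg_right (by exact_mod_cast hrd) hA0.le
    have hlow : ∀ j, |z n' j| ≤ V / ν * D ^ (d - 1) * |z n j| := by
      intro j
      have h1 : ∏ i ∈ Finset.univ.erase j, |z n i| ≤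
          D ^ (d - 1) * ∏ i ∈ Finset.univ.erase j, |z n' i| := by
        have h2 : ∏ i ∈ Finset.univ.erase j, |z n i| ≤
            ∏ i ∈ Finset.univ.erase j, (D * |z n' i|) :=
          Finset.prod_le_prod (fun _ _ => abs_nonneg _) fun i _ => hup i
        refine h2.trans (le_of_eq ?_)
        rw [Finset.prod_mul_distrib, Finset.prod_const,
          Finset.card_erase_of_mem (Finset.mem_univ j), Finset.card_univ, Fintype.card_fin]
      have h2 : ν ≤ |z n j| * (D ^ (d - 1) * ∏ i ∈ Finset.univ.erase j, |z n' i|) := by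
        refine hzν.trans ?_
        rw [← Finset.mul_prod_erase Finset.univ _ (Finset.mem_univ j)]
        exact mul_le_mul_of_nonneg_left h1 (abs_nonneg _)
      have h3 : |z n' j| * ∏ i ∈ Finset.univ.erase j, |z n' i| ≤ V := by
        rw [Finset.mul_prod_erase Finset.univ (fun i => |z n' i|) (Finset.mem_univ j)]
        exact hzV'
      have h4 : 0 < ∏ i ∈ Finset.univ.erase j, |z n' i| :=
        Finset.prod_pos fun i _ => abs_pos.2 (hzne n' hn' i)
      have h5 : |z n' j| * ν ≤ V * D ^ (d - 1) * |z n j| := by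
        calc |z n' j| * ν ≤ |z n' j| *
              (|z n j| * (D ^ (d - 1) * ∏ i ∈ Finset.univ.erase j, |z n' i|)) :=
              mul_le_mul_of_nonneg_left h2 (abs_nonneg _)
          _ = (|z n' j| * ∏ i ∈ Finset.univ.erase j, |z n' i|) * (D ^ (d - 1) * |z n j|) := by
              ring
          _ ≤ V * (D ^ (d - 1) * |z n j|) :=
              mul_le_mul_of_nonneg_right h3 (by positivity)
          _ = _ := by ring
      calc |z n' j| = |z n' j| * ν / ν := by field_simp
        _ ≤ V * D ^ (d - 1) * |z n j| / ν := by gcongr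
        _ = _ := by ring
    have hup' : |z n j| ≤ C' * |z n' j| :=
      (hup j).trans (mul_le_mul_of_nonneg_right (le_max_left _ _) (abs_nonneg _))
    have hlow' : |z n' j| ≤ C' * |z n j| :=
      (hlow j).trans (mul_le_mul_of_nonneg_right (le_max_right _ _) (abs_nonneg _))
    by_cases hj : j = k
    · rw [hj, hnk, hnk']
      exact ⟨by omega, by omega⟩
    · have key : ∀ p q : ℕ, ∀ u v : ℝ, κ₁ * (1 / 2) ^ q ≤ v → u ≤ κ₂ * (1 / 2) ^ p → v ≤ C' * u →
          p ≤ q + L := by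
        intro p q u v hq hp huv
        by_contra hlt
        push Not at hlt
        have h1 : κ₁ * (1 / 2 : ℝ) ^ q ≤ C' * (κ₂ * (1 / 2) ^ p) :=
          hq.trans (huv.trans (mul_le_mul_of_nonneg_left hp hC'0.le))
        have h2 : (1 / 2 : ℝ) ^ p ≤ (1 / 2) ^ (q + L) :=
          pow_le_pow_of_le_one (by norm_num) (by norm_num) hlt.le
        have h3 : κ₁ * (1 / 2 : ℝ) ^ q ≤ C' * (κ₂ * (1 / 2) ^ (q + L)) :=
          h1.trans (mul_le_mul_of_nonneg_left (mul_le_mul_of_nonneg_left h2 hκ₂.le) hC'0.le)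
        rw [pow_add] at h3
        have h4 : (0 : ℝ) < (1 / 2) ^ q := by positivity
        have h5 : κ₁ ≤ C' * (κ₂ * (1 / 2) ^ L) := by
          have h6 : κ₁ * (1 / 2 : ℝ) ^ q ≤ (C' * (κ₂ * (1 / 2) ^ L)) * (1 / 2) ^ q := by
            refine h3.trans (le_of_eq ?_)
            ring
          exact le_of_mul_le_mul_right h6 h4
        have h6 : (2 : ℝ) ^ L ≤ C' * A := by
          have h7 : (2 : ℝ) ^ L * κ₁ ≤ C' * κ₂ := by
            calc (2 : ℝ) ^ L * κ₁ ≤ 2 ^ L * (C' * (κ₂ * (1 / 2) ^ L)) := by gcongr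
              _ = C' * κ₂ * ((2 : ℝ) ^ L * (1 / 2) ^ L) := by ring
              _ = C' * κ₂ := by rw [← mul_pow]; norm_num
          rw [hA, mul_div_assoc', le_div_iff₀ hκ₁]
          exact h7
        exact absurd h6 (not_le.2 hL)
      exact ⟨key _ _ _ _ (hzb' j hj).1 (hzb j hj).2 hlow', key _ _ _ _ (hzb j hj).1 (hzb' j hj).2 hup'⟩
  -- the fibres of `φ`
  have hfib : ∀ f : Fin r → Fin d, (𝒩.filter (fun n => φ n = f)).card ≤
      (2 * L + 1) ^ d * (N + 1) ^ (r - 1) := by
    intro f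
    rcases (𝒩.filter (fun n => φ n = f)).eq_empty_or_nonempty with hemp | ⟨n₁, hn₁⟩
    · rw [hemp, Finset.card_empty]; exact Nat.zero_le _
    rw [Finset.mem_filter] at hn₁
    have hdetf : (P.submatrix f id).det ≠ 0 := by
      have := (hφ n₁ hn₁.1).1
      rwa [hn₁.2] at this
    have hfinj : Function.Injective f := by
      intro s t hst
      by_contra hne
      exact hdetf (Matrix.det_zero_of_row_eq hne (by
        funext u
        simp only [Matrix.submatrix_apply, hst]))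
    obtain ⟨s₀, hs₀⟩ : ∃ s₀ : Fin r, ∀ s, s ≠ s₀ → f s ≠ k := by
      by_cases hk : ∃ s, f s = k
      · obtain ⟨s₀, hs₀⟩ := hk
        exact ⟨s₀, fun s hs h => hs (hfinj (h.trans hs₀.symm))⟩
      · push Not at hk
        exact ⟨⟨0, hr0⟩, fun s _ => hk s⟩
    set q : (Fin d → ℕ) → (Fin r → ℕ) := fun n s => if s = s₀ then 0 else n (f s) with hq
    have himg : (𝒩.filter (fun n => φ n = f)).image q ⊆
        Fintype.piFinset (fun s => if s = s₀ then {0} else Finset.range (N + 1)) := by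
      intro p hp
      obtain ⟨n, hn, rfl⟩ := Finset.mem_image.1 hp
      rw [Finset.mem_filter] at hn
      rw [Fintype.mem_piFinset]
      intro s
      by_cases hs : s = s₀
      · simp [hq, hs]
      · simp only [hq, if_neg hs, Finset.mem_range]
        exact Nat.lt_succ_of_le ((h𝒩 n hn.1).2.1 _)
    have hcardimg : ((𝒩.filter (fun n => φ n = f)).image q).card ≤ (N + 1) ^ (r - 1) := by
      refine (Finset.card_le_card himg).trans (le_of_eq ?_)
      rw [Fintype.card_piFinset, ← Finset.mul_prod_erase Finset.univ _ (Finset.mem_univ s₀),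
        if_pos rfl, Finset.card_singleton, one_mul, Finset.prod_congr rfl (fun s hs => by
          rw [if_neg (Finset.ne_of_mem_erase hs), Finset.card_range]), Finset.prod_const,
        Finset.card_erase_of_mem (Finset.mem_univ s₀), Finset.card_univ, Fintype.card_fin]
    refine (Finset.card_le_mul_card_image (f := q) _ ((2 * L + 1) ^ d) ?_).trans
      (Nat.mul_le_mul_left _ hcardimg)
    intro p hp
    obtain ⟨n₂, hn₂, hn₂p⟩ := Finset.mem_image.1 hp
    rw [Finset.mem_filter] at hn₂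
    have hsub : (𝒩.filter (fun n => φ n = f)).filter (fun n => q n = p) ⊆
        Fintype.piFinset (fun j => Finset.Icc (n₂ j - L) (n₂ j + L)) := by
      intro n hn
      rw [Finset.mem_filter, Finset.mem_filter] at hn
      obtain ⟨⟨hn1, hn2⟩, hn3⟩ := hn
      have hnn : ∀ s, s ≠ s₀ → n (f s) = n₂ (f s) := by
        intro s hs
        have h1 : q n s = q n₂ s := by rw [hn3, hn₂p]
        simp only [hq, if_neg hs] at h1
        exact h1
      rw [Fintype.mem_piFinset]
      intro j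
      rw [Finset.mem_Icc]
      rcases le_total |z n (f s₀)| |z n₂ (f s₀)| with h | h
      · obtain ⟨h1, h2⟩ := hcmp f s₀ hs₀ n hn1 n₂ hn₂.1 hn2 hn₂.2 hnn h j
        exact ⟨by omega, h1⟩
      · obtain ⟨h1, h2⟩ := hcmp f s₀ hs₀ n₂ hn₂.1 n hn1 hn₂.2 hn2 (fun s hs => (hnn s hs).symm) h j
        exact ⟨by omega, h2⟩
    refine (Finset.card_le_card hsub).trans ?_
    rw [Fintype.card_piFinset]
    refine (Finset.prod_le_prod (fun _ _ => Nat.zero_le _) (g := fun _ => 2 * L + 1)
      fun j _ => ?_).trans (le_of_eq ?_)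
    · rw [Nat.card_Icc]; omega
    · rw [Finset.prod_const, Finset.card_univ, Fintype.card_fin]
  have hsum : 𝒩.card = ∑ f : Fin r → Fin d, (𝒩.filter (fun n => φ n = f)).card :=
    Finset.card_eq_sum_card_fiberwise fun n _ => Finset.mem_univ _
  rw [hsum]
  refine (Finset.sum_le_sum fun f _ => hfib f).trans ?_
  rw [Finset.sum_const, Finset.card_univ, Fintype.card_fun, Fintype.card_fin, Fintype.card_fin,
    smul_eq_mul, ← mul_assoc]
  refine Nat.mul_le_mul_right _ (Nat.mul_le_mul_right _ ?_)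
  calc d ^ r ≤ (d + 1) ^ r := Nat.pow_le_pow_left (Nat.le_succ d) r
    _ ≤ (d + 1) ^ d := Nat.pow_le_pow_right (Nat.succ_pos d) hrd

end Pool.Agent.Y327.Box
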