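import Mathlib
import Pool.Agent.Y327.Box
import Pool.Agent.Y327.RatSpan
import Pool.Agent.Y327.Unique
import Pool.Agent.TH314.CSD.Cover

/-! # Two forms which differ in one factor have many values -/

open Filter Topology Matrix

namespace Pool.Agent.Y327

open H715R2

variable {d : ℕ}

/-- the values in `S` at the nonzero integer points of norm at most `X` -/
def vals (g : Matrix (Fin d) (Fin d) ℝ) (S : Set ℝ) (X : ℝ) : Set ℝ :=
  {t | ∃ x : Fin d → ℤ, x ≠ 0 ∧ (∀ i, |(x i : ℝ)| ≤ X) ∧ FF g (iR x) = t ∧ t ∈ S}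

lemma vals_finite (g : Matrix (Fin d) (Fin d) ℝ) (S : Set ℝ) (X : ℝ) : (vals g S X).Finite := by
  classical
  have h1 : {x : Fin d → ℤ | ∀ i, |(x i : ℝ)| ≤ X}.Finite := by
    refine (Set.Finite.pi (t := fun _ : Fin d => {y : ℤ | |(y : ℝ)| ≤ X}) fun i => ?_).subset ?_
    · refine (Set.finite_Icc (-⌈X⌉) ⌈X⌉).subset ?_
      intro y hy
      have hy' : |(y : ℝ)| ≤ X := hy
      rw [abs_le] at hy'
      have h2 := Int.le_ceil X
      constructor
      · have : (-(⌈X⌉ : ℤ) : ℝ) ≤ y := by linarith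
        exact_mod_cast this
      · have : (y : ℝ) ≤ (⌈X⌉ : ℤ) := by linarith
        exact_mod_cast this
    · intro x hx i _
      exact hx i
  refine (h1.image fun x => FF g (iR x)).subset ?_
  rintro t ⟨x, -, hx, rfl, -⟩
  exact ⟨x, hx, rfl⟩

/-- vectors with value well inside `S` and all coordinates under control -/
theorem exists_vec_ball (hd : 0 < d) {V ν : ℝ} (hV : 0 < V) (hν : 0 < ν)
    {Y : Set (Matrix (Fin d) (Fin d) ℝ)} (hYc : IsClosed Y) (hYinv : H715R2.Inv Y)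
    (hYdet : ∀ h ∈ Y, |h.det| = V) (hYnu : ∀ h ∈ Y, HasNu h ν) {S : Set ℝ} (hSo : IsOpen S)
    (hS : ∀ h ∈ Y, ∃ m : Fin d → ℤ, m ≠ 0 ∧ FF h (iR m) ∈ S) :
    ∃ r ε : ℝ, 0 < r ∧ 0 < ε ∧ ∀ h ∈ Y,
      ∀ b : Fin d → ℝ, (∀ i, 0 < b i) → ∏ i, b i = 1 → ∃ m : Fin d → ℤ, m ≠ 0 ∧
        (∀ i, b i * |(h *ᵥ iR m) i| < r) ∧ (∀ i, ν / r ^ (d - 1) ≤ b i * |(h *ᵥ iR m) i|) ∧
        ∀ t, |t - FF h (iR m)| < ε → t ∈ S := by
  classical
  obtain ⟨R, hR⟩ := exists_bound hd V ν hV hν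
  have hcpt : IsCompact ({h : Matrix (Fin d) (Fin d) ℝ | ∀ i j, |h i j| ≤ R} ∩ Y) :=
    (isCompact_box R).inter_right hYc
  set Sn : ℕ → Set ℝ := fun n => interior {t | Metric.ball t (1 / ((n : ℝ) + 1)) ⊆ S} with hSn
  have hSnmono : Monotone Sn := by
    intro n n' hn
    refine interior_mono fun t ht => ?_
    refine (Metric.ball_subset_ball ?_).trans ht
    have : (n : ℝ) ≤ n' := by exact_mod_cast hn
    have h0 : (0 : ℝ) ≤ n := Nat.cast_nonneg n
    exact one_div_le_one_div_of_le (by linarith) (by linarith)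
  have hSnmem : ∀ t ∈ S, ∃ n, t ∈ Sn n := by
    intro t ht
    obtain ⟨ε, hε, hball⟩ := Metric.isOpen_iff.1 hSo t ht
    obtain ⟨n, hn⟩ := exists_nat_one_div_lt (half_pos hε)
    refine ⟨n, mem_interior_iff_mem_nhds.2 ?_⟩
    refine Filter.mem_of_superset (Metric.ball_mem_nhds t (half_pos hε)) fun t' ht' => ?_
    intro s hs
    apply hball
    rw [Metric.mem_ball] at hs ht' ⊢
    calc dist s t ≤ dist s t' + dist t' t := dist_triangle _ _ _
      _ < 1 / ((n : ℝ) + 1) + ε / 2 := add_lt_add hs ht'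
      _ < ε := by linarith
  obtain ⟨s, hs⟩ := hcpt.elim_finite_subcover
    (fun p : {m : Fin d → ℤ // m ≠ 0} × ℕ =>
      {h : Matrix (Fin d) (Fin d) ℝ | FF h (iR p.1.1) ∈ Sn p.2})
    (fun p => isOpen_interior.preimage (continuous_FF (iR p.1.1)))
    (fun h hh => by
      obtain ⟨m, hm, hmT⟩ := hS h hh.2
      obtain ⟨n, hn⟩ := hSnmem _ hmT
      exact Set.mem_iUnion.2 ⟨(⟨m, hm⟩, n), hn⟩)
  set n₀ : ℕ := s.sup (fun p => p.2) with hn₀
  have hall : ∀ h ∈ Y, ∃ m : Fin d → ℤ, m ≠ 0 ∧ FF h (iR m) ∈ Sn n₀ := by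
    intro h hh
    obtain ⟨γ, hγ, hγR⟩ := hR _ (hYdet _ hh) (hYnu _ hh)
    have hmemY : h * zR γ ∈ Y := by
      have h1 := hYinv h hh (fun _ => 1) γ (fun _ => one_pos) (by simp) hγ
      have h2 : diagonal (fun _ : Fin d => (1 : ℝ)) = 1 := diagonal_one
      rwa [h2, Matrix.one_mul] at h1
    obtain ⟨p, hps, hp⟩ := Set.mem_iUnion₂.1 (hs ⟨hγR, hmemY⟩)
    refine ⟨γ *ᵥ p.1.1, ?_, ?_⟩
    · intro h0
      apply p.1.2
      have h3 : γ⁻¹ *ᵥ (γ *ᵥ p.1.1) = 0 := by rw [h0, mulVec_zero]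
      rwa [mulVec_mulVec, Matrix.nonsing_inv_mul _ hγ, one_mulVec] at h3
    · have h1 : FF (h * zR γ) (iR p.1.1) ∈ Sn p.2 := hp
      have h2 : FF (h * zR γ) (iR p.1.1) = FF h (iR (γ *ᵥ p.1.1)) := by
        rw [FF_eq, FF_eq, ← mulVec_mulVec, zR_mulVec_iR]
      rw [h2] at h1
      exact hSnmono (Finset.le_sup (f := fun p : {m : Fin d → ℤ // m ≠ 0} × ℕ => p.2) hps) h1
  obtain ⟨r, hr, hvec⟩ := TH314.CSD.exists_vec_set hd hV hν hYc hYinv hYdet hYnu
    (S := Sn n₀) isOpen_interior hall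
  refine ⟨r, 1 / ((n₀ : ℝ) + 1), hr, by positivity, fun h hh b hb0 hb1 => ?_⟩
  obtain ⟨m, hm1, hm2, hm3⟩ := hvec h hh b hb0 hb1
  refine ⟨m, ?_, hm1, hm2, fun t ht => ?_⟩
  · intro h0
    have h1 := hm2 ⟨0, hd⟩
    have h2 : iR (0 : Fin d → ℤ) = 0 := by funext l; simp [iR]
    rw [h0, h2, mulVec_zero, Pi.zero_apply, abs_zero, mul_zero] at h1
    exact absurd h1 (not_le.2 (by positivity))
  · have h1 : FF h (iR m) ∈ {t | Metric.ball t (1 / ((n₀ : ℝ) + 1)) ⊆ S} := interior_subset hm3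
    exact h1 (by rw [Metric.mem_ball, Real.dist_eq]; exact ht)

/-- **The count.** -/
theorem pair_core (hd : 2 ≤ d) {V ν : ℝ} (hV : 0 < V) (hν : 0 < ν)
    {Y : Set (Matrix (Fin d) (Fin d) ℝ)} (hYc : IsClosed Y) (hYinv : H715R2.Inv Y)
    (hYdet : ∀ h ∈ Y, |h.det| = V) (hYnu : ∀ h ∈ Y, HasNu h ν) {S : Set ℝ} (hSo : IsOpen S)
    (hS : ∀ h ∈ Y, ∃ m : Fin d → ℤ, m ≠ 0 ∧ FF h (iR m) ∈ S)
    {h : Matrix (Fin d) (Fin d) ℝ} (hh : h ∈ Y) {k : Fin d} {w : Fin d → ℝ} (hwk : w k = 0)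
    (hw0 : w ≠ 0) :
    ∃ (C N₁ : ℕ) (H : ℝ), 0 < H ∧ ∀ N, N₁ ≤ N → N ^ (d - d / 2) ≤
      C * ((vals h S (H * 2 ^ (d * N))).ncard *
        (vals (Md {k} (fun _ => w) * h) S (H * 2 ^ (d * N))).ncard) := by
  classical
  have hd0 : 0 < d := by omega
  set h' := Md {k} (fun _ => w) * h with hh'
  obtain ⟨r, ε, hr, hε, hvec⟩ := exists_vec_ball hd0 hV hν hYc hYinv hYdet hYnu hSo hS
  have hdet0 : h.det ≠ 0 := by
    intro h0
    have h1 := hYdet h hh
    rw [h0, abs_zero] at h1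
    exact hV.ne h1
  have hnu := hYnu h hh
  set l : Fin d → ℝ := h k with hl
  set m : Fin d → ℝ := w ᵥ* h with hm
  have hlk : ∀ x : Fin d → ℤ, l ⬝ᵥ iR x = (h *ᵥ iR x) k := fun x => rfl
  have hmk : ∀ x : Fin d → ℤ, m ⬝ᵥ iR x = ∑ j, w j * (h *ᵥ iR x) j := by
    intro x
    rw [hm, ← Matrix.dotProduct_mulVec]
    rfl
  have hlne : ∀ x : Fin d → ℤ, l ⬝ᵥ iR x = 0 → x = 0 := by
    intro x hx
    by_contra hx0
    have h1 := hnu x hx0
    rw [FF_eq, Finset.prod_eq_zero (Finset.mem_univ k) ((hlk x).symm.trans hx), abs_zero] at h1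
    exact absurd h1 (not_le.2 hν)
  have hFF : ∀ x : Fin d → ℤ, FF h' (iR x) * (l ⬝ᵥ iR x) = FF h (iR x) * (l ⬝ᵥ iR x + m ⬝ᵥ iR x) := by
    intro x
    rw [FF_eq, FF_eq, ← Finset.mul_prod_erase Finset.univ _ (Finset.mem_univ k),
      ← Finset.mul_prod_erase Finset.univ (fun i => (h *ᵥ iR x) i) (Finset.mem_univ k)]
    have h1 : ∏ i ∈ Finset.univ.erase k, (h' *ᵥ iR x) i =
        ∏ i ∈ Finset.univ.erase k, (h *ᵥ iR x) i := by
      refine Finset.prod_congr rfl fun i hi => ?_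
      have h2 : h' i = h i := Md_row_ne w h (Finset.ne_of_mem_erase hi)
      show h' i ⬝ᵥ iR x = h i ⬝ᵥ iR x
      rw [h2]
    have h2 : (h' *ᵥ iR x) k = l ⬝ᵥ iR x + m ⬝ᵥ iR x := by
      have h3 : h' k = h k + w ᵥ* h := Md_row w h
      show h' k ⬝ᵥ iR x = _
      rw [h3, add_dotProduct]
    rw [h1, h2, hlk]
    ring
  -- constants
  set W : ℝ := ∑ j, |w j| with hW
  have hW0 : 0 ≤ W := Finset.sum_nonneg fun _ _ => abs_nonneg _
  have hr1 : 0 < r ^ (d - 1) := pow_pos hr _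
  obtain ⟨n₀, hn₀⟩ : ∃ n₀ : ℕ, r ^ d * (W * r * (1 / 2) ^ n₀ * (r ^ (d - 1) / ν)) < ε := by
    obtain ⟨n₀, hn₀⟩ := exists_pow_lt_of_lt_one (y := (1 / 2 : ℝ))
      (show 0 < ε / (r ^ d * (W * r * (r ^ (d - 1) / ν)) + 1) by positivity) (by norm_num)
    refine ⟨n₀, ?_⟩
    have h1 : 0 ≤ r ^ d * (W * r * (r ^ (d - 1) / ν)) := by positivity
    rw [lt_div_iff₀ (by linarith)] at hn₀
    have h2 : (0 : ℝ) < (1 / 2) ^ n₀ := by positivity
    nlinarith
  set κ₁ : ℝ := ν / r ^ (d - 1) * (1 / 2) ^ n₀ with hκ₁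
  have hκ₁0 : 0 < κ₁ := by positivity
  set κ₂ : ℝ := max κ₁ (r * (1 / 2) ^ n₀) with hκ₂
  obtain ⟨C, hC⟩ := Box.card_le_of_subspace d k (κ₁ := κ₁) (κ₂ := κ₂) (ν := ν) (V := r ^ d) hκ₁0
    (le_max_left _ _) hν (pow_pos hr d)
  -- the points
  set bb : (Fin d → ℕ) → Fin d → ℝ := fun n j =>
    if j = k then ∏ i ∈ Finset.univ.erase k, (1 / 2 : ℝ) ^ (n i + n₀) else 2 ^ (n j + n₀) with hbb
  have hbb0 : ∀ n j, 0 < bb n j := by
    intro n j
    simp only [hbb]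
    split_ifs
    · exact Finset.prod_pos fun i _ => by positivity
    · positivity
  have hbb1 : ∀ n, ∏ j, bb n j = 1 := by
    intro n
    rw [← Finset.mul_prod_erase Finset.univ _ (Finset.mem_univ k)]
    have h1 : bb n k = ∏ i ∈ Finset.univ.erase k, (1 / 2 : ℝ) ^ (n i + n₀) := by simp [hbb]
    rw [h1, ← Finset.prod_mul_distrib]
    refine Finset.prod_eq_one fun j hj => ?_
    simp only [hbb, if_neg (Finset.ne_of_mem_erase hj)]
    rw [← mul_pow]
    norm_num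
  have hbbk : ∀ n, bb n k ≤ 1 := by
    intro n
    have h1 : bb n k = ∏ i ∈ Finset.univ.erase k, (1 / 2 : ℝ) ^ (n i + n₀) := by simp [hbb]
    rw [h1]
    exact Finset.prod_le_one (fun i _ => by positivity) fun i _ =>
      pow_le_one₀ (by norm_num) (by norm_num)
  choose x hx0 hx1 hx2 hx3 using fun n => hvec h hh (bb n) (hbb0 n) (hbb1 n)
  set z : (Fin d → ℕ) → Fin d → ℝ := fun n => h *ᵥ iR (x n) with hz
  have hzub : ∀ n j, j ≠ k → |z n j| ≤ r * (1 / 2) ^ n₀ * (1 / 2) ^ n j := by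
    intro n j hj
    have h1 := hx1 n j
    simp only [hbb, if_neg hj] at h1
    have h2 : |z n j| < r / 2 ^ (n j + n₀) := by
      rw [lt_div_iff₀ (by positivity), mul_comm]; exact h1
    refine h2.le.trans (le_of_eq ?_)
    rw [pow_add, one_div, inv_pow, inv_pow]
    field_simp
  have hzlb : ∀ n j, j ≠ k → κ₁ * (1 / 2) ^ n j ≤ |z n j| := by
    intro n j hj
    have h1 := hx2 n j
    simp only [hbb, if_neg hj] at h1
    have h2 : ν / r ^ (d - 1) / 2 ^ (n j + n₀) ≤ |z n j| := by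
      rw [div_le_iff₀ (by positivity), mul_comm |z n j|]; exact h1
    refine le_trans (le_of_eq ?_) h2
    rw [hκ₁, pow_add, one_div, inv_pow, inv_pow]
    field_simp
  have hzk : ∀ n, ν / r ^ (d - 1) ≤ |z n k| := by
    intro n
    refine (hx2 n k).trans ?_
    calc bb n k * |(h *ᵥ iR (x n)) k| ≤ 1 * |(h *ᵥ iR (x n)) k| :=
          mul_le_mul_of_nonneg_right (hbbk n) (abs_nonneg _)
      _ = _ := one_mul _
  have hzν : ∀ n, ν ≤ ∏ j, |z n j| := by
    intro n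
    rw [← Finset.abs_prod]
    exact hnu _ (hx0 n)
  have hzV : ∀ n, ∏ j, |z n j| ≤ r ^ d := by
    intro n
    have h1 : ∏ j, |z n j| = ∏ j, (bb n j * |z n j|) := by
      rw [Finset.prod_mul_distrib, hbb1, one_mul]
    rw [h1]
    refine (Finset.prod_le_prod (fun j _ => mul_nonneg (hbb0 n j).le (abs_nonneg _))
      (g := fun _ => r) fun j _ => (hx1 n j).le).trans (le_of_eq ?_)
    rw [Finset.prod_const, Finset.card_univ, Fintype.card_fin]
  have hFFle : ∀ n, |FF h (iR (x n))| ≤ r ^ d := by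
    intro n
    rw [FF_eq, Finset.abs_prod]
    exact hzV n
  have hlx : ∀ n, l ⬝ᵥ iR (x n) ≠ 0 := fun n h0 => hx0 n (hlne _ h0)
  have hmx : ∀ n, |m ⬝ᵥ iR (x n)| ≤ W * r * (1 / 2) ^ n₀ := by
    intro n
    rw [hmk]
    refine (Finset.abs_sum_le_sum_abs _ _).trans ?_
    rw [hW, mul_assoc, Finset.sum_mul]
    refine Finset.sum_le_sum fun j _ => ?_
    rw [abs_mul]
    by_cases hj : j = k
    · rw [hj, hwk, abs_zero, zero_mul, zero_mul]
    · refine mul_le_mul_of_nonneg_left ((hzub n j hj).trans ?_) (abs_nonneg _)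
      have h1 : (1 / 2 : ℝ) ^ n j ≤ 1 := pow_le_one₀ (by norm_num) (by norm_num)
      calc r * (1 / 2) ^ n₀ * (1 / 2) ^ n j ≤ r * (1 / 2) ^ n₀ * 1 :=
            mul_le_mul_of_nonneg_left h1 (by positivity)
        _ = _ := mul_one _
  set ρ : (Fin d → ℕ) → ℝ := fun n => (m ⬝ᵥ iR (x n)) / (l ⬝ᵥ iR (x n)) with hρ
  have hρeq : ∀ n, m ⬝ᵥ iR (x n) = ρ n * (l ⬝ᵥ iR (x n)) := fun n =>
    (div_mul_cancel₀ _ (hlx n)).symm
  have hFFρ : ∀ n, FF h' (iR (x n)) = FF h (iR (x n)) * (1 + ρ n) := by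
    intro n
    have h1 := hFF (x n)
    rw [hρeq n] at h1
    have h2 : FF h' (iR (x n)) * (l ⬝ᵥ iR (x n)) =
        (FF h (iR (x n)) * (1 + ρ n)) * (l ⬝ᵥ iR (x n)) := by rw [h1]; ring
    exact mul_right_cancel₀ (hlx n) h2
  have hρle : ∀ n, |ρ n| ≤ W * r * (1 / 2) ^ n₀ * (r ^ (d - 1) / ν) := by
    intro n
    rw [hρ]
    simp only [abs_div]
    rw [div_le_iff₀ (abs_pos.2 (hlx n))]
    have h1 : ν / r ^ (d - 1) ≤ |l ⬝ᵥ iR (x n)| := by rw [hlk]; exact hzk n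
    calc |m ⬝ᵥ iR (x n)| ≤ W * r * (1 / 2) ^ n₀ := hmx n
      _ = W * r * (1 / 2) ^ n₀ * (r ^ (d - 1) / ν) * (ν / r ^ (d - 1)) := by
          field_simp
      _ ≤ _ := mul_le_mul_of_nonneg_left h1 (by positivity)
  have hmem : ∀ n, FF h (iR (x n)) ∈ S := fun n => hx3 n _ (by rw [sub_self, abs_zero]; exact hε)
  have hmem' : ∀ n, FF h' (iR (x n)) ∈ S := by
    intro n
    refine hx3 n _ ?_
    rw [hFFρ n]
    have h1 : FF h (iR (x n)) * (1 + ρ n) - FF h (iR (x n)) = FF h (iR (x n)) * ρ n := by ring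
    rw [h1, abs_mul]
    exact (mul_le_mul (hFFle n) (hρle n) (abs_nonneg _) (by positivity)).trans_lt hn₀
  -- the norms
  set H₁ : ℝ := (∑ i, ∑ j, |h⁻¹ i j|) + 1 with hH₁
  have hH₁0 : 0 < H₁ := by
    have : 0 ≤ ∑ i, ∑ j, |h⁻¹ i j| :=
      Finset.sum_nonneg fun i _ => Finset.sum_nonneg fun j _ => abs_nonneg _
    linarith
  have hnorm : ∀ N : ℕ, ∀ n : Fin d → ℕ, (∀ j, n j ≤ N) → ∀ i,
      |(x n i : ℝ)| ≤ H₁ * r * 2 ^ (d * n₀) * 2 ^ (d * N) := by
    intro N n hn i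
    have hzle : ∀ j, |z n j| ≤ r * 2 ^ (d * n₀) * 2 ^ (d * N) := by
      intro j
      by_cases hj : j = k
      · have h1 := hx1 n k
        have h2 : bb n k = ∏ i ∈ Finset.univ.erase k, (1 / 2 : ℝ) ^ (n i + n₀) := by simp [hbb]
        have h3 : (1 / 2 : ℝ) ^ (d * (N + n₀)) ≤ bb n k := by
          rw [h2]
          calc (1 / 2 : ℝ) ^ (d * (N + n₀)) ≤ ((1 / 2 : ℝ) ^ (N + n₀)) ^ (d - 1) := by
                rw [← pow_mul]
                refine pow_le_pow_of_le_one (by norm_num) (by norm_num) ?_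
                rw [mul_comm]
                exact Nat.mul_le_mul_right _ (Nat.sub_le d 1)
            _ = ∏ i ∈ Finset.univ.erase k, (1 / 2 : ℝ) ^ (N + n₀) := by
                rw [Finset.prod_const, Finset.card_erase_of_mem (Finset.mem_univ k),
                  Finset.card_univ, Fintype.card_fin]
            _ ≤ _ := by
                refine Finset.prod_le_prod (fun i _ => by positivity) fun i _ => ?_
                exact pow_le_pow_of_le_one (by norm_num) (by norm_num)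
                  (Nat.add_le_add_right (hn i) _)
        have h4 : (1 / 2 : ℝ) ^ (d * (N + n₀)) * |z n k| ≤ r :=
          (mul_le_mul_of_nonneg_right h3 (abs_nonneg _)).trans h1.le
        rw [hj]
        have h5 : (2 : ℝ) ^ (d * (N + n₀)) * (1 / 2) ^ (d * (N + n₀)) = 1 := by
          rw [← mul_pow]; norm_num
        calc |z n k| = (2 : ℝ) ^ (d * (N + n₀)) * ((1 / 2) ^ (d * (N + n₀)) * |z n k|) := by
              rw [← mul_assoc, h5, one_mul]
          _ ≤ 2 ^ (d * (N + n₀)) * r := mul_le_mul_of_nonneg_left h4 (by positivity)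
          _ = _ := by rw [Nat.mul_add, pow_add]; ring
      · refine (hzub n j hj).trans ?_
        have h1 : (1 / 2 : ℝ) ^ n₀ ≤ 1 := pow_le_one₀ (by norm_num) (by norm_num)
        have h2 : (1 / 2 : ℝ) ^ n j ≤ 1 := pow_le_one₀ (by norm_num) (by norm_num)
        have h3 : (1 : ℝ) ≤ 2 ^ (d * n₀) := one_le_pow₀ (by norm_num)
        have h4 : (1 : ℝ) ≤ 2 ^ (d * N) := one_le_pow₀ (by norm_num)
        calc r * (1 / 2) ^ n₀ * (1 / 2) ^ n j ≤ r * 1 * 1 := by gcongr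
          _ ≤ r * 2 ^ (d * n₀) * 2 ^ (d * N) := by gcongr
    have h1 : iR (x n) = h⁻¹ *ᵥ z n := by
      rw [hz]
      simp only
      rw [mulVec_mulVec, Matrix.nonsing_inv_mul _ (isUnit_iff_ne_zero.2 hdet0), one_mulVec]
    have h2 : (x n i : ℝ) = ∑ j, h⁻¹ i j * z n j := congrFun h1 i
    rw [h2]
    calc |∑ j, h⁻¹ i j * z n j| ≤ ∑ j, |h⁻¹ i j| * (r * 2 ^ (d * n₀) * 2 ^ (d * N)) := by
          refine (Finset.abs_sum_le_sum_abs _ _).trans (Finset.sum_le_sum fun j _ => ?_)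
          rw [abs_mul]
          exact mul_le_mul_of_nonneg_left (hzle j) (abs_nonneg _)
      _ = (∑ j, |h⁻¹ i j|) * (r * 2 ^ (d * n₀) * 2 ^ (d * N)) := by rw [Finset.sum_mul]
      _ ≤ H₁ * (r * 2 ^ (d * n₀) * 2 ^ (d * N)) := by
          refine mul_le_mul_of_nonneg_right ?_ (by positivity)
          have h3 : ∑ j, |h⁻¹ i j| ≤ ∑ i, ∑ j, |h⁻¹ i j| :=
            Finset.single_le_sum (f := fun i => ∑ j, |h⁻¹ i j|)
              (fun i _ => Finset.sum_nonneg fun j _ => abs_nonneg _) (Finset.mem_univ i)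
          linarith
      _ = _ := by ring
  -- the subspaces
  set Sρ : ℝ → Set (Fin d → ℤ) := fun t => {y | m ⬝ᵥ iR y = t * (l ⬝ᵥ iR y)} with hSρ
  set Rk : ℝ → ℕ := fun t => Module.finrank ℝ (Submodule.span ℝ (iR '' Sρ t)) with hRk
  have hRk2 : ∀ t t', t ≠ t' → Rk t + Rk t' ≤ d := fun t t' htt =>
    RatSpan.finrank_add_le hlne htt (Sρ t) (Sρ t') (fun y hy => hy) fun y hy => hy
  have hRk1 : ∀ t, Rk t ≤ d - 1 := by
    intro t
    set φ : (Fin d → ℝ) →ₗ[ℝ] ℝ := (Matrix.mulVecLin (Matrix.of fun (_ : Fin 1) => m - t • l)).comp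
      LinearMap.id |> fun f => (LinearMap.proj 0).comp f with hφ
    have hφa : ∀ v, φ v = (m - t • l) ⬝ᵥ v := fun v => rfl
    have hle : Submodule.span ℝ (iR '' Sρ t) ≤ LinearMap.ker φ := by
      rw [Submodule.span_le]
      rintro _ ⟨y, hy, rfl⟩
      have hy' : m ⬝ᵥ iR y = t * (l ⬝ᵥ iR y) := hy
      show φ (iR y) = 0
      rw [hφa, sub_dotProduct, smul_dotProduct, smul_eq_mul, hy', sub_self]
    have hlt : LinearMap.ker φ ≠ ⊤ := by
      intro htop
      have h1 : m - t • l = 0 := by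
        funext j
        have h2 : φ (Pi.single j 1) = 0 := by
          have : Pi.single j (1 : ℝ) ∈ LinearMap.ker φ := by rw [htop]; trivial
          exact this
        rw [hφa, dotProduct_single, mul_one] at h2
        exact h2
      have h2 : (w - t • Pi.single k 1) ᵥ* h = 0 := by
        rw [sub_vecMul, smul_vecMul, Matrix.single_one_vecMul]
        exact h1
      have h3 : w - t • Pi.single k 1 = 0 := by
        have h4 : ((w - t • Pi.single k 1) ᵥ* h) ᵥ* h⁻¹ = 0 := by rw [h2, zero_vecMul]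
        rwa [vecMul_vecMul, Matrix.mul_nonsing_inv _ (isUnit_iff_ne_zero.2 hdet0),
          vecMul_one] at h4
      have h4 : t = 0 := by
        have := congrFun h3 k
        simp only [Pi.sub_apply, Pi.smul_apply, Pi.single_eq_same, smul_eq_mul, mul_one, hwk,
          Pi.zero_apply, zero_sub, neg_eq_zero] at this
        exact this
      rw [h4, zero_smul, sub_zero] at h3
      exact hw0 h3
    have h1 : Module.finrank ℝ (LinearMap.ker φ) < d := by
      have := Submodule.finrank_lt hlt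
      rwa [Module.finrank_fin_fun] at this
    have h2 := Submodule.finrank_mono hle
    simp only [hRk]
    omega
  -- counting in one fibre
  have hcount : ∀ (N : ℕ) (t : ℝ) (𝒩 : Finset (Fin d → ℕ)),
      (∀ n ∈ 𝒩, n k = 0 ∧ (∀ j, n j ≤ N) ∧ ρ n = t) →
      𝒩.card ≤ C * (N + 1) ^ (Rk t - 1) := by
    intro N t 𝒩 h𝒩
    have h1 := hC (Submodule.map (Matrix.mulVecLin h) (Submodule.span ℝ (iR '' Sρ t))) N 𝒩 z
      (fun n hn => by
        obtain ⟨hn1, hn2, hn3⟩ := h𝒩 n hn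
        refine ⟨hn1, hn2, ?_, fun j hj => ⟨hzlb n j hj, (hzub n j hj).trans ?_⟩, hzν n, hzV n⟩
        · refine Submodule.mem_map.2 ⟨iR (x n), Submodule.subset_span ⟨x n, ?_, rfl⟩, rfl⟩
          show m ⬝ᵥ iR (x n) = t * (l ⬝ᵥ iR (x n))
          rw [← hn3]
          exact hρeq n
        · exact mul_le_mul_of_nonneg_right (le_max_right _ _) (by positivity))
    refine h1.trans (Nat.mul_le_mul_left _ (Nat.pow_le_pow_right (Nat.succ_pos N) ?_))
    have h2 := Submodule.finrank_map_le (Matrix.mulVecLin h) (Submodule.span ℝ (iR '' Sρ t))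
    simp only [hRk]
    omega
  set q : ℕ := d / 2 with hq
  have hq1 : 1 ≤ q := by omega
  -- all but one value of the ratio are good
  obtain ⟨t₀, ht₀⟩ : ∃ t₀ : ℝ, ∀ t, t ≠ t₀ → Rk t ≤ q := by
    by_cases hbad : ∃ t₀, q < Rk t₀
    · obtain ⟨t₀, ht₀⟩ := hbad
      refine ⟨t₀, fun t ht => ?_⟩
      have := hRk2 t t₀ ht
      omega
    · push Not at hbad
      exact ⟨0, fun t _ => hbad t⟩
  refine ⟨C * 2 ^ d, 2 * (C * 2 ^ d) + 1, H₁ * r * 2 ^ (d * n₀), by positivity,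
    fun N hN => ?_⟩
  set X : ℝ := H₁ * r * 2 ^ (d * n₀) * 2 ^ (d * N) with hX
  set 𝒩 : Finset (Fin d → ℕ) :=
    Fintype.piFinset (fun j => if j = k then {0} else Finset.range N) with h𝒩
  have h𝒩card : 𝒩.card = N ^ (d - 1) := by
    rw [h𝒩, Fintype.card_piFinset, ← Finset.mul_prod_erase Finset.univ _ (Finset.mem_univ k),
      if_pos rfl, Finset.card_singleton, one_mul, Finset.prod_congr rfl (fun s hs => by
        rw [if_neg (Finset.ne_of_mem_erase hs), Finset.card_range]), Finset.prod_const,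
      Finset.card_erase_of_mem (Finset.mem_univ k), Finset.card_univ, Fintype.card_fin]
  have h𝒩mem : ∀ n ∈ 𝒩, n k = 0 ∧ ∀ j, n j ≤ N := by
    intro n hn
    rw [h𝒩, Fintype.mem_piFinset] at hn
    refine ⟨by simpa using hn k, fun j => ?_⟩
    have h1 := hn j
    by_cases hj : j = k
    · rw [if_pos hj, Finset.mem_singleton] at h1
      omega
    · rw [if_neg hj, Finset.mem_range] at h1
      exact h1.le
  set A : Finset ℝ := (vals_finite h S X).toFinset with hA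
  set A' : Finset ℝ := (vals_finite h' S X).toFinset with hA'
  have hAc : (vals h S X).ncard = A.card := Set.ncard_eq_toFinset_card _ _
  have hAc' : (vals h' S X).ncard = A'.card := Set.ncard_eq_toFinset_card _ _
  set F : (Fin d → ℕ) → ℝ × ℝ := fun n => (FF h (iR (x n)), FF h' (iR (x n))) with hF
  have hFmem : ∀ n ∈ 𝒩, F n ∈ A ×ˢ A' := by
    intro n hn
    rw [Finset.mem_product, hA, hA', Set.Finite.mem_toFinset, Set.Finite.mem_toFinset]
    have hb := hnorm N n (h𝒩mem n hn).2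
    exact ⟨⟨x n, hx0 n, hb, rfl, hmem n⟩, ⟨x n, hx0 n, hb, rfl, hmem' n⟩⟩
  have hbad : (𝒩.filter (fun n => ρ n = t₀)).card ≤ C * (N + 1) ^ (d - 2) := by
    refine (hcount N t₀ _ fun n hn => ?_).trans
      (Nat.mul_le_mul_left _ (Nat.pow_le_pow_right (Nat.succ_pos N) ?_))
    · rw [Finset.mem_filter] at hn
      exact ⟨(h𝒩mem n hn.1).1, (h𝒩mem n hn.1).2, hn.2⟩
    · have := hRk1 t₀
      omega
  have hgood : (𝒩.filter (fun n => ¬ ρ n = t₀)).card ≤
      (A ×ˢ A').card * (C * (N + 1) ^ (q - 1)) := by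
    rw [mul_comm]
    refine Finset.card_le_mul_card_image_of_maps_to (f := F) (fun n hn => hFmem n
      (Finset.mem_filter.1 hn).1) _ ?_
    intro p _
    rcases ((𝒩.filter (fun n => ¬ ρ n = t₀)).filter (fun n => F n = p)).eq_empty_or_nonempty with
      hemp | ⟨n₁, hn₁⟩
    · rw [hemp, Finset.card_empty]; exact Nat.zero_le _
    rw [Finset.mem_filter, Finset.mem_filter] at hn₁
    refine (hcount N (ρ n₁) _ fun n hn => ?_).trans
      (Nat.mul_le_mul_left _ (Nat.pow_le_pow_right (Nat.succ_pos N) ?_))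
    · rw [Finset.mem_filter, Finset.mem_filter] at hn
      refine ⟨(h𝒩mem n hn.1.1).1, (h𝒩mem n hn.1.1).2, ?_⟩
      have h1 : F n = F n₁ := hn.2.trans hn₁.2.symm
      have h2 : FF h (iR (x n)) = FF h (iR (x n₁)) := congrArg Prod.fst h1
      have h3 : FF h' (iR (x n)) = FF h' (iR (x n₁)) := congrArg Prod.snd h1
      rw [hFFρ, hFFρ, h2] at h3
      have h4 : FF h (iR (x n₁)) ≠ 0 := by
        intro h0
        have h5 := hnu _ (hx0 n₁)
        rw [h0, abs_zero] at h5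
        exact absurd h5 (not_le.2 hν)
      have h5 := mul_left_cancel₀ h4 h3
      linarith
    · have := ht₀ (ρ n₁) hn₁.1.2
      omega
  have htot : N ^ (d - 1) ≤ C * (N + 1) ^ (d - 2) + (A ×ˢ A').card * (C * (N + 1) ^ (q - 1)) := by
    rw [← h𝒩card, ← Finset.card_filter_add_card_filter_not (s := 𝒩) (fun n => ρ n = t₀)]
    exact add_le_add hbad hgood
  -- arithmetic
  have hN1 : 1 ≤ N := by omega
  have h2N : N + 1 ≤ 2 * N := by omega
  have e1 : C * (N + 1) ^ (d - 2) ≤ C * 2 ^ d * N ^ (d - 2) := by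
    calc C * (N + 1) ^ (d - 2) ≤ C * (2 * N) ^ (d - 2) :=
          Nat.mul_le_mul_left _ (Nat.pow_le_pow_left h2N _)
      _ = C * 2 ^ (d - 2) * N ^ (d - 2) := by rw [mul_pow]; ring
      _ ≤ _ := Nat.mul_le_mul_right _ (Nat.mul_le_mul_left _
          (Nat.pow_le_pow_right (by norm_num) (by omega)))
  have e2 : 2 * (C * 2 ^ d * N ^ (d - 2)) ≤ N ^ (d - 1) := by
    have h1 : d - 1 = (d - 2) + 1 := by omega
    rw [h1, pow_succ]
    calc 2 * (C * 2 ^ d * N ^ (d - 2)) = N ^ (d - 2) * (2 * (C * 2 ^ d)) := by ring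
      _ ≤ _ := Nat.mul_le_mul_left _ (by omega)
  have e3 : (A ×ˢ A').card * (C * (N + 1) ^ (q - 1)) ≤
      (A ×ˢ A').card * (C * 2 ^ (q - 1)) * N ^ (q - 1) := by
    calc (A ×ˢ A').card * (C * (N + 1) ^ (q - 1)) ≤ (A ×ˢ A').card * (C * (2 * N) ^ (q - 1)) :=
          Nat.mul_le_mul_left _ (Nat.mul_le_mul_left _ (Nat.pow_le_pow_left h2N _))
      _ = _ := by rw [mul_pow]; ring
  have e4 : N ^ (d - 1) ≤ 2 * ((A ×ˢ A').card * (C * 2 ^ (q - 1)) * N ^ (q - 1)) := by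
    omega
  have e5 : N ^ (d - 1) = N ^ (d - q) * N ^ (q - 1) := by
    rw [← pow_add]
    congr 1
    omega
  rw [e5] at e4
  have e6 : 0 < N ^ (q - 1) := Nat.pow_pos (by omega)
  have e7 : N ^ (d - q) ≤ 2 * ((A ×ˢ A').card * (C * 2 ^ (q - 1))) := by
    refine Nat.le_of_mul_le_mul_right ?_ e6
    calc N ^ (d - q) * N ^ (q - 1) ≤ 2 * ((A ×ˢ A').card * (C * 2 ^ (q - 1)) * N ^ (q - 1)) := e4
      _ = _ := by ring
  rw [hAc, hAc', ← Finset.card_product]
  calc N ^ (d - q) ≤ 2 * ((A ×ˢ A').card * (C * 2 ^ (q - 1))) := e7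
    _ = C * 2 ^ q * (A ×ˢ A').card := by
        have : 2 ^ q = 2 * 2 ^ (q - 1) := by
          rw [← pow_succ']
          congr 1
          omega
        rw [this]; ring
    _ ≤ C * 2 ^ d * (A ×ˢ A').card :=
        Nat.mul_le_mul_right _ (Nat.mul_le_mul_left _ (Nat.pow_le_pow_right (by norm_num)
          (Nat.div_le_self d 2)))

/-- the count in terms of the norm -/
theorem pair_log (hd : 2 ≤ d) {V ν : ℝ} (hV : 0 < V) (hν : 0 < ν)
    {Y : Set (Matrix (Fin d) (Fin d) ℝ)} (hYc : IsClosed Y) (hYinv : H715R2.Inv Y)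
    (hYdet : ∀ h ∈ Y, |h.det| = V) (hYnu : ∀ h ∈ Y, HasNu h ν) {S : Set ℝ} (hSo : IsOpen S)
    (hS : ∀ h ∈ Y, ∃ m : Fin d → ℤ, m ≠ 0 ∧ FF h (iR m) ∈ S)
    {h : Matrix (Fin d) (Fin d) ℝ} (hh : h ∈ Y) {k : Fin d} {w : Fin d → ℝ} (hwk : w k = 0)
    (hw0 : w ≠ 0) :
    ∃ c X₀ : ℝ, 0 < c ∧ ∀ X, X₀ ≤ X → c * Real.log X ^ (d - d / 2) ≤
      ((vals h S X).ncard : ℝ) * ((vals (Md {k} (fun _ => w) * h) S X).ncard : ℝ) := by
  obtain ⟨C, N₁, H, hH, hcount⟩ := pair_core hd hV hν hYc hYinv hYdet hYnu hSo hS hh hwk hw0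
  have hd0 : 0 < d := by omega
  have hdR : (0 : ℝ) < d := by exact_mod_cast hd0
  have hlog2 : 0 < Real.log 2 := Real.log_pos (by norm_num)
  set D : ℝ := 2 * (d * Real.log 2) with hD
  have hD0 : 0 < D := by positivity
  set e : ℕ := d - d / 2 with he
  have hmono : ∀ (g : Matrix (Fin d) (Fin d) ℝ) (X X' : ℝ), X ≤ X' →
      (vals g S X).ncard ≤ (vals g S X').ncard := by
    intro g X X' hXX
    refine Set.ncard_le_ncard ?_ (vals_finite g S X')
    rintro t ⟨x, hx0, hx, hxt⟩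
    exact ⟨x, hx0, fun i => (hx i).trans hXX, hxt⟩
  refine ⟨1 / ((C + 1) * (2 * D) ^ e), max (max (H ^ 2) 1) (Real.exp (2 * D * (N₁ + 1))),
    by positivity, fun X hX => ?_⟩
  have hX1 : H ^ 2 ≤ X := (le_max_left _ _).trans ((le_max_left _ _).trans hX)
  have hX2 : 1 ≤ X := (le_max_right _ _).trans ((le_max_left _ _).trans hX)
  have hX3 : Real.exp (2 * D * (N₁ + 1)) ≤ X := (le_max_right _ _).trans hX
  have hX0 : 0 < X := by linarith
  have hlogX : 2 * D * (N₁ + 1) ≤ Real.log X := (Real.le_log_iff_exp_le hX0).2 hX3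
  set N : ℕ := ⌊Real.log X / D⌋₊ with hN
  have hNle : (N : ℝ) ≤ Real.log X / D :=
    Nat.floor_le (div_nonneg (Real.log_nonneg hX2) hD0.le)
  have hNge : Real.log X / D < N + 1 := Nat.lt_floor_add_one _
  have hN1 : (N₁ : ℝ) ≤ N := by
    have h1 : 2 * ((N₁ : ℝ) + 1) ≤ Real.log X / D := by
      rw [le_div_iff₀ hD0]
      linarith
    have h2 : (0 : ℝ) ≤ N₁ := Nat.cast_nonneg _
    linarith
  have hN1' : N₁ ≤ N := by exact_mod_cast hN1
  have hNlow : Real.log X / (2 * D) ≤ N := by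
    have h1 : 2 ≤ Real.log X / D := by
      rw [le_div_iff₀ hD0]
      have h2 : (0 : ℝ) ≤ N₁ := Nat.cast_nonneg _
      nlinarith
    have h2 : Real.log X / (2 * D) = Real.log X / D / 2 := by
      rw [div_div, mul_comm]
    rw [h2]
    linarith
  have hXN : H * 2 ^ (d * N) ≤ X := by
    have h1 : (2 : ℝ) ^ (d * N) ≤ X ^ ((1 : ℝ) / 2) := by
      rw [← Real.rpow_natCast, Real.rpow_def_of_pos two_pos, Real.rpow_def_of_pos hX0]
      refine Real.exp_le_exp.2 ?_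
      have h2 : (N : ℝ) * D ≤ Real.log X := by
        rwa [le_div_iff₀ hD0] at hNle
      push_cast
      rw [hD] at h2
      nlinarith
    have h2 : H ≤ X ^ ((1 : ℝ) / 2) := by
      rw [← Real.sqrt_eq_rpow]
      exact Real.le_sqrt_of_sq_le hX1
    calc H * 2 ^ (d * N) ≤ X ^ ((1 : ℝ) / 2) * X ^ ((1 : ℝ) / 2) :=
          mul_le_mul h2 h1 (by positivity) (by positivity)
      _ = X := by
          rw [← Real.rpow_add hX0]
          norm_num
  have h1 := hcount N hN1'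
  have h2 : (N : ℝ) ^ e ≤ C * (((vals h S X).ncard : ℝ) *
      ((vals (Md {k} (fun _ => w) * h) S X).ncard : ℝ)) := by
    have h3 : N ^ e ≤ C * ((vals h S X).ncard * (vals (Md {k} (fun _ => w) * h) S X).ncard) :=
      h1.trans (Nat.mul_le_mul_left _ (Nat.mul_le_mul (hmono _ _ _ hXN) (hmono _ _ _ hXN)))
    exact_mod_cast h3
  have h3 : Real.log X ^ e ≤ (2 * D) ^ e * (N : ℝ) ^ e := by
    rw [← mul_pow]
    refine pow_le_pow_left₀ (Real.log_nonneg hX2) ?_ _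
    rw [div_le_iff₀ (by positivity)] at hNlow
    linarith
  rw [one_div, inv_mul_le_iff₀ (by positivity)]
  set P : ℝ := ((vals h S X).ncard : ℝ) * ((vals (Md {k} (fun _ => w) * h) S X).ncard : ℝ) with hP
  have hP0 : 0 ≤ P := by positivity
  calc Real.log X ^ e ≤ (2 * D) ^ e * (N : ℝ) ^ e := h3
    _ ≤ (2 * D) ^ e * (C * P) := mul_le_mul_of_nonneg_left h2 (by positivity)
    _ ≤ (2 * D) ^ e * ((C + 1) * P) := by
        refine mul_le_mul_of_nonneg_left ?_ (by positivity)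
        nlinarith
    _ = (C + 1) * (2 * D) ^ e * P := by ring

end Pool.Agent.Y327
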