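import Mathlib
import Pool.Agent.Y327.Many
import Pool.Agent.Y327.Wall

/-! # Existence of forms with many values -/

open Filter Topology Matrix

namespace Pool.Agent.Y327

open H715R2

variable {d : ℕ}

/-- a minimal set contains two points which differ by an elementary row operation -/
theorem root_pair (hd : 3 ≤ d) {g : Matrix (Fin d) (Fin d) ℝ} (hg : g.det ≠ 0) {ν : ℝ}
    (hν : 0 < ν) (hnu : HasNu g ν) (hint : ¬ PropInt g) {M : Set (Matrix (Fin d) (Fin d) ℝ)}
    (hMg : M ⊆ closure (Orb g)) (hM : MinB id M) (i : Fin d) :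
    ∃ j, j ≠ i ∧ ∃ s : ℝ, s ≠ 0 ∧ ∃ h ∈ M,
      Md {i} (fun _ l => if l = j then s else 0) * h ∈ M := by
  classical
  have hd0 : 0 < d := by omega
  have hMdet : ∀ h ∈ M, |h.det| = |g.det| := fun h hh => abs_det_closure (hMg hh)
  have hMnu : ∀ h ∈ M, HasNu h ν := fun h hh => hasNu_closure hnu (hMg hh)
  have hk : ∀ l : Fin d, id l = id i → l = i := fun l hl => hl
  obtain ⟨h₀, hh₀⟩ := hM.ne
  obtain ⟨h₁, hh₁, w, hwk, hw0, hw⟩ := row_pair hd0 (abs_pos.2 hg) hν hMdet hMnu hM.closed hM.inv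
    hh₀ hk (frequently_row hd hg hν hnu hint hMg hM hh₀ hk)
  obtain ⟨j, hj⟩ : ∃ j, w j ≠ 0 := by
    by_contra hcon
    push Not at hcon
    exact hw0 (funext hcon)
  have hji : j ≠ i := fun h => hj (h ▸ hwk)
  obtain ⟨h₂, hh₂, hw₂⟩ := block_pair hd0 (abs_pos.2 hg) hν hMdet hMnu hM.closed hM.inv hk hh₁
    hwk hw j
  refine ⟨j, hji, w j, hj, h₂, hh₂, ?_⟩
  have h1 : (fun (_ : Fin d) (l : Fin d) => if id l = id j then w l else 0) =
      fun (_ : Fin d) (l : Fin d) => if l = j then w j else 0 := by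
    funext _ l
    by_cases hl : l = j
    · subst hl; simp
    · have h2 : ¬ (id l = id j) := hl
      rw [if_neg h2, if_neg hl]
  rw [h1] at hw₂
  exact hw₂

/-- every form in the orbit closure has few more values than suitable integral changes of
variables of the form -/
theorem vals_approx {g h : Matrix (Fin d) (Fin d) ℝ} (hh : h ∈ closure (Orb g)) {S : Set ℝ}
    (hS : IsOpen S) (X : ℝ) : ∃ γ : Matrix (Fin d) (Fin d) ℤ, IsUnit γ.det ∧
      (vals h S X).ncard ≤ (vals (g * zR γ) S X).ncard := by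
  classical
  set A : Finset ℝ := (vals_finite h S X).toFinset with hA
  have hmem : ∀ t : A, ∃ x : Fin d → ℤ, x ≠ 0 ∧ (∀ i, |(x i : ℝ)| ≤ X) ∧ FF h (iR x) = t ∧
      (t : ℝ) ∈ S := by
    rintro ⟨t, ht⟩
    rw [hA, Set.Finite.mem_toFinset] at ht
    exact ht
  choose x hx0 hxX hxt hxS using hmem
  -- an open neighbourhood of `h`
  have hev : ∀ᶠ h' in 𝓝 h, (∀ t : A, FF h' (iR (x t)) ∈ S) ∧
      ∀ t t' : A, t ≠ t' → FF h' (iR (x t)) ≠ FF h' (iR (x t')) := by
    refine Filter.Eventually.and ?_ ?_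
    · refine Filter.eventually_all.2 fun t => ?_
      have h1 : FF h (iR (x t)) ∈ S := by rw [hxt]; exact hxS t
      exact (continuous_FF (iR (x t))).continuousAt.preimage_mem_nhds (hS.mem_nhds h1)
    · refine Filter.eventually_all.2 fun t => Filter.eventually_all.2 fun t' => ?_
      by_cases htt : t = t'
      · exact Filter.Eventually.of_forall fun _ h => absurd htt h
      · have h1 : FF h (iR (x t)) ≠ FF h (iR (x t')) := by
          rw [hxt, hxt]
          exact fun h => htt (Subtype.ext h)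
        have h2 : ∀ᶠ h' in 𝓝 h, FF h' (iR (x t)) ≠ FF h' (iR (x t')) :=
          ((continuous_FF (iR (x t))).continuousAt.sub
            (continuous_FF (iR (x t'))).continuousAt).eventually_ne (sub_ne_zero.2 h1) |>.mono
            fun h' hh' => sub_ne_zero.1 hh'
        exact h2.mono fun h' hh' _ => hh'
  obtain ⟨h', hh', hO⟩ := (mem_closure_iff_frequently.1 hh).and_eventually hev |>.exists
  obtain ⟨a, γ, ha0, ha1, hγ, rfl⟩ := hh'
  refine ⟨γ, hγ, ?_⟩
  have hFF : ∀ y, FF (diagonal a * g * zR γ) y = FF (g * zR γ) y := by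
    intro y
    rw [Matrix.mul_assoc, FF_diag_mul, ha1, one_mul]
  have hAc : (vals h S X).ncard = A.card := Set.ncard_eq_toFinset_card _ _
  rw [hAc, ← Fintype.card_coe A, ← Finset.card_univ, Set.ncard_eq_toFinset_card _ (vals_finite _ S X)]
  refine Finset.card_le_card_of_injOn (fun t => FF (g * zR γ) (iR (x t))) ?_ ?_
  · intro t _
    rw [Finset.mem_coe, Set.Finite.mem_toFinset]
    refine ⟨x t, hx0 t, hxX t, rfl, ?_⟩
    have := hO.1 t
    rwa [hFF] at this
  · intro t _ t' _ htt
    by_contra hne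
    have := hO.2 t t' hne
    rw [hFF, hFF] at this
    exact this htt

end Pool.Agent.Y327
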