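import Mathlib
import Pool.Agent.Y327.ZarThm

/-! # Coincidences between the values of generic forms -/

open Filter Topology Matrix

set_option linter.unusedSectionVars false

namespace Pool.Agent.Y327

open H715R2 RatSpan

variable {d : ℕ}

/-- the product of the rows at an integer point, as a polynomial in the entries -/
noncomputable def PF (x : Fin d → ℤ) : MvPolynomial (Fin d × Fin d) ℝ :=
  ∏ i, ∑ j, MvPolynomial.X (i, j) * MvPolynomial.C ((x j : ℤ) : ℝ)

lemma ev_PF (x : Fin d → ℤ) (h : Matrix (Fin d) (Fin d) ℝ) : ev (PF x) h = FF h (iR x) := by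
  simp only [ev, PF, map_prod, map_sum, map_mul, MvPolynomial.eval_X, MvPolynomial.eval_C]
  rfl

/-- the differences of these polynomials -/
def coinP (d : ℕ) : Set (MvPolynomial (Fin d × Fin d) ℝ) :=
  Set.range fun p : (Fin d → ℤ) × (Fin d → ℤ) => PF p.1 - PF p.2

lemma coinP_countable (d : ℕ) : (coinP d).Countable := Set.countable_range _

/-- the coordinates of nonzero integer points are not zero -/
lemma coord_ne {h : Matrix (Fin d) (Fin d) ℝ} {ν : ℝ} (hν : 0 < ν) (hnu : HasNu h ν)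
    {x : Fin d → ℤ} (hx : x ≠ 0) (i : Fin d) : (h *ᵥ iR x) i ≠ 0 := by
  intro h0
  have h1 := hnu x hx
  rw [FF_eq, Finset.prod_eq_zero (Finset.mem_univ i) h0, abs_zero] at h1
  exact absurd h1 (not_le.2 hν)

/-- **Coincidences of generic forms: the ratios are constant on the classes.** -/
theorem coin_ratio {R : Fin d → Fin d → Prop} (hR : ∀ i, R i i)
    {h : Matrix (Fin d) (Fin d) ℝ} {ν : ℝ} (hν : 0 < ν)
    (hnu : HasNu h ν)
    (hgen : ∀ P ∈ coinP d, ev P h = 0 → ∀ K : Matrix (Fin d) (Fin d) ℝ,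
      (∀ i j, ¬ R i j → K i j = 0) → K.det = 1 → ev P (K * h) = 0)
    {x y : Fin d → ℤ} (hx : x ≠ 0) (hy : y ≠ 0) (hxy : FF h (iR x) = FF h (iR y)) {i j : Fin d}
    (hs : R i j) :
    (h *ᵥ iR y) i * (h *ᵥ iR x) j = (h *ᵥ iR x) i * (h *ᵥ iR y) j := by
  classical
  rcases eq_or_ne i j with rfl | hij
  · ring
  have hgen' : ∀ K : Matrix (Fin d) (Fin d) ℝ, (∀ i j, ¬ R i j → K i j = 0) → K.det = 1 →
      FF (K * h) (iR x) = FF (K * h) (iR y) := by
    intro K hK hKd
    have h1 := hgen (PF x - PF y) ⟨(x, y), rfl⟩ (by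
      simp only [ev, map_sub]
      exact sub_eq_zero.2 (by have := ev_PF x h; have h2 := ev_PF y h; simp only [ev] at this h2
                              rw [this, h2, hxy])) K hK hKd
    have h2 : ev (PF x) (K * h) - ev (PF y) (K * h) = 0 := by
      simpa only [ev, map_sub] using h1
    rw [ev_PF, ev_PF] at h2
    exact sub_eq_zero.1 h2
  set u := h *ᵥ iR x with hu
  set v := h *ᵥ iR y with hv
  have hu0 : ∀ l, u l ≠ 0 := fun l => coord_ne hν hnu hx l
  have hv0 : ∀ l, v l ≠ 0 := fun l => coord_ne hν hnu hy l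
  have hcoord : ∀ (t : ℝ) (z : Fin d → ℤ) (l : Fin d), ((transvection i j t * h) *ᵥ iR z) l =
      (h *ᵥ iR z) l + if l = i then t * (h *ᵥ iR z) j else 0 := by
    intro t z l
    simp only [Matrix.mulVec, dotProduct, transvection_mul_entry, add_mul, Finset.sum_add_distrib]
    congr 1
    split_ifs
    · rw [Finset.mul_sum]
      exact Finset.sum_congr rfl fun b _ => by ring
    · simp
  have hprod : ∀ (t : ℝ) (z : Fin d → ℤ), FF (transvection i j t * h) (iR z) =
      ((h *ᵥ iR z) i + t * (h *ᵥ iR z) j) * ∏ l ∈ Finset.univ.erase i, (h *ᵥ iR z) l := by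
    intro t z
    rw [FF_eq, ← Finset.mul_prod_erase Finset.univ _ (Finset.mem_univ i), hcoord, if_pos rfl]
    congr 1
    refine Finset.prod_congr rfl fun l hl => ?_
    rw [hcoord, if_neg (Finset.ne_of_mem_erase hl), add_zero]
  have h1 := hgen' (transvection i j (-(u i / u j))) (fun a b hab => by
    rw [transvection, Matrix.add_apply, Matrix.one_apply_ne (fun h0 => hab (by rw [h0]; exact hR b)),
      Matrix.single_apply, if_neg (fun h0 => hab (by rw [← h0.1, ← h0.2]; exact hs)), add_zero])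
    (det_transvection_of_ne _ _ hij _)
  rw [hprod, hprod] at h1
  have h2 : (h *ᵥ iR x) i + -(u i / u j) * (h *ᵥ iR x) j = 0 := by
    rw [← hu]
    have := hu0 j
    field_simp
    ring
  rw [h2, zero_mul] at h1
  have h3 : ∏ l ∈ Finset.univ.erase i, (h *ᵥ iR y) l ≠ 0 := Finset.prod_ne_zero_iff.2 fun l _ => hv0 l
  have h4 := (mul_eq_zero.1 h1.symm).resolve_right h3
  rw [← hv] at h4
  have h5 := hu0 j
  field_simp at h4
  linarith

/-- a rational vector in the real span of rational vectors is in their rational span -/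
lemma rat_of_real {n : ℕ} (u : Fin n → Fin d → ℚ) (y : Fin d → ℚ) (r : Fin n → ℝ)
    (hr : ∀ a, (y a : ℝ) = ∑ k, r k * ((u k a : ℚ) : ℝ)) : y ∈ Submodule.span ℚ (Set.range u) := by
  classical
  by_contra hcon
  obtain ⟨f, hf, hfu⟩ := Submodule.exists_le_ker_of_notMem hcon
  apply hf
  have hexp : ∀ z : Fin d → ℚ, f z = ∑ a, z a * f (Pi.single a 1) := by
    intro z
    conv_lhs => rw [pi_eq_sum_univ' z]
    rw [map_sum]
    refine Finset.sum_congr rfl fun a _ => ?_
    rw [map_smul, smul_eq_mul]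
  have h1 : ((f y : ℚ) : ℝ) = 0 := by
    rw [hexp]
    push_cast
    simp only [hr, Finset.sum_mul]
    rw [Finset.sum_comm]
    refine Finset.sum_eq_zero fun k _ => ?_
    have h2 : f (u k) = 0 := hfu (Submodule.subset_span ⟨k, rfl⟩)
    rw [hexp] at h2
    have h3 : ((∑ a, u k a * f (Pi.single a 1) : ℚ) : ℝ) = 0 := by rw [h2]; simp
    push_cast at h3
    simp only [mul_assoc, ← Finset.mul_sum]
    rw [h3, mul_zero]
  exact_mod_cast h1

/-- the eigenvalues of the symmetries span the vectors which are constant on the classes -/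
lemma classconst_repr (hd : 3 ≤ d) {g : Matrix (Fin d) (Fin d) ℝ} (hg : g.det ≠ 0) {ν : ℝ}
    (hν : 0 < ν) (hnu : HasNu g ν) {M : Set (Matrix (Fin d) (Fin d) ℝ)}
    (hMg : M ⊆ closure (Orb g)) (hM : MinB id M) {h : Matrix (Fin d) (Fin d) ℝ} (hh : h ∈ M)
    (hu : IsUnit h.det) {D : Fin d → ℝ} (hD : ∀ i j, Sam h i j → D i = D j) :
    ∃ (n : ℕ) (b : Fin n → Module.End ℚ (Fin d → ℚ)) (r : Fin n → ℝ), (∀ k, Dg h (b k)) ∧
      ∀ i, D i = ∑ k, r k * (h * kap (b k) * h⁻¹) i i := by
  classical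
  have hd0 : 0 < d := by omega
  obtain ⟨s, hs1, hs2⟩ := class_sizes hd hg hν hnu hMg hM hh hu
  obtain ⟨ρ, hρ1, hρ2, -⟩ := exists_rep h ⟨0, hd0⟩
  have hρρ : ∀ l, ρ (ρ l) = ρ l := fun l => (hρ2 _ _ (hρ1 l)).symm
  set T : Finset (Fin d) := Finset.univ.filter (fun t => ρ t = t) with hT
  obtain ⟨n, b, hn, hb', hb⟩ := exists_li (Subalgebra.toSubmodule (symA h hu))
  have hbD : ∀ k, Dg h (b k) := fun k => hb k
  have hs0 : 0 < s := by
    rcases Nat.eq_zero_or_pos s with h0 | h0
    · rw [h0, zero_mul] at hs1; omega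
    · exact h0
  have hnT : n = T.card := by
    have hfib : ∀ t ∈ T, (Finset.univ.filter (fun j => ρ j = t)).card = s := by
      intro t ht
      have ht' : ρ t = t := by simpa [hT] using ht
      rw [← hs2 t, Nat.card_eq_fintype_card, Fintype.card_subtype]
      congr 1
      ext j
      simp only [Finset.mem_filter, Finset.mem_univ, true_and]
      constructor
      · intro h1
        rw [← h1]
        exact (hρ1 j).symm
      · intro h1
        rw [← hρ2 _ _ h1, ht']
    have h1 := Finset.card_eq_sum_card_fiberwise (s := (Finset.univ : Finset (Fin d))) (t := T)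
      (f := ρ) (fun l _ => by simp [hT, hρρ])
    rw [Finset.card_univ, Fintype.card_fin, Finset.sum_congr rfl hfib, Finset.sum_const,
      smul_eq_mul] at h1
    have h2 : s * n = d := by rw [hn]; exact hs1
    refine Nat.eq_of_mul_eq_mul_left hs0 ?_
    exact (h2.trans h1).trans (mul_comm _ _)
  set χ : Fin n → (T → ℝ) := fun k t => (h * kap (b k) * h⁻¹) t.1 t.1 with hχ
  have hli : LinearIndependent ℝ χ := by
    rw [Fintype.linearIndependent_iff]
    intro c hc
    have h1 : ∑ k, c k • kap (b k) = 0 := by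
      have h2 : h * (∑ k, c k • kap (b k)) * h⁻¹ = 0 := by
        ext i j
        rw [Matrix.mul_sum, Finset.sum_mul, Matrix.sum_apply, Matrix.zero_apply]
        by_cases hij : i = j
        · subst hij
          have h3 := congrFun hc ⟨ρ i, by simp [hT, hρρ]⟩
          simp only [Finset.sum_apply, Pi.smul_apply, hχ, smul_eq_mul, Pi.zero_apply] at h3
          rw [← h3]
          refine Finset.sum_congr rfl fun k _ => ?_
          rw [Matrix.mul_smul, Matrix.smul_mul, Matrix.smul_apply, smul_eq_mul,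
            hρ1 i _ (hbD k)]
        · refine Finset.sum_eq_zero fun k _ => ?_
          rw [Matrix.mul_smul, Matrix.smul_mul, Matrix.smul_apply, hbD k i j hij,
            smul_zero]
      calc ∑ k, c k • kap (b k)
          = (h⁻¹ * h) * (∑ k, c k • kap (b k)) * (h⁻¹ * h) := by
            rw [Matrix.nonsing_inv_mul _ hu, Matrix.one_mul, Matrix.mul_one]
        _ = h⁻¹ * (h * (∑ k, c k • kap (b k)) * h⁻¹) * h := by
            simp only [Matrix.mul_assoc]
        _ = 0 := by rw [h2, Matrix.mul_zero, Matrix.zero_mul]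
    intro k
    exact congrFun (real_indep hb' h1) k
  have hcard : Fintype.card (Fin n) = Module.finrank ℝ (T → ℝ) := by
    rw [Fintype.card_fin, Module.finrank_fintype_fun_eq_card, Fintype.card_coe, hnT]
  have hspan := hli.span_eq_top_of_card_eq_finrank' hcard
  have h1 : (fun t : T => D t.1) ∈ Submodule.span ℝ (Set.range χ) := by rw [hspan]; trivial
  obtain ⟨r, hr⟩ := (Submodule.mem_span_range_iff_exists_fun ℝ).1 h1
  refine ⟨n, b, r, hbD, fun i => ?_⟩
  have h2 := congrFun hr ⟨ρ i, by simp [hT, hρρ]⟩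
  simp only [Finset.sum_apply, Pi.smul_apply, hχ, smul_eq_mul] at h2
  rw [hD i (ρ i) (hρ1 i), ← h2]
  exact Finset.sum_congr rfl fun k _ => by rw [hρ1 i _ (hbD k)]

/-- **Integer points whose images are proportional on each class differ by a symmetry.** -/
theorem coin_sym (hd : 3 ≤ d) {g : Matrix (Fin d) (Fin d) ℝ} (hg : g.det ≠ 0) {ν : ℝ}
    (hν : 0 < ν) (hnu : HasNu g ν) {M : Set (Matrix (Fin d) (Fin d) ℝ)}
    (hMg : M ⊆ closure (Orb g)) (hM : MinB id M) {h : Matrix (Fin d) (Fin d) ℝ} (hh : h ∈ M)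
    (hu : IsUnit h.det) {D : Fin d → ℝ} (hD : ∀ i j, Sam h i j → D i = D j) {x y : Fin d → ℤ}
    (hxy : ∀ i, (h *ᵥ iR y) i = D i * (h *ᵥ iR x) i) :
    ∃ f : Module.End ℚ (Fin d → ℚ), Dg h f ∧ f (iQ x) = iQ y := by
  classical
  obtain ⟨n, b, r, hb, hr⟩ := classconst_repr hd hg hν hnu hMg hM hh hu hD
  have h1 : h *ᵥ iR y = h *ᵥ (∑ k, r k • (kap (b k) *ᵥ iR x)) := by
    rw [Matrix.mulVec_sum]
    funext i
    rw [hxy i, hr i, Finset.sum_mul, Finset.sum_apply]
    refine Finset.sum_congr rfl fun k _ => ?_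
    have h9 : h *ᵥ (kap (b k) *ᵥ iR x) =
        diagonal (fun i => (h * kap (b k) * h⁻¹) i i) *ᵥ (h *ᵥ iR x) := by
      rw [Matrix.mulVec_mulVec]
      conv_lhs => rw [(dg_iff hu).1 (hb k)]
      rw [← Matrix.mulVec_mulVec]
    rw [Matrix.mulVec_smul, Pi.smul_apply, smul_eq_mul, h9, Matrix.mulVec_diagonal]
    ring
  have h2 : iR y = ∑ k, r k • (kap (b k) *ᵥ iR x) := by
    have h3 := congrArg (fun v => h⁻¹ *ᵥ v) h1
    simp only [Matrix.mulVec_mulVec, Matrix.nonsing_inv_mul _ hu, Matrix.one_mulVec] at h3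
    exact h3
  have h3 : iQ y ∈ Submodule.span ℚ (Set.range fun k => b k (iQ x)) := by
    refine rat_of_real _ _ r fun a => ?_
    have h4 := congrFun h2 a
    rw [Finset.sum_apply] at h4
    have h5 : ((iQ y a : ℚ) : ℝ) = iR y a := congrFun (cR_iQ y) a
    rw [h5, h4]
    refine Finset.sum_congr rfl fun k _ => ?_
    rw [← cR_iQ, kap_mulVec, Pi.smul_apply, smul_eq_mul]
    rfl
  obtain ⟨q, hq⟩ := (Submodule.mem_span_range_iff_exists_fun ℚ).1 h3
  refine ⟨∑ k, q k • b k, ?_, ?_⟩
  · have h4 : ∑ k, q k • b k ∈ symA h hu :=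
      Subalgebra.sum_mem _ fun k _ => Subalgebra.smul_mem _ (hb k) _
    exact h4
  · rw [LinearMap.sum_apply, ← hq]
    rfl

end Pool.Agent.Y327
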