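import Mathlib
import Pool.Agent.Y327.Many

/-! # Forms whose coincidences are proportional on classes have many values -/

open Filter Topology Matrix

set_option linter.unusedSectionVars false

namespace Pool.Agent.Y327

open H715R2

variable {d : ℕ}

/-- from powers of two to logarithms -/
lemma log_of_pow {A : ℝ → ℕ} (hA : Monotone A) {m e : ℕ} (hm : 0 < m) {H : ℝ}
    (h : ∀ N : ℕ, N ^ e ≤ A (H * 2 ^ (m * N))) :
    ∃ c X₀ : ℝ, 0 < c ∧ ∀ X, X₀ ≤ X → c * Real.log X ^ e ≤ A X := by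
  have hmR : (0 : ℝ) < m := by exact_mod_cast hm
  have hlog2 : 0 < Real.log 2 := Real.log_pos (by norm_num)
  set D : ℝ := 2 * (m * Real.log 2) with hD
  have hD0 : 0 < D := by positivity
  refine ⟨1 / (2 * D) ^ e, max (max (H ^ 2) 1) (Real.exp (2 * D)),
    by positivity, fun X hX => ?_⟩
  have hX1 : H ^ 2 ≤ X := (le_max_left _ _).trans ((le_max_left _ _).trans hX)
  have hX2 : 1 ≤ X := (le_max_right _ _).trans ((le_max_left _ _).trans hX)
  have hX3 : Real.exp (2 * D) ≤ X := (le_max_right _ _).trans hX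
  have hX0 : 0 < X := by linarith
  have hlogX : 2 * D ≤ Real.log X := (Real.le_log_iff_exp_le hX0).2 hX3
  set N : ℕ := ⌊Real.log X / D⌋₊ with hN
  have hNle : (N : ℝ) ≤ Real.log X / D :=
    Nat.floor_le (div_nonneg (Real.log_nonneg hX2) hD0.le)
  have hNge : Real.log X / D < N + 1 := Nat.lt_floor_add_one _
  have hNlow : Real.log X / (2 * D) ≤ N := by
    have h1 : 2 ≤ Real.log X / D := by
      rw [le_div_iff₀ hD0]
      linarith
    have h2 : Real.log X / (2 * D) = Real.log X / D / 2 := by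
      rw [div_div, mul_comm]
    rw [h2]
    linarith
  have hXN : H * 2 ^ (m * N) ≤ X := by
    have h1 : (2 : ℝ) ^ (m * N) ≤ X ^ ((1 : ℝ) / 2) := by
      rw [← Real.rpow_natCast, Real.rpow_def_of_pos two_pos, Real.rpow_def_of_pos hX0]
      refine Real.exp_le_exp.2 ?_
      have h2 : (N : ℝ) * D ≤ Real.log X := by
        rwa [le_div_iff₀ hD0] at hNle
      push_cast
      rw [hD] at h2
      nlinarith
    have h2 : H ≤ X ^ ((1 : ℝ) / 2) := by
      rw [← Real.sqrt_eq_rpow]
      exact Real.le_sqrt_of_sq_le hX1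
    calc H * 2 ^ (m * N) ≤ X ^ ((1 : ℝ) / 2) * X ^ ((1 : ℝ) / 2) :=
          mul_le_mul h2 h1 (by positivity) (by positivity)
      _ = X := by
          rw [← Real.rpow_add hX0]
          norm_num
  have h1 : (N : ℝ) ^ e ≤ A X := by
    exact_mod_cast (h N).trans (hA hXN)
  have h2 : Real.log X ^ e ≤ (2 * D) ^ e * (N : ℝ) ^ e := by
    rw [← mul_pow]
    refine pow_le_pow_left₀ (Real.log_nonneg hX2) ?_ _
    rw [div_le_iff₀ (by positivity)] at hNlow
    linarith
  rw [one_div, inv_mul_le_iff₀ (by positivity)]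
  exact h2.trans (mul_le_mul_of_nonneg_left h1 (by positivity))

/-- **The count.** -/
theorem count_core (hd : 2 ≤ d) {V ν : ℝ} (hV : 0 < V) (hν : 0 < ν)
    {Y : Set (Matrix (Fin d) (Fin d) ℝ)} (hYc : IsClosed Y) (hYinv : H715R2.Inv Y)
    (hYdet : ∀ h ∈ Y, |h.det| = V) (hYnu : ∀ h ∈ Y, HasNu h ν) {S : Set ℝ} (hSo : IsOpen S)
    (hS : ∀ h ∈ Y, ∃ m : Fin d → ℤ, m ≠ 0 ∧ FF h (iR m) ∈ S)
    {h : Matrix (Fin d) (Fin d) ℝ} (hh : h ∈ Y) {ρ : Fin d → Fin d} (hρ : ∀ l, ρ (ρ l) = ρ l)
    (hcoin : ∀ x y : Fin d → ℤ, x ≠ 0 → y ≠ 0 → FF h (iR x) = FF h (iR y) → ∀ i j, ρ i = ρ j →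
      (h *ᵥ iR y) i * (h *ᵥ iR x) j = (h *ᵥ iR x) i * (h *ᵥ iR y) j) :
    ∃ (m : ℕ) (H : ℝ), 0 < m ∧ 0 < H ∧ ∀ N : ℕ, N ^ (Finset.univ.filter fun i => ρ i ≠ i).card ≤
      (vals h S (H * 2 ^ (m * N))).ncard := by
  classical
  have hd0 : 0 < d := by omega
  obtain ⟨r, ε, hr, hε, hvec⟩ := exists_vec_ball hd0 hV hν hYc hYinv hYdet hYnu hSo hS
  have hdet0 : h.det ≠ 0 := by
    intro h0
    have h1 := hYdet h hh
    rw [h0, abs_zero] at h1
    exact hV.ne h1
  set κ : ℝ := ν / r ^ (d - 1) with hκ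
  have hκ0 : 0 < κ := by positivity
  obtain ⟨q, hq⟩ := pow_unbounded_of_one_lt ((r / κ) ^ 2) (by norm_num : (1 : ℝ) < 2)
  set bb : (Fin d → ℕ) → Fin d → ℝ := fun n j =>
    if ρ j = j then ∏ l ∈ Finset.univ.filter (fun l => ρ l = j ∧ l ≠ j), (1 / 2 : ℝ) ^ (q * n l)
    else 2 ^ (q * n j) with hbb
  have hbb0 : ∀ n j, 0 < bb n j := by
    intro n j
    simp only [hbb]
    split_ifs
    · exact Finset.prod_pos fun i _ => by positivity
    · positivity
  have hclass : ∀ n t, ρ t = t → ∏ j ∈ Finset.univ.filter (fun j => ρ j = t), bb n j = 1 := by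
    intro n t ht
    have h1 : t ∈ Finset.univ.filter (fun j => ρ j = t) := by simpa using ht
    rw [← Finset.mul_prod_erase _ _ h1]
    have h2 : bb n t = ∏ l ∈ Finset.univ.filter (fun l => ρ l = t ∧ l ≠ t),
        (1 / 2 : ℝ) ^ (q * n l) := by
      simp only [hbb]
      rw [if_pos ht]
    have h3 : (Finset.univ.filter (fun j => ρ j = t)).erase t =
        Finset.univ.filter (fun l => ρ l = t ∧ l ≠ t) := by
      ext l
      simp only [Finset.mem_erase, Finset.mem_filter, Finset.mem_univ, true_and]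
      tauto
    rw [h2, h3, ← Finset.prod_mul_distrib]
    refine Finset.prod_eq_one fun l hl => ?_
    rw [Finset.mem_filter] at hl
    have h4 : ρ l ≠ l := fun h0 => hl.2.2 (h0.symm.trans hl.2.1)
    simp only [hbb]
    rw [if_neg h4, ← mul_pow]
    norm_num
  have hbb1 : ∀ n, ∏ j, bb n j = 1 := by
    intro n
    rw [← Finset.prod_fiberwise (s := (Finset.univ : Finset (Fin d))) (g := ρ)]
    refine Finset.prod_eq_one fun t _ => ?_
    by_cases ht : ρ t = t
    · exact hclass n t ht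
    · refine Finset.prod_eq_one fun l hl => ?_
      rw [Finset.mem_filter] at hl
      exact absurd (by rw [← hl.2, hρ]) ht
  choose x hx0 hx1 hx2 hx3 using fun n => hvec h hh (bb n) (hbb0 n) (hbb1 n)
  have hxS : ∀ n, FF h (iR (x n)) ∈ S := fun n => hx3 n _ (by rw [sub_self, abs_zero]; exact hε)
  -- injectivity
  have hupos : ∀ n i, 0 < |(h *ᵥ iR (x n)) i| := by
    intro n i
    refine abs_pos.2 fun h0 => ?_
    have h1 := hx2 n i
    rw [h0, abs_zero, mul_zero] at h1
    exact absurd h1 (not_le.2 hκ0)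
  have hle : ∀ n n', FF h (iR (x n)) = FF h (iR (x n')) → ∀ i, ρ i ≠ i → n i ≤ n' i := by
    intro n n' hnn i hi
    by_contra hcon
    push Not at hcon
    have hrat : ∀ l, ρ l = ρ i → |(h *ᵥ iR (x n')) i| * |(h *ᵥ iR (x n)) l| =
        |(h *ᵥ iR (x n)) i| * |(h *ᵥ iR (x n')) l| := by
      intro l hl
      rw [← abs_mul, ← abs_mul, hcoin _ _ (hx0 n) (hx0 n') hnn i l hl.symm]
    -- all quotients are larger than one
    have hbig : ∀ l, ρ l = ρ i → bb n' l < bb n l := by
      intro l hl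
      have h1 := hrat l hl
      set ui := |(h *ᵥ iR (x n)) i| with hui
      set vi := |(h *ᵥ iR (x n')) i| with hvi
      set ul := |(h *ᵥ iR (x n)) l| with hul
      set vl := |(h *ᵥ iR (x n')) l| with hvl
      have hui0 := hupos n i
      have hvi0 := hupos n' i
      have hul0 := hupos n l
      have hvl0 := hupos n' l
      rw [← hui] at hui0
      rw [← hvi] at hvi0
      rw [← hul] at hul0
      rw [← hvl] at hvl0
      have hbi : bb n i = bb n' i * 2 ^ (q * (n i - n' i)) := by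
        simp only [hbb]
        rw [if_neg hi, if_neg hi, ← pow_add, ← Nat.mul_add, Nat.add_sub_cancel' hcon.le]
      have h2q : (2 : ℝ) ^ q ≤ 2 ^ (q * (n i - n' i)) := by
        refine pow_le_pow_right₀ (by norm_num) ?_
        exact Nat.le_mul_of_pos_right _ (by omega)
      have h3 : (r / κ) ^ 2 < 2 ^ (q * (n i - n' i)) := hq.trans_le h2q
      -- the four bounds
      have a1 : bb n i * ui < r := hx1 n i
      have a2 : κ ≤ bb n' i * vi := hx2 n' i
      have a3 : κ ≤ bb n l * ul := hx2 n l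
      have a4 : bb n' l * vl < r := hx1 n' l
      have hni := hbb0 n i
      have hn'i := hbb0 n' i
      have hnl := hbb0 n l
      have hn'l := hbb0 n' l
      by_contra hcon2
      push Not at hcon2
      -- `bb n l ≤ bb n' l`
      have b1 : κ * κ ≤ (bb n' i * vi) * (bb n l * ul) := mul_le_mul a2 a3 hκ0.le (by positivity)
      have b2 : (bb n i * ui) * (bb n' l * vl) < r * r :=
        mul_lt_mul'' a1 a4 (by positivity) (by positivity)
      have b3 : (bb n i * ui) * (bb n l * vl) ≤ (bb n i * ui) * (bb n' l * vl) := by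
        refine mul_le_mul_of_nonneg_left ?_ (by positivity)
        exact mul_le_mul_of_nonneg_right hcon2 hvl0.le
      have b4 : (bb n i * ui) * (bb n l * vl) =
          2 ^ (q * (n i - n' i)) * ((bb n' i * vi) * (bb n l * ul)) := by
        rw [hbi]
        calc bb n' i * 2 ^ (q * (n i - n' i)) * ui * (bb n l * vl) =
              2 ^ (q * (n i - n' i)) * bb n' i * bb n l * (ui * vl) := by ring
          _ = 2 ^ (q * (n i - n' i)) * bb n' i * bb n l * (vi * ul) := by rw [h1]
          _ = _ := by ring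
      have b5 : r * r < 2 ^ (q * (n i - n' i)) * (κ * κ) := by
        rw [div_pow, div_lt_iff₀ (by positivity)] at h3
        nlinarith
      have b6 : 2 ^ (q * (n i - n' i)) * (κ * κ) ≤
          2 ^ (q * (n i - n' i)) * ((bb n' i * vi) * (bb n l * ul)) :=
        mul_le_mul_of_nonneg_left b1 (by positivity)
      linarith
    have h1 : ρ (ρ i) = ρ i := hρ i
    have h2 := hclass n (ρ i) h1
    have h3 := hclass n' (ρ i) h1
    have h4 : ∏ j ∈ Finset.univ.filter (fun j => ρ j = ρ i), bb n' j <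
        ∏ j ∈ Finset.univ.filter (fun j => ρ j = ρ i), bb n j := by
      refine Finset.prod_lt_prod_of_nonempty (fun j _ => hbb0 n' j) (fun j hj => ?_) ⟨i, by simp⟩
      rw [Finset.mem_filter] at hj
      exact hbig j hj.2
    rw [h2, h3] at h4
    exact lt_irrefl _ h4
  -- the norms
  set H₁ : ℝ := (∑ i, ∑ j, |h⁻¹ i j|) + 1 with hH₁
  have hH₁0 : 0 < H₁ := by
    have : 0 ≤ ∑ i, ∑ j, |h⁻¹ i j| :=
      Finset.sum_nonneg fun i _ => Finset.sum_nonneg fun j _ => abs_nonneg _
    linarith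
  have hnorm : ∀ N : ℕ, ∀ n : Fin d → ℕ, (∀ j, n j ≤ N) → ∀ i,
      |(x n i : ℝ)| ≤ H₁ * r * 2 ^ (((q + 1) * d) * N) := by
    intro N n hn i
    have hbbge : ∀ j, (1 / 2 : ℝ) ^ (((q + 1) * d) * N) ≤ bb n j := by
      intro j
      simp only [hbb]
      split_ifs with hj
      · calc (1 / 2 : ℝ) ^ (((q + 1) * d) * N) ≤ (1 / 2 : ℝ) ^ (q * N * d) := by
              refine pow_le_pow_of_le_one (by norm_num) (by norm_num) ?_
              nlinarith [Nat.zero_le (d * N)]
          _ ≤ ∏ l ∈ Finset.univ.filter (fun l => ρ l = j ∧ l ≠ j), (1 / 2 : ℝ) ^ (q * N) := by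
              rw [Finset.prod_const, ← pow_mul]
              refine pow_le_pow_of_le_one (by norm_num) (by norm_num) (Nat.mul_le_mul_left _ ?_)
              exact (Finset.card_le_univ _).trans (by rw [Fintype.card_fin])
          _ ≤ _ := by
              refine Finset.prod_le_prod (fun l _ => by positivity) fun l _ => ?_
              exact pow_le_pow_of_le_one (by norm_num) (by norm_num)
                (Nat.mul_le_mul_left _ (hn l))
      · calc (1 / 2 : ℝ) ^ (((q + 1) * d) * N) ≤ 1 := pow_le_one₀ (by norm_num) (by norm_num)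
          _ ≤ 2 ^ (q * n j) := one_le_pow₀ (by norm_num)
    have hzle : ∀ j, |(h *ᵥ iR (x n)) j| ≤ r * 2 ^ (((q + 1) * d) * N) := by
      intro j
      have h1 := hx1 n j
      have h4 : (1 / 2 : ℝ) ^ (((q + 1) * d) * N) * |(h *ᵥ iR (x n)) j| ≤ r :=
        (mul_le_mul_of_nonneg_right (hbbge j) (abs_nonneg _)).trans h1.le
      have h5 : (2 : ℝ) ^ (((q + 1) * d) * N) * (1 / 2) ^ (((q + 1) * d) * N) = 1 := by
        rw [← mul_pow]; norm_num
      calc |(h *ᵥ iR (x n)) j| = (2 : ℝ) ^ (((q + 1) * d) * N) *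
            ((1 / 2) ^ (((q + 1) * d) * N) * |(h *ᵥ iR (x n)) j|) := by
            rw [← mul_assoc, h5, one_mul]
        _ ≤ 2 ^ (((q + 1) * d) * N) * r := mul_le_mul_of_nonneg_left h4 (by positivity)
        _ = _ := mul_comm _ _
    have h1 : iR (x n) = h⁻¹ *ᵥ (h *ᵥ iR (x n)) := by
      rw [mulVec_mulVec, Matrix.nonsing_inv_mul _ (isUnit_iff_ne_zero.2 hdet0), one_mulVec]
    have h2 : (x n i : ℝ) = ∑ j, h⁻¹ i j * (h *ᵥ iR (x n)) j := congrFun h1 i
    rw [h2]
    calc |∑ j, h⁻¹ i j * (h *ᵥ iR (x n)) j| ≤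
          ∑ j, |h⁻¹ i j| * (r * 2 ^ (((q + 1) * d) * N)) := by
          refine (Finset.abs_sum_le_sum_abs _ _).trans (Finset.sum_le_sum fun j _ => ?_)
          rw [abs_mul]
          exact mul_le_mul_of_nonneg_left (hzle j) (abs_nonneg _)
      _ = (∑ j, |h⁻¹ i j|) * (r * 2 ^ (((q + 1) * d) * N)) := by rw [Finset.sum_mul]
      _ ≤ H₁ * (r * 2 ^ (((q + 1) * d) * N)) := by
          refine mul_le_mul_of_nonneg_right ?_ (by positivity)
          have h3 : ∑ j, |h⁻¹ i j| ≤ ∑ i, ∑ j, |h⁻¹ i j| :=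
            Finset.single_le_sum (f := fun i => ∑ j, |h⁻¹ i j|)
              (fun i _ => Finset.sum_nonneg fun j _ => abs_nonneg _) (Finset.mem_univ i)
          linarith
      _ = _ := by ring
  refine ⟨(q + 1) * d, H₁ * r, by positivity, by positivity, fun N => ?_⟩
  set I : Finset (Fin d → ℕ) := Fintype.piFinset fun i =>
    if ρ i ≠ i then Finset.range N else {0} with hI
  have hIcard : I.card = N ^ (Finset.univ.filter fun i => ρ i ≠ i).card := by
    rw [hI, Fintype.card_piFinset]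
    have h1 : ∀ i : Fin d, (if ρ i ≠ i then Finset.range N else {0}).card =
        if ρ i ≠ i then N else 1 := by
      intro i
      split_ifs <;> simp
    simp only [h1]
    rw [Finset.prod_ite, Finset.prod_const, Finset.prod_const_one, mul_one]
  rw [← hIcard, ← Set.ncard_coe_finset]
  refine Set.ncard_le_ncard_of_injOn (fun n => FF h (iR (x n))) ?_ ?_ (vals_finite h S _)
  · intro n hn
    rw [Finset.mem_coe, hI, Fintype.mem_piFinset] at hn
    refine ⟨x n, hx0 n, hnorm N n fun j => ?_, rfl, hxS n⟩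
    have h1 := hn j
    split_ifs at h1
    · exact (Finset.mem_range.1 h1).le
    · rw [Finset.mem_singleton.1 h1]; exact Nat.zero_le _
  · intro n hn n' hn' hnn
    rw [Finset.mem_coe, hI, Fintype.mem_piFinset] at hn hn'
    funext i
    by_cases hi : ρ i ≠ i
    · exact le_antisymm (hle n n' hnn i hi) (hle n' n hnn.symm i hi)
    · have h1 := hn i
      have h2 := hn' i
      rw [if_neg hi, Finset.mem_singleton] at h1 h2
      rw [h1, h2]

end Pool.Agent.Y327
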