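import Mathlib
import Pool.Agent.Y327.Coin
import Pool.Agent.Y327.Count

/-! # The values of generic forms -/

open Filter Topology Matrix

set_option linter.unusedSectionVars false

namespace Pool.Agent.Y327

open H715R2 RatSpan

variable {d : ℕ}

lemma kap_det (f : Module.End ℚ (Fin d → ℚ)) :
    (kap f).det = (((LinearMap.toMatrix' f).det : ℚ) : ℝ) := by
  have h1 : kap f = (LinearMap.toMatrix' f).map (Rat.castHom ℝ) := by
    ext a b
    rw [kap_apply, Matrix.map_apply, LinearMap.toMatrix'_apply]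
    rfl
  rw [h1]
  exact (RingHom.map_det (Rat.castHom ℝ) _).symm

/-- the value after a symmetry -/
lemma FF_sym {h : Matrix (Fin d) (Fin d) ℝ} (hu : IsUnit h.det) {f : Module.End ℚ (Fin d → ℚ)}
    (hf : Dg h f) {x y : Fin d → ℤ} (hxy : f (iQ x) = iQ y) :
    FF h (iR y) = (((LinearMap.toMatrix' f).det : ℚ) : ℝ) * FF h (iR x) := by
  have h1 : iR y = kap f *ᵥ iR x := by rw [← cR_iQ, ← cR_iQ, kap_mulVec, hxy]
  have h2 : (kap f).det = ∏ i, (h * kap f * h⁻¹) i i := by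
    have h3 := congrArg Matrix.det (diag_of_Dg hf)
    rw [det_mul, det_mul, det_diagonal, Matrix.det_nonsing_inv] at h3
    rw [← h3, Ring.inverse_eq_inv', mul_comm h.det, mul_assoc,
      mul_inv_cancel₀ (isUnit_iff_ne_zero.1 hu), mul_one]
  rw [← kap_det, h2, FF_eq, FF_eq, h1, Matrix.mulVec_mulVec]
  conv_lhs => rw [(dg_iff hu).1 hf]
  rw [← Matrix.mulVec_mulVec, ← Finset.prod_mul_distrib]
  exact Finset.prod_congr rfl fun i _ => by rw [Matrix.mulVec_diagonal]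

/-- the classes of a minimal set -/
lemma class_data (hd : 3 ≤ d) {g : Matrix (Fin d) (Fin d) ℝ} (hg : g.det ≠ 0) {ν : ℝ}
    (hν : 0 < ν) (hnu : HasNu g ν) (hint : ¬ PropInt g) {M : Set (Matrix (Fin d) (Fin d) ℝ)}
    (hMg : M ⊆ closure (Orb g)) (hM : MinB id M) :
    ∃ s : ℕ, 1 < s ∧ s ∣ d ∧ ∀ h ∈ M, ∀ i, Nat.card {j // Sam h i j} = s := by
  classical
  have hd0 : 0 < d := by omega
  have hV : 0 < |g.det| := abs_pos.2 hg
  have hMdet : ∀ h ∈ M, |h.det| = |g.det| := fun h hh => abs_det_closure (hMg hh)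
  have hu : ∀ h ∈ M, IsUnit h.det := fun h hh => by
    rw [isUnit_iff_ne_zero, ← abs_ne_zero, hMdet h hh, abs_ne_zero]
    exact hg
  obtain ⟨h₀, hh₀⟩ := hM.ne
  obtain ⟨s, hs1, hs2⟩ := class_sizes hd hg hν hnu hMg hM hh₀ (hu h₀ hh₀)
  refine ⟨s, ?_, ⟨_, hs1.symm⟩, fun h hh i => ?_⟩
  · set i₀ : Fin d := ⟨0, hd0⟩ with hi₀
    obtain ⟨j, hji, hj⟩ := class_nontrivial hd hg hν hnu hint hMg hM hh₀ i₀
    rw [← hs2 i₀, Nat.card_eq_fintype_card, Fintype.one_lt_card_iff]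
    exact ⟨⟨i₀, Sam.refl _ _⟩, ⟨j, hj⟩, fun h => hji (congrArg Subtype.val h).symm⟩
  · rw [← hs2 i]
    exact Nat.card_congr (Equiv.subtypeEquivRight fun j =>
      ⟨fun h1 => sam_transfer hV hMdet hM hh₀ hh h1, fun h1 => sam_transfer hV hMdet hM hh hh₀ h1⟩)

/-- the number of indices which are not representatives -/
lemma card_nonrep {s : ℕ} (hs0 : 0 < s) {h : Matrix (Fin d) (Fin d) ℝ}
    (hs : ∀ i, Nat.card {j // Sam h i j} = s) {ρ : Fin d → Fin d} (hρ1 : ∀ l, Sam h l (ρ l))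
    (hρ2 : ∀ l m, Sam h l m → ρ l = ρ m) [∀ i, Decidable (ρ i ≠ i)] :
    (Finset.univ.filter fun i => ρ i ≠ i).card = d - d / s := by
  classical
  have hρρ : ∀ l, ρ (ρ l) = ρ l := fun l => (hρ2 _ _ (hρ1 l)).symm
  set T : Finset (Fin d) := Finset.univ.filter (fun t => ρ t = t) with hT
  have hfib : ∀ t ∈ T, (Finset.univ.filter (fun j => ρ j = t)).card = s := by
    intro t ht
    have ht' : ρ t = t := by simpa [hT] using ht
    rw [← hs t, Nat.card_eq_fintype_card, Fintype.card_subtype]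
    congr 1
    ext j
    simp only [Finset.mem_filter, Finset.mem_univ, true_and]
    constructor
    · intro h1
      rw [← h1]
      exact (hρ1 j).symm
    · intro h1
      rw [← hρ2 _ _ h1, ht']
  have h1 := Finset.card_eq_sum_card_fiberwise (s := (Finset.univ : Finset (Fin d))) (t := T)
    (f := ρ) (fun l _ => by simp [hT, hρρ])
  rw [Finset.card_univ, Fintype.card_fin, Finset.sum_congr rfl hfib, Finset.sum_const,
    smul_eq_mul] at h1
  have h2 : T.card + (Finset.univ.filter fun i => ρ i ≠ i).card = d := by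
    have h3 := Finset.card_filter_add_card_filter_not (s := (Finset.univ : Finset (Fin d)))
      (fun i => ρ i = i)
    rw [Finset.card_univ, Fintype.card_fin] at h3
    convert h3
  have h3 : d / s = T.card := Nat.div_eq_of_eq_mul_left hs0 h1
  omega

/-- the values of a generic point -/
theorem values_of_generic (hd : 3 ≤ d) {g : Matrix (Fin d) (Fin d) ℝ} (hg : g.det ≠ 0) {ν : ℝ}
    (hν : 0 < ν) (hnu : HasNu g ν) {M : Set (Matrix (Fin d) (Fin d) ℝ)}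
    (hMg : M ⊆ closure (Orb g)) (hM : MinB id M) (hMinv : H715R2.Inv M) {s : ℕ} (hs1 : 1 < s)
    (hsd : s ∣ d) (hs2 : ∀ h ∈ M, ∀ i, Nat.card {j // Sam h i j} = s)
    {h₁ : Matrix (Fin d) (Fin d) ℝ} (hh₁ : h₁ ∈ M)
    {h : Matrix (Fin d) (Fin d) ℝ} (hh : h ∈ M)
    (hgen : ∀ P : MvPolynomial (Fin d × Fin d) ℝ, P ∈ coinP d → ev P h = 0 →
      ∀ K : Matrix (Fin d) (Fin d) ℝ, (∀ i j, ¬ Sam h₁ i j → K i j = 0) → K.det = 1 →
        ev P (K * h) = 0) :
    (∀ x y : Fin d → ℤ, x ≠ 0 → y ≠ 0 → FF h (iR x) = FF h (iR y) →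
      ∃ f : Module.End ℚ (Fin d → ℚ), Dg h f ∧ (LinearMap.toMatrix' f).det = 1 ∧
        f (iQ x) = iQ y) ∧
    (d.Prime → ∀ x y : Fin d → ℤ, x ≠ 0 → y ≠ 0 → FF h (iR x) = FF h (iR y) → x = y) ∧
    ∀ S : Set ℝ, IsOpen S → (∀ h' ∈ M, ∃ m : Fin d → ℤ, m ≠ 0 ∧ FF h' (iR m) ∈ S) →
      ∃ c X₀ : ℝ, 0 < c ∧ ∀ X, X₀ ≤ X →
        c * Real.log X ^ (d - d / s) ≤ ((vals h S X).ncard : ℝ) := by
  classical
  have hd0 : 0 < d := by omega
  have hV : 0 < |g.det| := abs_pos.2 hg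
  have hMdet : ∀ h ∈ M, |h.det| = |g.det| := fun h hh => abs_det_closure (hMg hh)
  have hMnu : ∀ h ∈ M, HasNu h ν := fun h hh => hasNu_closure hnu (hMg hh)
  have hu : ∀ h ∈ M, IsUnit h.det := fun h hh => by
    rw [isUnit_iff_ne_zero, ← abs_ne_zero, hMdet h hh, abs_ne_zero]
    exact hg
  have hgen' : ∀ P ∈ coinP d, ev P h = 0 → ∀ K : Matrix (Fin d) (Fin d) ℝ,
      (∀ i j, ¬ Sam h i j → K i j = 0) → K.det = 1 → ev P (K * h) = 0 := by
    intro P hP hPh K hK hKd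
    refine hgen P hP hPh K (fun i j hij => hK i j fun h1 => hij ?_) hKd
    exact sam_transfer hV hMdet hM hh₁ hh h1
  have hcoin : ∀ x y : Fin d → ℤ, x ≠ 0 → y ≠ 0 → FF h (iR x) = FF h (iR y) → ∀ i j,
      Sam h i j → (h *ᵥ iR y) i * (h *ᵥ iR x) j = (h *ᵥ iR x) i * (h *ᵥ iR y) j :=
    fun x y hx hy hxy i j hs => coin_ratio (Sam.refl h) hν (hMnu h hh) hgen' hx hy hxy hs
  refine ⟨fun x y hx hy hxy => ?_, fun hp x y hx hy hxy => ?_, fun S hSo hS => ?_⟩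
  · -- the symmetry
    have hx0 := fun i => coord_ne hν (hMnu h hh) hx i
    have hy0 := fun i => coord_ne hν (hMnu h hh) hy i
    obtain ⟨f, hf, hfxy⟩ := coin_sym hd hg hν hnu hMg hM hh (hu h hh)
      (D := fun i => (h *ᵥ iR y) i / (h *ᵥ iR x) i) (fun i j hij => by
        rw [div_eq_div_iff (hx0 i) (hx0 j), hcoin x y hx hy hxy i j hij, mul_comm])
      (x := x) (y := y) (fun i => (div_mul_cancel₀ _ (hx0 i)).symm)
    refine ⟨f, hf, ?_, hfxy⟩
    have h1 := FF_sym (hu h hh) hf hfxy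
    rw [hxy] at h1
    have h2 : FF h (iR y) ≠ 0 := by
      rw [FF_eq]
      exact Finset.prod_ne_zero_iff.2 fun i _ => hy0 i
    have h3 : (((LinearMap.toMatrix' f).det : ℚ) : ℝ) = 1 := by
      have h4 : 1 * FF h (iR y) = (((LinearMap.toMatrix' f).det : ℚ) : ℝ) * FF h (iR y) := by
        rw [one_mul]; exact h1
      exact (mul_right_cancel₀ h2 h4).symm
    exact_mod_cast h3
  · -- prime dimension
    have hsd' : s = d := ((Nat.dvd_prime hp).1 hsd).resolve_left (by omega)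
    have hall : ∀ i j, Sam h i j := by
      intro i j
      have h1 := hs2 h hh i
      rw [hsd', Nat.card_eq_fintype_card, Fintype.card_subtype] at h1
      have h2 : Finset.univ.filter (fun j => Sam h i j) = Finset.univ := by
        apply Finset.eq_univ_of_card
        rw [Fintype.card_fin]
        exact h1
      have h3 : j ∈ Finset.univ.filter (fun j => Sam h i j) := by
        rw [h2]
        exact Finset.mem_univ j
      exact (Finset.mem_filter.1 h3).2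
    set i₀ : Fin d := ⟨0, hd0⟩ with hi₀
    have hx0 := fun i => coord_ne hν (hMnu h hh) hx i
    set c : ℝ := (h *ᵥ iR y) i₀ / (h *ᵥ iR x) i₀ with hc
    have hcy : ∀ i, (h *ᵥ iR y) i = c * (h *ᵥ iR x) i := by
      intro i
      have h1 := hcoin x y hx hy hxy i i₀ (hall i i₀)
      rw [hc, div_mul_eq_mul_div, eq_div_iff (hx0 i₀), h1, mul_comm]
    have h1 : FF h (iR y) = c ^ d * FF h (iR x) := by
      rw [FF_eq, FF_eq]
      simp only [hcy, Finset.prod_mul_distrib, Finset.prod_const, Finset.card_univ,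
        Fintype.card_fin]
    have h2 : FF h (iR x) ≠ 0 := by
      rw [FF_eq]
      exact Finset.prod_ne_zero_iff.2 fun i _ => hx0 i
    have h3 : c ^ d = 1 := by
      rw [← hxy] at h1
      have h4 : 1 * FF h (iR x) = c ^ d * FF h (iR x) := by rw [one_mul]; exact h1
      exact (mul_right_cancel₀ h2 h4).symm
    have hodd : Odd d := hp.odd_of_ne_two (by omega)
    have h4 : c = 1 := by
      have h5 : StrictMono fun a : ℝ => a ^ d := hodd.strictMono_pow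
      exact h5.injective (by simpa using h3)
    have h5 : h *ᵥ iR y = h *ᵥ iR x := by
      funext i
      rw [hcy, h4, one_mul]
    have h6 : iR y = iR x := by
      have h7 := congrArg (fun v => h⁻¹ *ᵥ v) h5
      simp only [Matrix.mulVec_mulVec, Matrix.nonsing_inv_mul _ (hu h hh),
        Matrix.one_mulVec] at h7
      exact h7
    funext a
    have h7 : ((y a : ℤ) : ℝ) = ((x a : ℤ) : ℝ) := congrFun h6 a
    exact_mod_cast h7.symm
  · -- the count
    obtain ⟨ρ, hρ1, hρ2, -⟩ := exists_rep h ⟨0, hd0⟩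
    have hρρ : ∀ l, ρ (ρ l) = ρ l := fun l => (hρ2 _ _ (hρ1 l)).symm
    obtain ⟨m, H, hm, hH, hcount⟩ := count_core (by omega) hV hν hM.closed hMinv hMdet hMnu hSo hS
      hh hρρ (fun x y hx hy hxy i j hij => hcoin x y hx hy hxy i j
        ((hρ1 i).trans (by rw [hij]; exact (hρ1 j).symm)))
    rw [card_nonrep (by omega) (hs2 h hh) hρ1 hρ2] at hcount
    refine log_of_pow (A := fun X => (vals h S X).ncard) ?_ hm hcount
    intro X X' hXX
    refine Set.ncard_le_ncard ?_ (vals_finite h S X')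
    rintro t ⟨x, hx0, hx, hxt⟩
    exact ⟨x, hx0, fun i => (hx i).trans hXX, hxt⟩

/-- **The values of generic forms.** -/
theorem generic_values (hd : 3 ≤ d) {g : Matrix (Fin d) (Fin d) ℝ} (hg : g.det ≠ 0) {ν : ℝ}
    (hν : 0 < ν) (hnu : HasNu g ν) (hint : ¬ PropInt g) {M : Set (Matrix (Fin d) (Fin d) ℝ)}
    (hMg : M ⊆ closure (Orb g)) (hM : MinB id M) (hMinv : H715R2.Inv M) :
    ∃ s : ℕ, 1 < s ∧ s ∣ d ∧
      ∀ U : Set (Matrix (Fin d) (Fin d) ℝ), IsOpen U → (U ∩ M).Nonempty → ∃ h ∈ U ∩ M,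
        (∀ x y : Fin d → ℤ, x ≠ 0 → y ≠ 0 → FF h (iR x) = FF h (iR y) →
          ∃ f : Module.End ℚ (Fin d → ℚ), Dg h f ∧ (LinearMap.toMatrix' f).det = 1 ∧
            f (iQ x) = iQ y) ∧
        (d.Prime → ∀ x y : Fin d → ℤ, x ≠ 0 → y ≠ 0 → FF h (iR x) = FF h (iR y) → x = y) ∧
        ∀ S : Set ℝ, IsOpen S → (∀ h' ∈ M, ∃ m : Fin d → ℤ, m ≠ 0 ∧ FF h' (iR m) ∈ S) →
          ∃ c X₀ : ℝ, 0 < c ∧ ∀ X, X₀ ≤ X →
            c * Real.log X ^ (d - d / s) ≤ ((vals h S X).ncard : ℝ) := by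
  obtain ⟨s, hs1, hsd, hs2⟩ := class_data hd hg hν hnu hint hMg hM
  refine ⟨s, hs1, hsd, fun U hU hUM => ?_⟩
  obtain ⟨h₁, hh₁U, hh₁⟩ := hUM
  obtain ⟨h, hh, hhU, hgen⟩ := exists_generic hd hg hν hnu hMg hM hh₁
    (coinP_countable d) h₁ hh₁ U (hU.mem_nhds hh₁U)
  exact ⟨h, ⟨hhU, hh⟩, values_of_generic hd hg hν hnu hMg hM hMinv hs1 hsd hs2 hh₁ hh hgen⟩

/-- **All properties at once.** -/
theorem generic_both (hd : 3 ≤ d) {g : Matrix (Fin d) (Fin d) ℝ} (hg : g.det ≠ 0) {ν : ℝ}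
    (hν : 0 < ν) (hnu : HasNu g ν) (hint : ¬ PropInt g) {M : Set (Matrix (Fin d) (Fin d) ℝ)}
    (hMg : M ⊆ closure (Orb g)) (hM : MinB id M) (hMinv : H715R2.Inv M) :
    ∃ s : ℕ, 1 < s ∧ s ∣ d ∧ ∀ (k : Subfield ℝ), Countable k →
      ∀ U : Set (Matrix (Fin d) (Fin d) ℝ), IsOpen U → (U ∩ M).Nonempty → ∃ h ∈ U ∩ M,
        ((∀ P : MvPolynomial (Fin d × Fin d) k,
          MvPolynomial.aeval (fun e : Fin d × Fin d => h e.1 e.2) P = 0 →
          ∀ K : Matrix (Fin d) (Fin d) ℝ, (∀ i j, ¬ Sam h i j → K i j = 0) → K.det = 1 →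
          MvPolynomial.aeval (fun e : Fin d × Fin d => (K * h) e.1 e.2) P = 0) ∧
        ∃ T : Fin d → Finset (Fin d), (∀ i, (T i).card = s) ∧
          (∀ e₀ : Fin d × Fin d, e₀.2 ∈ T e₀.1 → AlgebraicIndependent k
            (fun e : {e : Fin d × Fin d | e.2 ∈ T e.1 ∧ e ≠ e₀} => h e.1.1 e.1.2)) ∧
          ∃ c : ℝ, 0 < c ∧ AlgebraicIndependent k
            (fun e : {e : Fin d × Fin d | e.2 ∈ T e.1} => (c • h) e.1.1 e.1.2)) ∧
        (∀ x y : Fin d → ℤ, x ≠ 0 → y ≠ 0 → FF h (iR x) = FF h (iR y) →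
          ∃ f : Module.End ℚ (Fin d → ℚ), Dg h f ∧ (LinearMap.toMatrix' f).det = 1 ∧
            f (iQ x) = iQ y) ∧
        (d.Prime → ∀ x y : Fin d → ℤ, x ≠ 0 → y ≠ 0 → FF h (iR x) = FF h (iR y) → x = y) ∧
        ∀ S : Set ℝ, IsOpen S → (∀ h' ∈ M, ∃ m : Fin d → ℤ, m ≠ 0 ∧ FF h' (iR m) ∈ S) →
          ∃ c X₀ : ℝ, 0 < c ∧ ∀ X, X₀ ≤ X →
            c * Real.log X ^ (d - d / s) ≤ ((vals h S X).ncard : ℝ) := by
  obtain ⟨s, hs1, hsd, hs2⟩ := class_data hd hg hν hnu hint hMg hM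
  refine ⟨s, hs1, hsd, fun k hk U hU hUM => ?_⟩
  obtain ⟨h₁, hh₁U, hh₁⟩ := hUM
  have := countable_mvpoly (Fin d × Fin d) k
  obtain ⟨h, hh, hhU, hgen⟩ := exists_generic hd hg hν hnu hMg hM hh₁
    ((coinP_countable d).union (Set.countable_range
      (MvPolynomial.map (σ := Fin d × Fin d) (algebraMap k ℝ)))) h₁ hh₁ U (hU.mem_nhds hh₁U)
  exact ⟨h, ⟨hhU, hh⟩, frame_of_generic hd hg hMg hM hh₁ (hs2 h₁ hh₁) hh
    (fun P hP => hgen P (Or.inr hP)), values_of_generic hd hg hν hnu hMg hM hMinv hs1 hsd hs2 hh₁ hh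
    (fun P hP => hgen P (Or.inl hP))⟩

end Pool.Agent.Y327
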